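import Pool.Agent.MP_9ab903_nt.NT.W1

set_option autoImplicit false

open PeriodPair

namespace ELT

/-! ## [ELT-A1] elementary facts on a lattice in `ℂ` (file A1.lean)

Write `l = m ω₁ + n ω₂` (`PeriodPair.mem_lattice`). There is `c > 0` with `‖s ω₁ + t ω₂‖ ≥ c max(|s|,|t|)` for real `s, t` (continuity of the coordinates
`L.basis.repr`, or explicitly: `Im((s ω₁ + t ω₂) conj ω₂) = s Im(ω₁ conj ω₂)`, `Im(ω₁ conj ω₂) ≠ 0` since `ω₁, ω₂` are independent over `ℝ`).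
`lat_min`: `max(|m|,|n|) ≥ 1`. `lat_count`: the lattice points in the ball of radius `R` inject into `{|m|,|n| ≤ R/c}`, at most
`(2R/c+1)² ≤ C (1+R)²` pairs. `lat_reduce`: subtract `⌊s⌋ ω₁ + ⌊t⌋ ω₂`. -/

/-- The real coordinates are bounded by the absolute value. -/
theorem a1_coord (L : PeriodPair) : ∃ K : ℝ, 1 ≤ K ∧ ∀ s t : ℝ,
    |s| ≤ K * ‖(s : ℂ) * L.ω₁ + (t : ℂ) * L.ω₂‖ ∧ |t| ≤ K * ‖(s : ℂ) * L.ω₁ + (t : ℂ) * L.ω₂‖ := by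
  set e := L.basis.equivFunL with he
  refine ⟨max 1 ‖(e : ℂ →L[ℝ] (Fin 2 → ℝ))‖, le_max_left _ _, fun s t => ?_⟩
  have h1 : (s : ℂ) * L.ω₁ + (t : ℂ) * L.ω₂ = L.basis.equivFun.symm ![s, t] := by
    rw [Module.Basis.equivFun_symm_apply, Fin.sum_univ_two]
    simp
  have h2 : ∀ i, |(![s, t] : Fin 2 → ℝ) i| ≤
      ‖(e : ℂ →L[ℝ] (Fin 2 → ℝ))‖ * ‖(s : ℂ) * L.ω₁ + (t : ℂ) * L.ω₂‖ := by
    intro i
    have h3 := (e : ℂ →L[ℝ] (Fin 2 → ℝ)).le_opNorm ((s : ℂ) * L.ω₁ + (t : ℂ) * L.ω₂)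
    have h4 : (e : ℂ →L[ℝ] (Fin 2 → ℝ)) ((s : ℂ) * L.ω₁ + (t : ℂ) * L.ω₂) = ![s, t] := by
      rw [h1]
      exact L.basis.equivFun.apply_symm_apply ![s, t]
    rw [h4] at h3
    exact (norm_le_pi_norm (![s, t] : Fin 2 → ℝ) i).trans h3
  have h5 : ‖(e : ℂ →L[ℝ] (Fin 2 → ℝ))‖ * ‖(s : ℂ) * L.ω₁ + (t : ℂ) * L.ω₂‖ ≤
      max 1 ‖(e : ℂ →L[ℝ] (Fin 2 → ℝ))‖ * ‖(s : ℂ) * L.ω₁ + (t : ℂ) * L.ω₂‖ :=
    mul_le_mul_of_nonneg_right (le_max_right _ _) (norm_nonneg _)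
  exact ⟨(h2 0).trans h5, (h2 1).trans h5⟩

theorem a1_mem (L : PeriodPair) {l : ℂ} (hl : l ∈ L.lattice) :
    ∃ m n : ℤ, l = (m : ℂ) * L.ω₁ + (n : ℂ) * L.ω₂ := by
  obtain ⟨m, n, h⟩ := PeriodPair.mem_lattice.1 hl
  exact ⟨m, n, by rw [← h]⟩

theorem lat_min (L : PeriodPair) : ∃ r : ℝ, 0 < r ∧ ∀ l ∈ L.lattice, l ≠ 0 → r ≤ ‖l‖ := by
  obtain ⟨K, hK, hb⟩ := a1_coord L
  have hK0 : 0 < K := by linarith
  refine ⟨1 / K, by positivity, fun l hl hl0 => ?_⟩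
  obtain ⟨m, n, h⟩ := a1_mem L hl
  have hb' := hb m n
  push_cast at hb'
  rw [← h] at hb'
  rw [div_le_iff₀ hK0]
  by_cases hm : m = 0
  · by_cases hn : n = 0
    · exact absurd (by rw [h, hm, hn]; simp) hl0
    · have h1 : (1 : ℝ) ≤ |(n : ℝ)| := by exact_mod_cast Int.one_le_abs hn
      linarith [hb'.2]
  · have h1 : (1 : ℝ) ≤ |(m : ℝ)| := by exact_mod_cast Int.one_le_abs hm
    linarith [hb'.1]

theorem lat_count (L : PeriodPair) : ∃ C : ℝ, 1 ≤ C ∧ ∀ R : ℝ, 0 ≤ R →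
    {l : ℂ | l ∈ L.lattice ∧ ‖l‖ ≤ R}.Finite ∧
      ({l : ℂ | l ∈ L.lattice ∧ ‖l‖ ≤ R}.ncard : ℝ) ≤ C * (1 + R) ^ 2 := by
  obtain ⟨K, hK, hb⟩ := a1_coord L
  have hK0 : 0 < K := by linarith
  refine ⟨(2 * K + 1) ^ 2, by nlinarith, fun R hR => ?_⟩
  set N : ℕ := ⌊K * R⌋₊ with hN
  set f : ℤ × ℤ → ℂ := fun p => (p.1 : ℂ) * L.ω₁ + (p.2 : ℂ) * L.ω₂ with hf
  set T : Finset (ℤ × ℤ) := Finset.Icc (-(N : ℤ)) N ×ˢ Finset.Icc (-(N : ℤ)) N with hT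
  have hKR : 0 ≤ K * R := by positivity
  have hint : ∀ m : ℤ, |(m : ℝ)| ≤ K * R → m ∈ Finset.Icc (-(N : ℤ)) N := by
    intro m hm
    have h1 : (m.natAbs : ℝ) ≤ K * R := by
      rw [Nat.cast_natAbs]
      exact_mod_cast hm
    have h2 : m.natAbs ≤ N := Nat.le_floor h1
    rw [Finset.mem_Icc]
    omega
  have hsub : {l : ℂ | l ∈ L.lattice ∧ ‖l‖ ≤ R} ⊆ ((T.image f : Finset ℂ) : Set ℂ) := by
    rintro l ⟨hl, hlR⟩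
    obtain ⟨m, n, h⟩ := a1_mem L hl
    have hb' := hb m n
    push_cast at hb'
    rw [← h] at hb'
    have h1 : K * ‖l‖ ≤ K * R := mul_le_mul_of_nonneg_left hlR hK0.le
    rw [Finset.mem_coe, Finset.mem_image]
    exact ⟨(m, n), Finset.mem_product.2 ⟨hint m (hb'.1.trans h1), hint n (hb'.2.trans h1)⟩, h.symm⟩
  refine ⟨(Finset.finite_toSet _).subset hsub, ?_⟩
  have h1 : {l : ℂ | l ∈ L.lattice ∧ ‖l‖ ≤ R}.ncard ≤ (2 * N + 1) ^ 2 := by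
    calc {l : ℂ | l ∈ L.lattice ∧ ‖l‖ ≤ R}.ncard
        ≤ ((T.image f : Finset ℂ) : Set ℂ).ncard := Set.ncard_le_ncard hsub (Finset.finite_toSet _)
      _ = (T.image f).card := Set.ncard_coe_finset _
      _ ≤ T.card := Finset.card_image_le
      _ = (2 * N + 1) ^ 2 := by
          rw [hT, Finset.card_product, Int.card_Icc]
          have : ((N : ℤ) + 1 - -(N : ℤ)).toNat = 2 * N + 1 := by omega
          rw [this]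
          ring
  have h2 : (N : ℝ) ≤ K * R := Nat.floor_le hKR
  have hN0 : (0 : ℝ) ≤ N := Nat.cast_nonneg _
  calc ({l : ℂ | l ∈ L.lattice ∧ ‖l‖ ≤ R}.ncard : ℝ) ≤ ((2 * N + 1 : ℕ) : ℝ) ^ 2 := by
        exact_mod_cast h1
    _ ≤ ((2 * K + 1) * (1 + R)) ^ 2 := by
        push_cast
        apply pow_le_pow_left₀ (by positivity)
        nlinarith
    _ = (2 * K + 1) ^ 2 * (1 + R) ^ 2 := by ring

theorem lat_reduce (L : PeriodPair) : ∃ C : ℝ, 1 ≤ C ∧ ∀ z : ℂ, ∃ l ∈ L.lattice, ‖z - l‖ ≤ C := by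
  refine ⟨1 + ‖L.ω₁‖ + ‖L.ω₂‖, by linarith [norm_nonneg L.ω₁, norm_nonneg L.ω₂], fun z => ?_⟩
  have hz : z = ((L.basis.repr z 0 : ℝ) : ℂ) * L.ω₁ + ((L.basis.repr z 1 : ℝ) : ℂ) * L.ω₂ := by
    have h1 := L.basis.sum_repr z
    rw [Fin.sum_univ_two, L.basis_zero, L.basis_one] at h1
    conv_lhs => rw [← h1]
    simp only [Complex.real_smul]
  set s : ℝ := L.basis.repr z 0
  set t : ℝ := L.basis.repr z 1
  refine ⟨(⌊s⌋ : ℂ) * L.ω₁ + (⌊t⌋ : ℂ) * L.ω₂, PeriodPair.mem_lattice.2 ⟨⌊s⌋, ⌊t⌋, rfl⟩, ?_⟩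
  have h2 : z - ((⌊s⌋ : ℂ) * L.ω₁ + (⌊t⌋ : ℂ) * L.ω₂) =
      ((Int.fract s : ℝ) : ℂ) * L.ω₁ + ((Int.fract t : ℝ) : ℂ) * L.ω₂ := by
    rw [hz]
    rw [← Int.self_sub_floor, ← Int.self_sub_floor]
    push_cast
    ring
  have h3 : ∀ x : ℝ, ‖((Int.fract x : ℝ) : ℂ)‖ ≤ 1 := by
    intro x
    rw [Complex.norm_real, Real.norm_eq_abs, abs_of_nonneg (Int.fract_nonneg x)]
    exact (Int.fract_lt_one x).le
  rw [h2]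
  calc ‖((Int.fract s : ℝ) : ℂ) * L.ω₁ + ((Int.fract t : ℝ) : ℂ) * L.ω₂‖
      ≤ ‖((Int.fract s : ℝ) : ℂ) * L.ω₁‖ + ‖((Int.fract t : ℝ) : ℂ) * L.ω₂‖ := norm_add_le _ _
    _ = ‖((Int.fract s : ℝ) : ℂ)‖ * ‖L.ω₁‖ + ‖((Int.fract t : ℝ) : ℂ)‖ * ‖L.ω₂‖ := by
        rw [norm_mul, norm_mul]
    _ ≤ 1 * ‖L.ω₁‖ + 1 * ‖L.ω₂‖ := by
        gcongr
        · exact h3 s
        · exact h3 t
    _ ≤ 1 + ‖L.ω₁‖ + ‖L.ω₂‖ := by linarith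

end ELT
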