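import Pool.Agent.ELT.A1

set_option autoImplicit false

open PeriodPair Filter
open scoped Topology

namespace ELT

/-! ## [ELT-A2] `℘` near and far from the lattice (file A2.lean)

`wp_far`: by periodicity (`WP63.wp_add_mem`) and `lat_reduce` it is enough to consider `‖z‖ ≤ C`; the set `{‖z‖ ≤ C, ∀ l, r ≤ ‖z - l‖}` is compact and
contained in the complement of the lattice, where `℘` is continuous (`L.differentiableOn_weierstrassP.continuousOn`). `wp_near`: near `0` by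
`MP9c45e8.tendsto_sq_mul_weierstrassP L : Tendsto (fun u => u^2 * ℘[L] u) (𝓝[≠] 0) (𝓝 1)`, and `lat_min`. -/

theorem wp_far (L : PeriodPair) (r : ℝ) (hr : 0 < r) : ∃ M : ℝ, 1 ≤ M ∧
    ∀ z : ℂ, (∀ l ∈ L.lattice, r ≤ ‖z - l‖) → ‖℘[L] z‖ ≤ M := by
  obtain ⟨C, hC, hred⟩ := lat_reduce L
  have hcl : IsClosed {z : ℂ | ∀ l ∈ L.lattice, r ≤ ‖z - l‖} := by
    have h1 : {z : ℂ | ∀ l ∈ L.lattice, r ≤ ‖z - l‖} = ⋂ l ∈ L.lattice, {z : ℂ | r ≤ ‖z - l‖} := by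
      ext z
      simp
    rw [h1]
    refine isClosed_biInter fun l _ => isClosed_le continuous_const (by fun_prop)
  have hK : IsCompact (Metric.closedBall (0 : ℂ) C ∩ {z : ℂ | ∀ l ∈ L.lattice, r ≤ ‖z - l‖}) :=
    (isCompact_closedBall 0 C).inter_right hcl
  have hcont : ContinuousOn ℘[L]
      (Metric.closedBall (0 : ℂ) C ∩ {z : ℂ | ∀ l ∈ L.lattice, r ≤ ‖z - l‖}) := by
    refine L.differentiableOn_weierstrassP.continuousOn.mono ?_
    rintro z ⟨_, hz⟩ hzL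
    have h2 := hz z hzL
    rw [sub_self, norm_zero] at h2
    linarith
  obtain ⟨M, hM⟩ := hK.exists_bound_of_continuousOn hcont
  refine ⟨max 1 M, le_max_left _ _, fun z hz => ?_⟩
  obtain ⟨l, hl, hzl⟩ := hred z
  have h3 : ℘[L] z = ℘[L] (z - l) := by
    have h4 := WP63.wp_add_mem L (z - l) l hl
    rwa [sub_add_cancel] at h4
  rw [h3]
  refine (hM (z - l) ⟨by simpa using hzl, fun l' hl' => ?_⟩).trans (le_max_right _ _)
  have h5 := hz (l + l') (L.lattice.add_mem hl hl')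
  rwa [← sub_sub] at h5

theorem wp_near (L : PeriodPair) : ∃ r : ℝ, 0 < r ∧ r ≤ 1 ∧ ∀ z : ℂ, z ≠ 0 → ‖z‖ ≤ r →
    z ∉ L.lattice ∧ 1 / 2 ≤ ‖z ^ 2 * ℘[L] z‖ ∧ ‖z ^ 2 * ℘[L] z‖ ≤ 2 := by
  obtain ⟨r₁, hr₁, hmin⟩ := lat_min L
  have h1 := (MP9c45e8.tendsto_sq_mul_weierstrassP L).norm
  rw [norm_one] at h1
  have h2 : ∀ᶠ z in 𝓝[≠] (0 : ℂ), ‖z ^ 2 * ℘[L] z‖ ∈ Set.Ioo (1 / 2 : ℝ) 2 :=
    h1 (Ioo_mem_nhds (by norm_num) (by norm_num))
  rw [eventually_nhdsWithin_iff] at h2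
  obtain ⟨r₂, hr₂, hball⟩ := Metric.eventually_nhds_iff.1 h2
  refine ⟨min (min (r₁ / 2) (r₂ / 2)) 1, by positivity, min_le_right _ _, fun z hz0 hz => ?_⟩
  have h3 : ‖z‖ ≤ r₁ / 2 := hz.trans ((min_le_left _ _).trans (min_le_left _ _))
  have h4 : ‖z‖ ≤ r₂ / 2 := hz.trans ((min_le_left _ _).trans (min_le_right _ _))
  refine ⟨fun hzL => ?_, ?_⟩
  · have h5 := hmin z hzL hz0
    linarith
  · have h6 := hball (y := z) (by rw [dist_zero_right]; linarith) hz0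
    exact ⟨h6.1.le, h6.2.le⟩

end ELT
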