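import Pool.Agent.LTD.Def

set_option autoImplicit false

/-! Definitions for the elliptic large transcendence degree theorem (project ELT, blueprint in the team store file
`ELT_PROOF.md`). -/

open PeriodPair

namespace ELT

open LTD

/-- The coefficient `a₄ = -g₂/4` of the curve `Y² Z = X³ + a₄ X Z² + a₆ Z³`. -/
noncomputable def a4 (L : PeriodPair) : ℂ := -L.g₂ / 4

/-- The coefficient `a₆ = -g₃/4`. -/
noncomputable def a6 (L : PeriodPair) : ℂ := -L.g₃ / 4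

open Classical in
/-- Projective coordinates of the point `z` of the curve `Y² Z = X³ + a₄ X Z² + a₆ Z³`. -/
noncomputable def pc (L : PeriodPair) (z : ℂ) : Fin 3 → ℂ :=
  if z ∈ L.lattice then ![0, 1, 0] else ![℘[L] z, ℘'[L] z / 2, 1]

open Classical in
/-- Homogeneous coordinates of `℘(z)` in the projective line. -/
noncomputable def xc (L : PeriodPair) (z : ℂ) : Fin 2 → ℂ :=
  if z ∈ L.lattice then ![1, 0] else ![℘[L] z, 1]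

/-- The cubic. -/
def OnC (L : PeriodPair) (P : Fin 3 → ℂ) : Prop :=
  P 1 ^ 2 * P 2 = P 0 ^ 3 + a4 L * P 0 * P 2 ^ 2 + a6 L * P 2 ^ 3

/-- The addition law of bidegree `(2, 2)` which fails only on the diagonal. -/
def law {R : Type} [CommRing R] (a b : R) (P Q : Fin 3 → R) : Fin 3 → R :=
  ![(P 0 * Q 1 - Q 0 * P 1) * (P 1 * Q 2 + Q 1 * P 2) + (P 0 * Q 2 - Q 0 * P 2) * P 1 * Q 1 -
      a * (P 0 * Q 2 + Q 0 * P 2) * (P 0 * Q 2 - Q 0 * P 2) -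
      3 * b * (P 0 * Q 2 - Q 0 * P 2) * P 2 * Q 2,
    -3 * P 0 * Q 0 * (P 0 * Q 1 - Q 0 * P 1) - P 1 * Q 1 * (P 1 * Q 2 - Q 1 * P 2) -
      a * (P 0 * Q 1 - Q 0 * P 1) * P 2 * Q 2 + a * (P 0 * Q 2 + Q 0 * P 2) *
      (P 1 * Q 2 - Q 1 * P 2) + 3 * b * (P 1 * Q 2 - Q 1 * P 2) * P 2 * Q 2,
    3 * P 0 * Q 0 * (P 0 * Q 2 - Q 0 * P 2) - (P 1 * Q 2 + Q 1 * P 2) * (P 1 * Q 2 - Q 1 * P 2) +
      a * (P 0 * Q 2 - Q 0 * P 2) * P 2 * Q 2]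

/-- The inverse. -/
def ngt {R : Type} [CommRing R] (P : Fin 3 → R) : Fin 3 → R := ![P 0, -P 1, P 2]

/-- `(P + T) + (Q - T)` -/
def law2 {R : Type} [CommRing R] (a b : R) (T P Q : Fin 3 → R) : Fin 3 → R :=
  law a b (law a b P T) (law a b Q (ngt T))

/-- The point `z` has projective coordinates which are integer polynomials in `u` of size at most `δ`. -/
def Rep {ι : Type} (L : PeriodPair) (u : ι → ℂ) (δ : ℝ) (z : ℂ) : Prop :=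
  ∃ P : Fin 3 → MvPolynomial ι ℤ, (∀ k, Sz (P k) δ) ∧
    Real.exp (-δ) ≤ ‖(fun k => ev u (P k) : Fin 3 → ℂ)‖ ∧
    ∃ c : ℂ, ∀ k, ev u (P k) = c * pc L z k

/-- `Q` are homogeneous coordinates of `℘(z)` which are integer polynomials in `u` of size at most `δ`. -/
def RepX {ι : Type} (L : PeriodPair) (u : ι → ℂ) (δ : ℝ) (z : ℂ)
    (Q : Fin 2 → MvPolynomial ι ℤ) : Prop :=
  (∀ k, Sz (Q k) δ) ∧ Real.exp (-δ) ≤ ‖(fun k => ev u (Q k) : Fin 2 → ℂ)‖ ∧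
    ∃ c : ℂ, ∀ k, ev u (Q k) = c * xc L z k

/-- The multihomogeneous form `∑_l p_l ∏_i q_{i0}^{l_i} q_{i1}^{D-1-l_i}`. -/
def Pf {R : Type} [CommRing R] (d D : ℕ) (p : (Fin d → Fin D) → R) (q : Fin d → Fin 2 → R) : R :=
  ∑ l : Fin d → Fin D, p l * ∏ i, (q i 0 ^ (l i : ℕ) * q i 1 ^ (D - 1 - (l i : ℕ)))

/-- The normalised absolute value of the form at the point `(℘(z_i))_i`. -/
noncomputable def Nf (L : PeriodPair) (d D : ℕ) (p : (Fin d → Fin D) → ℤ) (z : Fin d → ℂ) : ℝ :=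
  ‖Pf d D (fun l => (p l : ℂ)) fun i => xc L (z i)‖ / ∏ i, ‖xc L (z i)‖ ^ (D - 1)

/-- The dual basis: `z = (th 0 z).re ω₁ + (th 1 z).re ω₂`. -/
noncomputable def th (L : PeriodPair) : Fin 2 → ℂ :=
  ![-Complex.I * (starRingEnd ℂ) L.ω₂ / ((L.ω₁ * (starRingEnd ℂ) L.ω₂).im : ℂ),
    -Complex.I * (starRingEnd ℂ) L.ω₁ / ((L.ω₂ * (starRingEnd ℂ) L.ω₁).im : ℂ)]

/-- No small frequencies: `|∑ (a_i θ₁ + b_i θ₂) x_i| ≥ η` for integers `|a_i|, |b_i| ≤ H`, not all `0`. -/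
def NR (L : PeriodPair) {d : ℕ} (x : Fin d → ℂ) (H : ℕ) (η : ℝ) : Prop :=
  ∀ a : Fin d → Fin 2 → ℤ, a ≠ 0 → (∀ i k, |a i k| ≤ (H : ℤ)) →
    η ≤ ‖∑ i, ((a i 0 : ℂ) * th L 0 + (a i 1 : ℂ) * th L 1) * x i‖

/-- `g` is a pole of `℘`, or `℘(g)` belongs to `F`. -/
def InW (L : PeriodPair) (F : IntermediateField ℚ ℂ) (g : ℂ) : Prop :=
  g ∈ L.lattice ∨ ℘[L] g ∈ F

end ELT
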