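import Pool.Agent.ELT.A2
import Pool.Agent.ELT.Def

set_option autoImplicit false

open PeriodPair Metric

namespace ELT

/-! ## [ELT-A3] holomorphic homogeneous coordinates on a large disc, definition (file A3.lean)

`S` a finite set of complex numbers (later: the lattice points of norm `≤ 3R`). `bb S z = ∏_{l ∈ S} (z - l)²`, `aa L S z = bb S z · ℘(z)` off the lattice, and
`∏_{l ∈ S, l ≠ z} (z-l)²` at the lattice points.
`aa_diff`: on `U = ball 0 R'` with `L ∩ U ⊆ S ⊆ L`. At `z ∉ L`: near `z` the function is `bb S · ℘` (the complement of the lattice is open, `L.isClosed_lattice`; `℘` is analytic there,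
`L.analyticOnNhd_weierstrassP`). At `z = l₀ ∈ L ∩ U`: near `l₀` it is `(∏_{l ∈ S, l ≠ l₀} (w-l)²) · G(w)`, `G(w) = if w = l₀ then 1 else (w-l₀)²℘(w)`
`= (w-l₀)² ℘[L - l₀] w + 1 - (w-l₀)²/l₀²` (Mathlib: `L.ite_eq_one_sub_sq_mul_weierstrassP l₀ h w`), and `℘[L - l₀]` is analytic at `l₀` (`L.analyticAt_weierstrassPExcept`). -/

/-- The product `∏_{l ∈ S} (z - l)²`. -/
noncomputable def bb (S : Finset ℂ) (z : ℂ) : ℂ := ∏ l ∈ S, (z - l) ^ 2

open Classical in
/-- The function `bb S · ℘`, extended to the lattice points. -/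
noncomputable def aa (L : PeriodPair) (S : Finset ℂ) (z : ℂ) : ℂ :=
  if z ∈ L.lattice then ∏ l ∈ S.erase z, (z - l) ^ 2 else bb S z * ℘[L] z

theorem bb_diff (S : Finset ℂ) : Differentiable ℂ (bb S) := by
  unfold bb
  apply Differentiable.fun_finsetProd
  intro l _
  exact (differentiable_id.sub_const l).pow 2

theorem aa_diff (L : PeriodPair) (S : Finset ℂ) (R : ℝ) (hS : ∀ l ∈ S, l ∈ L.lattice)
    (hS' : ∀ l ∈ L.lattice, ‖l‖ < R → l ∈ S) : DifferentiableOn ℂ (aa L S) (ball 0 R) := by
  classical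
  intro z hzR
  apply DifferentiableAt.differentiableWithinAt
  by_cases hz : z ∈ L.lattice
  · have hzS : z ∈ S := hS' z hz (by simpa using hzR)
    have hd : DifferentiableAt ℂ (fun w => (bb (S.erase z) w) *
        ((w - z) ^ 2 * ℘[L - z] w + 1 - (w - z) ^ 2 / z ^ 2)) z := by
      have h1 : DifferentiableAt ℂ (bb (S.erase z)) z := bb_diff _ z
      have h2 : DifferentiableAt ℂ (fun w : ℂ => (w - z) ^ 2) z := by fun_prop
      have h3 : DifferentiableAt ℂ (℘[L - z]) z :=
        (L.analyticAt_weierstrassPExcept z).differentiableAt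
      exact h1.mul (((h2.mul h3).add_const 1).sub (h2.div_const (z ^ 2)))
    refine hd.congr_of_eventuallyEq ?_
    filter_upwards [L.compl_lattice_sdiff_singleton_mem_nhds z] with w hw
    rw [← L.ite_eq_one_sub_sq_mul_weierstrassP z hz w]
    by_cases hwz : w = z
    · subst hwz
      rw [if_pos rfl, mul_one]
      unfold aa bb
      rw [if_pos hz]
    · have hwL : w ∉ L.lattice := by
        intro h
        exact hw ⟨h, hwz⟩
      rw [if_neg hwz]
      unfold aa bb
      rw [if_neg hwL, ← Finset.mul_prod_erase S _ hzS]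
      ring
  · have hd : DifferentiableAt ℂ (fun w => bb S w * ℘[L] w) z :=
      (bb_diff S z).mul (L.analyticOnNhd_weierstrassP z hz).differentiableAt
    refine hd.congr_of_eventuallyEq ?_
    filter_upwards [L.isClosed_lattice.isOpen_compl.mem_nhds hz] with w hw
    have hw' : w ∉ L.lattice := hw
    unfold aa
    rw [if_neg hw']

end ELT
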