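import Pool.Agent.ELT.A3

set_option autoImplicit false

open PeriodPair Metric

namespace ELT

/-! ## [ELT-A3b] holomorphic homogeneous coordinates on a large disc, bounds (file A3b.lean)

`S` = the lattice points of norm `≤ 3R` (finite, at most `C₀ (1+3R)²` of them by `lat_count`), `A z = (aa L S z, bb S z)`, differentiable on `ball 0 (2R)` (even `ball 0 (3R)`) by `A3`. Let `r₀` (`lat_min`),
`r₁ ≤ 1` (`wp_near`), `r = min (r₁) (r₀/2)`, `M` (`wp_far L r`). Let `‖z‖ ≤ R`.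
* all `‖z - l‖ ≥ r`: `A z = bb S z · (℘ z, 1)`, `bb S z ≠ 0`; `r^{2#S} ≤ |bb S z| ≤ (4R)^{2#S}`, `‖A z‖ ≤ M (4R)^{2#S}`, `‖A z‖ ≥ r^{2#S}`.
* `‖z - l₀‖ < r` for some `l₀ ∈ L` (then `l₀ ∈ S`, `‖z - l‖ ≥ r₀ - r ≥ r` for the other `l`): with `Π = ∏_{l ∈ S, l ≠ l₀} (z-l)²`, `r^{2#S} ≤ |Π| ≤ (4R)^{2#S}`:
  `z = l₀`: `A z = Π · (1, 0)` (`bb S l₀ = 0`). `z ≠ l₀`: `z ∉ L`, `aa = Π (z-l₀)² ℘(z)`, `(z-l₀)²℘(z) = (z-l₀)²℘(z-l₀)` has absolute value in `[1/2, 2]`, `|bb| = |Π||z-l₀|² ≤ |Π|`.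
  So `|Π|/2 ≤ ‖A z‖ ≤ 2|Π|`.
Finally `2 #S · |log r|`, `2 #S log(4R)`, `log M`, `log 2` are all `≤ C (1+R)³` (`log (4R) ≤ 4R`). -/

theorem a3b_xc_mem (L : PeriodPair) (z : ℂ) (hz : z ∈ L.lattice) : xc L z = ![1, 0] := by
  unfold xc
  rw [if_pos hz]

theorem a3b_xc_notMem (L : PeriodPair) (z : ℂ) (hz : z ∉ L.lattice) : xc L z = ![℘[L] z, 1] := by
  unfold xc
  rw [if_neg hz]

theorem a3b_norm_pair (a b : ℂ) : ‖(![a, b] : Fin 2 → ℂ)‖ = max ‖a‖ ‖b‖ := by
  apply le_antisymm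
  · rw [pi_norm_le_iff_of_nonneg (le_max_of_le_left (norm_nonneg a))]
    intro i
    fin_cases i
    · exact le_max_left _ _
    · exact le_max_right _ _
  · apply max_le
    · exact norm_le_pi_norm (![a, b] : Fin 2 → ℂ) 0
    · exact norm_le_pi_norm (![a, b] : Fin 2 → ℂ) 1

/-- Products of squared distances. -/
theorem a3b_prod (T : Finset ℂ) (z : ℂ) (r Q : ℝ) (n : ℕ) (hn : T.card ≤ n) (hr : 0 < r)
    (hr1 : r ≤ 1) (hQ : 1 ≤ Q) (hlo : ∀ l ∈ T, r ≤ ‖z - l‖) (hup : ∀ l ∈ T, ‖z - l‖ ≤ Q) :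
    r ^ (2 * n) ≤ ‖∏ l ∈ T, (z - l) ^ 2‖ ∧ ‖∏ l ∈ T, (z - l) ^ 2‖ ≤ Q ^ (2 * n) := by
  rw [norm_prod]
  constructor
  · calc r ^ (2 * n) ≤ r ^ (2 * T.card) :=
          pow_le_pow_of_le_one hr.le hr1 (by omega)
      _ = ∏ _l ∈ T, r ^ 2 := by rw [Finset.prod_const, pow_mul]
      _ ≤ ∏ l ∈ T, ‖(z - l) ^ 2‖ := by
          refine Finset.prod_le_prod (fun i _ => by positivity) fun l hl => ?_
          rw [norm_pow]
          exact pow_le_pow_left₀ hr.le (hlo l hl) 2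
  · calc ∏ l ∈ T, ‖(z - l) ^ 2‖ ≤ ∏ _l ∈ T, Q ^ 2 := by
          refine Finset.prod_le_prod (fun i _ => norm_nonneg _) fun l hl => ?_
          rw [norm_pow]
          exact pow_le_pow_left₀ (norm_nonneg _) (hup l hl) 2
      _ = Q ^ (2 * T.card) := by rw [Finset.prod_const, pow_mul]
      _ ≤ Q ^ (2 * n) := pow_le_pow_right₀ hQ (by omega)

theorem a3b_bounds (L : PeriodPair) (S : Finset ℂ) (r₀ r₁ r M R : ℝ) (hr₀ : 0 < r₀)
    (hmin : ∀ l ∈ L.lattice, l ≠ 0 → r₀ ≤ ‖l‖) (hr₁1 : r₁ ≤ 1)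
    (hnear : ∀ z : ℂ, z ≠ 0 → ‖z‖ ≤ r₁ →
      z ∉ L.lattice ∧ 1 / 2 ≤ ‖z ^ 2 * ℘[L] z‖ ∧ ‖z ^ 2 * ℘[L] z‖ ≤ 2)
    (hr : 0 < r) (hrr₁ : r ≤ r₁) (hrr₀ : r ≤ r₀ / 2) (hM : 1 ≤ M)
    (hfar : ∀ z : ℂ, (∀ l ∈ L.lattice, r ≤ ‖z - l‖) → ‖℘[L] z‖ ≤ M) (hR : 1 ≤ R)
    (hS : ∀ l, l ∈ S ↔ l ∈ L.lattice ∧ ‖l‖ ≤ 3 * R) (z : ℂ) (hz : ‖z‖ ≤ R) :
    (∃ c : ℂ, c ≠ 0 ∧ ∀ k, (![aa L S z, bb S z] : Fin 2 → ℂ) k = c * xc L z k) ∧
      1 / 2 * r ^ (2 * S.card) ≤ ‖(![aa L S z, bb S z] : Fin 2 → ℂ)‖ ∧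
      ‖(![aa L S z, bb S z] : Fin 2 → ℂ)‖ ≤ 2 * M * (4 * R) ^ (2 * S.card) := by
  classical
  have hr1 : r ≤ 1 := hrr₁.trans hr₁1
  have hup : ∀ l ∈ S, ‖z - l‖ ≤ 4 * R := by
    intro l hl
    have h1 := norm_sub_le z l
    have h2 := ((hS l).mp hl).2
    linarith
  have hQ : 1 ≤ 4 * R := by linarith
  rw [a3b_norm_pair]
  by_cases hcase : ∀ l ∈ L.lattice, r ≤ ‖z - l‖
  · -- far from the lattice
    have hzL : z ∉ L.lattice := by
      intro h
      have := hcase z h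
      rw [sub_self, norm_zero] at this
      linarith
    have hprod := a3b_prod S z r (4 * R) S.card le_rfl hr hr1 hQ
      (fun l hl => hcase l ((hS l).mp hl).1) hup
    have haa : aa L S z = bb S z * ℘[L] z := by
      unfold aa
      rw [if_neg hzL]
    have hbb : bb S z = ∏ l ∈ S, (z - l) ^ 2 := rfl
    rw [← hbb] at hprod
    have hpos : 0 < r ^ (2 * S.card) := by positivity
    have hbpos : 0 < ‖bb S z‖ := lt_of_lt_of_le hpos hprod.1
    have hwp := hfar z hcase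
    refine ⟨⟨bb S z, norm_pos_iff.mp hbpos, ?_⟩, ?_, ?_⟩
    · intro k
      rw [a3b_xc_notMem L z hzL]
      fin_cases k
      · exact haa
      · show bb S z = bb S z * 1
        rw [mul_one]
    · refine le_trans ?_ (le_max_right _ _)
      linarith [hprod.1]
    · have hQn : 0 < (4 * R) ^ (2 * S.card) := by positivity
      apply max_le
      · rw [haa, norm_mul]
        calc ‖bb S z‖ * ‖℘[L] z‖ ≤ (4 * R) ^ (2 * S.card) * M :=
              mul_le_mul hprod.2 hwp (norm_nonneg _) hQn.le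
          _ ≤ 2 * M * (4 * R) ^ (2 * S.card) := by nlinarith
      · refine hprod.2.trans ?_
        nlinarith
  · push Not at hcase
    obtain ⟨l₀, hl₀, hzl₀⟩ := hcase
    have hl₀S : l₀ ∈ S := by
      rw [hS]
      refine ⟨hl₀, ?_⟩
      have h1 : ‖l₀‖ ≤ ‖z‖ + ‖z - l₀‖ := by
        have h2 := norm_sub_le z (z - l₀)
        rwa [sub_sub_cancel] at h2
      linarith
    have hlo : ∀ l ∈ S.erase l₀, r ≤ ‖z - l‖ := by
      intro l hl
      rw [Finset.mem_erase, hS] at hl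
      have h1 := hmin (l - l₀) (sub_mem hl.2.1 hl₀) (sub_ne_zero.mpr hl.1)
      have h2 : ‖l - l₀‖ ≤ ‖z - l₀‖ + ‖z - l‖ := by
        have h3 := norm_sub_le (z - l₀) (z - l)
        rwa [sub_sub_sub_cancel_left] at h3
      linarith
    have hprod := a3b_prod (S.erase l₀) z r (4 * R) S.card (Finset.card_le_card
      (Finset.erase_subset _ _)) hr hr1 hQ hlo (fun l hl => hup l (Finset.mem_of_mem_erase hl))
    set QQ : ℂ := ∏ l ∈ S.erase l₀, (z - l) ^ 2 with hQQ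
    have hpos : 0 < r ^ (2 * S.card) := by positivity
    have hQQpos : 0 < ‖QQ‖ := lt_of_lt_of_le hpos hprod.1
    have hbb : bb S z = (z - l₀) ^ 2 * QQ := by
      unfold bb
      rw [← Finset.mul_prod_erase S _ hl₀S]
    have hQn : 0 < (4 * R) ^ (2 * S.card) := by positivity
    have hup2 : 2 * ‖QQ‖ ≤ 2 * M * (4 * R) ^ (2 * S.card) := by nlinarith [hprod.2]
    by_cases hzz : z = l₀
    · have haa : aa L S z = QQ := by
        unfold aa
        rw [if_pos (hzz ▸ hl₀), hQQ, hzz]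
      have hbb0 : bb S z = 0 := by
        rw [hbb, hzz, sub_self]
        ring
      have hzL : z ∈ L.lattice := hzz ▸ hl₀
      refine ⟨⟨QQ, norm_pos_iff.mp hQQpos, ?_⟩, ?_, ?_⟩
      · intro k
        rw [a3b_xc_mem L z hzL]
        fin_cases k
        · show aa L S z = QQ * 1
          rw [haa, mul_one]
        · show bb S z = QQ * 0
          rw [hbb0, mul_zero]
      · refine le_trans ?_ (le_max_left _ _)
        rw [haa]
        linarith [hprod.1]
      · apply max_le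
        · rw [haa]
          linarith [hQQpos]
        · rw [hbb0, norm_zero]
          linarith [hQQpos]
    · have hu0 : z - l₀ ≠ 0 := sub_ne_zero.mpr hzz
      obtain ⟨hu1, hu2, hu3⟩ := hnear (z - l₀) hu0 (hzl₀.le.trans hrr₁)
      have hzL : z ∉ L.lattice := fun h => hu1 (sub_mem h hl₀)
      have hwp : ℘[L] z = ℘[L] (z - l₀) := by
        have h1 := L.weierstrassP_add_coe (z - l₀) ⟨l₀, hl₀⟩
        rw [← h1]
        show _ = ℘[L] (z - l₀ + l₀)
        rw [sub_add_cancel]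
      have haa : aa L S z = QQ * ((z - l₀) ^ 2 * ℘[L] (z - l₀)) := by
        unfold aa
        rw [if_neg hzL, hbb, hwp]
        ring
      have hbne : bb S z ≠ 0 := by
        rw [hbb]
        exact mul_ne_zero (pow_ne_zero 2 hu0) (norm_pos_iff.mp hQQpos)
      have hnaa : ‖aa L S z‖ = ‖QQ‖ * ‖(z - l₀) ^ 2 * ℘[L] (z - l₀)‖ := by
        rw [haa, norm_mul]
      have hnbb : ‖bb S z‖ ≤ ‖QQ‖ := by
        rw [hbb, norm_mul, norm_pow]
        have h1 : ‖z - l₀‖ ^ 2 ≤ 1 := pow_le_one₀ (norm_nonneg _) (hzl₀.le.trans hr1)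
        nlinarith
      refine ⟨⟨bb S z, hbne, ?_⟩, ?_, ?_⟩
      · intro k
        rw [a3b_xc_notMem L z hzL]
        fin_cases k
        · show aa L S z = bb S z * ℘[L] z
          unfold aa
          rw [if_neg hzL]
        · show bb S z = bb S z * 1
          rw [mul_one]
      · refine le_trans ?_ (le_max_left _ _)
        rw [hnaa]
        nlinarith [hprod.1]
      · apply max_le
        · rw [hnaa]
          nlinarith
        · linarith [hQQpos]

theorem ab_pair (L : PeriodPair) : ∃ C : ℝ, 1 ≤ C ∧ ∀ R : ℝ, 1 ≤ R → ∃ A : ℂ → Fin 2 → ℂ,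
    (∀ k, DifferentiableOn ℂ (fun z => A z k) (ball 0 (2 * R))) ∧ ∀ z : ℂ, ‖z‖ ≤ R →
      (∃ c : ℂ, c ≠ 0 ∧ ∀ k, A z k = c * xc L z k) ∧
      Real.exp (-(C * (1 + R) ^ 3)) ≤ ‖A z‖ ∧ ‖A z‖ ≤ Real.exp (C * (1 + R) ^ 3) := by
  classical
  obtain ⟨r₀, hr₀, hmin⟩ := lat_min L
  obtain ⟨C₀, hC₀, hcount⟩ := lat_count L
  obtain ⟨r₁, hr₁, hr₁1, hnear⟩ := wp_near L
  set r := min r₁ (r₀ / 2) with hrdef
  have hr : 0 < r := lt_min hr₁ (by linarith)
  have hrr₁ : r ≤ r₁ := min_le_left _ _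
  have hrr₀ : r ≤ r₀ / 2 := min_le_right _ _
  have hr1 : r ≤ 1 := hrr₁.trans hr₁1
  obtain ⟨M, hM, hfar⟩ := wp_far L r hr
  set a := -Real.log r with hadef
  have ha : 0 ≤ a := by
    have := Real.log_nonpos hr.le hr1
    linarith
  have hrexp : r = Real.exp (-a) := by
    rw [hadef, neg_neg, Real.exp_log hr]
  refine ⟨2 * M + 72 * C₀ + 18 * C₀ * a + 1, by nlinarith [mul_nonneg (by linarith : (0:ℝ) ≤ C₀) ha],
    fun R hR => ?_⟩
  obtain ⟨hfin, hcard⟩ := hcount (3 * R) (by linarith)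
  set S : Finset ℂ := hfin.toFinset with hSdef
  have hS : ∀ l, l ∈ S ↔ l ∈ L.lattice ∧ ‖l‖ ≤ 3 * R := by
    intro l
    rw [hSdef, Set.Finite.mem_toFinset]
    rfl
  have hSc : (S.card : ℝ) ≤ 9 * C₀ * (1 + R) ^ 2 := by
    have h1 : (S.card : ℝ) ≤ C₀ * (1 + 3 * R) ^ 2 := by
      rw [hSdef, ← Set.ncard_eq_toFinset_card _ hfin]
      exact hcard
    have h2 : (1 + 3 * R) ^ 2 ≤ 9 * (1 + R) ^ 2 := by nlinarith
    nlinarith
  refine ⟨fun z => ![aa L S z, bb S z], ?_, ?_⟩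
  · have hsub : ball (0 : ℂ) (2 * R) ⊆ ball 0 (3 * R) := ball_subset_ball (by linarith)
    intro k
    fin_cases k
    · exact (aa_diff L S (3 * R) (fun l hl => ((hS l).mp hl).1)
        (fun l hl hl' => (hS l).mpr ⟨hl, hl'.le⟩)).mono hsub
    · exact (bb_diff S).differentiableOn
  · intro z hz
    obtain ⟨h1, h2, h3⟩ := a3b_bounds L S r₀ r₁ r M R hr₀ hmin hr₁1 hnear hr hrr₁ hrr₀ hM hfar hR
      hS z hz
    have hR3 : (1 : ℝ) ≤ (1 + R) ^ 3 := one_le_pow₀ (by linarith)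
    have hR23 : (1 + R) ^ 2 ≤ (1 + R) ^ 3 := pow_le_pow_right₀ (by linarith) (by norm_num)
    have hC₀a : 0 ≤ C₀ * a := mul_nonneg (by linarith) ha
    have hS0 : (0 : ℝ) ≤ S.card := Nat.cast_nonneg _
    refine ⟨h1, le_trans ?_ h2, h3.trans ?_⟩
    · have e1 : r ^ (2 * S.card) = Real.exp (-(2 * S.card * a)) := by
        rw [hrexp, ← Real.exp_nat_mul]
        congr 1
        push_cast
        ring
      have e2 : Real.exp (-1) ≤ 1 / 2 := by
        rw [Real.exp_neg, inv_eq_one_div]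
        apply one_div_le_one_div_of_le (by norm_num)
        have := Real.add_one_le_exp (1 : ℝ)
        linarith
      calc Real.exp (-((2 * M + 72 * C₀ + 18 * C₀ * a + 1) * (1 + R) ^ 3))
          ≤ Real.exp (-1 + -(2 * S.card * a)) := by
            apply Real.exp_le_exp.mpr
            have h4 : 2 * (S.card : ℝ) * a ≤ 18 * (C₀ * a) * (1 + R) ^ 3 := by
              have h5 : 2 * (S.card : ℝ) * a ≤ 2 * (9 * C₀ * (1 + R) ^ 2) * a := by
                apply mul_le_mul_of_nonneg_right _ ha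
                linarith
              have h6 : 18 * (C₀ * a) * (1 + R) ^ 2 ≤ 18 * (C₀ * a) * (1 + R) ^ 3 :=
                mul_le_mul_of_nonneg_left hR23 (by linarith)
              linarith
            have h7 : 0 ≤ M * (1 + R) ^ 3 := by positivity
            have h8 : 0 ≤ C₀ * (1 + R) ^ 3 := by positivity
            linarith
        _ = Real.exp (-1) * Real.exp (-(2 * S.card * a)) := by rw [Real.exp_add]
        _ ≤ 1 / 2 * r ^ (2 * S.card) := by
            rw [e1]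
            exact mul_le_mul_of_nonneg_right e2 (Real.exp_pos _).le
    · have e1 : (4 * R) ^ (2 * S.card) ≤ Real.exp (2 * S.card * (4 * R)) := by
        have h4 : 4 * R ≤ Real.exp (4 * R) := by
          have := Real.add_one_le_exp (4 * R)
          linarith
        calc (4 * R) ^ (2 * S.card) ≤ Real.exp (4 * R) ^ (2 * S.card) :=
              pow_le_pow_left₀ (by linarith) h4 _
          _ = Real.exp (2 * S.card * (4 * R)) := by
              rw [← Real.exp_nat_mul]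
              congr 1
              push_cast
              ring
      have e2 : 2 * M ≤ Real.exp (2 * M) := by
        have := Real.add_one_le_exp (2 * M)
        linarith
      calc 2 * M * (4 * R) ^ (2 * S.card)
          ≤ Real.exp (2 * M) * Real.exp (2 * S.card * (4 * R)) :=
            mul_le_mul e2 e1 (by positivity) (Real.exp_pos _).le
        _ = Real.exp (2 * M + 2 * S.card * (4 * R)) := by rw [Real.exp_add]
        _ ≤ Real.exp ((2 * M + 72 * C₀ + 18 * C₀ * a + 1) * (1 + R) ^ 3) := by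
            apply Real.exp_le_exp.mpr
            have h5 : 2 * (S.card : ℝ) * (4 * R) ≤ 72 * C₀ * (1 + R) ^ 3 := by
              have h6 : 2 * (S.card : ℝ) * (4 * R) ≤ 2 * (9 * C₀ * (1 + R) ^ 2) * (4 * R) := by
                apply mul_le_mul_of_nonneg_right _ (by linarith)
                linarith
              have h7 : 2 * (9 * C₀ * (1 + R) ^ 2) * (4 * R) ≤
                  2 * (9 * C₀ * (1 + R) ^ 2) * (4 * (1 + R)) := by
                apply mul_le_mul_of_nonneg_left _ (by positivity)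
                linarith
              nlinarith
            have h7 : 2 * M ≤ 2 * M * (1 + R) ^ 3 := by nlinarith
            have h8 : 0 ≤ C₀ * a * (1 + R) ^ 3 := by positivity
            have h9 : 0 ≤ (1 + R) ^ 3 := by positivity
            linarith

end ELT
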