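import Pool.Agent.LTD.Sch

set_option autoImplicit false

open Metric

namespace ELT

/-! ## [ELT-A4] the Schwarz lemma for functions holomorphic on a disc (file A4.lean)

PORT of `LTD/Fac.lean` and `LTD/Sch.lean` (`LTD.factor`, `LTD.schwarz0`, `LTD.schwarz`: the same statements for entire functions) to a function which is differentiable on `ball 0 R'`, `R < R'`.
`factor`: induction on `T` with `dslope` (`differentiableOn_dslope`); maximum principle on `closedBall 0 R` (`Complex.norm_le_of_forall_mem_frontier_norm_le`) for `G = H/∏(w-a)`. -/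

theorem a4_factor (R' : ℝ) (H : ℂ → ℂ) (hH : DifferentiableOn ℂ H (ball 0 R')) (T : Finset ℂ)
    (hT : ∀ a ∈ T, H a = 0) (hTR : ∀ a ∈ T, ‖a‖ < R') :
    ∃ G : ℂ → ℂ, DifferentiableOn ℂ G (ball 0 R') ∧ ∀ w, H w = (∏ a ∈ T, (w - a)) * G w := by
  classical
  induction T using Finset.induction_on generalizing H with
  | empty => exact ⟨H, hH, fun w => by simp⟩
  | insert a T ha ih =>
    have hHa : H a = 0 := hT a (Finset.mem_insert_self a T)
    have haR : a ∈ ball (0 : ℂ) R' := by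
      rw [mem_ball_zero_iff]
      exact hTR a (Finset.mem_insert_self a T)
    have hd : DifferentiableOn ℂ (dslope H a) (ball 0 R') := by
      rw [Complex.differentiableOn_dslope (isOpen_ball.mem_nhds haR)]
      exact hH
    have hHw : ∀ w, H w = (w - a) * dslope H a w := by
      intro w
      have := sub_smul_dslope H a w
      rw [smul_eq_mul, hHa, sub_zero] at this
      exact this.symm
    obtain ⟨G, hG, hG2⟩ := ih (dslope H a) hd (by
      intro b hb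
      have hba : b ≠ a := fun h => ha (h ▸ hb)
      have h1 : H b = 0 := hT b (Finset.mem_insert_of_mem hb)
      have h2 := hHw b
      rw [h1] at h2
      exact (mul_eq_zero.1 h2.symm).resolve_left (sub_ne_zero.2 hba))
      (fun b hb => hTR b (Finset.mem_insert_of_mem hb))
    refine ⟨G, hG, fun w => ?_⟩
    rw [hHw, hG2, Finset.prod_insert ha]
    ring

theorem a4_schwarz0 (R' : ℝ) (H : ℂ → ℂ) (hH : DifferentiableOn ℂ H (ball 0 R')) (T : Finset ℂ)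
    (hT : ∀ a ∈ T, H a = 0) (ρ R B : ℝ) (hRR : R < R') (hρ : 0 < ρ) (hR : 13 * ρ ≤ R)
    (hTρ : ∀ a ∈ T, ‖a‖ ≤ ρ) (hB : ∀ w : ℂ, ‖w‖ = R → ‖H w‖ ≤ B) (w : ℂ) (hw : ‖w‖ ≤ ρ) :
    ‖H w‖ ≤ ((6 : ℝ)⁻¹) ^ T.card * B := by
  have hR0 : 0 < R := by nlinarith
  have hRρ : 12 * ρ ≤ R - ρ := by linarith
  have hRρ0 : 0 < R - ρ := by nlinarith
  obtain ⟨G, hG, hGH⟩ := a4_factor R' H hH T hT (fun a ha => by
    have := hTρ a ha
    linarith)
  have hB0 : 0 ≤ B := (norm_nonneg _).trans (hB (R : ℂ) (by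
    rw [Complex.norm_real, Real.norm_eq_abs, abs_of_pos hR0]))
  have hP : ∀ z : ℂ, ‖z‖ = R → (R - ρ) ^ T.card ≤ ‖∏ a ∈ T, (z - a)‖ := by
    intro z hz
    rw [norm_prod, ← Finset.prod_const]
    refine Finset.prod_le_prod (fun i _ => hRρ0.le) fun a ha => ?_
    have h1 := norm_sub_norm_le z a
    have h2 := hTρ a ha
    linarith
  have hGb : ∀ z ∈ frontier (Metric.ball (0 : ℂ) R), ‖G z‖ ≤ B / (R - ρ) ^ T.card := by
    intro z hz
    rw [frontier_ball (0 : ℂ) hR0.ne', mem_sphere_zero_iff_norm] at hz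
    rw [le_div_iff₀ (pow_pos hRρ0 _)]
    have h1 := hB z hz
    rw [hGH z, norm_mul] at h1
    calc ‖G z‖ * (R - ρ) ^ T.card ≤ ‖G z‖ * ‖∏ a ∈ T, (z - a)‖ :=
          mul_le_mul_of_nonneg_left (hP z hz) (norm_nonneg _)
      _ = ‖∏ a ∈ T, (z - a)‖ * ‖G z‖ := mul_comm _ _
      _ ≤ B := h1
  have hGw : ‖G w‖ ≤ B / (R - ρ) ^ T.card := by
    have hcl : DiffContOnCl ℂ G (ball 0 R) :=
      hG.diffContOnCl_ball (closedBall_subset_ball hRR)
    refine Complex.norm_le_of_forall_mem_frontier_norm_le Metric.isBounded_ball hcl hGb ?_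
    rw [closure_ball (0 : ℂ) hR0.ne', mem_closedBall_zero_iff]
    linarith
  have hPw : ‖∏ a ∈ T, (w - a)‖ ≤ (2 * ρ) ^ T.card := by
    rw [norm_prod, ← Finset.prod_const]
    refine Finset.prod_le_prod (fun i _ => norm_nonneg _) fun a ha => ?_
    have h1 := norm_sub_le w a
    have h2 := hTρ a ha
    linarith
  rw [hGH w, norm_mul]
  calc ‖∏ a ∈ T, (w - a)‖ * ‖G w‖ ≤ (2 * ρ) ^ T.card * (B / (R - ρ) ^ T.card) :=
        mul_le_mul hPw hGw (norm_nonneg _) (by positivity)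
    _ = (2 * ρ / (R - ρ)) ^ T.card * B := by rw [div_pow]; ring
    _ ≤ ((6 : ℝ)⁻¹) ^ T.card * B := by
        refine mul_le_mul_of_nonneg_right (pow_le_pow_left₀ (by positivity) ?_ _) hB0
        rw [div_le_iff₀ hRρ0]
        linarith

/-- the interpolation polynomial -/
noncomputable def a4_P (F : ℂ → ℂ) (T : Finset ℂ) (w : ℂ) : ℂ :=
  ∑ a ∈ T, F a * ∏ b ∈ T.erase a, ((w - b) / (a - b))

theorem a4_P_diff (F : ℂ → ℂ) (T : Finset ℂ) : Differentiable ℂ (a4_P F T) := by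
  unfold a4_P
  refine Differentiable.fun_sum fun a _ => ?_
  refine Differentiable.const_mul (Differentiable.fun_finsetProd fun b _ => ?_) _
  exact (differentiable_id.sub_const b).div_const (a - b)

theorem a4_P_eq (F : ℂ → ℂ) (T : Finset ℂ) (a : ℂ) (ha : a ∈ T) : a4_P F T a = F a := by
  unfold a4_P
  rw [Finset.sum_eq_single_of_mem a ha]
  · rw [Finset.prod_eq_one, mul_one]
    intro b hb
    have h1 : a - b ≠ 0 := sub_ne_zero.2 (Finset.ne_of_mem_erase hb).symm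
    exact div_self h1
  · intro c hc hca
    rw [Finset.prod_eq_zero (Finset.mem_erase.2 ⟨hca.symm, ha⟩), mul_zero]
    rw [sub_self, zero_div]

theorem a4_P_le (F : ℂ → ℂ) (T : Finset ℂ) (ρ R ε δ : ℝ) (hρR : ρ ≤ R)
    (hδ : 0 < δ) (hδR : δ ≤ 2 * R) (hε : 0 ≤ ε)
    (hTρ : ∀ a ∈ T, ‖a‖ ≤ ρ) (hT : ∀ a ∈ T, ∀ b ∈ T, a ≠ b → δ ≤ ‖a - b‖)
    (hTε : ∀ a ∈ T, ‖F a‖ ≤ ε) (w : ℂ) (hw : ‖w‖ ≤ R) :
    ‖a4_P F T w‖ ≤ T.card * ε * (2 * R / δ) ^ T.card := by
  unfold a4_P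
  have hX : 1 ≤ 2 * R / δ := by
    rw [le_div_iff₀ hδ, one_mul]
    exact hδR
  have h1 : ∀ a ∈ T, ‖F a * ∏ b ∈ T.erase a, ((w - b) / (a - b))‖ ≤
      ε * (2 * R / δ) ^ T.card := by
    intro a ha
    rw [norm_mul]
    refine mul_le_mul (hTε a ha) ?_ (norm_nonneg _) hε
    rw [norm_prod]
    calc ∏ b ∈ T.erase a, ‖(w - b) / (a - b)‖ ≤ ∏ _b ∈ T.erase a, (2 * R / δ) := by
          refine Finset.prod_le_prod (fun b _ => norm_nonneg _) fun b hb => ?_
          rw [norm_div]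
          have hb' := Finset.mem_of_mem_erase hb
          have h2 : ‖w - b‖ ≤ 2 * R := (norm_sub_le _ _).trans (by
            have := hTρ b hb'
            linarith)
          have h3 : δ ≤ ‖a - b‖ := hT a ha b hb' (Finset.ne_of_mem_erase hb).symm
          have h4 : 0 ≤ 2 * R := hδ.le.trans hδR
          exact div_le_div₀ h4 h2 hδ h3
      _ = (2 * R / δ) ^ (T.erase a).card := by rw [Finset.prod_const]
      _ ≤ (2 * R / δ) ^ T.card :=
          pow_le_pow_right₀ hX (Finset.card_le_card (Finset.erase_subset a T))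
  refine (norm_sum_le _ _).trans ((Finset.sum_le_sum h1).trans (le_of_eq ?_))
  rw [Finset.sum_const, nsmul_eq_mul]
  ring

theorem schwarz_disc (F : ℂ → ℂ) (T : Finset ℂ) (ρ R R' B ε δ : ℝ)
    (hF : DifferentiableOn ℂ F (ball 0 R')) (hRR : R < R')
    (hρ : 0 < ρ) (hR : 13 * ρ ≤ R) (hδ : 0 < δ) (hδR : δ ≤ 2 * R) (hε : 0 ≤ ε)
    (hTρ : ∀ a ∈ T, ‖a‖ ≤ ρ) (hT : ∀ a ∈ T, ∀ b ∈ T, a ≠ b → δ ≤ ‖a - b‖)
    (hTε : ∀ a ∈ T, ‖F a‖ ≤ ε) (hB : ∀ w : ℂ, ‖w‖ ≤ R → ‖F w‖ ≤ B) (w : ℂ) (hw : ‖w‖ ≤ ρ) :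
    ‖F w‖ ≤ 2 * T.card * ε * (2 * R / δ) ^ T.card + ((6 : ℝ)⁻¹) ^ T.card * B := by
  have hρR : ρ ≤ R := by linarith
  have hP := a4_P_le F T ρ R ε δ hρR hδ hδR hε hTρ hT hTε
  set X : ℝ := T.card * ε * (2 * R / δ) ^ T.card with hX
  have hX0 : 0 ≤ X := (norm_nonneg _).trans (hP w (hw.trans hρR))
  have h1 := a4_schwarz0 R' (fun z => F z - a4_P F T z)
    (hF.sub (a4_P_diff F T).differentiableOn) T
    (fun a ha => by rw [a4_P_eq F T a ha, sub_self]) ρ R (B + X) hRR hρ hR hTρ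
    (fun z hz => (norm_sub_le _ _).trans (add_le_add (hB z hz.le) (hP z hz.le))) w hw
  have h2 : ‖F w‖ ≤ ‖F w - a4_P F T w‖ + ‖a4_P F T w‖ := by
    have := norm_add_le (F w - a4_P F T w) (a4_P F T w)
    rwa [sub_add_cancel] at this
  have h3 : ((6 : ℝ)⁻¹) ^ T.card ≤ 1 := pow_le_one₀ (by norm_num) (by norm_num)
  have h4 := hP w (hw.trans hρR)
  have h5 : ((6 : ℝ)⁻¹) ^ T.card * X ≤ 1 * X := mul_le_mul_of_nonneg_right h3 hX0
  have e : 2 * T.card * ε * (2 * R / δ) ^ T.card = X + X := by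
    rw [hX]
    ring
  rw [e]
  nlinarith

end ELT
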