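import Pool.Agent.ELT.P1
import Pool.Agent.ELT.A3b
import Pool.Agent.ELT.A4

set_option autoImplicit false

open PeriodPair LTD Metric

namespace ELT

/-! ## [ELT-A5] the Schwarz lemma for `Nf` (file A5.lean)

`R = 13ρ`, `R₁ = X R ≥ 1`, `A` from `ab_pair L` for `R₁`. `F w = Pf d D p (fun i => A (x i * w))`, differentiable on `ball 0 (2R)` (`x i * w ∈ ball 0 (2R₁)`; `Pf` is a finite sum of products). For `‖w‖ ≤ R`:
`‖F w‖ = Nf(x w) ∏‖A(x_i w)‖^{D-1}` (`Pf_eq_Nf`), and `e^{-G} ≤ ∏‖A(x_i w)‖^{D-1} ≤ e^{G}`, `G = C d D (1+R₁)³ = C d D (1+13Xρ)³`; `‖F w‖ ≤ D^d H e^G` (`Pf_le`). `schwarz_disc` with `R' = 2R`, `B = D^d H e^G`,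
`ε e^G` in place of `ε`; `2R/δ = 26ρ/δ`. The real number `C` is that of `ab_pair`. -/

theorem a5_diff (d D : ℕ) (p : (Fin d → Fin D) → ℂ) (q : ℂ → Fin d → Fin 2 → ℂ) (U : Set ℂ)
    (hq : ∀ i k, DifferentiableOn ℂ (fun w => q w i k) U) :
    DifferentiableOn ℂ (fun w => Pf d D p (q w)) U := by
  unfold Pf
  refine DifferentiableOn.fun_sum fun l _ => ?_
  refine (differentiableOn_const _).mul ?_
  refine DifferentiableOn.fun_finsetProd fun i _ => ?_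
  exact ((hq i 0).pow _).mul ((hq i 1).pow _)

theorem a5_prod (d D : ℕ) (a : Fin d → ℝ) (g G : ℝ) (hg : 0 ≤ g) (hG : g * (d * D) ≤ G)
    (ha : ∀ i, Real.exp (-g) ≤ a i ∧ a i ≤ Real.exp g) :
    Real.exp (-G) ≤ ∏ i, a i ^ (D - 1) ∧ ∏ i, a i ^ (D - 1) ≤ Real.exp G := by
  have hd : (0 : ℝ) ≤ d := Nat.cast_nonneg d
  have hD : ((D - 1 : ℕ) : ℝ) ≤ D := by
    exact_mod_cast Nat.sub_le D 1
  have hle : (d : ℝ) * (((D - 1 : ℕ) : ℝ) * g) ≤ G := by
    refine le_trans ?_ hG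
    have h1 : (d : ℝ) * (((D - 1 : ℕ) : ℝ) * g) ≤ d * (D * g) :=
      mul_le_mul_of_nonneg_left (mul_le_mul_of_nonneg_right hD hg) hd
    linarith
  constructor
  · calc Real.exp (-G) ≤ Real.exp (-((d : ℝ) * (((D - 1 : ℕ) : ℝ) * g))) :=
          Real.exp_le_exp.mpr (by linarith)
      _ = ∏ _i : Fin d, Real.exp (-g) ^ (D - 1) := by
          rw [Finset.prod_const, Finset.card_univ, Fintype.card_fin, ← Real.exp_nat_mul,
            ← Real.exp_nat_mul]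
          congr 1
          ring
      _ ≤ ∏ i, a i ^ (D - 1) := by
          refine Finset.prod_le_prod (fun i _ => by positivity) fun i _ => ?_
          exact pow_le_pow_left₀ (Real.exp_pos _).le (ha i).1 _
  · calc ∏ i, a i ^ (D - 1) ≤ ∏ _i : Fin d, Real.exp g ^ (D - 1) := by
          refine Finset.prod_le_prod (fun i _ => ?_) fun i _ => ?_
          · exact pow_nonneg ((Real.exp_pos _).le.trans (ha i).1) _
          · exact pow_le_pow_left₀ ((Real.exp_pos _).le.trans (ha i).1) (ha i).2 _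
      _ = Real.exp ((d : ℝ) * (((D - 1 : ℕ) : ℝ) * g)) := by
          rw [Finset.prod_const, Finset.card_univ, Fintype.card_fin, ← Real.exp_nat_mul,
            ← Real.exp_nat_mul]
      _ ≤ Real.exp G := Real.exp_le_exp.mpr hle

theorem nf_schwarz (L : PeriodPair) : ∃ C : ℝ, 1 ≤ C ∧ ∀ (d D : ℕ), 1 ≤ D →
    ∀ (p : (Fin d → Fin D) → ℤ) (x : Fin d → ℂ) (X H ρ δ ε G : ℝ) (T : Finset ℂ), 1 ≤ X →
      (∀ i, ‖x i‖ ≤ X) → 0 ≤ H → (∀ l, |((p l : ℤ) : ℝ)| ≤ H) → 1 ≤ ρ → 0 < δ → δ ≤ 26 * ρ →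
      0 ≤ ε → (∀ a ∈ T, ‖a‖ ≤ ρ) → (∀ a ∈ T, ∀ b ∈ T, a ≠ b → δ ≤ ‖a - b‖) →
      (∀ a ∈ T, Nf L d D p (fun i => x i * a) ≤ ε) →
      G = C * d * D * (1 + 13 * X * ρ) ^ 3 → ∀ w : ℂ, ‖w‖ ≤ ρ →
        Nf L d D p (fun i => x i * w) ≤ Real.exp G *
          (2 * T.card * (ε * Real.exp G) * (26 * ρ / δ) ^ T.card +
            ((6 : ℝ)⁻¹) ^ T.card * ((D : ℝ) ^ d * H * Real.exp G)) := by
  obtain ⟨C, hC, hA⟩ := ab_pair L
  refine ⟨C, hC, ?_⟩
  intro d D hD p x X H ρ δ ε G T hX hx hH hp hρ hδ hδρ hε hTρ hTδ hTε hG w hw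
  have hR1 : 1 ≤ 13 * X * ρ := by nlinarith
  obtain ⟨A, hAd, hAb⟩ := hA (13 * X * ρ) hR1
  set g : ℝ := C * (1 + 13 * X * ρ) ^ 3 with hg
  have hg0 : 0 ≤ g := by positivity
  have hGg : g * (d * D) ≤ G := by
    rw [hG, hg]
    apply le_of_eq
    ring
  have hG0 : 0 ≤ G := le_trans (by positivity) hGg
  set F : ℂ → ℂ := fun w => Pf d D (fun l => (p l : ℂ)) (fun i => A (x i * w)) with hFdef
  have hxw : ∀ i (v : ℂ) (r : ℝ), ‖v‖ ≤ r → ‖x i * v‖ ≤ X * r := by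
    intro i v r hv
    rw [norm_mul]
    exact mul_le_mul (hx i) hv (norm_nonneg _) (by linarith)
  -- the product of the norms
  have hP : ∀ v : ℂ, ‖v‖ ≤ 13 * ρ → Real.exp (-G) ≤ ∏ i, ‖A (x i * v)‖ ^ (D - 1) ∧
      ∏ i, ‖A (x i * v)‖ ^ (D - 1) ≤ Real.exp G := by
    intro v hv
    refine a5_prod d D (fun i => ‖A (x i * v)‖) g G hg0 hGg fun i => ?_
    have h1 := hAb (x i * v) (by
      refine (hxw i v (13 * ρ) hv).trans (le_of_eq ?_)
      ring)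
    exact ⟨h1.2.1, h1.2.2⟩
  have hNf : ∀ v : ℂ, ‖v‖ ≤ 13 * ρ →
      ‖F v‖ = Nf L d D p (fun i => x i * v) * ∏ i, ‖A (x i * v)‖ ^ (D - 1) := by
    intro v hv
    refine Pf_eq_Nf L d D p (fun i => x i * v) (fun i => A (x i * v)) fun i => ?_
    obtain ⟨c, -, hc⟩ := (hAb (x i * v) (by
      refine (hxw i v (13 * ρ) hv).trans (le_of_eq ?_)
      ring)).1
    exact ⟨c, hc⟩
  have hFB : ∀ v : ℂ, ‖v‖ ≤ 13 * ρ → ‖F v‖ ≤ (D : ℝ) ^ d * H * Real.exp G := by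
    intro v hv
    refine (Pf_le d D (fun l => (p l : ℂ)) H (fun l => ?_) (fun i => A (x i * v))).trans ?_
    · have h1 := hp l
      rw [Complex.norm_intCast]
      exact h1
    · exact mul_le_mul_of_nonneg_left (hP v hv).2 (by positivity)
  have hFT : ∀ a ∈ T, ‖F a‖ ≤ ε * Real.exp G := by
    intro a ha
    have h1 : ‖a‖ ≤ 13 * ρ := (hTρ a ha).trans (by linarith)
    rw [hNf a h1]
    exact mul_le_mul (hTε a ha) (hP a h1).2
      (le_trans (Real.exp_pos _).le (hP a h1).1) hε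
  have hFd : DifferentiableOn ℂ F (ball 0 (2 * (13 * ρ))) := by
    refine a5_diff d D _ (fun w i => A (x i * w)) _ fun i k => ?_
    refine (hAd k).comp (t := ball 0 (2 * (13 * X * ρ))) (by fun_prop) ?_
    intro v hv
    rw [mem_ball_zero_iff] at hv ⊢
    rw [norm_mul]
    calc ‖x i‖ * ‖v‖ ≤ X * ‖v‖ := mul_le_mul_of_nonneg_right (hx i) (norm_nonneg _)
      _ < X * (2 * (13 * ρ)) := mul_lt_mul_of_pos_left hv (by linarith)
      _ = 2 * (13 * X * ρ) := by ring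
  have hmain := schwarz_disc F T ρ (13 * ρ) (2 * (13 * ρ)) ((D : ℝ) ^ d * H * Real.exp G)
    (ε * Real.exp G) δ hFd (by linarith) (by linarith) le_rfl hδ (by linarith) (by positivity)
    hTρ hTδ hFT hFB w hw
  have hw13 : ‖w‖ ≤ 13 * ρ := by linarith
  have h1 := hNf w hw13
  have h2 := (hP w hw13).1
  have h3 := Nf_nonneg L d D p (fun i => x i * w)
  have h4 : Nf L d D p (fun i => x i * w) * Real.exp (-G) ≤ ‖F w‖ := by
    rw [h1]
    exact mul_le_mul_of_nonneg_left h2 h3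
  have h5 : Nf L d D p (fun i => x i * w) ≤ Real.exp G * ‖F w‖ := by
    have h6 := mul_le_mul_of_nonneg_left h4 (Real.exp_pos G).le
    rw [mul_left_comm, ← Real.exp_add, add_neg_cancel, Real.exp_zero, mul_one] at h6
    exact h6
  refine h5.trans (mul_le_mul_of_nonneg_left ?_ (Real.exp_pos G).le)
  rw [show 2 * (13 * ρ) = 26 * ρ by ring] at hmain
  exact hmain

end ELT
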