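import Mathlib

set_option autoImplicit false

open PeriodPair

namespace ELT

/-! ## [ELT-F1] scaling of a lattice (file F1.lean)

`scl L z` is the lattice `z⁻¹ L`. `g ∈ z⁻¹L ↔ zg ∈ L`: `mem_lattice`. `℘[z⁻¹L](g) = ∑' (1/(g - l/z)² - 1/(l/z)²) = z² ∑' (1/(zg-l)² - 1/l²)` (the definition `PeriodPair.weierstrassP`, `tsum` over the lattice, reindexed by the equivalence
`l ↦ l/z` of the lattices, `tsum_mul_left`; for `l = 0` or `g = l/z` both sides of the term are consistent: `1/0 = 0` in Lean). `G n` scales by `z^n` (`PeriodPair.G`), `g₂ = 60 G 4`, `g₃ = 140 G 6`. -/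

/-- The lattice `z⁻¹ L`. -/
noncomputable def scl (L : PeriodPair) (z : ℂ) (hz : z ≠ 0) : PeriodPair where
  ω₁ := L.ω₁ / z
  ω₂ := L.ω₂ / z
  indep := by
    rw [LinearIndependent.pair_iff]
    intro s t h
    apply LinearIndependent.pair_iff.mp L.indep s t
    have h2 : (s • (L.ω₁ / z) + t • (L.ω₂ / z)) * z = 0 := by rw [h, zero_mul]
    rw [add_mul, smul_mul_assoc, smul_mul_assoc, div_mul_cancel₀ _ hz, div_mul_cancel₀ _ hz] at h2
    exact h2

theorem scl_mem (L : PeriodPair) (z : ℂ) (hz : z ≠ 0) (g : ℂ) :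
    g ∈ (scl L z hz).lattice ↔ z * g ∈ L.lattice := by
  rw [mem_lattice, mem_lattice]
  constructor
  · rintro ⟨m, n, h⟩
    refine ⟨m, n, ?_⟩
    rw [← h]
    change (m : ℂ) * L.ω₁ + n * L.ω₂ = z * ((m : ℂ) * (L.ω₁ / z) + n * (L.ω₂ / z))
    field_simp
  · rintro ⟨m, n, h⟩
    refine ⟨m, n, ?_⟩
    apply mul_left_cancel₀ hz
    rw [← h]
    change z * ((m : ℂ) * (L.ω₁ / z) + n * (L.ω₂ / z)) = (m : ℂ) * L.ω₁ + n * L.ω₂
    field_simp

/-- the lattices correspond -/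
private noncomputable def f1_e (L : PeriodPair) (z : ℂ) (hz : z ≠ 0) :
    (scl L z hz).lattice ≃ L.lattice where
  toFun l := ⟨z * l.1, (scl_mem L z hz l.1).1 l.2⟩
  invFun l := ⟨l.1 / z, (scl_mem L z hz (l.1 / z)).2 (by rw [mul_div_cancel₀ _ hz]; exact l.2)⟩
  left_inv l := by
    apply Subtype.ext
    exact mul_div_cancel_left₀ l.1 hz
  right_inv l := by
    apply Subtype.ext
    exact mul_div_cancel₀ l.1 hz

private theorem f1_coe (L : PeriodPair) (z : ℂ) (hz : z ≠ 0) (l : (scl L z hz).lattice) :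
    ((f1_e L z hz l : L.lattice) : ℂ) = z * (l : ℂ) := rfl

theorem scl_wp (L : PeriodPair) (z : ℂ) (hz : z ≠ 0) (g : ℂ) :
    ℘[scl L z hz] g = z ^ 2 * ℘[L] (z * g) := by
  unfold weierstrassP
  rw [← tsum_mul_left, ← (f1_e L z hz).tsum_eq]
  refine tsum_congr fun l => ?_
  rw [f1_coe, ← mul_sub, mul_pow, mul_pow, one_div, one_div, one_div, one_div, mul_inv, mul_inv]
  have h2 : z ^ 2 ≠ 0 := pow_ne_zero 2 hz
  have h3 : z ^ 2 * (z ^ 2)⁻¹ = 1 := mul_inv_cancel₀ h2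
  linear_combination (-(((g - (l : ℂ)) ^ 2)⁻¹ - ((l : ℂ) ^ 2)⁻¹)) * h3

private theorem f1_G (L : PeriodPair) (z : ℂ) (hz : z ≠ 0) (n : ℕ) :
    (scl L z hz).G n = z ^ n * L.G n := by
  unfold G
  rw [← tsum_mul_left, ← (f1_e L z hz).tsum_eq]
  refine tsum_congr fun l => ?_
  rw [f1_coe, mul_pow, mul_inv, ← mul_assoc, mul_inv_cancel₀ (pow_ne_zero n hz), one_mul]

theorem scl_g2 (L : PeriodPair) (z : ℂ) (hz : z ≠ 0) : (scl L z hz).g₂ = z ^ 4 * L.g₂ := by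
  unfold g₂
  rw [f1_G]
  ring

theorem scl_g3 (L : PeriodPair) (z : ℂ) (hz : z ≠ 0) : (scl L z hz).g₃ = z ^ 6 * L.g₃ := by
  unfold g₃
  rw [f1_G]
  ring

end ELT
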