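import Mathlib

set_option autoImplicit false

open Module

namespace ELT

/-! ## [ELT-N1] Liouville's inequality in a number field (file N1.lean)

`D = finrank ℚ K`. There is an integer `q ≥ 1` with all `q v_i` algebraic integers (`exists_integral_multiple`...). For `l ≠ 0`: `α = q ∑ l_i v_i ∈ K` is a nonzero algebraic integer, so `|N_{K/ℚ}(α)| ≥ 1` is a nonzero integer; `N(α) = ∏_σ σ(α)` over the `D` embeddings
`σ : K → ℂ` (`Algebra.norm_eq_prod_embeddings`), `|σ(α)| ≤ q n W S`, `W` a bound for all `|σ(v_i)|`; the embedding `σ₀` = inclusion has `|σ₀(α)| = q ‖∑ l_i v_i‖`. So `q ‖∑ l_i v_i‖ ≥ (1 + q n W S)^{-(D-1)} ≥ c' S^{-(D-1)} ≥ c' S^{-D}` (`S ≥ 1`). -/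

theorem liou (K : IntermediateField ℚ ℂ) [FiniteDimensional ℚ K] (n : ℕ) (v : Fin n → K)
    (hv : LinearIndependent ℚ v) : ∃ c : ℝ, 0 < c ∧ ∀ S : ℕ, 1 ≤ S → ∀ l : Fin n → ℤ, l ≠ 0 →
      (∀ i, |l i| ≤ (S : ℤ)) →
        c / (S : ℝ) ^ (finrank ℚ K) ≤ ‖∑ i, (l i : ℂ) * ((v i : K) : ℂ)‖ := by
  classical
  obtain ⟨q, hq0, hq⟩ := exists_integral_multiples ℤ ℚ (Finset.univ.image v)
  have hW : ∃ W : ℝ, 0 ≤ W ∧ ∀ (σ : K →ₐ[ℚ] ℂ) i, ‖σ (v i)‖ ≤ W := by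
    refine ⟨∑ σ : K →ₐ[ℚ] ℂ, ∑ i, ‖σ (v i)‖,
      Finset.sum_nonneg fun σ _ => Finset.sum_nonneg fun i _ => norm_nonneg _, fun σ i => ?_⟩
    calc ‖σ (v i)‖ ≤ ∑ i, ‖σ (v i)‖ :=
          Finset.single_le_sum (f := fun i => ‖σ (v i)‖) (fun _ _ => norm_nonneg _)
            (Finset.mem_univ i)
      _ ≤ ∑ σ : K →ₐ[ℚ] ℂ, ∑ i, ‖σ (v i)‖ :=
          Finset.single_le_sum (f := fun σ : K →ₐ[ℚ] ℂ => ∑ i, ‖σ (v i)‖)
            (fun _ _ => Finset.sum_nonneg fun i _ => norm_nonneg _) (Finset.mem_univ σ)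
  obtain ⟨W, hW0, hW⟩ := hW
  have hq1 : (0 : ℝ) < |(q : ℝ)| := by
    have : (q : ℝ) ≠ 0 := by exact_mod_cast hq0
    exact abs_pos.mpr this
  set C : ℝ := |(q : ℝ)| * n * W + 1 with hC
  have hC1 : 1 ≤ C := by
    have : 0 ≤ |(q : ℝ)| * n * W := by positivity
    linarith
  have hC0 : 0 < C := lt_of_lt_of_le one_pos hC1
  refine ⟨1 / (|(q : ℝ)| * C ^ (finrank ℚ K)), by positivity, fun S hS l hl hlS => ?_⟩
  have hS1 : (1 : ℝ) ≤ (S : ℝ) := by exact_mod_cast hS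
  have hS0 : (0 : ℝ) < (S : ℝ) := lt_of_lt_of_le one_pos hS1
  set α : K := ∑ i, (l i) • (q • v i) with hα
  have hint : IsIntegral ℤ α := by
    refine IsIntegral.sum _ fun i _ => ?_
    exact (hq _ (Finset.mem_image_of_mem _ (Finset.mem_univ i))).smul (l i)
  have hα' : α = (q : ℚ) • ∑ i, ((l i : ℤ) : ℚ) • v i := by
    rw [hα, Finset.smul_sum]
    refine Finset.sum_congr rfl fun i _ => ?_
    rw [Int.cast_smul_eq_zsmul, Int.cast_smul_eq_zsmul]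
    exact smul_comm _ _ _
  have hne : α ≠ 0 := by
    rw [hα']
    intro h0
    have hq0' : (q : ℚ) ≠ 0 := by exact_mod_cast hq0
    have h1 := (smul_eq_zero.mp h0).resolve_left hq0'
    have h2 := Fintype.linearIndependent_iff.mp hv (fun i => ((l i : ℤ) : ℚ)) h1
    apply hl
    funext i
    have := h2 i
    exact_mod_cast this
  have hN0 : Algebra.norm ℚ α ≠ 0 := Algebra.norm_ne_zero_iff.mpr hne
  obtain ⟨m, hm⟩ := (IsIntegrallyClosed.isIntegral_iff (R := ℤ) (K := ℚ)).mp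
    (Algebra.isIntegral_norm ℚ hint)
  have hm0 : m ≠ 0 := by
    intro h
    apply hN0
    rw [← hm, h, map_zero]
  have hprod : algebraMap ℚ ℂ (Algebra.norm ℚ α) = ∏ σ : K →ₐ[ℚ] ℂ, σ α :=
    Algebra.norm_eq_prod_embeddings ℚ ℂ α
  have h1 : (1 : ℝ) ≤ ∏ σ : K →ₐ[ℚ] ℂ, ‖σ α‖ := by
    rw [← norm_prod, ← hprod, ← hm]
    have h2 : algebraMap ℚ ℂ (algebraMap ℤ ℚ m) = ((m : ℤ) : ℂ) := by simp
    rw [h2, Complex.norm_intCast]
    have h3 : 1 ≤ |m| := Int.one_le_abs hm0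
    exact_mod_cast h3
  have hσ : ∀ σ : K →ₐ[ℚ] ℂ, ‖σ α‖ ≤ C * S := by
    intro σ
    rw [hα, map_sum]
    calc ‖∑ i, σ ((l i) • (q • v i))‖ ≤ ∑ i, ‖σ ((l i) • (q • v i))‖ := norm_sum_le _ _
      _ ≤ ∑ i : Fin n, (S : ℝ) * (|(q : ℝ)| * W) := by
          refine Finset.sum_le_sum fun i _ => ?_
          rw [map_zsmul, map_zsmul, zsmul_eq_mul, zsmul_eq_mul, norm_mul, norm_mul,
            Complex.norm_intCast, Complex.norm_intCast]
          have h4 : |((l i : ℤ) : ℝ)| ≤ (S : ℝ) := by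
            have := hlS i
            exact_mod_cast this
          have h5 := hW σ i
          have h6 : |(q : ℝ)| * ‖σ (v i)‖ ≤ |(q : ℝ)| * W := mul_le_mul_of_nonneg_left h5 hq1.le
          exact mul_le_mul h4 h6 (by positivity) hS0.le
      _ = |(q : ℝ)| * n * W * S := by
          rw [Finset.sum_const, Finset.card_univ, Fintype.card_fin, nsmul_eq_mul]; ring
      _ ≤ C * S := by
          refine mul_le_mul_of_nonneg_right ?_ hS0.le
          rw [hC]; linarith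
  have hcard : Fintype.card (K →ₐ[ℚ] ℂ) = finrank ℚ K := AlgHom.card ℚ K ℂ
  let σ₀ : K →ₐ[ℚ] ℂ := K.val
  have hCS : 1 ≤ C * S := by
    have := mul_le_mul hC1 hS1 zero_le_one hC0.le
    linarith
  have h7 : (∏ σ : K →ₐ[ℚ] ℂ, ‖σ α‖) ≤ ‖σ₀ α‖ * (C * S) ^ (finrank ℚ K) := by
    rw [← Finset.mul_prod_erase Finset.univ (fun σ : K →ₐ[ℚ] ℂ => ‖σ α‖) (Finset.mem_univ σ₀)]
    refine mul_le_mul_of_nonneg_left ?_ (norm_nonneg _)
    calc ∏ σ ∈ Finset.univ.erase σ₀, ‖σ α‖ ≤ ∏ σ ∈ (Finset.univ : Finset (K →ₐ[ℚ] ℂ)).erase σ₀, (C * S) :=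
          Finset.prod_le_prod (fun _ _ => norm_nonneg _) fun σ _ => hσ σ
      _ = (C * S) ^ ((Finset.univ : Finset (K →ₐ[ℚ] ℂ)).erase σ₀).card := by
          rw [Finset.prod_const]
      _ ≤ (C * S) ^ (finrank ℚ K) := by
          refine pow_le_pow_right₀ hCS ?_
          rw [← hcard, ← Finset.card_univ]
          exact Finset.card_le_card (Finset.erase_subset _ _)
  have h8 : ‖σ₀ α‖ = |(q : ℝ)| * ‖∑ i, (l i : ℂ) * ((v i : K) : ℂ)‖ := by
    have : σ₀ α = (q : ℂ) * ∑ i, (l i : ℂ) * ((v i : K) : ℂ) := by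
      change ((α : K) : ℂ) = _
      rw [hα, Finset.mul_sum]
      push_cast
      refine Finset.sum_congr rfl fun i _ => ?_
      rw [zsmul_eq_mul, zsmul_eq_mul]
      ring
    rw [this, norm_mul, Complex.norm_intCast]
  rw [h8] at h7
  have h9 := h1.trans h7
  rw [mul_pow] at h9
  rw [div_div, div_le_iff₀ (by positivity)]
  calc (1 : ℝ) ≤ _ := h9
    _ = _ := by ring

end ELT
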