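import Pool.Agent.ELT.K5
import Pool.Agent.ELT.N1

set_option autoImplicit false

open Module PeriodPair

namespace ELT

/-! ## [ELT-N2] choice of the points `x_i` (file N2.lean)

`th_lower`: `c_θ > 0` with `|a| + |b| ≥ 1 ⇒ ‖a θ₁ + b θ₂‖ ≥ c_θ` for integers `a, b`: for `v = aθ₁ + bθ₂`, `Re(v ω₁) = a`, `Re(v ω₂) = b` (from `th_re` applied to `ω₁`, `ω₂`), so `|a| ≤ ‖v‖‖ω₁‖`, `|b| ≤ ‖v‖‖ω₂‖`.
`c₁` from `liou` for `x₀` (`S = B`): the numbers `∑ e_k x₀_k`, `e ∈ [0,B)^{nX}`, are pairwise at distance `≥ c₁/B^{finrank} ≥ c₁/B^{2nX}` (`B ≥ 1`). Put `c = c₁ c_θ/3`, `η = c/B^{2nX}`.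
Induction on `i ≤ d`: choose `x_0, .., x_{i-1}` with `NR` for them (`(2H+1)^{2i} ≤ (2H+1)^{2d} < B^{nX}`). For `x_i`: for every `a : Fin (i+1) → Fin 2 → ℤ`, `|a| ≤ H` with `a_i ≠ 0`, the bad set `{x : ‖s_a + v_a x‖ < η}`, `v_a = a_{i0}θ₁ + a_{i1}θ₂`, is contained in a disc of radius
`η/c_θ = c₁/(3B^{2nX})`, which contains at most one candidate. There are `B^{nX} > (2H+1)^{2(i+1)}` candidates, so some candidate is good. For `a_i = 0` use the induction hypothesis. (State the induction for `Fin i → Fin nX → ℕ` and use `Fin.snoc`, or define the predicate with `∀ i ≤ d`.) -/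

theorem n2_th (L : PeriodPair) : ((th L 0 * L.ω₁).re = 1 ∧ (th L 1 * L.ω₁).re = 0) ∧
    (th L 0 * L.ω₂).re = 0 ∧ (th L 1 * L.ω₂).re = 1 := by
  have h := LinearIndependent.pair_iff.1 L.indep
  constructor
  · have h1 := th_re L L.ω₁
    obtain ⟨h2, h3⟩ := h (1 - (th L 0 * L.ω₁).re) (-(th L 1 * L.ω₁).re) (by
      rw [Complex.real_smul, Complex.real_smul]
      push_cast
      linear_combination h1)
    exact ⟨by linarith, by linarith⟩
  · have h1 := th_re L L.ω₂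
    obtain ⟨h2, h3⟩ := h (-(th L 0 * L.ω₂).re) (1 - (th L 1 * L.ω₂).re) (by
      rw [Complex.real_smul, Complex.real_smul]
      push_cast
      linear_combination h1)
    exact ⟨by linarith, by linarith⟩

theorem n2_re (L : PeriodPair) (a b : ℤ) (z : ℂ) :
    (((a : ℂ) * th L 0 + (b : ℂ) * th L 1) * z).re =
      a * (th L 0 * z).re + b * (th L 1 * z).re := by
  have h : ((a : ℂ) * th L 0 + (b : ℂ) * th L 1) * z =
      ((a : ℝ) : ℂ) * (th L 0 * z) + ((b : ℝ) : ℂ) * (th L 1 * z) := by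
    push_cast
    ring
  rw [h, Complex.add_re, Complex.re_ofReal_mul, Complex.re_ofReal_mul]

theorem n2_lower (L : PeriodPair) : ∃ c : ℝ, 0 < c ∧ ∀ a b : ℤ, (a ≠ 0 ∨ b ≠ 0) →
    c ≤ ‖(a : ℂ) * th L 0 + (b : ℂ) * th L 1‖ := by
  obtain ⟨⟨e1, e2⟩, e3, e4⟩ := n2_th L
  have hp : 0 < ‖L.ω₁‖ + ‖L.ω₂‖ + 1 := by positivity
  refine ⟨1 / (‖L.ω₁‖ + ‖L.ω₂‖ + 1), by positivity, fun a b hab => ?_⟩
  set v := (a : ℂ) * th L 0 + (b : ℂ) * th L 1 with hv
  rw [div_le_iff₀ hp]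
  have h0 : 0 ≤ ‖v‖ := norm_nonneg v
  have n1 : 0 ≤ ‖L.ω₁‖ := norm_nonneg _
  have n2 : 0 ≤ ‖L.ω₂‖ := norm_nonneg _
  rcases hab with h | h
  · have h1 : (v * L.ω₁).re = a := by
      rw [hv, n2_re, e1, e2]
      ring
    have h2 : |(v * L.ω₁).re| ≤ ‖v * L.ω₁‖ := Complex.abs_re_le_norm _
    rw [h1, norm_mul] at h2
    have h3 : (1 : ℝ) ≤ |(a : ℝ)| := by
      have : (1 : ℤ) ≤ |a| := Int.one_le_abs h
      exact_mod_cast this
    nlinarith [mul_nonneg h0 n2]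
  · have h1 : (v * L.ω₂).re = b := by
      rw [hv, n2_re, e3, e4]
      ring
    have h2 : |(v * L.ω₂).re| ≤ ‖v * L.ω₂‖ := Complex.abs_re_le_norm _
    rw [h1, norm_mul] at h2
    have h3 : (1 : ℝ) ≤ |(b : ℝ)| := by
      have : (1 : ℤ) ≤ |b| := Int.one_le_abs h
      exact_mod_cast this
    nlinarith [mul_nonneg h0 n1]

theorem n2_step (L : PeriodPair) (nX H B i : ℕ) (X : Fin nX → ℂ) (c₁ cθ η : ℝ)
    (_hcθ : 0 < cθ) (hc₁ : 0 < c₁)
    (hθ : ∀ a b : ℤ, (a ≠ 0 ∨ b ≠ 0) → cθ ≤ ‖(a : ℂ) * th L 0 + (b : ℂ) * th L 1‖)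
    (hX : ∀ l : Fin nX → ℤ, l ≠ 0 → (∀ k, |l k| ≤ (B : ℤ)) → c₁ ≤ ‖∑ k, (l k : ℂ) * X k‖)
    (hη : 2 * η < cθ * c₁) (hc : (2 * H + 1) ^ (2 * (i + 1)) < B ^ nX)
    (z : Fin i → ℂ) (hz : NR L z H η) :
    ∃ f : Fin nX → Fin B,
      NR L (Fin.cons (∑ k, ((f k : ℕ) : ℂ) * X k) z : Fin (i + 1) → ℂ) H η := by
  classical
  by_contra hcon
  push Not at hcon
  have h1 : ∀ f : Fin nX → Fin B, ∃ a : Fin (i + 1) → Fin 2 → ℤ, a ≠ 0 ∧
      (∀ j k, |a j k| ≤ (H : ℤ)) ∧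
      ‖((a 0 0 : ℂ) * th L 0 + (a 0 1 : ℂ) * th L 1) * (∑ k, ((f k : ℕ) : ℂ) * X k) +
        ∑ j : Fin i, ((a j.succ 0 : ℂ) * th L 0 + (a j.succ 1 : ℂ) * th L 1) * z j‖ < η := by
    intro f
    have h2 := hcon f
    unfold NR at h2
    push Not at h2
    obtain ⟨a, ha, hb, hc⟩ := h2
    refine ⟨a, ha, hb, ?_⟩
    rw [Fin.sum_univ_succ] at hc
    simpa only [Fin.cons_zero, Fin.cons_succ] using hc
  choose g g0 g1 g2 using h1
  have h3 : ∀ f, g f 0 0 ≠ 0 ∨ g f 0 1 ≠ 0 := by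
    intro f
    by_contra h4
    push Not at h4
    obtain ⟨h5, h6⟩ := h4
    have h7 := hz (fun j k => g f j.succ k) (by
      intro h8
      apply g0 f
      funext j k
      refine Fin.cases ?_ (fun j => ?_) j
      · fin_cases k
        · exact h5
        · exact h6
      · exact congrFun (congrFun h8 j) k) (fun j k => g1 f j.succ k)
    have h8 := g2 f
    rw [h5, h6, Int.cast_zero, zero_mul, zero_mul, add_zero, zero_mul, zero_add] at h8
    exact absurd h8 (not_lt.2 h7)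
  have h4 : Function.Injective g := by
    intro f f' hff
    by_contra hne
    have e1 := g2 f
    have e2 := g2 f'
    rw [← hff] at e2
    set v := (g f 0 0 : ℂ) * th L 0 + (g f 0 1 : ℂ) * th L 1 with hv
    set s := ∑ j : Fin i, ((g f j.succ 0 : ℂ) * th L 0 + (g f j.succ 1 : ℂ) * th L 1) * z j
    have e3 := hX (fun k => ((f k : ℕ) : ℤ) - ((f' k : ℕ) : ℤ)) (by
      intro h5
      apply hne
      funext k
      have h6 : ((f k : ℕ) : ℤ) - ((f' k : ℕ) : ℤ) = 0 := congrFun h5 k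
      exact Fin.ext (by omega)) (by
      intro k
      have h5 := (f k).isLt
      have h6 := (f' k).isLt
      show |((f k : ℕ) : ℤ) - ((f' k : ℕ) : ℤ)| ≤ (B : ℤ)
      rw [abs_le]
      omega)
    have e4 : ∑ k, (((((f k : ℕ) : ℤ) - ((f' k : ℕ) : ℤ) : ℤ)) : ℂ) * X k =
        (∑ k, ((f k : ℕ) : ℂ) * X k) - ∑ k, ((f' k : ℕ) : ℂ) * X k := by
      rw [← Finset.sum_sub_distrib]
      refine Finset.sum_congr rfl fun k _ => ?_
      push_cast
      ring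
    rw [e4] at e3
    have e5 : ‖v * ((∑ k, ((f k : ℕ) : ℂ) * X k) - ∑ k, ((f' k : ℕ) : ℂ) * X k)‖ < 2 * η := by
      have e6 : v * ((∑ k, ((f k : ℕ) : ℂ) * X k) - ∑ k, ((f' k : ℕ) : ℂ) * X k) =
          (v * (∑ k, ((f k : ℕ) : ℂ) * X k) + s) -
            (v * (∑ k, ((f' k : ℕ) : ℂ) * X k) + s) := by ring
      rw [e6]
      refine (norm_sub_le _ _).trans_lt ?_
      linarith
    rw [norm_mul] at e5
    have e6 := mul_le_mul (hθ _ _ (h3 f)) e3 hc₁.le (norm_nonneg v)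
    linarith
  have h5 : (Finset.univ : Finset (Fin nX → Fin B)).card ≤
      (Fintype.piFinset fun _ : Fin (i + 1) => Fintype.piFinset fun _ : Fin 2 =>
        Finset.Icc (-(H : ℤ)) H).card := by
    refine Finset.card_le_card_of_injOn g (fun f _ => ?_) (h4.injOn)
    refine Finset.mem_coe.2 (Fintype.mem_piFinset.2 fun j => Fintype.mem_piFinset.2 fun k =>
      Finset.mem_Icc.2 (abs_le.1 (g1 f j k)))
  rw [Finset.card_univ, Fintype.card_fun, Fintype.card_fin, Fintype.card_fin,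
    Fintype.card_piFinset, Finset.prod_const, Fintype.card_piFinset, Finset.prod_const,
    Int.card_Icc, Finset.card_univ, Finset.card_univ, Fintype.card_fin, Fintype.card_fin,
    ← pow_mul] at h5
  have h6 : ((H : ℤ) + 1 - -(H : ℤ)).toNat = 2 * H + 1 := by omega
  rw [h6] at h5
  omega

theorem nr_exist (L : PeriodPair) (d nX : ℕ) (K : IntermediateField ℚ ℂ) [FiniteDimensional ℚ K]
    (x : Fin nX → K) (hx : LinearIndependent ℚ x) (hK : finrank ℚ K ≤ 2 * nX) :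
    ∃ c : ℝ, 0 < c ∧ ∀ H B : ℕ, (2 * H + 1) ^ (2 * d) < B ^ nX →
      ∃ e : Fin d → Fin nX → ℕ, (∀ i k, e i k < B) ∧
        NR L (fun i => ∑ k, (e i k : ℂ) * ((x k : K) : ℂ)) H (c / (B : ℝ) ^ (2 * nX)) := by
  obtain ⟨cθ, hcθ, hθ⟩ := n2_lower L
  obtain ⟨c₁, hc₁, hl⟩ := liou K nX x hx
  refine ⟨c₁ * cθ / 3, by positivity, fun H B hHB => ?_⟩
  have hB : 1 ≤ B := by
    by_contra h
    have h1 : B = 0 := by omega
    rcases Nat.eq_zero_or_pos nX with h2 | h2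
    · rw [h2, pow_zero] at hHB
      have h3 : 1 ≤ (2 * H + 1) ^ (2 * d) := Nat.one_le_pow _ _ (by omega)
      omega
    · rw [h1, zero_pow (by omega)] at hHB
      omega
  have hBr : (1 : ℝ) ≤ B := by exact_mod_cast hB
  set η := c₁ * cθ / 3 / (B : ℝ) ^ (2 * nX) with hη
  have hη1 : 2 * η < cθ * (c₁ / (B : ℝ) ^ (finrank ℚ K)) := by
    have h1 : (B : ℝ) ^ (finrank ℚ K) ≤ (B : ℝ) ^ (2 * nX) := pow_le_pow_right₀ hBr hK
    have h2 : c₁ / (B : ℝ) ^ (2 * nX) ≤ c₁ / (B : ℝ) ^ (finrank ℚ K) :=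
      div_le_div_of_nonneg_left hc₁.le (by positivity) h1
    have h3 : 0 < c₁ / (B : ℝ) ^ (2 * nX) := by positivity
    have h4 : 2 * η = 2 / 3 * (cθ * (c₁ / (B : ℝ) ^ (2 * nX))) := by
      rw [hη]
      ring
    have h5 : cθ * (c₁ / (B : ℝ) ^ (2 * nX)) ≤ cθ * (c₁ / (B : ℝ) ^ (finrank ℚ K)) :=
      mul_le_mul_of_nonneg_left h2 hcθ.le
    have h6 : 0 < cθ * (c₁ / (B : ℝ) ^ (2 * nX)) := mul_pos hcθ h3
    linarith
  have main : ∀ i : ℕ, i ≤ d → ∃ e : Fin i → Fin nX → ℕ, (∀ i k, e i k < B) ∧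
      NR L (fun i => ∑ k, (e i k : ℂ) * ((x k : K) : ℂ)) H η := by
    intro i
    induction i with
    | zero =>
      intro _
      refine ⟨fun j => Fin.elim0 j, fun j => Fin.elim0 j, ?_⟩
      intro a ha
      exact absurd (funext fun j => Fin.elim0 j) ha
    | succ i ih =>
      intro hi
      obtain ⟨e, he, hz⟩ := ih (by omega)
      have hc : (2 * H + 1) ^ (2 * (i + 1)) < B ^ nX :=
        (Nat.pow_le_pow_right (by omega) (by omega)).trans_lt hHB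
      obtain ⟨f, hf⟩ := n2_step L nX H B i (fun k => ((x k : K) : ℂ))
        (c₁ / (B : ℝ) ^ (finrank ℚ K)) cθ η hcθ (by positivity) hθ
        (fun l hl0 hl1 => hl B hB l hl0 hl1) hη1 hc _ hz
      refine ⟨Fin.cons (fun k => (f k : ℕ)) e, ?_, ?_⟩
      · intro j k
        refine Fin.cases ?_ (fun j => ?_) j
        · rw [Fin.cons_zero]
          exact (f k).isLt
        · rw [Fin.cons_succ]
          exact he j k
      · have h1 : (fun j : Fin (i + 1) => ∑ k, (((Fin.cons (fun k => (f k : ℕ)) e :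
            Fin (i + 1) → Fin nX → ℕ) j k : ℕ) : ℂ) * ((x k : K) : ℂ)) =
            (Fin.cons (∑ k, ((f k : ℕ) : ℂ) * ((x k : K) : ℂ))
              (fun i => ∑ k, (e i k : ℂ) * ((x k : K) : ℂ)) : Fin (i + 1) → ℂ) := by
          funext j
          refine Fin.cases ?_ (fun j => ?_) j
          · rw [Fin.cons_zero, Fin.cons_zero]
          · rw [Fin.cons_succ, Fin.cons_succ]
        rw [h1]
        exact hf
  exact main d le_rfl

end ELT
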