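import Mathlib

set_option autoImplicit false

namespace ELT

/-! ## [ELT-NU3] the small quantities (file NU3.lean)

From `S'^{10} ≤ 2^{10} D`, `B^{10} ≤ K D`: `(B S')^{10} ≤ 2^{10} K D²`, so `(B S')^5 ≤ 2^5 √K D ≤ 2^5 K D`, `(B S' + 1)^5 ≤ 2^5 (B S')^5 ≤ 2^{10} K D`. So `d D (CR (BS'+1)^5) (1+lU) ≤ K₁ D²`, and
`Cs d D (1 + 13 (KX B)(m Y S'))³ ≤ K₂ D (B S')³ ≤ K₂ D (BS')^5 ≤ K₃ D²`. Finally `K D² ≤ N/16` for `N ≥ N₀(K)`: `(K D²)^4 = K^4 D^8 ≤ 2^8 K^4 N ≤ (N/16)^4`. -/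

theorem nu3_fin (Q N : ℝ) (hQ : 0 ≤ Q) (hN : 2 ^ 24 * Q ^ 4 + 1 ≤ N) (D : ℝ) (hD : 1 ≤ D)
    (h8 : D ^ 8 ≤ 2 ^ 8 * N) : Q * D ^ 2 ≤ N / 16 := by
  have hQ4 : 0 ≤ Q ^ 4 := by positivity
  have hN1 : 1 ≤ N := by nlinarith
  have h1 : (Q * D ^ 2) ^ 4 ≤ (N / 16) ^ 4 := by
    have h3 : 2 ^ 24 * Q ^ 4 ≤ N ^ 3 := by
      have h4 : N ≤ N ^ 3 := by
        have : N * 1 ≤ N * N ^ 2 := mul_le_mul_of_nonneg_left (one_le_pow₀ hN1) (by linarith)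
        calc N = N * 1 := (mul_one N).symm
          _ ≤ N * N ^ 2 := this
          _ = N ^ 3 := by ring
      linarith
    calc (Q * D ^ 2) ^ 4 = Q ^ 4 * D ^ 8 := by ring
      _ ≤ Q ^ 4 * (2 ^ 8 * N) := mul_le_mul_of_nonneg_left h8 hQ4
      _ = (2 ^ 24 * Q ^ 4) * N / 2 ^ 16 := by ring
      _ ≤ N ^ 3 * N / 2 ^ 16 := by
          apply div_le_div_of_nonneg_right _ (by positivity)
          exact mul_le_mul_of_nonneg_right h3 (by linarith)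
      _ = (N / 16) ^ 4 := by ring
  exact (pow_le_pow_iff_left₀ (by positivity) (by positivity) (by norm_num)).mp h1

theorem nu_c (d m : ℕ) (K CR KX Y Cs lU : ℝ) (hK : 1 ≤ K) (hCR : 1 ≤ CR) (hKX : 1 ≤ KX)
    (hY : 1 ≤ Y) (hCs : 1 ≤ Cs) (hlU : 0 ≤ lU) :
    ∃ N₀ : ℝ, ∀ N : ℝ, N₀ ≤ N → ∀ D S' B : ℕ, 1 ≤ D → 1 ≤ S' → 1 ≤ B →
      (D : ℝ) ^ 8 ≤ 2 ^ 8 * N → (S' : ℝ) ^ 10 ≤ 2 ^ 10 * D → (B : ℝ) ^ 10 ≤ K * D →
      (d : ℝ) * D * ((CR * (((B * S' : ℕ) : ℝ) + 1) ^ 5) * (1 + lU)) ≤ N / 16 ∧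
      (d : ℝ) * D * (CR * (((B * S' : ℕ) : ℝ) + 1) ^ 5) ≤ N / 16 ∧
      Cs * d * D * (1 + 13 * (KX * B) * (m * Y * S')) ^ 3 ≤ N / 16 := by
  set c : ℝ := 1 + 13 * KX * m * Y with hc
  have hc0 : 0 ≤ c := by rw [hc]; positivity
  set Q : ℝ := d * CR * 2 ^ 10 * K * (1 + lU) + Cs * d * c ^ 3 * 2 ^ 5 * K with hQ
  have hQa : 0 ≤ d * CR * 2 ^ 10 * K * (1 + lU) := by positivity
  have hQb : 0 ≤ Cs * d * c ^ 3 * 2 ^ 5 * K := by positivity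
  have hQ0 : 0 ≤ Q := by rw [hQ]; linarith
  refine ⟨2 ^ 24 * Q ^ 4 + 1, ?_⟩
  intro N hN D S' B hD hS' hB h8 hS10 hB10
  have hDr : (1 : ℝ) ≤ D := by exact_mod_cast hD
  have hSr : (1 : ℝ) ≤ S' := by exact_mod_cast hS'
  have hBr : (1 : ℝ) ≤ B := by exact_mod_cast hB
  have hfin := nu3_fin Q N hQ0 hN D hDr h8
  push_cast
  set X : ℝ := (B : ℝ) * (S' : ℝ) with hX
  have hX1 : 1 ≤ X := one_le_mul_of_one_le_of_one_le hBr hSr
  have hX0 : 0 ≤ X := by linarith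
  have hX5 : X ^ 5 ≤ 2 ^ 5 * K * D := by
    have h1 : (X ^ 5) ^ 2 ≤ (2 ^ 5 * K * D) ^ 2 := by
      calc (X ^ 5) ^ 2 = (B : ℝ) ^ 10 * (S' : ℝ) ^ 10 := by rw [hX]; ring
        _ ≤ (K * D) * (2 ^ 10 * D) := mul_le_mul hB10 hS10 (by positivity) (by positivity)
        _ = 2 ^ 10 * (K * 1) * D ^ 2 := by ring
        _ ≤ 2 ^ 10 * (K * K) * D ^ 2 := by
            apply mul_le_mul_of_nonneg_right _ (by positivity)
            apply mul_le_mul_of_nonneg_left _ (by positivity)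
            exact mul_le_mul_of_nonneg_left hK (by linarith)
        _ = (2 ^ 5 * K * D) ^ 2 := by ring
    exact (pow_le_pow_iff_left₀ (by positivity) (by positivity) (by norm_num)).mp h1
  have hX15 : (X + 1) ^ 5 ≤ 2 ^ 10 * K * D := by
    calc (X + 1) ^ 5 ≤ (2 * X) ^ 5 := pow_le_pow_left₀ (by linarith) (by linarith) 5
      _ = 2 ^ 5 * X ^ 5 := by ring
      _ ≤ 2 ^ 5 * (2 ^ 5 * K * D) := mul_le_mul_of_nonneg_left hX5 (by positivity)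
      _ = 2 ^ 10 * K * D := by ring
  have hone : (d : ℝ) * D * ((CR * (X + 1) ^ 5) * (1 + lU)) ≤ N / 16 := by
    calc (d : ℝ) * D * ((CR * (X + 1) ^ 5) * (1 + lU))
        ≤ (d : ℝ) * D * ((CR * (2 ^ 10 * K * D)) * (1 + lU)) := by
          apply mul_le_mul_of_nonneg_left _ (by positivity)
          apply mul_le_mul_of_nonneg_right _ (by linarith)
          exact mul_le_mul_of_nonneg_left hX15 (by linarith)
      _ = (d * CR * 2 ^ 10 * K * (1 + lU)) * (D : ℝ) ^ 2 := by ring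
      _ ≤ Q * (D : ℝ) ^ 2 := by
          apply mul_le_mul_of_nonneg_right _ (by positivity)
          rw [hQ]; linarith
      _ ≤ N / 16 := hfin
  refine ⟨hone, ?_, ?_⟩
  · refine le_trans ?_ hone
    apply mul_le_mul_of_nonneg_left _ (by positivity)
    have h0 : 0 ≤ CR * (X + 1) ^ 5 := by positivity
    nlinarith
  · have h1 : 1 + 13 * (KX * B) * (m * Y * S') ≤ c * X := by
      have : c * X = X + 13 * (KX * B) * (m * Y * S') := by rw [hc, hX]; ring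
      rw [this]; linarith
    have h2 : 0 ≤ 1 + 13 * (KX * B) * (m * Y * S') := by positivity
    have h3 : (1 + 13 * (KX * B) * (m * Y * S')) ^ 3 ≤ c ^ 3 * (2 ^ 5 * K * D) := by
      calc (1 + 13 * (KX * B) * (m * Y * S')) ^ 3 ≤ (c * X) ^ 3 := pow_le_pow_left₀ h2 h1 3
        _ = c ^ 3 * X ^ 3 := by ring
        _ ≤ c ^ 3 * (2 ^ 5 * K * D) := by
            apply mul_le_mul_of_nonneg_left _ (by positivity)
            exact le_trans (pow_le_pow_right₀ hX1 (by norm_num)) hX5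
    calc Cs * d * D * (1 + 13 * (KX * B) * (m * Y * S')) ^ 3
        ≤ Cs * d * D * (c ^ 3 * (2 ^ 5 * K * D)) :=
          mul_le_mul_of_nonneg_left h3 (by positivity)
      _ = (Cs * d * c ^ 3 * 2 ^ 5 * K) * (D : ℝ) ^ 2 := by ring
      _ ≤ Q * (D : ℝ) ^ 2 := by
          apply mul_le_mul_of_nonneg_right _ (by positivity)
          rw [hQ]; linarith
      _ ≤ N / 16 := hfin

end ELT
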