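import Mathlib

set_option autoImplicit false

namespace ELT

/-! ## [ELT-NU4] the quantities of the last step (file NU4.lean)

`S' ≤ S'^{10} ≤ 2^{10} D`, `B ≤ B^{10} ≤ K D`, `B^{2nX} ≤ K D^{8d}`. `ρ₂ = m Y S' + C₂ D^{4d} (B^{2nX}/cη) ≤ K₁ D^{12d}` (`d ≥ 1`, `D ≥ 1`), `B ρ₂ ≤ K₂ D^{12d+1}`, `G₂ = Cs d D (1 + 13 (KX B) ρ₂)³ ≤ K₃ D^{36d+4} ≤ K₃ D^{40d}`.
`26 ρ₂/σ` with `σ = cσ/S'^{Dk}`: `≤ K₄ D^{12d + Dk}`; and `D^8 ≤ 2^8 N`, so it is at most a constant times a power of `N`, `≤ e^N` for large `N`; the same for `26 ρ₁/σ`, `ρ₁ = m Y S' ≤ ρ₂`, and for `D^d ≤ e^{N/16}`. -/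

theorem nu4_ev (A : ℝ) (n : ℕ) (b : ℝ) (hb : 0 < b) :
    ∃ N₀ : ℝ, ∀ N : ℝ, N₀ ≤ N → A * N ^ n ≤ Real.exp (b * N) := by
  have h1 := Real.tendsto_pow_mul_exp_neg_atTop_nhds_zero n
  have h2 : Filter.Tendsto (fun x : ℝ => (|A| * (b⁻¹) ^ n) * (x ^ n * Real.exp (-x)))
      Filter.atTop (nhds ((|A| * (b⁻¹) ^ n) * 0)) := h1.const_mul _
  rw [mul_zero] at h2
  have h3 := (h2.eventually (gt_mem_nhds (zero_lt_one' ℝ))).and (Filter.eventually_ge_atTop (0 : ℝ))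
  obtain ⟨M₀, hM⟩ := Filter.eventually_atTop.1 h3
  refine ⟨M₀ / b, fun N hN => ?_⟩
  have h4 : M₀ ≤ b * N := by
    rw [div_le_iff₀ hb] at hN
    linarith
  obtain ⟨h5, h6⟩ := hM (b * N) h4
  have h7 : Real.exp (b * N) * Real.exp (-(b * N)) = 1 := by rw [← Real.exp_add]; simp
  have h8 : 0 < Real.exp (b * N) := Real.exp_pos _
  have h9 : (b⁻¹) ^ n * (b * N) ^ n = N ^ n := by
    rw [← mul_pow]; congr 1; field_simp
  have hN0 : 0 ≤ N := by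
    by_contra h
    push Not at h
    nlinarith
  calc A * N ^ n ≤ |A| * N ^ n := mul_le_mul_of_nonneg_right (le_abs_self A) (by positivity)
    _ = ((|A| * (b⁻¹) ^ n) * ((b * N) ^ n * Real.exp (-(b * N)))) * Real.exp (b * N) := by
        rw [← h9]
        calc |A| * ((b⁻¹) ^ n * (b * N) ^ n)
            = |A| * ((b⁻¹) ^ n * (b * N) ^ n) * (Real.exp (b * N) * Real.exp (-(b * N))) := by
              rw [h7, mul_one]
          _ = _ := by ring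
    _ ≤ 1 * Real.exp (b * N) := mul_le_mul_of_nonneg_right h5.le h8.le
    _ = Real.exp (b * N) := one_mul _

theorem nu_c2 (d m nX Dk C₂ : ℕ) (K KX Y Cs cσ cη : ℝ) (hd : 1 ≤ d) (hK : 1 ≤ K) (hKX : 1 ≤ KX)
    (hY : 1 ≤ Y) (hCs : 1 ≤ Cs) (hcσ : 0 < cσ) (hcη : 0 < cη) :
    ∃ N₀ K' : ℝ, 1 ≤ K' ∧ ∀ N : ℝ, N₀ ≤ N → ∀ D S' B : ℕ, 1 ≤ D → 1 ≤ S' → 1 ≤ B →
      (D : ℝ) ^ 8 ≤ 2 ^ 8 * N → (S' : ℝ) ^ 10 ≤ 2 ^ 10 * D → (B : ℝ) ^ 10 ≤ K * D →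
      (B : ℝ) ^ (2 * nX) ≤ K * (D : ℝ) ^ (8 * d) → ∀ ρ₂ : ℝ,
      ρ₂ = m * Y * S' + C₂ * (D : ℝ) ^ (4 * d) / (cη / (B : ℝ) ^ (2 * nX)) →
      Cs * d * D * (1 + 13 * (KX * B) * ρ₂) ^ 3 ≤ K' * (D : ℝ) ^ (40 * d) ∧
      26 * ρ₂ / (cσ / (S' : ℝ) ^ Dk) ≤ Real.exp N ∧
      26 * (m * Y * S') / (cσ / (S' : ℝ) ^ Dk) ≤ Real.exp N ∧
      (D : ℝ) ^ d ≤ Real.exp (N / 16) := by
  set K1 : ℝ := m * Y * 2 ^ 10 + C₂ * K / cη with hK1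
  have hY0 : 0 ≤ Y := by linarith
  have hK0 : 0 ≤ K := by linarith
  have hKX0 : 0 ≤ KX := by linarith
  have hCs0 : 0 ≤ Cs := by linarith
  have hK1n : 0 ≤ K1 := by positivity
  set K2 : ℝ := 1 + 13 * KX * K * K1 with hK2
  have hK2n : 1 ≤ K2 := by
    have : 0 ≤ 13 * KX * K * K1 := by positivity
    linarith
  set K4 : ℝ := 26 * K1 * (2 ^ 10) ^ Dk / cσ with hK4
  have hK4n : 0 ≤ K4 := by positivity
  obtain ⟨N1, hN1⟩ := nu4_ev (K4 * (2 ^ 8) ^ (12 * d + Dk)) (12 * d + Dk) 1 one_pos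
  obtain ⟨N2, hN2⟩ := nu4_ev ((2 ^ 8) ^ d) d (1 / 16) (by norm_num)
  have hdR : (1 : ℝ) ≤ d := by exact_mod_cast hd
  refine ⟨max N1 N2, Cs * d * K2 ^ 3, ?_, fun N hN D S' B hD hS hB h8 hS10 hB10 hBX ρ₂ hρ => ?_⟩
  · have h1 : (1 : ℝ) ≤ K2 ^ 3 := one_le_pow₀ hK2n
    have h2 : (1 : ℝ) ≤ Cs * d := one_le_mul_of_one_le_of_one_le hCs hdR
    exact one_le_mul_of_one_le_of_one_le h2 h1
  have hDR : (1 : ℝ) ≤ D := by exact_mod_cast hD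
  have hSR : (1 : ℝ) ≤ S' := by exact_mod_cast hS
  have hBR : (1 : ℝ) ≤ B := by exact_mod_cast hB
  have hD0 : (0 : ℝ) ≤ D := by linarith
  have hS0 : (0 : ℝ) < S' := by linarith
  have hB0 : (0 : ℝ) < B := by linarith
  have hS1 : (S' : ℝ) ≤ 2 ^ 10 * D := (le_self_pow₀ hSR (by norm_num)).trans hS10
  have hB1 : (B : ℝ) ≤ K * D := (le_self_pow₀ hBR (by norm_num)).trans hB10
  have hD8 : (D : ℝ) ≤ 2 ^ 8 * N := (le_self_pow₀ hDR (by norm_num)).trans h8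
  have hρ0 : m * Y * S' ≤ ρ₂ := by
    rw [hρ]
    have : 0 ≤ C₂ * (D : ℝ) ^ (4 * d) / (cη / (B : ℝ) ^ (2 * nX)) := by positivity
    linarith
  have hρnn : 0 ≤ ρ₂ := le_trans (by positivity) hρ0
  have hρ1 : ρ₂ ≤ K1 * (D : ℝ) ^ (12 * d) := by
    rw [hρ, hK1, add_mul]
    apply add_le_add
    · calc m * Y * (S' : ℝ) ≤ m * Y * (2 ^ 10 * D) := by gcongr
        _ = m * Y * 2 ^ 10 * D := by ring
        _ ≤ m * Y * 2 ^ 10 * (D : ℝ) ^ (12 * d) := by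
            gcongr
            exact le_self_pow₀ hDR (by omega)
    · calc C₂ * (D : ℝ) ^ (4 * d) / (cη / (B : ℝ) ^ (2 * nX))
          = C₂ * (D : ℝ) ^ (4 * d) * (B : ℝ) ^ (2 * nX) / cη := by
            rw [div_div_eq_mul_div]
        _ ≤ C₂ * (D : ℝ) ^ (4 * d) * (K * (D : ℝ) ^ (8 * d)) / cη := by gcongr
        _ = C₂ * K / cη * (D : ℝ) ^ (12 * d) := by
            rw [show 12 * d = 4 * d + 8 * d by ring, pow_add]; ring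
  refine ⟨?_, ?_, ?_, ?_⟩
  · have h1 : 1 + 13 * (KX * B) * ρ₂ ≤ K2 * (D : ℝ) ^ (12 * d + 1) := by
      have h2 : 13 * (KX * (B : ℝ)) * ρ₂ ≤ 13 * (KX * (K * D)) * (K1 * (D : ℝ) ^ (12 * d)) := by
        gcongr
      have h3 : 13 * (KX * (K * (D : ℝ))) * (K1 * (D : ℝ) ^ (12 * d)) =
          13 * KX * K * K1 * (D : ℝ) ^ (12 * d + 1) := by rw [pow_succ]; ring
      have h4 : (1 : ℝ) ≤ (D : ℝ) ^ (12 * d + 1) := one_le_pow₀ hDR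
      rw [hK2, add_mul, one_mul]
      linarith
    have h5 : 0 ≤ 1 + 13 * (KX * (B : ℝ)) * ρ₂ := by positivity
    calc Cs * d * D * (1 + 13 * (KX * B) * ρ₂) ^ 3
        ≤ Cs * d * D * (K2 * (D : ℝ) ^ (12 * d + 1)) ^ 3 := by gcongr
      _ = Cs * d * K2 ^ 3 * (D : ℝ) ^ (36 * d + 4) := by
          have e : (D : ℝ) ^ (36 * d + 4) = ((D : ℝ) ^ (12 * d + 1)) ^ 3 * D := by
            rw [show 36 * d + 4 = (12 * d + 1) * 3 + 1 by ring, pow_succ (D : ℝ), pow_mul]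
          rw [e]; ring
      _ ≤ Cs * d * K2 ^ 3 * (D : ℝ) ^ (40 * d) := by
          have : (D : ℝ) ^ (36 * d + 4) ≤ (D : ℝ) ^ (40 * d) := pow_le_pow_right₀ hDR (by omega)
          gcongr
  · have hNN : K4 * (2 ^ 8) ^ (12 * d + Dk) * N ^ (12 * d + Dk) ≤ Real.exp N := by
      have := hN1 N ((le_max_left _ _).trans hN)
      rwa [one_mul] at this
    refine le_trans ?_ hNN
    rw [div_div_eq_mul_div]
    calc 26 * ρ₂ * (S' : ℝ) ^ Dk / cσ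
        ≤ 26 * (K1 * (D : ℝ) ^ (12 * d)) * (2 ^ 10 * (D : ℝ)) ^ Dk / cσ := by gcongr
      _ = K4 * (D : ℝ) ^ (12 * d + Dk) := by
          rw [hK4, pow_add, mul_pow]; ring
      _ ≤ K4 * (2 ^ 8 * N) ^ (12 * d + Dk) := by gcongr
      _ = K4 * (2 ^ 8) ^ (12 * d + Dk) * N ^ (12 * d + Dk) := by rw [mul_pow]; ring
  · have hNN : K4 * (2 ^ 8) ^ (12 * d + Dk) * N ^ (12 * d + Dk) ≤ Real.exp N := by
      have := hN1 N ((le_max_left _ _).trans hN)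
      rwa [one_mul] at this
    refine le_trans ?_ hNN
    rw [div_div_eq_mul_div]
    calc 26 * (m * Y * S') * (S' : ℝ) ^ Dk / cσ
        ≤ 26 * (K1 * (D : ℝ) ^ (12 * d)) * (2 ^ 10 * (D : ℝ)) ^ Dk / cσ := by
          have := hρ0.trans hρ1
          gcongr
      _ = K4 * (D : ℝ) ^ (12 * d + Dk) := by
          rw [hK4, pow_add, mul_pow]; ring
      _ ≤ K4 * (2 ^ 8 * N) ^ (12 * d + Dk) := by gcongr
      _ = K4 * (2 ^ 8) ^ (12 * d + Dk) * N ^ (12 * d + Dk) := by rw [mul_pow]; ring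
  · have hNN : (2 ^ 8 : ℝ) ^ d * N ^ d ≤ Real.exp (N / 16) := by
      have := hN2 N ((le_max_right _ _).trans hN)
      rwa [show (1 / 16 : ℝ) * N = N / 16 by ring] at this
    refine le_trans ?_ hNN
    calc (D : ℝ) ^ d ≤ (2 ^ 8 * N) ^ d := by gcongr
      _ = (2 ^ 8 : ℝ) ^ d * N ^ d := by rw [mul_pow]

end ELT
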