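import Mathlib

set_option autoImplicit false

namespace ELT

/-! ## [ELT-NU5] the Dirichlet inequality (file NU5.lean)

`log(4 P H e^{a} / e^{-T} + 2) ≤ log(6 e^{N/16 + N/8 + N + T}) ≤ 2 + 2N + T ≤ 5T` (`P ≤ e^{N/16}`, `H ≤ e^{N/8}`, `a ≤ N`, `N ≥ 2`), left side `≤ 10 K T²`; `log(H+1) ≥ N/8` (`H + 1 > e^{N/8}`), right side `≥ T² N/8`. `N₀ = max(2, 80K+1)`. -/

theorem nu_d (K : ℝ) (hK : 1 ≤ K) : ∃ N₀ : ℝ, ∀ N : ℝ, N₀ ≤ N → ∀ T : ℝ, N ≤ T → ∀ P a M : ℝ,
    T ^ 2 ≤ P → P ≤ Real.exp (N / 16) → 0 ≤ M → M ≤ K * T → 0 ≤ a → a ≤ N →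
      2 * M * Real.log (4 * P * (⌊Real.exp (N / 8)⌋₊ : ℝ) * Real.exp a / Real.exp (-T) + 2) <
        P * Real.log ((⌊Real.exp (N / 8)⌋₊ : ℝ) + 1) := by
  refine ⟨max 2 (80 * K + 1), ?_⟩
  intro N hN T hNT P a M hTP hPN hM0 hMK ha0 haN
  have hN2 : 2 ≤ N := le_trans (le_max_left _ _) hN
  have hNK : 80 * K + 1 ≤ N := le_trans (le_max_right _ _) hN
  have hT2 : 2 ≤ T := le_trans hN2 hNT
  have hP0 : 0 ≤ P := le_trans (sq_nonneg T) hTP
  have hH1 : (⌊Real.exp (N / 8)⌋₊ : ℝ) ≤ Real.exp (N / 8) := Nat.floor_le (Real.exp_pos _).le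
  have hH2 : Real.exp (N / 8) < (⌊Real.exp (N / 8)⌋₊ : ℝ) + 1 := Nat.lt_floor_add_one _
  set H : ℝ := (⌊Real.exp (N / 8)⌋₊ : ℝ) with hH
  have hH0 : 0 ≤ H := Nat.cast_nonneg _
  have harg : 4 * P * H * Real.exp a / Real.exp (-T) + 2 ≤ Real.exp (5 * T) := by
    have e1 : 4 * P * H * Real.exp a / Real.exp (-T) = 4 * (P * H * Real.exp a * Real.exp T) := by
      rw [Real.exp_neg]
      field_simp
    have e2 : P * H * Real.exp a * Real.exp T ≤ Real.exp (N / 16 + N / 8 + N + T) := by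
      rw [Real.exp_add, Real.exp_add, Real.exp_add]
      apply mul_le_mul_of_nonneg_right _ (Real.exp_pos _).le
      apply mul_le_mul _ (Real.exp_le_exp.mpr haN) (Real.exp_pos _).le (by positivity)
      exact mul_le_mul hPN hH1 hH0 (Real.exp_pos _).le
    have e3 : (1 : ℝ) ≤ Real.exp (N / 16 + N / 8 + N + T) := by
      apply Real.one_le_exp
      linarith
    have e4 : (6 : ℝ) ≤ Real.exp 2 := by
      have := Real.exp_one_gt_d9
      have h2 : Real.exp 2 = Real.exp 1 * Real.exp 1 := by rw [← Real.exp_add]; norm_num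
      rw [h2]
      nlinarith
    calc 4 * P * H * Real.exp a / Real.exp (-T) + 2
        ≤ 6 * Real.exp (N / 16 + N / 8 + N + T) := by rw [e1]; linarith
      _ ≤ Real.exp 2 * Real.exp (N / 16 + N / 8 + N + T) :=
          mul_le_mul_of_nonneg_right e4 (Real.exp_pos _).le
      _ = Real.exp (2 + (N / 16 + N / 8 + N + T)) := by rw [← Real.exp_add]
      _ ≤ Real.exp (5 * T) := by
          apply Real.exp_le_exp.mpr
          linarith
  have hpos : 0 < 4 * P * H * Real.exp a / Real.exp (-T) + 2 := by positivity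
  have hlog : Real.log (4 * P * H * Real.exp a / Real.exp (-T) + 2) ≤ 5 * T := by
    rw [← Real.log_exp (5 * T)]
    exact Real.log_le_log hpos harg
  have hlogH : N / 8 ≤ Real.log (H + 1) := by
    rw [← Real.log_exp (N / 8)]
    exact Real.log_le_log (Real.exp_pos _) hH2.le
  have h1 : 2 * M * Real.log (4 * P * H * Real.exp a / Real.exp (-T) + 2) ≤ 10 * K * T ^ 2 := by
    calc 2 * M * Real.log (4 * P * H * Real.exp a / Real.exp (-T) + 2)
        ≤ 2 * M * (5 * T) := mul_le_mul_of_nonneg_left hlog (by linarith)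
      _ ≤ 2 * (K * T) * (5 * T) := by
          apply mul_le_mul_of_nonneg_right _ (by linarith)
          linarith
      _ = 10 * K * T ^ 2 := by ring
  have h2 : T ^ 2 * (N / 8) ≤ P * Real.log (H + 1) :=
    mul_le_mul hTP hlogH (by linarith) hP0
  have h3 : 10 * K * T ^ 2 < T ^ 2 * (N / 8) := by
    have : 0 < T ^ 2 := by positivity
    nlinarith
  linarith

end ELT
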