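import Mathlib

set_option autoImplicit false

namespace ELT

/-! ## [ELT-NU6] the numerical inequality of step 2 (file NU6.lean)

First term: `2M ≤ 2KT ≤ e^{2KT}`, the exponents add up to `≤ G + 2KT + N(2+lU) - T^{90} + a + G + M N + b ≤ -T^{90} + (3K + 6 + lU) T²` (`N ≤ T`, `1 ≤ T`), so it is `≤ e^{-T}/4` for large `T` (`T^{90} ≥ T³`). Second term: `6^{-M} ≤ e^{-M}` and `M ≥ 14T`:
exponent `≤ 2N + 2N + N - 14T ≤ -9T`. Third term: `N(2+lU) - T^{90}`. -/

theorem nu6_quarter (T x : ℝ) (hT : 2 ≤ T) (hx : x ≤ -(2 * T)) :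
    Real.exp x ≤ Real.exp (-T) / 4 := by
  have h1 : Real.exp x ≤ Real.exp (-T) * Real.exp (-T) := by
    rw [← Real.exp_add]
    apply Real.exp_le_exp.mpr
    linarith
  have h4 : (4 : ℝ) ≤ Real.exp 2 := by
    have := Real.exp_one_gt_d9
    have h2 : Real.exp 2 = Real.exp 1 * Real.exp 1 := by rw [← Real.exp_add]; norm_num
    rw [h2]
    nlinarith
  have h5 : Real.exp (-T) ≤ 1 / 4 := by
    rw [Real.exp_neg, one_div]
    apply inv_anti₀ (by norm_num)
    exact le_trans h4 (Real.exp_le_exp.mpr hT)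
  have h6 : 0 < Real.exp (-T) := Real.exp_pos _
  nlinarith

theorem nu_e (lU K : ℝ) (hlU : 0 ≤ lU) (hK : 1 ≤ K) : ∃ N₀ : ℝ, ∀ N : ℝ, N₀ ≤ N → ∀ T : ℝ, N ≤ T →
    ∀ (M : ℕ) (G a b R P : ℝ), 14 * T ≤ M → (M : ℝ) ≤ K * T → 0 ≤ G → G ≤ N → a ≤ N → b ≤ N →
      0 ≤ R → R ≤ Real.exp N → 0 ≤ P → P ≤ Real.exp (2 * N) →
      Real.exp G * (2 * (M : ℝ) * (Real.exp (N * (2 + lU)) * Real.exp (-T ^ 90) * Real.exp a *
        Real.exp G) * R ^ M + ((6 : ℝ)⁻¹) ^ M * (P * Real.exp G)) * Real.exp b +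
        Real.exp (N * (2 + lU)) * Real.exp (-T ^ 90) < Real.exp (-T) := by
  refine ⟨6 + lU + 3 * K + 2, ?_⟩
  intro N hN T hNT M G a b R P hM1 hM2 hG0 hGN haN hbN hR0 hRN hP0 hPN
  have hT : 6 + lU + 3 * K + 2 ≤ T := le_trans hN hNT
  have hN1 : 1 ≤ N := by linarith
  have hT1 : 1 ≤ T := by linarith
  have hT2 : 2 ≤ T := by linarith
  have hTT : T ≤ T ^ 2 := by nlinarith
  have h90 : (6 + lU + 3 * K) * T ^ 2 + 2 * T ≤ T ^ 90 := by
    have h3 : T ^ 3 ≤ T ^ 90 := pow_le_pow_right₀ hT1 (by norm_num)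
    have h4 : T ^ 3 = T * T ^ 2 := by ring
    have h5 : (6 + lU + 3 * K + 2) * T ^ 2 ≤ T * T ^ 2 :=
      mul_le_mul_of_nonneg_right hT (by positivity)
    nlinarith
  have hMr0 : (0 : ℝ) ≤ M := Nat.cast_nonneg M
  -- first term
  have hfirst : Real.exp G * (2 * (M : ℝ) * (Real.exp (N * (2 + lU)) * Real.exp (-T ^ 90) *
      Real.exp a * Real.exp G) * R ^ M) * Real.exp b ≤ Real.exp (-T) / 4 := by
    have hMM : 2 * (M : ℝ) ≤ Real.exp (2 * K * T) := by
      have h1 := Real.add_one_le_exp (2 * K * T)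
      linarith
    have hRM : R ^ M ≤ Real.exp (N * (K * T)) := by
      calc R ^ M ≤ (Real.exp N) ^ M := pow_le_pow_left₀ hR0 hRN M
        _ = Real.exp (M * N) := by rw [← Real.exp_nat_mul]
        _ ≤ Real.exp (N * (K * T)) := by
            apply Real.exp_le_exp.mpr
            rw [mul_comm]
            exact mul_le_mul_of_nonneg_left hM2 (by linarith)
    calc Real.exp G * (2 * (M : ℝ) * (Real.exp (N * (2 + lU)) * Real.exp (-T ^ 90) *
        Real.exp a * Real.exp G) * R ^ M) * Real.exp b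
        ≤ Real.exp N * (Real.exp (2 * K * T) * (Real.exp (N * (2 + lU)) * Real.exp (-T ^ 90) *
        Real.exp N * Real.exp N) * Real.exp (N * (K * T))) * Real.exp N := by
          have hG' := Real.exp_le_exp.mpr hGN
          have ha' := Real.exp_le_exp.mpr haN
          have hb' := Real.exp_le_exp.mpr hbN
          gcongr
      _ = Real.exp (N + (2 * K * T + (N * (2 + lU) + (-T ^ 90) + N + N) + N * (K * T)) + N) := by
          simp only [Real.exp_add]
      _ ≤ Real.exp (-T) / 4 := by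
          apply nu6_quarter T _ hT2
          have e1 : N * (2 + lU) ≤ T * (2 + lU) := mul_le_mul_of_nonneg_right hNT (by linarith)
          have e2 : N * (K * T) ≤ T * (K * T) := mul_le_mul_of_nonneg_right hNT (by nlinarith)
          have e3 : (6 + lU + 2 * K) * T ≤ (6 + lU + 2 * K) * T ^ 2 :=
            mul_le_mul_of_nonneg_left hTT (by linarith)
          nlinarith
  -- second term
  have hsecond : Real.exp G * (((6 : ℝ)⁻¹) ^ M * (P * Real.exp G)) * Real.exp b ≤
      Real.exp (-T) / 4 := by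
    have h6 : ((6 : ℝ)⁻¹) ^ M ≤ Real.exp (-(14 * T)) := by
      have h61 : (6 : ℝ)⁻¹ ≤ Real.exp (-1) := by
        rw [Real.exp_neg]
        apply inv_anti₀ (Real.exp_pos _)
        have := Real.exp_one_lt_d9
        linarith
      calc ((6 : ℝ)⁻¹) ^ M ≤ (Real.exp (-1)) ^ M := pow_le_pow_left₀ (by norm_num) h61 M
        _ = Real.exp (M * (-1)) := by rw [← Real.exp_nat_mul]
        _ ≤ Real.exp (-(14 * T)) := by
            apply Real.exp_le_exp.mpr
            linarith
    calc Real.exp G * (((6 : ℝ)⁻¹) ^ M * (P * Real.exp G)) * Real.exp b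
        ≤ Real.exp N * (Real.exp (-(14 * T)) * (Real.exp (2 * N) * Real.exp N)) * Real.exp N := by
          have hG' := Real.exp_le_exp.mpr hGN
          have hb' := Real.exp_le_exp.mpr hbN
          gcongr
      _ = Real.exp (N + (-(14 * T) + (2 * N + N)) + N) := by
          simp only [Real.exp_add]
      _ ≤ Real.exp (-T) / 4 := by
          apply nu6_quarter T _ hT2
          linarith
  -- third term
  have hthird : Real.exp (N * (2 + lU)) * Real.exp (-T ^ 90) ≤ Real.exp (-T) / 4 := by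
    rw [← Real.exp_add]
    apply nu6_quarter T _ hT2
    have e1 : N * (2 + lU) ≤ T * (2 + lU) := mul_le_mul_of_nonneg_right hNT (by linarith)
    have e3 : (6 + lU + 3 * K) * T ≤ (6 + lU + 3 * K) * T ^ 2 :=
      mul_le_mul_of_nonneg_left hTT (by linarith)
    nlinarith
  have hsum : Real.exp G * (2 * (M : ℝ) * (Real.exp (N * (2 + lU)) * Real.exp (-T ^ 90) *
      Real.exp a * Real.exp G) * R ^ M + ((6 : ℝ)⁻¹) ^ M * (P * Real.exp G)) * Real.exp b =
      Real.exp G * (2 * (M : ℝ) * (Real.exp (N * (2 + lU)) * Real.exp (-T ^ 90) *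
      Real.exp a * Real.exp G) * R ^ M) * Real.exp b +
      Real.exp G * (((6 : ℝ)⁻¹) ^ M * (P * Real.exp G)) * Real.exp b := by ring
  rw [hsum]
  have hpos : 0 < Real.exp (-T) := Real.exp_pos _
  linarith

end ELT
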