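import Mathlib

set_option autoImplicit false

namespace ELT

/-! ## [ELT-NU7] the numerical inequality of the last step (file NU7.lean)

`D^{41d} = (D^d)^{41} ≤ (K T²)^{41} = K^{41} T^{82}`, `M ≤ K^{42} T^{82}`, `G ≤ K D^{40d} ≤ K^{41} T^{80}`. First term: exponent `≤ 2G + log(2M) + N(2+lU) - T^{90} + a + M N ≤ -T^{90} + K'' T^{83}`. Second term: `6^{-M} ≤ e^{-M}`, `M ≥ D^{40d} D^d ≥ D^{40d} T²`:
exponent `≤ 2K D^{40d} + 2N - D^{40d} T² ≤ -(T² - 2K) + 2T` (`D^{40d} ≥ 1`, `T² ≥ 2K`). Both tend to `-∞`. -/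

theorem nu7_first (lU K K2 N T M G a R : ℝ) (m : ℕ) (hm : (m : ℝ) = M) (hlU : 0 ≤ lU) (hK : 1 ≤ K)
    (hK2 : K2 = 2 * K ^ 41 + 2 * K ^ 42 + (2 + lU) + 1 + K ^ 42) (hN0 : 0 ≤ N) (hT1 : 1 ≤ T)
    (hNT : N ≤ T) (hT2 : K2 + 1 ≤ T) (hM : M ≤ K ^ 42 * T ^ 82) (hM0 : 0 ≤ M)
    (hG : G ≤ K ^ 41 * T ^ 80) (ha : a ≤ N) (hR0 : 0 ≤ R) (hR : R ≤ Real.exp N) :
    Real.exp G * (2 * M * (Real.exp (N * (2 + lU)) * Real.exp (-T ^ 90) * Real.exp a *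
        Real.exp G) * R ^ m) ≤ Real.exp (-N) := by
  have i1 : 2 * M ≤ Real.exp (2 * M) := by
    have := Real.add_one_le_exp (2 * M)
    linarith
  have i2 : R ^ m ≤ Real.exp (N * M) := by
    calc R ^ m ≤ (Real.exp N) ^ m := pow_le_pow_left₀ hR0 hR m
      _ = Real.exp (N * M) := by rw [← Real.exp_nat_mul, hm, mul_comm]
  have hT83 : (0 : ℝ) ≤ T ^ 83 := by positivity
  have p80 : T ^ 80 ≤ T ^ 83 := pow_le_pow_right₀ hT1 (by norm_num)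
  have p82 : T ^ 82 ≤ T ^ 83 := pow_le_pow_right₀ hT1 (by norm_num)
  have p1 : T ≤ T ^ 83 := le_self_pow₀ hT1 (by norm_num)
  have p7 : T ≤ T ^ 7 := le_self_pow₀ hT1 (by norm_num)
  have hK0 : (0 : ℝ) ≤ K := by linarith
  have q1 : N * M ≤ K ^ 42 * T ^ 83 := by
    calc N * M ≤ T * (K ^ 42 * T ^ 82) := by
          apply mul_le_mul hNT hM hM0 (by linarith)
      _ = K ^ 42 * T ^ 83 := by ring
  have q2 : N * (2 + lU) ≤ (2 + lU) * T ^ 83 := by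
    calc N * (2 + lU) ≤ T ^ 83 * (2 + lU) := by
          apply mul_le_mul_of_nonneg_right (hNT.trans p1) (by linarith)
      _ = (2 + lU) * T ^ 83 := by ring
  have q3 : G ≤ K ^ 41 * T ^ 83 := hG.trans (by gcongr)
  have q4 : M ≤ K ^ 42 * T ^ 83 := hM.trans (by gcongr)
  have q5 : (K2 + 1) * T ^ 83 ≤ T ^ 90 := by
    calc (K2 + 1) * T ^ 83 ≤ T ^ 7 * T ^ 83 :=
          mul_le_mul_of_nonneg_right (hT2.trans p7) hT83
      _ = T ^ 90 := by ring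
  have key : G + (2 * M + (N * (2 + lU) + -T ^ 90 + a + G) + N * M) ≤ -N := by
    have e : (K2 + 1) * T ^ 83 = 2 * (K ^ 41 * T ^ 83) + 2 * (K ^ 42 * T ^ 83) +
        (2 + lU) * T ^ 83 + T ^ 83 + K ^ 42 * T ^ 83 + T ^ 83 := by
      rw [hK2]; ring
    linarith
  calc Real.exp G * (2 * M * (Real.exp (N * (2 + lU)) * Real.exp (-T ^ 90) * Real.exp a *
        Real.exp G) * R ^ m)
      ≤ Real.exp G * (Real.exp (2 * M) * (Real.exp (N * (2 + lU)) * Real.exp (-T ^ 90) *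
        Real.exp a * Real.exp G) * Real.exp (N * M)) := by
        gcongr
    _ = Real.exp (G + (2 * M + (N * (2 + lU) + -T ^ 90 + a + G) + N * M)) := by
        simp only [Real.exp_add]
    _ ≤ Real.exp (-N) := Real.exp_le_exp.2 key

theorem nu7_second (K N T G P X : ℝ) (m : ℕ) (hK : 1 ≤ K) (hN0 : 0 ≤ N) (hT : 3 + 2 * K ≤ T)
    (hNT : N ≤ T) (hX1 : 1 ≤ X) (hTX : T ^ 2 ≤ X) (hXM : X ^ 41 ≤ m) (hG : G ≤ K * X ^ 40)
    (hP0 : 0 ≤ P) (hP : P ≤ Real.exp (2 * N)) :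
    Real.exp G * (((6 : ℝ)⁻¹) ^ m * (P * Real.exp G)) ≤ Real.exp (-N) := by
  have i1 : ((6 : ℝ)⁻¹) ^ m ≤ Real.exp (-(m : ℝ)) := by
    have h6 : (6 : ℝ)⁻¹ ≤ Real.exp (-1) := by
      rw [Real.exp_neg]
      apply inv_anti₀ (Real.exp_pos 1)
      have := Real.exp_one_lt_d9
      linarith
    calc ((6 : ℝ)⁻¹) ^ m ≤ (Real.exp (-1)) ^ m := pow_le_pow_left₀ (by norm_num) h6 m
      _ = Real.exp (-(m : ℝ)) := by rw [← Real.exp_nat_mul]; congr 1; ring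
  have hX40 : 1 ≤ X ^ 40 := one_le_pow₀ hX1
  have h2 : X ^ 40 * T ^ 2 ≤ m := by
    calc X ^ 40 * T ^ 2 ≤ X ^ 40 * X := by gcongr
      _ = X ^ 41 := by ring
      _ ≤ m := hXM
  have h3 : (3 + 2 * K) * T ≤ T ^ 2 := by
    rw [pow_two]
    exact mul_le_mul_of_nonneg_right hT (by linarith)
  have h4 : 0 ≤ T ^ 2 - 2 * K := by nlinarith
  have h5 : T ^ 2 - 2 * K ≤ X ^ 40 * (T ^ 2 - 2 * K) := by
    nlinarith
  have key : G + (-(m : ℝ) + (2 * N + G)) ≤ -N := by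
    nlinarith
  calc Real.exp G * (((6 : ℝ)⁻¹) ^ m * (P * Real.exp G))
      ≤ Real.exp G * (Real.exp (-(m : ℝ)) * (Real.exp (2 * N) * Real.exp G)) := by
        gcongr
    _ = Real.exp (G + (-(m : ℝ) + (2 * N + G))) := by
        simp only [Real.exp_add]
    _ ≤ Real.exp (-N) := Real.exp_le_exp.2 key

theorem nu_f (d : ℕ) (lU K c : ℝ) (hlU : 0 ≤ lU) (hK : 1 ≤ K) (hc : 0 < c) :
    ∃ N₀ : ℝ, ∀ N : ℝ, N₀ ≤ N → ∀ T : ℝ, N ≤ T → ∀ (D M : ℕ) (G a R P : ℝ), 1 ≤ D →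
      T ^ 2 ≤ (D : ℝ) ^ d → (D : ℝ) ^ d ≤ K * T ^ 2 → (D : ℝ) ^ (41 * d) ≤ M →
      (M : ℝ) ≤ K * (D : ℝ) ^ (41 * d) → 0 ≤ G → G ≤ K * (D : ℝ) ^ (40 * d) → a ≤ N →
      0 ≤ R → R ≤ Real.exp N → 0 ≤ P → P ≤ Real.exp (2 * N) →
      Real.exp G * (2 * (M : ℝ) * (Real.exp (N * (2 + lU)) * Real.exp (-T ^ 90) * Real.exp a *
        Real.exp G) * R ^ M + ((6 : ℝ)⁻¹) ^ M * (P * Real.exp G)) < c := by
  set K2 : ℝ := 2 * K ^ 41 + 2 * K ^ 42 + (2 + lU) + 1 + K ^ 42 with hK2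
  have hK0 : (0 : ℝ) ≤ K := by linarith
  refine ⟨max (3 + 2 * K) (max (K2 + 1) (Real.log (2 / c) + 1)),
    fun N hN T hT D M G a R P hD h1 h2 h3 h4 hG0 hG ha hR0 hR hP0 hP => ?_⟩
  have hN1 : 3 + 2 * K ≤ N := (le_max_left _ _).trans hN
  have hN2 : K2 + 1 ≤ N := ((le_max_left _ _).trans (le_max_right _ _)).trans hN
  have hN3 : Real.log (2 / c) + 1 ≤ N := ((le_max_right _ _).trans (le_max_right _ _)).trans hN
  have hN0 : 0 ≤ N := by linarith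
  have hT1 : 1 ≤ T := by linarith
  have e41 : (D : ℝ) ^ (41 * d) = ((D : ℝ) ^ d) ^ 41 := by rw [mul_comm, pow_mul]
  have e40 : (D : ℝ) ^ (40 * d) = ((D : ℝ) ^ d) ^ 40 := by rw [mul_comm, pow_mul]
  rw [e41] at h3 h4
  rw [e40] at hG
  have hX1 : 1 ≤ (D : ℝ) ^ d := one_le_pow₀ (by exact_mod_cast hD)
  generalize (D : ℝ) ^ d = X at *
  have hX0 : 0 ≤ X := by linarith
  have hX41 : X ^ 41 ≤ K ^ 41 * T ^ 82 := by
    calc X ^ 41 ≤ (K * T ^ 2) ^ 41 := pow_le_pow_left₀ hX0 h2 41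
      _ = K ^ 41 * T ^ 82 := by ring
  have hX40 : X ^ 40 ≤ K ^ 40 * T ^ 80 := by
    calc X ^ 40 ≤ (K * T ^ 2) ^ 40 := pow_le_pow_left₀ hX0 h2 40
      _ = K ^ 40 * T ^ 80 := by ring
  have hM : (M : ℝ) ≤ K ^ 42 * T ^ 82 := by
    calc (M : ℝ) ≤ K * X ^ 41 := h4
      _ ≤ K * (K ^ 41 * T ^ 82) := by gcongr
      _ = K ^ 42 * T ^ 82 := by ring
  have hG' : G ≤ K ^ 41 * T ^ 80 := by
    calc G ≤ K * X ^ 40 := hG
      _ ≤ K * (K ^ 40 * T ^ 80) := by gcongr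
      _ = K ^ 41 * T ^ 80 := by ring
  have hA := nu7_first lU K K2 N T M G a R M rfl hlU hK hK2 hN0 hT1 hT (by linarith) hM
    (Nat.cast_nonneg M) hG' ha hR0 hR
  have hB := nu7_second K N T G P X M hK hN0 (by linarith) hT hX1 h1 h3 hG hP0 hP
  have hfin : 2 * Real.exp (-N) < c := by
    have h5 : 2 / c < Real.exp N := by
      calc 2 / c = Real.exp (Real.log (2 / c)) := (Real.exp_log (by positivity)).symm
        _ < Real.exp N := Real.exp_lt_exp.2 (by linarith)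
    rw [div_lt_iff₀ hc] at h5
    have h6 : Real.exp N * Real.exp (-N) = 1 := by rw [← Real.exp_add]; simp
    have h7 : 0 < Real.exp (-N) := Real.exp_pos _
    calc 2 * Real.exp (-N) < (Real.exp N * c) * Real.exp (-N) := by
          exact mul_lt_mul_of_pos_right h5 h7
      _ = (Real.exp N * Real.exp (-N)) * c := by ring
      _ = c := by rw [h6, one_mul]
  rw [mul_add]
  linarith

end ELT
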