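import Pool.Agent.ELT.W1
import Pool.Agent.ELT.A3b

set_option autoImplicit false

open PeriodPair Metric

namespace ELT

/-! ## [ELT-K6] `xc` is locally Lipschitz in the projective line (file K6.lean)

`C₀` from `lat_reduce`, `R = C₀ + 1`, `A` from `ab_pair L` for this fixed `R`; both `A · k` are differentiable on `ball 0 (2R)`, so Lipschitz on `closedBall 0 R` with a constant `M` (the derivative is continuous, hence bounded, on the compact
convex set; `Convex.norm_image_sub_le_of_norm_deriv_le`, or `ContDiffOn` + compactness). Given `z₀ = z₁ + λ`, `λ ∈ L`, `‖z₁‖ ≤ C₀`, put `z₂ = z - l - λ`, `‖z₂ - z₁‖ = ‖z - z₀ - l‖ ≤ 1`, so `‖z₂‖ ≤ R`. `xc` is periodic: `xc L z = xc L z₂`, `xc L z₀ = xc L z₁`.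
`A z₁ = c₁ xc z₁` (`c₁ ≠ 0`), `q = c xc z₀ = (c/c₁) A z₁`, `a = c/c₁`, `|a| = 1/‖A z₁‖ ≤ e^{C(1+R)³}` as `‖q‖ = 1`. `A z₂ = c₂ xc z₂`; take `c' = a c₂ ≠ 0`: `c' xc z - q = a (A z₂ - A z₁)`, norm `≤ |a| M ‖z₂ - z₁‖`. -/

private theorem k6_lip (f : ℂ → ℂ) (R : ℝ) (hR : 1 ≤ R) (hf : DifferentiableOn ℂ f (ball 0 (2 * R))) :
    ∃ M : ℝ, 0 ≤ M ∧ ∀ x y : ℂ, ‖x‖ ≤ R → ‖y‖ ≤ R → ‖f y - f x‖ ≤ M * ‖y - x‖ := by
  have hsub : closedBall (0 : ℂ) R ⊆ ball 0 (2 * R) := closedBall_subset_ball (by linarith)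
  have hd : ContinuousOn (deriv f) (closedBall 0 R) :=
    (hf.deriv isOpen_ball).continuousOn.mono hsub
  obtain ⟨M, hM⟩ := (isCompact_closedBall (0 : ℂ) R).exists_bound_of_continuousOn hd
  refine ⟨max M 0, le_max_right _ _, ?_⟩
  intro x y hx hy
  refine Convex.norm_image_sub_le_of_norm_deriv_le (s := closedBall 0 R) ?_ ?_
    (convex_closedBall 0 R) (mem_closedBall_zero_iff.2 hx) (mem_closedBall_zero_iff.2 hy)
  · intro w hw
    exact (hf w (hsub hw)).differentiableAt (isOpen_ball.mem_nhds (hsub hw))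
  · intro w hw
    exact (hM w hw).trans (le_max_left _ _)

theorem xc_lip (L : PeriodPair) : ∃ C : ℝ, 1 ≤ C ∧ ∀ (z₀ z l : ℂ) (q : Fin 2 → ℂ),
    l ∈ L.lattice → ‖q‖ = 1 → (∃ c : ℂ, ∀ k, q k = c * xc L z₀ k) → ‖z - z₀ - l‖ ≤ 1 →
      ∃ c : ℂ, c ≠ 0 ∧ ‖(fun k => c * xc L z k - q k : Fin 2 → ℂ)‖ ≤ C * ‖z - z₀ - l‖ := by
  obtain ⟨C0, hC0, hred⟩ := lat_reduce L
  obtain ⟨C, hC, hAB⟩ := ab_pair L
  obtain ⟨A, hA, hA2⟩ := hAB (C0 + 1) (by linarith)
  choose M hM0 hM using fun k => k6_lip (fun z => A z k) (C0 + 1) (by linarith) (hA k)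
  set E : ℝ := Real.exp (C * (1 + (C0 + 1)) ^ 3) with hE
  have hE0 : 0 < E := Real.exp_pos _
  refine ⟨1 + E * (M 0 + M 1), ?_, ?_⟩
  · have := mul_nonneg hE0.le (add_nonneg (hM0 0) (hM0 1))
    linarith
  · intro z₀ z l q hl hq hc hz
    obtain ⟨c, hc⟩ := hc
    obtain ⟨lam, hlam, hz1⟩ := hred z₀
    have h12 : (z - l - lam) - (z₀ - lam) = z - z₀ - l := by ring
    have hz1' : ‖z₀ - lam‖ ≤ C0 + 1 := by linarith
    have hz2' : ‖z - l - lam‖ ≤ C0 + 1 := by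
      calc ‖z - l - lam‖ = ‖(z₀ - lam) + (z - z₀ - l)‖ := by congr 1; ring
        _ ≤ ‖z₀ - lam‖ + ‖z - z₀ - l‖ := norm_add_le _ _
        _ ≤ C0 + 1 := by linarith
    have x1 : xc L z₀ = xc L (z₀ - lam) := by
      have := xc_add_mem L (z₀ - lam) lam hlam
      rw [sub_add_cancel] at this
      exact this
    have x2 : xc L z = xc L (z - l - lam) := by
      have := xc_add_mem L (z - l - lam) (lam + l) (add_mem hlam hl)
      rw [show z - l - lam + (lam + l) = z by ring] at this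
      exact this
    obtain ⟨⟨c1, hc1, e1⟩, b1, -⟩ := hA2 _ hz1'
    obtain ⟨⟨c2, hc2, e2⟩, -, -⟩ := hA2 _ hz2'
    set z1 := z₀ - lam with hz1d
    set z2 := z - l - lam with hz2d
    have hqa : ∀ k, q k = c / c1 * A z1 k := by
      intro k
      rw [hc k, x1, e1 k]
      field_simp
    have hqn : ‖c / c1‖ * ‖A z1‖ = 1 := by
      have h1 : q = (c / c1) • A z1 := funext fun k => hqa k
      rw [h1, norm_smul] at hq
      exact hq
    have ha0 : c / c1 ≠ 0 := by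
      intro h
      rw [h, norm_zero, zero_mul] at hqn
      exact zero_ne_one hqn
    have haE : ‖c / c1‖ ≤ E := by
      have h1 : ‖c / c1‖ * Real.exp (-(C * (1 + (C0 + 1)) ^ 3)) ≤ 1 := by
        exact (mul_le_mul_of_nonneg_left b1 (norm_nonneg _)).trans hqn.le
      rw [Real.exp_neg, ← hE, mul_inv_le_iff₀ hE0, one_mul] at h1
      exact h1
    refine ⟨c / c1 * c2, mul_ne_zero ha0 hc2, ?_⟩
    have hz0 : 0 ≤ ‖z - z₀ - l‖ := norm_nonneg _
    have hnn : 0 ≤ (1 + E * (M 0 + M 1)) * ‖z - z₀ - l‖ := by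
      have := mul_nonneg hE0.le (add_nonneg (hM0 0) (hM0 1))
      positivity
    refine (pi_norm_le_iff_of_nonneg hnn).2 ?_
    intro k
    have h1 : c / c1 * c2 * xc L z k - q k = c / c1 * (A z2 k - A z1 k) := by
      rw [hqa k, e2 k, x2]
      ring
    rw [h1, norm_mul]
    have h2 := hM k z1 z2 hz1' hz2'
    rw [h12] at h2
    have h3 : M k ≤ M 0 + M 1 := by
      fin_cases k
      · simpa using hM0 1
      · simpa using hM0 0
    calc ‖c / c1‖ * ‖A z2 k - A z1 k‖ ≤ E * (M k * ‖z - z₀ - l‖) :=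
          mul_le_mul haE h2 (norm_nonneg _) hE0.le
      _ ≤ E * ((M 0 + M 1) * ‖z - z₀ - l‖) := by
          apply mul_le_mul_of_nonneg_left _ hE0.le
          exact mul_le_mul_of_nonneg_right h3 hz0
      _ ≤ (1 + E * (M 0 + M 1)) * ‖z - z₀ - l‖ := by
          nlinarith

/-- every point of the projective line is a value of `xc` -/
theorem xc_surj (L : PeriodPair) (q : Fin 2 → ℂ) (hq : q ≠ 0) :
    ∃ z c : ℂ, c ≠ 0 ∧ ∀ k, q k = c * xc L z k := by
  by_cases h1 : q 1 = 0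
  · have h0 : q 0 ≠ 0 := by
      intro h0
      apply hq
      funext k
      fin_cases k
      · exact h0
      · exact h1
    refine ⟨0, q 0, h0, ?_⟩
    intro k
    have h2 : xc L 0 = ![1, 0] := if_pos L.lattice.zero_mem
    rw [h2]
    fin_cases k
    · simp
    · simp [h1]
  · obtain ⟨z, hz, hw⟩ := WP63.wp_surj L (q 0 / q 1)
    refine ⟨z, q 1, h1, ?_⟩
    intro k
    have h2 : xc L z = ![℘[L] z, 1] := if_neg hz
    rw [h2, hw]
    fin_cases k
    · simp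
      field_simp
    · simp

end ELT
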