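import Pool.Agent.ELT.P1

set_option autoImplicit false

namespace ELT

/-! ## [ELT-K7] the form is at least `1` somewhere on the torus (file K7.lean)

`ζ = exp(2πi/D)`, `q_i = (ζ^{s_i}, 1)`, `s ∈ (Fin D)^d`, `‖q_i‖ = 1`. `p l₀ ≠ 0`. `∑_s Pf(q_s) ∏_i ζ^{-s_i l₀_i} = ∑_l p_l ∏_i (∑_{s<D} ζ^{s (l_i - l₀_i)}) = D^d p_{l₀}` (`0 ≤ l_i, l₀_i < D`, geometric sums of roots of unity). So some `s` has
`‖Pf(q_s)‖ ≥ |p_{l₀}| ≥ 1`. (Alternative: induction on `d`, or Parseval.) -/

private theorem k7_geo (D : ℕ) (x : ℂ) (hx : x ^ D = 1) (h1 : x ≠ 1) :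
    ∑ s : Fin D, x ^ (s : ℕ) = 0 := by
  rw [Fin.sum_univ_eq_sum_range (fun s => x ^ s) D]
  have h2 := geom_sum_mul x D
  rw [hx, sub_self] at h2
  rcases mul_eq_zero.1 h2 with h | h
  · exact h
  · exact absurd (sub_eq_zero.1 h) h1

theorem Pf_large (d D : ℕ) (hD : 1 ≤ D) (p : (Fin d → Fin D) → ℤ) (hp : p ≠ 0) :
    ∃ q : Fin d → Fin 2 → ℂ, (∀ i, ‖q i‖ = 1) ∧ 1 ≤ ‖Pf d D (fun l => (p l : ℂ)) q‖ := by
  classical
  obtain ⟨l0, hl0⟩ : ∃ l, p l ≠ 0 := by
    by_contra h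
    push Not at h
    exact hp (funext h)
  have hD0 : D ≠ 0 := by omega
  set ζ : ℂ := Complex.exp (2 * Real.pi * Complex.I / D) with hζ
  have hprim : IsPrimitiveRoot ζ D := Complex.isPrimitiveRoot_exp D hD0
  have hζ0 : ζ ≠ 0 := Complex.exp_ne_zero _
  have hζn : ‖ζ‖ = 1 := hprim.norm'_eq_one hD0
  let q : (Fin d → Fin D) → Fin d → Fin 2 → ℂ := fun s i => ![ζ ^ (s i : ℕ), 1]
  have hq : ∀ s i, ‖q s i‖ = 1 := by
    intro s i
    apply le_antisymm
    · refine (pi_norm_le_iff_of_nonneg zero_le_one).2 ?_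
      intro k
      fin_cases k
      · simp [q, hζn]
      · simp [q]
    · have h1 := norm_le_pi_norm (q s i) 1
      simpa [q] using h1
  have hPf : ∀ s, Pf d D (fun l => (p l : ℂ)) (q s) =
      ∑ l : Fin d → Fin D, (p l : ℂ) * ∏ i, ζ ^ ((s i : ℕ) * (l i : ℕ)) := by
    intro s
    unfold Pf
    refine Finset.sum_congr rfl fun l _ => ?_
    congr 1
    refine Finset.prod_congr rfl fun i _ => ?_
    simp [q, pow_mul]
  have hsum : ∑ s : Fin d → Fin D, Pf d D (fun l => (p l : ℂ)) (q s) *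
      ∏ i, (ζ⁻¹) ^ ((s i : ℕ) * (l0 i : ℕ)) = (D : ℂ) ^ d * (p l0 : ℂ) := by
    calc ∑ s : Fin d → Fin D, Pf d D (fun l => (p l : ℂ)) (q s) *
          ∏ i, (ζ⁻¹) ^ ((s i : ℕ) * (l0 i : ℕ)) =
        ∑ s : Fin d → Fin D, ∑ l : Fin d → Fin D, (p l : ℂ) *
          ∏ i, (ζ ^ (l i : ℕ) * (ζ⁻¹) ^ (l0 i : ℕ)) ^ (s i : ℕ) := by
          refine Finset.sum_congr rfl fun s _ => ?_
          rw [hPf, Finset.sum_mul]
          refine Finset.sum_congr rfl fun l _ => ?_
          rw [mul_assoc, ← Finset.prod_mul_distrib]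
          congr 1
          refine Finset.prod_congr rfl fun i _ => ?_
          rw [mul_pow, ← pow_mul, ← pow_mul, mul_comm (s i : ℕ), mul_comm (s i : ℕ)]
      _ = ∑ l : Fin d → Fin D, (p l : ℂ) * ∑ s : Fin d → Fin D,
          ∏ i, (ζ ^ (l i : ℕ) * (ζ⁻¹) ^ (l0 i : ℕ)) ^ (s i : ℕ) := by
          rw [Finset.sum_comm]
          refine Finset.sum_congr rfl fun l _ => ?_
          rw [Finset.mul_sum]
      _ = ∑ l : Fin d → Fin D, (p l : ℂ) * ∏ i, ∑ s : Fin D,
          (ζ ^ (l i : ℕ) * (ζ⁻¹) ^ (l0 i : ℕ)) ^ (s : ℕ) := by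
          refine Finset.sum_congr rfl fun l _ => ?_
          congr 1
          rw [Finset.prod_univ_sum, Fintype.piFinset_univ]
      _ = (D : ℂ) ^ d * (p l0 : ℂ) := by
          rw [Finset.sum_eq_single l0]
          · have h1 : ∀ i, ∑ s : Fin D, (ζ ^ (l0 i : ℕ) * (ζ⁻¹) ^ (l0 i : ℕ)) ^ (s : ℕ) =
                (D : ℂ) := by
              intro i
              have h2 : ζ ^ (l0 i : ℕ) * (ζ⁻¹) ^ (l0 i : ℕ) = 1 := by
                rw [← mul_pow, mul_inv_cancel₀ hζ0, one_pow]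
              rw [h2]
              simp
            simp only [h1]
            rw [Finset.prod_const, Finset.card_univ, Fintype.card_fin]
            ring
          · intro l _ hl
            obtain ⟨i, hi⟩ : ∃ i, l i ≠ l0 i := by
              by_contra h
              push Not at h
              exact hl (funext h)
            rw [Finset.prod_eq_zero (Finset.mem_univ i), mul_zero]
            refine k7_geo D _ ?_ ?_
            · rw [mul_pow, ← pow_mul, ← pow_mul, mul_comm (l i : ℕ), mul_comm (l0 i : ℕ), pow_mul,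
                pow_mul, inv_pow, hprim.pow_eq_one]
              simp
            · intro h
              apply hi
              have h3 : ζ ^ (l i : ℕ) = ζ ^ (l0 i : ℕ) := by
                rw [inv_pow, mul_inv_eq_one₀ (pow_ne_zero _ hζ0)] at h
                exact h
              exact Fin.ext (hprim.pow_inj (l i).2 (l0 i).2 h3)
          · intro h
            exact absurd (Finset.mem_univ _) h
  by_contra hcon
  push Not at hcon
  have hlt : ∀ s, ‖Pf d D (fun l => (p l : ℂ)) (q s)‖ < 1 := fun s => hcon (q s) (hq s)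
  have : Nonempty (Fin d → Fin D) := ⟨l0⟩
  have h1 : ‖∑ s : Fin d → Fin D, Pf d D (fun l => (p l : ℂ)) (q s) *
      ∏ i, (ζ⁻¹) ^ ((s i : ℕ) * (l0 i : ℕ))‖ < (D : ℝ) ^ d := by
    calc _ ≤ ∑ s : Fin d → Fin D, ‖Pf d D (fun l => (p l : ℂ)) (q s) *
          ∏ i, (ζ⁻¹) ^ ((s i : ℕ) * (l0 i : ℕ))‖ := norm_sum_le _ _
      _ = ∑ s : Fin d → Fin D, ‖Pf d D (fun l => (p l : ℂ)) (q s)‖ := by
          refine Finset.sum_congr rfl fun s _ => ?_
          rw [norm_mul, norm_prod]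
          have h2 : ∀ i, ‖(ζ⁻¹) ^ ((s i : ℕ) * (l0 i : ℕ))‖ = 1 := by
            intro i
            rw [norm_pow, norm_inv, hζn, inv_one, one_pow]
          rw [Finset.prod_congr rfl fun i _ => h2 i, Finset.prod_const_one, mul_one]
      _ < ∑ s : Fin d → Fin D, (1 : ℝ) :=
          Finset.sum_lt_sum_of_nonempty Finset.univ_nonempty fun s _ => hlt s
      _ = (D : ℝ) ^ d := by
          rw [Finset.sum_const, Finset.card_univ, Fintype.card_fun, Fintype.card_fin,
            Fintype.card_fin, nsmul_eq_mul, mul_one]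
          push_cast
          rfl
  rw [hsum, norm_mul, norm_pow, Complex.norm_natCast] at h1
  have h2 : (1 : ℝ) ≤ ‖(p l0 : ℂ)‖ := by
    rw [Complex.norm_intCast]
    have : 1 ≤ |p l0| := Int.one_le_abs hl0
    exact_mod_cast this
  have h3 : (0 : ℝ) < (D : ℝ) ^ d := by
    have : (0 : ℝ) < D := by exact_mod_cast hD
    positivity
  nlinarith

end ELT
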