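import Pool.Agent.ELT.P1

set_option autoImplicit false

open Metric

namespace ELT

/-! ## [ELT-K8] the form is large near its maximum (file K8.lean)

By homogeneity (`Pf_smul`, each `q_i` separately) `hM` gives `‖Pf q‖ ≤ M (1 + 1/D)^{d(D-1)} ≤ M e^d` whenever all `‖q_i‖ ≤ 1 + 1/D`. `h(τ) = Pf (q* + τ (q - q*))` is entire (finite sum of products of polynomials in `τ`). For `|τ| < 8e^d`: `‖q*_i + τ(q_i - q*_i)‖ ≤ 1 + 1/D`, so
`‖h τ‖ ≤ M e^d`, and `h` maps `ball 0 (8e^d)` into `ball (h 0) (3 M e^d)` (`M > 0`). Schwarz lemma `Complex.dist_le_div_mul_dist_of_mapsTo_ball`: `dist (h 1) (h 0) ≤ 3Me^d/(8e^d) · 1 ≤ M/2`. `h 0 = Pf q*`, `h 1 = Pf q`. -/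

/-- the bound on a slightly larger polydisc -/
private theorem k8_scale (d D : ℕ) (hD : 1 ≤ D) (p : (Fin d → Fin D) → ℂ) (M : ℝ) (hM0 : 0 < M)
    (hM : ∀ q : Fin d → Fin 2 → ℂ, (∀ i, ‖q i‖ ≤ 1) → ‖Pf d D p q‖ ≤ M) (q : Fin d → Fin 2 → ℂ)
    (hq : ∀ i, ‖q i‖ ≤ 1 + 1 / D) : ‖Pf d D p q‖ ≤ M * Real.exp d := by
  have hD0 : (0 : ℝ) < D := by exact_mod_cast hD
  have hc : (0 : ℝ) < 1 + 1 / D := by positivity
  obtain ⟨c, hcdef⟩ : ∃ c : ℝ, c = 1 + 1 / D := ⟨_, rfl⟩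
  rw [← hcdef] at hc hq
  have hcC : (c : ℂ) ≠ 0 := by exact_mod_cast hc.ne'
  have e1 : q = fun i k => (c : ℂ) * ((c : ℂ)⁻¹ * q i k) := by
    funext i k
    rw [mul_inv_cancel_left₀ hcC]
  rw [e1, Pf_smul d D p (fun _ => (c : ℂ)) (fun i k => (c : ℂ)⁻¹ * q i k), norm_mul, norm_pow, Finset.prod_const,
    Finset.card_univ, Fintype.card_fin, norm_pow, Complex.norm_real, Real.norm_of_nonneg hc.le]
  have h1 : ‖Pf d D p fun i k => (c : ℂ)⁻¹ * q i k‖ ≤ M := by
    refine hM _ fun i => ?_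
    rw [pi_norm_le_iff_of_nonneg zero_le_one]
    intro k
    rw [norm_mul, norm_inv, Complex.norm_real, Real.norm_of_nonneg hc.le, inv_mul_le_iff₀ hc, mul_one]
    exact (norm_le_pi_norm (q i) k).trans (hq i)
  have h2 : (c ^ d) ^ (D - 1) ≤ Real.exp d := by
    have h3 : c ^ D ≤ Real.exp 1 := by
      have h4 : c ≤ Real.exp (1 / D) := by
        rw [hcdef, add_comm]
        exact Real.add_one_le_exp _
      calc c ^ D ≤ (Real.exp (1 / D)) ^ D := pow_le_pow_left₀ hc.le h4 D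
        _ = Real.exp 1 := by
          rw [← Real.exp_nat_mul, mul_one_div_cancel hD0.ne']
    have h5 : c ^ (D - 1) ≤ Real.exp 1 := by
      refine le_trans ?_ h3
      refine pow_le_pow_right₀ ?_ (Nat.sub_le D 1)
      rw [hcdef]
      have : (0 : ℝ) ≤ 1 / D := by positivity
      linarith
    calc (c ^ d) ^ (D - 1) = (c ^ (D - 1)) ^ d := by rw [← pow_mul, ← pow_mul, mul_comm]
      _ ≤ (Real.exp 1) ^ d := pow_le_pow_left₀ (by positivity) h5 d
      _ = Real.exp d := by rw [← Real.exp_nat_mul, mul_one]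
  rw [mul_comm]
  exact mul_le_mul h1 h2 (by positivity) hM0.le

theorem Pf_near (d D : ℕ) (hD : 1 ≤ D) (p : (Fin d → Fin D) → ℂ) (M : ℝ) (hM0 : 0 < M)
    (hM : ∀ q : Fin d → Fin 2 → ℂ, (∀ i, ‖q i‖ ≤ 1) → ‖Pf d D p q‖ ≤ M)
    (q₀ q : Fin d → Fin 2 → ℂ) (h0 : ∀ i, ‖q₀ i‖ ≤ 1) (h0M : ‖Pf d D p q₀‖ = M)
    (hq : ∀ i, ‖q i - q₀ i‖ ≤ 1 / (8 * Real.exp d * D)) : M / 2 ≤ ‖Pf d D p q‖ := by
  have hD0 : (0 : ℝ) < D := by exact_mod_cast hD
  have hE : 1 ≤ Real.exp d := Real.one_le_exp (Nat.cast_nonneg d)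
  have hE0 : 0 < Real.exp d := Real.exp_pos _
  obtain ⟨h, hh⟩ : ∃ h : ℂ → ℂ, h = fun τ => Pf d D p fun i k => q₀ i k + τ * (q i k - q₀ i k) := ⟨_, rfl⟩
  have e0 : h 0 = Pf d D p q₀ := by
    rw [hh]
    simp only [zero_mul, add_zero]
  have e1 : h 1 = Pf d D p q := by
    rw [hh]
    simp only [one_mul, add_sub_cancel]
  have hdiff : Differentiable ℂ h := by
    rw [hh]
    unfold Pf
    refine Differentiable.fun_sum fun l _ => ?_
    refine Differentiable.const_mul ?_ _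
    refine Differentiable.fun_finsetProd fun i _ => ?_
    refine Differentiable.mul (Differentiable.pow ?_ _) (Differentiable.pow ?_ _)
    · exact (differentiable_id.mul_const _).const_add _
    · exact (differentiable_id.mul_const _).const_add _
  have hb : ∀ τ ∈ ball (0 : ℂ) (8 * Real.exp d), ‖h τ‖ ≤ M * Real.exp d := by
    intro τ hτ
    rw [mem_ball_zero_iff] at hτ
    rw [hh]
    refine k8_scale d D hD p M hM0 hM _ fun i => ?_
    have e : (fun k => q₀ i k + τ * (q i k - q₀ i k)) = q₀ i + τ • (q i - q₀ i) := by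
      funext k
      simp
    rw [e]
    refine (norm_add_le _ _).trans (add_le_add (h0 i) ?_)
    rw [norm_smul]
    calc ‖τ‖ * ‖q i - q₀ i‖ ≤ (8 * Real.exp d) * (1 / (8 * Real.exp d * D)) :=
          mul_le_mul hτ.le (hq i) (norm_nonneg _) (by positivity)
      _ = 1 / D := by field_simp
  have h8 : (0 : ℝ) < 8 * Real.exp d := by positivity
  have hmaps : Set.MapsTo h (ball 0 (8 * Real.exp d)) (ball (h 0) (3 * M * Real.exp d)) := by
    intro τ hτ
    rw [mem_ball, dist_eq_norm]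
    have h1 := hb τ hτ
    have h2 := hb 0 (mem_ball_self h8)
    have h3 := norm_sub_le (h τ) (h 0)
    have h4 : 0 < M * Real.exp d := by positivity
    linarith
  have h1m : (1 : ℂ) ∈ ball (0 : ℂ) (8 * Real.exp d) := by
    rw [mem_ball_zero_iff, norm_one]
    linarith
  have h5 := Complex.dist_le_div_mul_dist_of_mapsTo_ball hdiff.differentiableOn
    (hmaps.mono_right ball_subset_closedBall) h1m
  rw [dist_zero_right, norm_one, mul_one, dist_eq_norm] at h5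
  have h6 : 3 * M * Real.exp d / (8 * Real.exp d) = 3 * M / 8 := by
    field_simp
  rw [h6, e0, e1] at h5
  have h7 : ‖Pf d D p q₀‖ ≤ ‖Pf d D p q‖ + ‖Pf d D p q - Pf d D p q₀‖ := by
    have := norm_sub_norm_le (Pf d D p q₀) (Pf d D p q)
    rw [norm_sub_rev] at this
    linarith
  rw [h0M] at h7
  linarith

end ELT
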