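import Pool.Agent.ELT.K5
import Pool.Agent.ELT.K6
import Pool.Agent.ELT.K7
import Pool.Agent.ELT.K8

set_option autoImplicit false

open PeriodPair

namespace ELT

/-! ## [ELT-K9] lower bound on a disc of polynomial radius (file K9.lean)

The set `{q | ∀ i, ‖q i‖ = 1}` is compact and nonempty, `‖Pf p ·‖` is continuous: let `q₀` be a maximum point, `M = ‖Pf p q₀‖ ≥ 1` (`Pf_large`); by homogeneity (`Pf_smul`) `‖Pf p q‖ ≤ M` whenever all `‖q_i‖ ≤ 1` (`q_i = 0` for some `i`: if `D ≥ 2` the value is `0`; if `D = 1` all monomials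
are `1`; or by continuity/`‖q_i‖ q'_i`). `q₀ i = c_i xc(z_i)` (`xc_surj`). `C₁` from `kro L`, `C₂` from `xc_lip L`, `ε = 1/(8 e^d D C₁ C₂)`, so `C₁ε ≤ 1` and `C₂C₁ε ≤ 1/(8e^d D)`; `H = C D²` with the natural number `C ≥ 128 d e^{2d} C₁²C₂² + 1`: `2d/ε² ≤ H`. `kro` gives `w`,
`‖w‖ ≤ 16 (C D²)^{2d}/η`, so `C' = 16 C^{2d}`. `xc_lip` gives `q_i = c_i' xc(x_i w)` with `‖q_i - q₀_i‖ ≤ 1/(8e^dD)`; `Pf_near`: `‖Pf p q‖ ≥ M/2 ≥ 1/2`; `Pf_eq_Nf`: `Nf(xw) = ‖Pf p q‖/∏‖q_i‖^{D-1} ≥ (1/2)(1+1/D)^{-dD} ≥ e^{-d}/2`. -/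

/-- A maximum point of the form on the torus, which is also a maximum point on the polydisc. -/
theorem k9_max (d D : ℕ) (hD : 1 ≤ D) (p : (Fin d → Fin D) → ℤ) (hp : p ≠ 0) :
    ∃ q₀ : Fin d → Fin 2 → ℂ, (∀ i, ‖q₀ i‖ = 1) ∧ 1 ≤ ‖Pf d D (fun l => (p l : ℂ)) q₀‖ ∧
      ∀ q : Fin d → Fin 2 → ℂ, (∀ i, ‖q i‖ ≤ 1) →
        ‖Pf d D (fun l => (p l : ℂ)) q‖ ≤ ‖Pf d D (fun l => (p l : ℂ)) q₀‖ := by
  obtain ⟨q1, hq1, hq1'⟩ := Pf_large d D hD p hp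
  have hK : IsCompact (Set.univ.pi fun _ : Fin d => Metric.sphere (0 : Fin 2 → ℂ) 1) :=
    isCompact_univ_pi fun _ => isCompact_sphere 0 1
  have hmem : ∀ q : Fin d → Fin 2 → ℂ, q ∈ (Set.univ.pi fun _ : Fin d =>
      Metric.sphere (0 : Fin 2 → ℂ) 1) ↔ ∀ i, ‖q i‖ = 1 := by
    intro q
    simp [Set.mem_pi]
  have hcont : Continuous fun q : Fin d → Fin 2 → ℂ => ‖Pf d D (fun l => (p l : ℂ)) q‖ := by
    unfold Pf
    fun_prop
  obtain ⟨q₀, hq₀, hmax⟩ := hK.exists_isMaxOn ⟨q1, (hmem q1).2 hq1⟩ hcont.continuousOn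
  have hmax' : ∀ q : Fin d → Fin 2 → ℂ, (∀ i, ‖q i‖ = 1) →
      ‖Pf d D (fun l => (p l : ℂ)) q‖ ≤ ‖Pf d D (fun l => (p l : ℂ)) q₀‖ :=
    fun q hq => hmax ((hmem q).2 hq)
  have hq₀' := (hmem q₀).1 hq₀
  refine ⟨q₀, hq₀', hq1'.trans (hmax' q1 hq1), fun q hq => ?_⟩
  classical
  -- write `q i = ‖q i‖ q' i`
  let q' : Fin d → Fin 2 → ℂ := fun i => if q i = 0 then q₀ i else ((‖q i‖⁻¹ : ℝ) : ℂ) • q i
  have hq' : ∀ i, ‖q' i‖ = 1 := by
    intro i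
    by_cases h : q i = 0
    · simp only [q', if_pos h]; exact hq₀' i
    · simp only [q', if_neg h]
      rw [norm_smul, Complex.norm_real, norm_inv, norm_norm]
      exact inv_mul_cancel₀ (norm_ne_zero_iff.2 h)
  have hqq : q = fun i k => ((‖q i‖ : ℝ) : ℂ) * q' i k := by
    funext i k
    by_cases h : q i = 0
    · simp only [q', if_pos h]
      rw [h]; simp
    · simp only [q', if_neg h, Pi.smul_apply, smul_eq_mul]
      rw [← mul_assoc, ← Complex.ofReal_mul, mul_inv_cancel₀ (norm_ne_zero_iff.2 h)]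
      simp
  calc ‖Pf d D (fun l => (p l : ℂ)) q‖
      = ‖(∏ i, ((‖q i‖ : ℝ) : ℂ)) ^ (D - 1) * Pf d D (fun l => (p l : ℂ)) q'‖ := by
        conv_lhs => rw [hqq]
        rw [Pf_smul]
    _ ≤ 1 * ‖Pf d D (fun l => (p l : ℂ)) q'‖ := by
        rw [norm_mul]
        apply mul_le_mul_of_nonneg_right _ (norm_nonneg _)
        rw [norm_pow, norm_prod]
        apply pow_le_one₀ (Finset.prod_nonneg fun i _ => norm_nonneg _)
        apply Finset.prod_le_one (fun i _ => norm_nonneg _)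
        intro i _
        rw [Complex.norm_real, norm_norm]
        exact hq i
    _ ≤ ‖Pf d D (fun l => (p l : ℂ)) q₀‖ := by
        rw [one_mul]
        exact hmax' q' hq'

theorem k9_prod (d D : ℕ) (hD : 1 ≤ D) (q : Fin d → Fin 2 → ℂ)
    (hq : ∀ i, ‖q i‖ ≤ 1 + 1 / D) : ∏ i, ‖q i‖ ^ (D - 1) ≤ Real.exp d := by
  have hD0 : (0 : ℝ) < D := by exact_mod_cast hD
  have h1 : ∀ i, ‖q i‖ ^ (D - 1) ≤ Real.exp 1 := by
    intro i
    have h2 : ‖q i‖ ≤ Real.exp (1 / D) := (hq i).trans (by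
      have := Real.add_one_le_exp (1 / (D : ℝ))
      linarith)
    calc ‖q i‖ ^ (D - 1) ≤ (Real.exp (1 / D)) ^ (D - 1) :=
          pow_le_pow_left₀ (norm_nonneg _) h2 _
      _ = Real.exp ((D - 1 : ℕ) * (1 / D)) := by rw [← Real.exp_nat_mul]
      _ ≤ Real.exp 1 := by
          apply Real.exp_le_exp.2
          rw [mul_one_div, div_le_one hD0]
          exact_mod_cast Nat.sub_le D 1
  calc ∏ i, ‖q i‖ ^ (D - 1) ≤ ∏ _i : Fin d, Real.exp 1 :=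
        Finset.prod_le_prod (fun i _ => by positivity) fun i _ => h1 i
    _ = Real.exp d := by
        rw [Finset.prod_const, Finset.card_univ, Fintype.card_fin, ← Real.exp_nat_mul, mul_one]

theorem low (L : PeriodPair) (d : ℕ) : ∃ (C C' : ℕ) (c : ℝ), 1 ≤ C ∧ 0 < c ∧ ∀ D : ℕ, 1 ≤ D →
    ∀ p : (Fin d → Fin D) → ℤ, p ≠ 0 → ∀ (x : Fin d → ℂ) (η : ℝ), 0 < η →
      NR L x (C * D ^ 2) η → ∃ w : ℂ, ‖w‖ ≤ C' * (D : ℝ) ^ (4 * d) / η ∧
        c ≤ Nf L d D p fun i => x i * w := by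
  obtain ⟨C₁, hC₁, hkro⟩ := kro L
  obtain ⟨C₂, hC₂, hlip⟩ := xc_lip L
  set E : ℝ := Real.exp d with hE
  have hE1 : 1 ≤ E := Real.one_le_exp (Nat.cast_nonneg d)
  have hE0 : 0 < E := by linarith
  have hC₁0 : 0 < C₁ := by linarith
  have hC₂0 : 0 < C₂ := by linarith
  set C : ℕ := ⌈128 * d * E ^ 2 * C₁ ^ 2 * C₂ ^ 2 + 1⌉₊ with hC
  have hCr : 128 * d * E ^ 2 * C₁ ^ 2 * C₂ ^ 2 + 1 ≤ (C : ℝ) := Nat.le_ceil _
  have hC1 : 1 ≤ C := by
    have h1 : (1 : ℝ) ≤ C := by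
      have : 0 ≤ 128 * d * E ^ 2 * C₁ ^ 2 * C₂ ^ 2 := by positivity
      linarith
    exact_mod_cast h1
  refine ⟨C, 16 * C ^ (2 * d), 1 / (2 * E), hC1, by positivity, fun D hD p hp x η hη hNR => ?_⟩
  have hDR : (1 : ℝ) ≤ D := by exact_mod_cast hD
  have hD0 : (0 : ℝ) < D := by linarith
  obtain ⟨q₀, hq₀, hM1, hM⟩ := k9_max d D hD p hp
  set M : ℝ := ‖Pf d D (fun l => (p l : ℂ)) q₀‖ with hMdef
  have hne : ∀ i, q₀ i ≠ 0 := by
    intro i h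
    have := hq₀ i
    rw [h, norm_zero] at this
    exact zero_ne_one this
  choose z c₀ hc₀ hz using fun i => xc_surj L (q₀ i) (hne i)
  set ε : ℝ := 1 / (8 * E * D * C₁ * C₂) with hε
  have hε0 : 0 < ε := by positivity
  have hH : 2 * d / ε ^ 2 ≤ ((C * D ^ 2 : ℕ) : ℝ) := by
    have e1 : 2 * d / ε ^ 2 = (128 * d * E ^ 2 * C₁ ^ 2 * C₂ ^ 2) * (D : ℝ) ^ 2 := by
      rw [hε]; field_simp; ring
    rw [e1]
    push_cast
    have : 128 * d * E ^ 2 * C₁ ^ 2 * C₂ ^ 2 ≤ (C : ℝ) := by linarith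
    gcongr
  have hH1 : 1 ≤ C * D ^ 2 := Nat.one_le_iff_ne_zero.2 (by positivity)
  obtain ⟨w, hw, hl⟩ := hkro d x (C * D ^ 2) ε η hε0 hH hH1 hη hNR z
  refine ⟨w, ?_, ?_⟩
  · refine hw.trans (le_of_eq ?_)
    push_cast
    rw [mul_pow, ← pow_mul, show 2 * (2 * d) = 4 * d by ring]
    ring
  · choose l hlL hln using hl
    have hC1ε : C₁ * ε = 1 / (8 * E * D) / C₂ := by rw [hε]; field_simp
    have hle1 : C₁ * ε ≤ 1 := by
      rw [hC1ε, div_div, div_le_one (by positivity)]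
      have : 1 ≤ E * D := one_le_mul_of_one_le_of_one_le hE1 hDR
      have : 1 ≤ E * D * C₂ := one_le_mul_of_one_le_of_one_le this hC₂
      nlinarith
    have hq : ∀ i, ∃ c : ℂ, c ≠ 0 ∧
        ‖(fun k => c * xc L (x i * w) k - q₀ i k : Fin 2 → ℂ)‖ ≤ 1 / (8 * E * D) := by
      intro i
      obtain ⟨c, hc, hcn⟩ := hlip (z i) (x i * w) (l i) (q₀ i) (hlL i) (hq₀ i) ⟨c₀ i, hz i⟩
        ((hln i).trans hle1)
      refine ⟨c, hc, hcn.trans ?_⟩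
      calc C₂ * ‖x i * w - z i - l i‖ ≤ C₂ * (C₁ * ε) := by
            have := hln i
            gcongr
        _ = 1 / (8 * E * D) := by rw [hC1ε]; field_simp
    choose c' hc' hcn' using hq
    set q : Fin d → Fin 2 → ℂ := fun i k => c' i * xc L (x i * w) k with hqdef
    have hqn : ∀ i, ‖q i - q₀ i‖ ≤ 1 / (8 * Real.exp d * D) := fun i => hcn' i
    have h1 := Pf_near d D hD (fun l => (p l : ℂ)) M (by linarith) hM q₀ q
      (fun i => (hq₀ i).le) rfl hqn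
    have h2 := Pf_eq_Nf L d D p (fun i => x i * w) q (fun i => ⟨c' i, fun k => rfl⟩)
    have h3 : ∏ i, ‖q i‖ ^ (D - 1) ≤ Real.exp d := by
      refine k9_prod d D hD q fun i => ?_
      have h4 : ‖q i‖ ≤ ‖q i - q₀ i‖ + ‖q₀ i‖ := by
        simpa using norm_add_le (q i - q₀ i) (q₀ i)
      have h5 : 1 / (8 * Real.exp d * D) ≤ 1 / (D : ℝ) := by
        apply one_div_le_one_div_of_le hD0
        nlinarith
      have := hqn i
      rw [hq₀ i] at h4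
      linarith
    have h6 : 1 / 2 ≤ Nf L d D p (fun i => x i * w) * E := by
      calc (1 : ℝ) / 2 ≤ M / 2 := by linarith
        _ ≤ ‖Pf d D (fun l => (p l : ℂ)) q‖ := h1
        _ = Nf L d D p (fun i => x i * w) * ∏ i, ‖q i‖ ^ (D - 1) := h2
        _ ≤ Nf L d D p (fun i => x i * w) * E :=
            mul_le_mul_of_nonneg_left h3 (Nf_nonneg L d D p _)
    rw [div_le_iff₀ (by positivity)]
    linarith

end ELT
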