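import Pool.Agent.ELT.S1
import Pool.Agent.ELT.A5

set_option autoImplicit false

open PeriodPair LTD

namespace ELT

/-! ## [ELT-S3] smallness on a disc (file S3.lean)

Common part of steps 2 and 3. `W μ = ∑ μ_j y_j`, `Φ_μ = Pf d D (C ∘ p) (Q μ)`. Hypothesis: `ev u' Φ_μ = 0` for `μ` in `[0,S)^m`. Then `‖ev u Φ_μ‖ ≤ e^{N(2+log U)} E` (`ev_close`, `Φ_μ` of size `N` by `phi_sz`), so
`Nf(x W_μ) ≤ ε := e^{N(2+log U)} E e^{dDδ}` (`phi_nf`). `nf_schwarz` (same constant) for the set `T` of the `S^m` points `W_μ` (`Finset.image` of the box; injective and `σ`-separated by the hypothesis on `σ`, as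
`W_μ - W_{μ'} = ∑ (μ_j - μ'_j) y_j`, `|μ_j - μ'_j| ≤ S`; `‖W_μ‖ ≤ m Y S ≤ ρ`), `δ := σ`; `T.card = S^m`. -/

/-- size of the point `W μ` -/
theorem S3_norm {m S : ℕ} (y : Fin m → ℂ) (Y : ℝ) (hy : ∀ j, ‖y j‖ ≤ Y)
    (μ : Fin m → ℕ) (hμ : ∀ j, μ j < S) : ‖∑ j, ((μ j : ℕ) : ℂ) * y j‖ ≤ m * Y * S := by
  refine (norm_sum_le _ _).trans ?_
  have h1 : ∀ j ∈ (Finset.univ : Finset (Fin m)), ‖((μ j : ℕ) : ℂ) * y j‖ ≤ S * Y := by
    intro j _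
    rw [norm_mul, Complex.norm_natCast]
    have h2 : ((μ j : ℕ) : ℝ) ≤ S := by exact_mod_cast (hμ j).le
    exact mul_le_mul h2 (hy j) (norm_nonneg _) (Nat.cast_nonneg _)
  refine (Finset.sum_le_sum h1).trans (le_of_eq ?_)
  rw [Finset.sum_const, Finset.card_univ, Fintype.card_fin, nsmul_eq_mul]
  ring

/-- separation of the points `W μ` -/
theorem S3_sep {m S : ℕ} (y : Fin m → ℂ) (σ : ℝ)
    (hs : ∀ l : Fin m → ℤ, l ≠ 0 → (∀ j, |l j| ≤ (S : ℤ)) → σ ≤ ‖∑ j, (l j : ℂ) * y j‖)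
    (μ ν : Fin m → Fin S) (h : μ ≠ ν) :
    σ ≤ ‖∑ j, ((μ j : ℕ) : ℂ) * y j - ∑ j, ((ν j : ℕ) : ℂ) * y j‖ := by
  have h1 := hs (fun j => ((μ j : ℕ) : ℤ) - ((ν j : ℕ) : ℤ)) (by
    intro h0
    apply h
    funext j
    have h2 := congrFun h0 j
    simp only [Pi.zero_apply] at h2
    exact Fin.ext (by omega)) (by
    intro j
    have h2 := (μ j).2
    have h3 := (ν j).2
    rw [abs_le]
    constructor <;> omega)
  refine h1.trans (le_of_eq ?_)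
  congr 1
  rw [← Finset.sum_sub_distrib]
  refine Finset.sum_congr rfl fun j _ => ?_
  push_cast
  ring

theorem st_disc (L : PeriodPair) : ∃ Cs : ℝ, 1 ≤ Cs ∧ ∀ {ι : Type} (d D m S H : ℕ)
    (δ N U E X Y σ ρ G : ℝ) (x : Fin d → ℂ) (y : Fin m → ℂ) (u u' : ι → ℂ)
    (Q : (Fin m → ℕ) → Fin d → Fin 2 → MvPolynomial ι ℤ) (p : (Fin d → Fin D) → ℤ),
    1 ≤ D → 1 ≤ X → (∀ i, ‖x i‖ ≤ X) → 1 ≤ Y → (∀ j, ‖y j‖ ≤ Y) → 1 ≤ U → (∀ i, ‖u i‖ ≤ U) →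
    (∀ i, ‖u' i‖ ≤ U) → 0 ≤ E → (∀ i, ‖u' i - u i‖ ≤ E) → 0 ≤ δ → 1 ≤ ρ → m * Y * S ≤ ρ →
    0 < σ → σ ≤ 1 →
    (∀ l : Fin m → ℤ, l ≠ 0 → (∀ j, |l j| ≤ (S : ℤ)) → σ ≤ ‖∑ j, (l j : ℂ) * y j‖) →
    (∀ μ : Fin m → ℕ, (∀ j, μ j < S) → ∀ i,
      RepX L u δ (x i * ∑ j, ((μ j : ℕ) : ℂ) * y j) (Q μ i)) →
    d * D * δ ≤ N → (D : ℝ) ^ d * H * Real.exp (d * D * δ) ≤ Real.exp N →
    (∀ l, |((p l : ℤ) : ℝ)| ≤ H) →
    (∀ μ : Fin m → ℕ, (∀ j, μ j < S) →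
      ev u' (Pf d D (fun l => MvPolynomial.C (p l)) (Q μ)) = 0) →
    G = Cs * d * D * (1 + 13 * X * ρ) ^ 3 → ∀ w : ℂ, ‖w‖ ≤ ρ →
      Nf L d D p (fun i => x i * w) ≤ Real.exp G *
        (2 * (S : ℝ) ^ m * (Real.exp (N * (2 + Real.log U)) * E * Real.exp (d * D * δ) *
          Real.exp G) * (26 * ρ / σ) ^ (S ^ m) +
          ((6 : ℝ)⁻¹) ^ (S ^ m) * ((D : ℝ) ^ d * H * Real.exp G)) := by
  classical
  obtain ⟨Cs, hCs, hS⟩ := nf_schwarz L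
  refine ⟨Cs, hCs, ?_⟩
  intro ι d D m S H δ N U E X Y σ ρ G x y u u' Q p hD hX hx hY hy hU hu hu' hE hE' hδ hρ hρ' hσ hσ1
    hs hQ hdeg hlen hp h0 hG w hw
  set W : (Fin m → Fin S) → ℂ := fun μ => ∑ j, ((μ j : ℕ) : ℂ) * y j with hW
  have hinj : Function.Injective W := by
    intro μ ν h
    by_contra hne
    have h1 := S3_sep y σ hs μ ν hne
    have h2 : (∑ j, ((μ j : ℕ) : ℂ) * y j) - ∑ j, ((ν j : ℕ) : ℂ) * y j = 0 := sub_eq_zero.2 h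
    rw [h2, norm_zero] at h1
    linarith
  set T : Finset ℂ := Finset.univ.image W with hT
  have hcard : T.card = S ^ m := by
    rw [hT, Finset.card_image_of_injective _ hinj, Finset.card_univ, Fintype.card_fun,
      Fintype.card_fin, Fintype.card_fin]
  have hmem : ∀ a ∈ T, ∃ μ : Fin m → Fin S, W μ = a := by
    intro a ha
    obtain ⟨μ, _, hμ⟩ := Finset.mem_image.1 ha
    exact ⟨μ, hμ⟩
  set ε : ℝ := Real.exp (N * (2 + Real.log U)) * E * Real.exp (d * D * δ) with hε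
  have hε0 : 0 ≤ ε := by positivity
  have key := hS d D hD p x X H ρ σ ε G T hX hx (Nat.cast_nonneg _) hp hρ hσ (by linarith) hε0
    (by
      intro a ha
      obtain ⟨μ, rfl⟩ := hmem a ha
      exact (S3_norm y Y hy (fun j => (μ j : ℕ)) fun j => (μ j).2).trans hρ')
    (by
      intro a ha b hb hab
      obtain ⟨μ, rfl⟩ := hmem a ha
      obtain ⟨ν, rfl⟩ := hmem b hb
      exact S3_sep y σ hs μ ν fun h => hab (by rw [h]))
    (by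
      intro a ha
      obtain ⟨μ, rfl⟩ := hmem a ha
      have hμ : ∀ j, (fun j => (μ j : ℕ)) j < S := fun j => (μ j).2
      have h1 := (phi_nf L u d D p δ U (fun i => x i * W μ) (Q fun j => (μ j : ℕ)) hδ hU hu
        (hQ (fun j => (μ j : ℕ)) hμ)).1
      refine h1.trans ?_
      rw [hε]
      refine mul_le_mul_of_nonneg_right ?_ (Real.exp_pos _).le
      have h2 := ev_close u u' U E N hU hE hu hu' hE' _ (phi_sz d D p H δ N
        (Q fun j => (μ j : ℕ)) hδ (Nat.cast_nonneg _)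
        (fun i => (hQ (fun j => (μ j : ℕ)) hμ i).1) hp hdeg hlen)
      rw [h0 _ hμ, zero_sub, norm_neg] at h2
      exact h2)
    hG w hw
  rw [hcard] at key
  push_cast at key
  exact key

end ELT
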