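import Pool.Agent.ELT.S2
import Pool.Agent.ELT.S3
import Pool.Agent.ELT.K9

set_option autoImplicit false

open PeriodPair LTD

namespace ELT

/-! ## [ELT-S4] the transcendence argument without numerics (file S4.lean)

`Cs` from `st_disc L`, `C₁, C₂, c` from `low L d`. Suppose all hypotheses. `st1` (for `S`; `RepX` contains `Sz (Q μ i k) δ`) gives `p ≠ 0`, `|p| ≤ H`, `ev u' Φ_μ = 0` for `μ` in `[0,S)^m`.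
`st_disc` with `S`, `ρ = ρ₁`, `G₁`: `Nf(xw) ≤ B₁` for `‖w‖ ≤ ρ₁`. For `μ` in `[0,S')^m`: `‖W_μ‖ ≤ m Y S' ≤ ρ₁`, so `‖ev u Φ_μ‖ ≤ B₁ e^{dDδ(1+log U)}` (`phi_nf`), `‖ev u' Φ_μ‖ ≤ .. + e^{N(2+log U)}E < e^{-g}` (`ev_close`, `hn2`), so `= 0` by `Gap` (`phi_sz`).
`st_disc` with `S'`, `ρ = ρ₂`, `G₂`: `Nf(xw) < c` for `‖w‖ ≤ ρ₂` (`hn3`), contradiction to `low` (`‖w‖ ≤ C₂ D^{4d}/η ≤ ρ₂`). -/

theorem core (L : PeriodPair) (d : ℕ) : ∃ (Cs : ℝ) (C₁ C₂ : ℕ) (c : ℝ), 1 ≤ Cs ∧ 1 ≤ C₁ ∧ 0 < c ∧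
    ∀ {ι : Type} (D m S S' H : ℕ) (δ N g U E X Y σ η ρ₁ ρ₂ G₁ G₂ : ℝ) (x : Fin d → ℂ)
      (y : Fin m → ℂ) (u u' : ι → ℂ) (Q : (Fin m → ℕ) → Fin d → Fin 2 → MvPolynomial ι ℤ),
    1 ≤ D → S ≤ S' → 1 ≤ X → (∀ i, ‖x i‖ ≤ X) → 1 ≤ Y → (∀ j, ‖y j‖ ≤ Y) → 1 ≤ U →
    (∀ i, ‖u i‖ ≤ U) → (∀ i, ‖u' i‖ ≤ U) → 0 ≤ E → (∀ i, ‖u' i - u i‖ ≤ E) → 0 ≤ δ →
    0 < σ → σ ≤ 1 →
    (∀ l : Fin m → ℤ, l ≠ 0 → (∀ j, |l j| ≤ (S' : ℤ)) → σ ≤ ‖∑ j, (l j : ℂ) * y j‖) →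
    (∀ μ : Fin m → ℕ, (∀ j, μ j < S') → ∀ i,
      RepX L u δ (x i * ∑ j, ((μ j : ℕ) : ℂ) * y j) (Q μ i)) →
    Gap u' N g → 0 < η → NR L x (C₁ * D ^ 2) η → 1 ≤ ρ₁ → m * Y * S' ≤ ρ₁ → ρ₁ ≤ ρ₂ →
    C₂ * (D : ℝ) ^ (4 * d) / η ≤ ρ₂ →
    G₁ = Cs * d * D * (1 + 13 * X * ρ₁) ^ 3 → G₂ = Cs * d * D * (1 + 13 * X * ρ₂) ^ 3 →
    d * D * δ ≤ N → (D : ℝ) ^ d * H * Real.exp (d * D * δ) ≤ Real.exp N →
    2 * (S : ℝ) ^ m * Real.log (4 * (D : ℝ) ^ d * H *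
        Real.exp (d * D * (δ * (1 + Real.log U))) / Real.exp (-g) + 2) <
      (D : ℝ) ^ d * Real.log (H + 1) →
    Real.exp G₁ * (2 * (S : ℝ) ^ m * (Real.exp (N * (2 + Real.log U)) * E *
      Real.exp (d * D * δ) * Real.exp G₁) * (26 * ρ₁ / σ) ^ (S ^ m) +
      ((6 : ℝ)⁻¹) ^ (S ^ m) * ((D : ℝ) ^ d * H * Real.exp G₁)) *
      Real.exp (d * D * (δ * (1 + Real.log U))) + Real.exp (N * (2 + Real.log U)) * E <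
      Real.exp (-g) →
    Real.exp G₂ * (2 * (S' : ℝ) ^ m * (Real.exp (N * (2 + Real.log U)) * E *
      Real.exp (d * D * δ) * Real.exp G₂) * (26 * ρ₂ / σ) ^ (S' ^ m) +
      ((6 : ℝ)⁻¹) ^ (S' ^ m) * ((D : ℝ) ^ d * H * Real.exp G₂)) < c → False := by
  obtain ⟨Cs, hCs, hdisc⟩ := st_disc L
  obtain ⟨C₁, C₂, c, hC₁, hc, hlow⟩ := low L d
  refine ⟨Cs, C₁, C₂, c, hCs, hC₁, hc, ?_⟩
  intro ι D m S S' H δ N g U E X Y σ η ρ₁ ρ₂ G₁ G₂ x y u u' Q hD hSS hX hx hY hy hU hu hu' hE hE'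
    hδ hσ hσ1 hs hQ hGap hη hNR hρ₁ hρ₁' hρ₁₂ hρ₂ hG₁ hG₂ hdeg hlen hDir hn2 hn3
  have hlt : ∀ μ : Fin m → ℕ, (∀ j, μ j < S) → ∀ j, μ j < S' := fun μ h j =>
    lt_of_lt_of_le (h j) hSS
  obtain ⟨p, hp0, hp, h0⟩ := st1 d D m S H δ N g U u' Q hU hu' hGap hδ
    (fun μ hμ i => (hQ μ (hlt μ hμ) i).1) hdeg hlen hDir
  have hY0 : 0 ≤ Y := by linarith
  have hSS' : (S : ℝ) ≤ (S' : ℝ) := by exact_mod_cast hSS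
  have hm0 : (0 : ℝ) ≤ m * Y := mul_nonneg (Nat.cast_nonneg _) hY0
  have hSz : ∀ μ : Fin m → ℕ, (∀ j, μ j < S') →
      Sz (Pf d D (fun l => MvPolynomial.C (p l)) (Q μ)) N := fun μ hμ =>
    phi_sz d D p H δ N (Q μ) hδ (Nat.cast_nonneg _) (fun i => (hQ μ hμ i).1) hp hdeg hlen
  have h1 := hdisc d D m S H δ N U E X Y σ ρ₁ G₁ x y u u' Q p hD hX hx hY hy hU hu hu' hE hE' hδ
    hρ₁ ((mul_le_mul_of_nonneg_left hSS' hm0).trans hρ₁') hσ hσ1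
    (fun l hl hl' => hs l hl fun j => (hl' j).trans (by exact_mod_cast hSS))
    (fun μ hμ i => hQ μ (hlt μ hμ) i) hdeg hlen hp h0 hG₁
  have h2 : ∀ μ : Fin m → ℕ, (∀ j, μ j < S') →
      ev u' (Pf d D (fun l => MvPolynomial.C (p l)) (Q μ)) = 0 := by
    intro μ hμ
    rcases hGap _ (hSz μ hμ) with h | h
    · exact h
    · exfalso
      have h3 := h1 (∑ j, ((μ j : ℕ) : ℂ) * y j) ((S3_norm y Y hy μ hμ).trans hρ₁')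
      have h4 := (phi_nf L u d D p δ U (fun i => x i * ∑ j, ((μ j : ℕ) : ℂ) * y j) (Q μ) hδ hU hu
        (hQ μ hμ)).2
      have h5 := ev_close u u' U E N hU hE hu hu' hE' _ (hSz μ hμ)
      have h6 := norm_le_insert' (ev u' (Pf d D (fun l => MvPolynomial.C (p l)) (Q μ)))
        (ev u (Pf d D (fun l => MvPolynomial.C (p l)) (Q μ)))
      have h7 := mul_le_mul_of_nonneg_right h3
        (Real.exp_pos (d * D * (δ * (1 + Real.log U)))).le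
      linarith
  have h8 := hdisc d D m S' H δ N U E X Y σ ρ₂ G₂ x y u u' Q p hD hX hx hY hy hU hu hu' hE hE' hδ
    (hρ₁.trans hρ₁₂) (hρ₁'.trans hρ₁₂) hσ hσ1 hs hQ hdeg hlen hp h2 hG₂
  obtain ⟨w, hw, hw'⟩ := hlow D hD p hp0 x η hη hNR
  exact absurd (hw'.trans (h8 w (hw.trans hρ₂))) (not_le.2 hn3)

end ELT
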