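import Pool.Agent.ELT.W10
import Pool.Agent.ELT.S4
import Pool.Agent.ELT.N2
import Pool.Agent.ELT.NU1
import Pool.Agent.ELT.NU2
import Pool.Agent.ELT.NU3
import Pool.Agent.ELT.NU4
import Pool.Agent.ELT.NU5
import Pool.Agent.ELT.NU6
import Pool.Agent.ELT.NU7
import Pool.Agent.LTD.GapU

set_option autoImplicit false

open PeriodPair LTD Module

namespace ELT

/-! ## [ELT-S5] THEOREM E1, assembly (file S5.lean)

`gap_u t 90` gives `Γ`; `d = ⌈16Γ⌉`, `m = 410 d`. Given `F, L, K, nX, x, y` (`x_k` instead of `x₀_k` below), suppose `InW L F (x_k y_j)` for all `k, j`. `y` is independent, so `m ≤ finrank ℚ K ≤ 2 nX`, `205 d ≤ nX`.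
`rep_final` with `κ = Fin nX × Fin m`, `b (k,j) = x_k y_j`: `ι, u, CR`. `core L d`: `Cs, C₁, C₂, c`. `liou` for `y`: `cσ` (make it `≤ 1`), `nr_exist L d nX K x`: `cη`. `KX = nX W` with `W ≥ 1` a bound of the `‖x_k‖`; `Y ≥ 1` a bound of the `‖y_j‖`; `U = 1 + max ‖u i‖`. `N` large (all `N₀`'s; `gap_u`'s `N₀` for `u`):
`γ ∈ [1, Γ]`, `u'`, `T = N^γ`, `N ≤ T ≤ N^Γ`, `E = exp(-N^{90γ}) = exp(-T^90)` (`Real.rpow_mul`, `Real.rpow_natCast`), `g = T`. `D, S, S'` from `nu_a`, `B` from `nu_b`, `e` from `nr_exist` with `H := C₁ D²`: `x'_i = ∑_k e_ik x_k`, `‖x'_i‖ ≤ nX B W = KX B = X`.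
For `μ ∈ [0,S')^m`: `x'_i ∑ μ_j y_j = ∑_{k,j} (e_ik μ_j) (x_k y_j)`, `e_ik μ_j ≤ B S'`: `Q μ i` from `rep_final` with `S := B S'`, `δ = CR (BS'+1)^5` (choice). `σ = cσ/S'^{Dk}`, `Dk = finrank ℚ K`; `η = cη/B^{2nX}`; `ρ₁ = m Y S'`, `ρ₂ = ρ₁ + C₂ D^{4d}/η`; `H = ⌊e^{N/8}⌋`.
The numerical hypotheses of `core`: `nu_c` (`dDδ ≤ N/16`, `dDδ(1+log U) ≤ N/16`, `G₁ ≤ N/16`), `nu_c2`, `nu_d` with `P = D^d`, `a = dDδ(1+log U)`, `M = S^m`; `nu_e` with `M = S^m`, `P = D^d H ≤ e^{N/16+N/8}`, `R = 26ρ₁/σ`; `nu_f` with `M = S'^m`. -/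

theorem s5_sum {nX m : ℕ} (e : Fin nX → ℕ) (μ : Fin m → ℕ) (x : Fin nX → ℂ) (y : Fin m → ℂ) :
    (∑ k, (e k : ℂ) * x k) * ∑ j, ((μ j : ℕ) : ℂ) * y j =
      ∑ kj : Fin nX × Fin m, ((e kj.1 * μ kj.2 : ℕ) : ℂ) * (x kj.1 * y kj.2) := by
  rw [Finset.sum_mul_sum, Fintype.sum_prod_type]
  refine Finset.sum_congr rfl fun k _ => Finset.sum_congr rfl fun j _ => ?_
  push_cast
  ring

theorem s5_norm {nX : ℕ} (e : Fin nX → ℕ) (B : ℕ) (he : ∀ k, e k < B) (x : Fin nX → ℂ) :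
    ‖∑ k, (e k : ℂ) * x k‖ ≤ (1 + ∑ k, ‖x k‖) * B := by
  refine (norm_sum_le _ _).trans ?_
  have h1 : ∑ k, ‖(e k : ℂ) * x k‖ ≤ ∑ k, ‖x k‖ * B := by
    refine Finset.sum_le_sum fun k _ => ?_
    rw [norm_mul, Complex.norm_natCast, mul_comm]
    refine mul_le_mul_of_nonneg_left ?_ (norm_nonneg _)
    exact_mod_cast (he k).le
  refine h1.trans ?_
  rw [← Finset.sum_mul]
  refine mul_le_mul_of_nonneg_right ?_ (Nat.cast_nonneg _)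
  linarith

theorem s5_le {α : Type} [Fintype α] (f : α → ℂ) (a : α) : ‖f a‖ ≤ ∑ b, ‖f b‖ :=
  Finset.single_le_sum (f := fun b => ‖f b‖) (fun _ _ => norm_nonneg _) (Finset.mem_univ a)

theorem ell_ltd (t : ℕ) : ∃ m : ℕ, 1 ≤ m ∧ ∀ F : IntermediateField ℚ ℂ,
    Algebra.trdeg ℚ F ≤ (t : Cardinal) → Clo F → ∀ L : PeriodPair, L.g₂ ∈ F → L.g₃ ∈ F →
      ∀ (K : IntermediateField ℚ ℂ) [FiniteDimensional ℚ K] (nX : ℕ) (x : Fin nX → K)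
        (y : Fin m → K), LinearIndependent ℚ x → LinearIndependent ℚ y →
        finrank ℚ K ≤ 2 * nX → ∃ k j, ¬ InW L F (((x k : K) : ℂ) * ((y j : K) : ℂ)) := by
  obtain ⟨Γ, hΓ1, hgap⟩ := gap_u t 90 (by norm_num)
  set d : ℕ := ⌈16 * Γ⌉₊ with hd
  have hdΓ : 16 * Γ ≤ d := Nat.le_ceil _
  have hd1 : 1 ≤ d := by
    have h1 : (1 : ℝ) ≤ d := by linarith
    exact_mod_cast h1
  obtain ⟨m, hm⟩ : ∃ m, m = 410 * d := ⟨_, rfl⟩
  have hm1 : 1 ≤ m := by omega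
  refine ⟨m, hm1, fun F hF hClo L h2 h3 K _ nX x y hx hy hK => ?_⟩
  by_contra hcon
  push Not at hcon
  have hmK : m ≤ finrank ℚ K := by
    have h1 := hy.fintype_card_le_finrank
    rwa [Fintype.card_fin] at h1
  have hnX : 205 * d ≤ nX := by omega
  obtain ⟨ι, _, u, CR, huF, hCR, hrep⟩ := rep_final L F hClo h2 h3 (Fin nX × Fin m)
    (fun kj => ((x kj.1 : K) : ℂ) * ((y kj.2 : K) : ℂ)) (fun kj => hcon kj.1 kj.2)
  obtain ⟨Cs, C₁, C₂, c, hCs, hC₁, hc, hcore⟩ := core L d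
  obtain ⟨cσ₀, hcσ₀, hσ₀⟩ := liou K m y hy
  obtain ⟨cη, hcη, hnr⟩ := nr_exist L d nX K x hx hK
  set cσ : ℝ := min cσ₀ 1 with hcσdef
  have hcσ : 0 < cσ := lt_min hcσ₀ one_pos
  set KX : ℝ := 1 + ∑ k, ‖((x k : K) : ℂ)‖ with hKXdef
  have hKX : 1 ≤ KX := by
    have h1 : 0 ≤ ∑ k, ‖((x k : K) : ℂ)‖ := Finset.sum_nonneg fun _ _ => norm_nonneg _
    linarith
  set Y : ℝ := 1 + ∑ j, ‖((y j : K) : ℂ)‖ with hYdef
  have hY : 1 ≤ Y := by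
    have h1 : 0 ≤ ∑ j, ‖((y j : K) : ℂ)‖ := Finset.sum_nonneg fun _ _ => norm_nonneg _
    linarith
  set U : ℝ := 1 + ∑ i, ‖u i‖ with hUdef
  have hU : 1 ≤ U := by
    have h1 : 0 ≤ ∑ i, ‖u i‖ := Finset.sum_nonneg fun _ _ => norm_nonneg _
    linarith
  have hlU : 0 ≤ Real.log U := Real.log_nonneg hU
  obtain ⟨Kb, hKb, hnub⟩ := nu_b d nX C₁ hd1 hnX hC₁
  obtain ⟨N1, hN1⟩ := nu_c d m Kb CR KX Y Cs (Real.log U) hKb hCR hKX hY hCs hlU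
  obtain ⟨N2, K', hK', hN2⟩ := nu_c2 d m nX (finrank ℚ K) C₂ Kb KX Y Cs cσ cη hd1 hKb hKX hY hCs
    hcσ hcη
  have h2m : (1 : ℝ) ≤ 2 ^ m := one_le_pow₀ (by norm_num)
  have h2d : (1 : ℝ) ≤ 2 ^ d := one_le_pow₀ (by norm_num)
  have hKd : (1 : ℝ) ≤ 2 ^ m * 14 := by linarith
  obtain ⟨N3, hN3⟩ := nu_d (2 ^ m * 14) hKd
  obtain ⟨N4, hN4⟩ := nu_e (Real.log U) (2 ^ m * 14) hlU hKd
  have hKf : (1 : ℝ) ≤ 2 ^ d + 2 ^ m + K' := by linarith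
  obtain ⟨N5, hN5⟩ := nu_f d (Real.log U) (2 ^ d + 2 ^ m + K') c hlU hKf hc
  obtain ⟨N6, hN6⟩ := hgap F hF ι u huF
  obtain ⟨N, g0, g1, g2, g3, g4, g5, g6⟩ : ∃ N : ℝ, 2 ≤ N ∧ N1 ≤ N ∧ N2 ≤ N ∧ N3 ≤ N ∧ N4 ≤ N ∧
      N5 ≤ N ∧ N6 ≤ N :=
    ⟨max 2 (max N1 (max N2 (max N3 (max N4 (max N5 N6))))), by simp⟩
  obtain ⟨γ, hγ1, hγ2, u', hu', hGap⟩ := hN6 N g6
  obtain ⟨T, hT⟩ : ∃ T : ℝ, T = N ^ γ := ⟨_, rfl⟩
  have hN1' : (1 : ℝ) ≤ N := by linarith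
  have hN0 : (0 : ℝ) ≤ N := by linarith
  have hNT : N ≤ T := by
    rw [hT]
    exact Real.self_le_rpow_of_one_le hN1' hγ1
  have hTΓ : T ≤ N ^ Γ := by
    rw [hT]
    exact Real.rpow_le_rpow_of_exponent_le hN1' hγ2
  have hE : N ^ (90 * γ) = T ^ 90 := by
    rw [hT, mul_comm, Real.rpow_mul hN0]
    exact_mod_cast Real.rpow_natCast (N ^ γ) 90
  rw [← hT] at hGap
  rw [hE] at hu'
  obtain ⟨D, S, S', hD1, hS1, hS'1, hSS', q1, q2, q3, q4, q5, q6, q7, q8⟩ :=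
    nu_a d m hd1 hm Γ hdΓ N T g0 hNT hTΓ
  obtain ⟨B, hB1, b1, b2, b3⟩ := hnub D hD1
  obtain ⟨e, he, hNR⟩ := hnr (C₁ * D ^ 2) B b1
  obtain ⟨c1, c2, c3⟩ := hN1 N g1 D S' B hD1 hS'1 hB1 q3 q8 b3
  obtain ⟨c4, c5, c6, c7⟩ := hN2 N g2 D S' B hD1 hS'1 hB1 q3 q8 b3 b2 _ rfl
  set δ : ℝ := CR * (((B * S' : ℕ) : ℝ) + 1) ^ 5 with hδdef
  have hδ : 0 ≤ δ := by
    have h1 : 0 ≤ CR := by linarith
    positivity
  have hBr : (1 : ℝ) ≤ B := by exact_mod_cast hB1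
  have hS'r : (1 : ℝ) ≤ S' := by exact_mod_cast hS'1
  have hDr : (1 : ℝ) ≤ D := by exact_mod_cast hD1
  have hmr : (1 : ℝ) ≤ m := by exact_mod_cast hm1
  have hη : 0 < cη / (B : ℝ) ^ (2 * nX) := by positivity
  have hRep : ∀ (μ : Fin m → ℕ) (i : Fin d), ∃ q : Fin 2 → MvPolynomial ι ℤ,
      (∀ j, μ j < S') → RepX L u δ ((∑ k, (e i k : ℂ) * ((x k : K) : ℂ)) *
        ∑ j, ((μ j : ℕ) : ℂ) * ((y j : K) : ℂ)) q := by
    intro μ i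
    by_cases hμ : ∀ j, μ j < S'
    · obtain ⟨q, hq⟩ := hrep (B * S') (fun kj => e i kj.1 * μ kj.2)
        (fun kj => Nat.mul_le_mul (he i kj.1).le (hμ kj.2).le)
      refine ⟨q, fun _ => ?_⟩
      rw [s5_sum]
      exact hq
    · exact ⟨0, fun h => absurd h hμ⟩
  choose Q hQ using hRep
  obtain ⟨G₁, hG₁⟩ : ∃ G₁ : ℝ, G₁ = Cs * d * D * (1 + 13 * (KX * B) * (m * Y * S')) ^ 3 :=
    ⟨_, rfl⟩
  obtain ⟨ρ₂, hρ₂⟩ : ∃ ρ₂ : ℝ, ρ₂ = m * Y * S' + C₂ * (D : ℝ) ^ (4 * d) /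
    (cη / (B : ℝ) ^ (2 * nX)) := ⟨_, rfl⟩
  obtain ⟨G₂, hG₂⟩ : ∃ G₂ : ℝ, G₂ = Cs * d * D * (1 + 13 * (KX * B) * ρ₂) ^ 3 := ⟨_, rfl⟩
  obtain ⟨H, hH⟩ : ∃ H : ℕ, H = ⌊Real.exp (N / 8)⌋₊ := ⟨_, rfl⟩
  rw [← hG₁] at c3
  rw [← hρ₂, ← hG₂] at c4
  rw [← hρ₂] at c5
  have hHe : (H : ℝ) ≤ Real.exp (N / 8) := by
    rw [hH]
    exact Nat.floor_le (Real.exp_pos _).le
  have hCs0 : 0 ≤ Cs := by linarith
  have hYS : 1 ≤ (m : ℝ) * Y * S' :=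
    one_le_mul_of_one_le_of_one_le (one_le_mul_of_one_le_of_one_le hmr hY) hS'r
  have hρ₂1 : (m : ℝ) * Y * S' ≤ ρ₂ := by
    rw [hρ₂]
    have h1 : 0 ≤ C₂ * (D : ℝ) ^ (4 * d) / (cη / (B : ℝ) ^ (2 * nX)) := by positivity
    linarith
  have hρ₂2 : C₂ * (D : ℝ) ^ (4 * d) / (cη / (B : ℝ) ^ (2 * nX)) ≤ ρ₂ := by
    rw [hρ₂]
    linarith
  have hKX0 : 0 ≤ KX := by linarith
  have hG₁0 : 0 ≤ G₁ := by
    rw [hG₁]
    have : 0 ≤ (m : ℝ) * Y * S' := by linarith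
    positivity
  have hG₂0 : 0 ≤ G₂ := by
    rw [hG₂]
    have : 0 ≤ ρ₂ := by linarith
    positivity
  have hσ1 : cσ / (S' : ℝ) ^ (finrank ℚ K) ≤ 1 := by
    rw [div_le_one (by positivity)]
    exact (min_le_right _ _).trans (one_le_pow₀ hS'r)
  have hσ0' : 0 < cσ / (S' : ℝ) ^ (finrank ℚ K) := by positivity
  have ha0 : 0 ≤ (d : ℝ) * D * (δ * (1 + Real.log U)) := by positivity
  have hPH : (D : ℝ) ^ d * H ≤ Real.exp (N / 16) * Real.exp (N / 8) :=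
    mul_le_mul c7 hHe (Nat.cast_nonneg _) (Real.exp_pos _).le
  have hPH2 : (D : ℝ) ^ d * H ≤ Real.exp (2 * N) := by
    refine hPH.trans ?_
    rw [← Real.exp_add]
    exact Real.exp_le_exp.2 (by linarith)
  refine hcore D m S S' H δ N T U (Real.exp (-T ^ 90)) (KX * B) Y
    (cσ / (S' : ℝ) ^ (finrank ℚ K)) (cη / (B : ℝ) ^ (2 * nX)) (m * Y * S') ρ₂ G₁ G₂
    (fun i => ∑ k, (e i k : ℂ) * ((x k : K) : ℂ)) (fun j => ((y j : K) : ℂ)) u u' Q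
    hD1 hSS' (one_le_mul_of_one_le_of_one_le hKX hBr) ?_ hY ?_ hU ?_ ?_ (Real.exp_pos _).le hu'
    hδ hσ0' hσ1 ?_ (fun μ hμ i => hQ μ i hμ) hGap hη hNR hYS le_rfl hρ₂1 hρ₂2 hG₁ hG₂
    ?_ ?_ ?_ ?_ ?_
  · exact fun i => s5_norm (e i) B (he i) fun k => ((x k : K) : ℂ)
  · intro j
    have h1 := s5_le (fun j => ((y j : K) : ℂ)) j
    rw [hYdef]
    linarith
  · intro i
    have h1 := s5_le u i
    rw [hUdef]
    linarith
  · intro i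
    have h1 := s5_le u i
    have h4 := hu' i
    have h5 : Real.exp (-T ^ 90) ≤ 1 := by
      rw [Real.exp_le_one_iff]
      have : 0 ≤ T ^ 90 := by
        have : 0 ≤ T := by linarith
        positivity
      linarith
    have h6 : ‖u' i‖ ≤ ‖u' i - u i‖ + ‖u i‖ := by
      have h7 := norm_add_le (u' i - u i) (u i)
      rwa [sub_add_cancel] at h7
    rw [hUdef]
    linarith
  · intro l hl hlS
    have h1 := hσ₀ S' hS'1 l hl hlS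
    refine le_trans ?_ h1
    exact div_le_div_of_nonneg_right (min_le_left _ _) (by positivity)
  · linarith
  · have h1 : Real.exp (d * D * δ) ≤ Real.exp (N / 16) := Real.exp_le_exp.2 c2
    refine (mul_le_mul hPH h1 (Real.exp_pos _).le (by positivity)).trans ?_
    rw [← Real.exp_add, ← Real.exp_add]
    exact Real.exp_le_exp.2 (by linarith)
  · have h1 := hN3 N g3 T hNT ((D : ℝ) ^ d) (d * D * (δ * (1 + Real.log U))) ((S : ℝ) ^ m) q1 c7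
      (by positivity) (by linarith) ha0 (by linarith)
    rw [← hH] at h1
    exact h1
  · have h1 := hN4 N g4 T hNT (S ^ m) G₁ (d * D * δ) (d * D * (δ * (1 + Real.log U)))
      (26 * (m * Y * S') / (cσ / (S' : ℝ) ^ (finrank ℚ K))) ((D : ℝ) ^ d * H)
      (by push_cast; exact q4) (by push_cast; linarith) hG₁0 (by linarith) (by linarith)
      (by linarith) (by positivity) c6 (by positivity) hPH2
    push_cast at h1
    exact h1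
  · have h1 := hN5 N g5 T hNT D (S' ^ m) G₂ (d * D * δ)
      (26 * ρ₂ / (cσ / (S' : ℝ) ^ (finrank ℚ K))) ((D : ℝ) ^ d * H) hD1 q1
      (by
        refine q2.trans (mul_le_mul_of_nonneg_right ?_ (by positivity))
        linarith)
      (by push_cast; exact q6)
      (by
        push_cast
        refine q7.trans (mul_le_mul_of_nonneg_right ?_ (by positivity))
        linarith)
      hG₂0
      (c4.trans (mul_le_mul_of_nonneg_right (by linarith) (by positivity)))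
      (by linarith)
      (by
        have : 0 ≤ ρ₂ := by linarith
        positivity) c5 (by positivity) hPH2
    push_cast at h1
    exact h1

end ELT
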