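import Pool.Agent.ELT.W1
import Pool.Agent.MP_9ab903_nt.NT.W1

set_option autoImplicit false

open PeriodPair LTD

namespace ELT

/-! ## [ELT-W3] every point of the cubic is a multiple of some `pc z` (file W3.lean)

If `P 2 = 0` then `P 0 = 0` by the equation, so `P = P 1 · (0,1,0)`, `z = 0`, `c = P 1 ≠ 0`. Otherwise `x = P 0 / P 2`, `y = P 1 / P 2` satisfy
`y² = x³ + a₄ x + a₆`; `WP63.wp_surj` (file MP_9ab903_nt/NT/W1.lean) gives `z ∉ L` with `℘(z) = x`, and `(℘'(z)/2)² = y²`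
(`derivWeierstrassP_sq`), so `℘'(z)/2 = ± y`; for the sign `-` replace `z` by `-z`. `c = P 2`. -/

theorem w3_pc_of_notMem (L : PeriodPair) (z : ℂ) (hz : z ∉ L.lattice) :
    pc L z = ![℘[L] z, ℘'[L] z / 2, 1] := by
  unfold pc
  rw [if_neg hz]

theorem w3_pc_zero (L : PeriodPair) : pc L 0 = ![0, 1, 0] := by
  unfold pc
  rw [if_pos (zero_mem _)]

theorem w3_fin (L : PeriodPair) (P : Fin 3 → ℂ) (h2 : P 2 ≠ 0) (z : ℂ) (hz : z ∉ L.lattice)
    (hx : ℘[L] z = P 0 / P 2) (hy : ℘'[L] z / 2 = P 1 / P 2) :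
    ∀ k, P k = P 2 * pc L z k := by
  intro k
  rw [w3_pc_of_notMem L z hz, hx, hy]
  fin_cases k
  · show P 0 = P 2 * (P 0 / P 2)
    field_simp
  · show P 1 = P 2 * (P 1 / P 2)
    field_simp
  · show P 2 = P 2 * 1
    rw [mul_one]

theorem onC_surj (L : PeriodPair) (P : Fin 3 → ℂ) (hP : P ≠ 0) (h : OnC L P) :
    ∃ z c : ℂ, c ≠ 0 ∧ ∀ k, P k = c * pc L z k := by
  unfold OnC at h
  by_cases h2 : P 2 = 0
  · rw [h2] at h
    have h0 : P 0 = 0 := by
      have h3 : P 0 ^ 3 = 0 := by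
        linear_combination -h
      exact pow_eq_zero_iff (three_ne_zero) |>.mp h3
    have h1 : P 1 ≠ 0 := by
      intro h1
      apply hP
      funext k
      fin_cases k
      · exact h0
      · exact h1
      · exact h2
    refine ⟨0, P 1, h1, fun k => ?_⟩
    rw [w3_pc_zero]
    fin_cases k
    · show P 0 = P 1 * 0
      rw [h0, mul_zero]
    · show P 1 = P 1 * 1
      rw [mul_one]
    · show P 2 = P 1 * 0
      rw [h2, mul_zero]
  · obtain ⟨z, hz, hx⟩ := WP63.wp_surj L (P 0 / P 2)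
    have hsq := L.derivWeierstrassP_sq z hz
    have hy2 : (P 1 / P 2) ^ 2 = (P 0 / P 2) ^ 3 + a4 L * (P 0 / P 2) + a6 L := by
      field_simp
      linear_combination h
    have hprod : (℘'[L] z / 2 - P 1 / P 2) * (℘'[L] z / 2 + P 1 / P 2) = 0 := by
      rw [hx] at hsq
      unfold a4 a6 at hy2
      linear_combination hsq / 4 - hy2
    rcases mul_eq_zero.mp hprod with h3 | h3
    · exact ⟨z, P 2, h2, w3_fin L P h2 z hz hx (by linear_combination h3)⟩
    · have hz' : -z ∉ L.lattice := fun hm => hz (by simpa using neg_mem hm)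
      refine ⟨-z, P 2, h2, w3_fin L P h2 (-z) hz' ?_ ?_⟩
      · rw [L.weierstrassP_neg, hx]
      · rw [L.derivWeierstrassP_neg]
        linear_combination -h3

end ELT
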