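import Pool.Agent.ELT.W2
import Pool.Agent.ELT.W3

set_option autoImplicit false

open PeriodPair LTD

namespace ELT

/-! ## [ELT-W5] the addition law with bounded loss (file W5.lean)

`law2_pc`: `law2 (pc t) (pc z) (pc v)` is a multiple of `pc (z+v)`. `law2_ne`: for some `k : Fin 4` it does not vanish. `cpt`: compactness. -/

theorem law2_pc (L : PeriodPair) (t z v : ℂ) :
    ∃ c : ℂ, (∀ k, law2 (a4 L) (a6 L) (pc L t) (pc L z) (pc L v) k = c * pc L (z + v) k) ∧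
      (z - t ∉ L.lattice → v + t ∉ L.lattice → z - v + 2 * t ∉ L.lattice → c ≠ 0) := by
  obtain ⟨c1, h1, n1⟩ := law_pc L z t
  obtain ⟨c2, h2, n2⟩ := law_pc L v (-t)
  obtain ⟨c3, h3, n3⟩ := law_pc L (z + t) (v + -t)
  obtain ⟨e, he, h4⟩ := pc_ngt L t
  have e1 : law (a4 L) (a6 L) (pc L z) (pc L t) = fun k => c1 * pc L (z + t) k := funext h1
  have e4 : ngt (pc L t) = fun k => e * pc L (-t) k := funext h4
  have e2 : law (a4 L) (a6 L) (pc L v) (ngt (pc L t)) = fun k => (e ^ 2 * c2) * pc L (v + -t) k := by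
    have := law_smul (a4 L) (a6 L) 1 e (pc L v) (pc L (-t))
    rw [e4]
    have e5 : (fun k => 1 * pc L v k) = pc L v := by funext k; rw [one_mul]
    rw [e5] at this
    rw [this]
    funext k
    rw [h2 k]
    ring
  have e6 : z + t + (v + -t) = z + v := by ring
  refine ⟨c1 ^ 2 * (e ^ 2 * c2) ^ 2 * c3, fun k => ?_, fun m1 m2 m3 => ?_⟩
  · unfold law2
    rw [e1, e2, law_smul]
    change c1 ^ 2 * (e ^ 2 * c2) ^ 2 * law (a4 L) (a6 L) (pc L (z + t)) (pc L (v + -t)) k = _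
    rw [h3 k, e6]
    ring
  · have k1 := n1 m1
    have k2 : c2 ≠ 0 := n2 (by rwa [sub_neg_eq_add])
    have k3 : c3 ≠ 0 := n3 (by
      have : z + t - (v + -t) = z - v + 2 * t := by ring
      rwa [this])
    have : e ^ 2 ≠ 0 := pow_ne_zero 2 he
    exact mul_ne_zero (mul_ne_zero (pow_ne_zero 2 k1) (pow_ne_zero 2 (mul_ne_zero this k2))) k3

private theorem w5_pick (L : PeriodPair) (t : Fin 4 → ℂ)
    (ht : ∀ k l, k ≠ l → t k - t l ∉ L.lattice ∧ 2 * (t k - t l) ∉ L.lattice) (z v : ℂ) :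
    ∃ k, z - t k ∉ L.lattice ∧ v + t k ∉ L.lattice ∧ z - v + 2 * t k ∉ L.lattice := by
  by_contra hcon
  have h : ∀ k, ∃ i : Fin 3, (i = 0 → z - t k ∈ L.lattice) ∧ (i = 1 → v + t k ∈ L.lattice) ∧
      (i = 2 → z - v + 2 * t k ∈ L.lattice) := by
    intro k
    by_cases h0 : z - t k ∈ L.lattice
    · exact ⟨0, fun _ => h0, fun h => absurd h (by decide), fun h => absurd h (by decide)⟩
    by_cases h1 : v + t k ∈ L.lattice
    · exact ⟨1, fun h => absurd h (by decide), fun _ => h1, fun h => absurd h (by decide)⟩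
    by_cases h2 : z - v + 2 * t k ∈ L.lattice
    · exact ⟨2, fun h => absurd h (by decide), fun h => absurd h (by decide), fun _ => h2⟩
    exact absurd ⟨k, h0, h1, h2⟩ hcon
  choose f hf using h
  obtain ⟨k, l, hkl, hfe⟩ := Fintype.exists_ne_map_eq_of_card_lt f (by simp)
  obtain ⟨a0, a1, a2⟩ := hf k
  obtain ⟨b0, b1, b2⟩ := hf l
  obtain ⟨c0, c1⟩ := ht k l hkl
  have cases3 : f k = 0 ∨ f k = 1 ∨ f k = 2 := by
    generalize f k = x
    fin_cases x <;> simp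
  rcases cases3 with h | h | h
  · have e : t k - t l = (z - t l) - (z - t k) := by ring
    exact c0 (e ▸ L.lattice.sub_mem (b0 (hfe ▸ h)) (a0 h))
  · have e : t k - t l = (v + t k) - (v + t l) := by ring
    exact c0 (e ▸ L.lattice.sub_mem (a1 h) (b1 (hfe ▸ h)))
  · have e : 2 * (t k - t l) = (z - v + 2 * t k) - (z - v + 2 * t l) := by ring
    exact c1 (e ▸ L.lattice.sub_mem (a2 h) (b2 (hfe ▸ h)))

theorem law2_ne (L : PeriodPair) (t : Fin 4 → ℂ)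
    (ht : ∀ k l, k ≠ l → t k - t l ∉ L.lattice ∧ 2 * (t k - t l) ∉ L.lattice) (z v : ℂ) :
    ∃ k, law2 (a4 L) (a6 L) (pc L (t k)) (pc L z) (pc L v) ≠ 0 := by
  obtain ⟨k, h1, h2, h3⟩ := w5_pick L t ht z v
  obtain ⟨c, hc, hn⟩ := law2_pc L (t k) z v
  have hc0 := hn h1 h2 h3
  refine ⟨k, fun h0 => ?_⟩
  have hz : pc L (z + v) = 0 := by
    funext j
    have := hc j
    rw [h0] at this
    have h4 : c * pc L (z + v) j = 0 := this.symm
    exact (mul_eq_zero.1 h4).resolve_left hc0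
  have := one_le_pc L (z + v)
  rw [hz, norm_zero] at this
  linarith

private theorem w5_cont (a b : ℂ) :
    Continuous fun p : (Fin 3 → ℂ) × (Fin 3 → ℂ) => law a b p.1 p.2 := by
  unfold law
  refine continuous_pi fun k => ?_
  fin_cases k
  · simp only [Matrix.cons_val_zero, Fin.zero_eta]
    fun_prop
  · simp only [Fin.mk_one, Matrix.cons_val_one, Matrix.cons_val_zero]
    fun_prop
  · simp only [Fin.reduceFinMk, Matrix.cons_val]
    fun_prop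

private theorem w5_cont2 (a b : ℂ) (T : Fin 3 → ℂ) :
    Continuous fun p : (Fin 3 → ℂ) × (Fin 3 → ℂ) => law2 a b T p.1 p.2 := by
  have h := w5_cont a b
  let g : (Fin 3 → ℂ) × (Fin 3 → ℂ) → (Fin 3 → ℂ) := fun p => law a b p.1 p.2
  have hg : Continuous g := h
  let f1 : (Fin 3 → ℂ) × (Fin 3 → ℂ) → (Fin 3 → ℂ) × (Fin 3 → ℂ) := fun p => (p.1, T)
  let f2 : (Fin 3 → ℂ) × (Fin 3 → ℂ) → (Fin 3 → ℂ) × (Fin 3 → ℂ) := fun p => (p.2, ngt T)
  have hf1 : Continuous f1 := continuous_fst.prodMk continuous_const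
  have hf2 : Continuous f2 := continuous_snd.prodMk continuous_const
  have hc1 : Continuous (g ∘ f1) := hg.comp hf1
  have hc2 : Continuous (g ∘ f2) := hg.comp hf2
  have hc : Continuous (g ∘ fun p => ((g ∘ f1) p, (g ∘ f2) p)) := hg.comp (hc1.prodMk hc2)
  have e : (fun p : (Fin 3 → ℂ) × (Fin 3 → ℂ) => law2 a b T p.1 p.2) =
      (g ∘ fun p => ((g ∘ f1) p, (g ∘ f2) p)) := by
    funext p
    rfl
  rw [e]
  exact hc

private theorem w5_norm_law2 (a b c e : ℂ) (T P Q : Fin 3 → ℂ) :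
    ‖law2 a b T (fun k => c * P k) (fun k => e * Q k)‖ = ‖c‖ ^ 4 * ‖e‖ ^ 4 * ‖law2 a b T P Q‖ := by
  rw [law2_smul]
  have : (fun k => c ^ 4 * e ^ 4 * law2 a b T P Q k) = (c ^ 4 * e ^ 4) • law2 a b T P Q := rfl
  rw [this, norm_smul, norm_mul, norm_pow, norm_pow]

theorem cpt (L : PeriodPair) (t : Fin 4 → ℂ)
    (ht : ∀ k l, k ≠ l → t k - t l ∉ L.lattice ∧ 2 * (t k - t l) ∉ L.lattice) :
    ∃ c : ℝ, 0 < c ∧ ∀ P Q : Fin 3 → ℂ, OnC L P → OnC L Q →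
      ∃ k, c * ‖P‖ ^ 4 * ‖Q‖ ^ 4 ≤ ‖law2 (a4 L) (a6 L) (pc L (t k)) P Q‖ := by
  classical
  let K : Set (Fin 3 → ℂ) := {P | ‖P‖ = 1 ∧ OnC L P}
  have hKc : IsCompact K := by
    refine Metric.isCompact_of_isClosed_isBounded ?_ ?_
    · have h1 : IsClosed {P : Fin 3 → ℂ | ‖P‖ = 1} := isClosed_eq continuous_norm continuous_const
      have h2 : IsClosed {P : Fin 3 → ℂ | OnC L P} := by
        unfold OnC
        refine isClosed_eq ?_ ?_ <;> fun_prop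
      exact h1.inter h2
    · refine Metric.isBounded_closedBall (x := (0 : Fin 3 → ℂ)) (r := 1) |>.subset ?_
      intro P hP
      rw [mem_closedBall_zero_iff]
      exact hP.1.le
  let f : (Fin 3 → ℂ) × (Fin 3 → ℂ) → ℝ := fun p => ∑ k, ‖law2 (a4 L) (a6 L) (pc L (t k)) p.1 p.2‖
  have hf : Continuous f := continuous_finsetSum _ fun k _ => (w5_cont2 _ _ _).norm
  have hpos : ∀ p ∈ K ×ˢ K, 0 < f p := by
    rintro ⟨P, Q⟩ ⟨hP, hQ⟩
    have hP0 : P ≠ 0 := by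
      intro h
      have := hP.1
      rw [h, norm_zero] at this
      exact zero_ne_one this
    have hQ0 : Q ≠ 0 := by
      intro h
      have := hQ.1
      rw [h, norm_zero] at this
      exact zero_ne_one this
    obtain ⟨z, c, hc, hz⟩ := onC_surj L P hP0 hP.2
    obtain ⟨v, e, he, hv⟩ := onC_surj L Q hQ0 hQ.2
    obtain ⟨k, hk⟩ := law2_ne L t ht z v
    have hle : ‖law2 (a4 L) (a6 L) (pc L (t k)) P Q‖ ≤ f (P, Q) :=
      Finset.single_le_sum (f := fun k => ‖law2 (a4 L) (a6 L) (pc L (t k)) P Q‖)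
        (fun k _ => norm_nonneg _) (Finset.mem_univ k)
    refine lt_of_lt_of_le ?_ hle
    have eP : P = fun k => c * pc L z k := funext hz
    have eQ : Q = fun k => e * pc L v k := funext hv
    rw [eP, eQ, w5_norm_law2]
    have h1 : 0 < ‖c‖ := norm_pos_iff.2 hc
    have h2 : 0 < ‖e‖ := norm_pos_iff.2 he
    have h3 : 0 < ‖law2 (a4 L) (a6 L) (pc L (t k)) (pc L z) (pc L v)‖ := norm_pos_iff.2 hk
    positivity
  have hmain : ∃ c : ℝ, 0 < c ∧ ∀ P ∈ K, ∀ Q ∈ K, ∃ k,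
      c ≤ ‖law2 (a4 L) (a6 L) (pc L (t k)) P Q‖ := by
    rcases (K ×ˢ K).eq_empty_or_nonempty with hE | hne
    · refine ⟨1, one_pos, fun P hP Q hQ => ?_⟩
      have : (P, Q) ∈ K ×ˢ K := ⟨hP, hQ⟩
      rw [hE] at this
      exact absurd this (Set.notMem_empty _)
    · obtain ⟨p0, hp0, hmin⟩ := (hKc.prod hKc).exists_isMinOn hne hf.continuousOn
      refine ⟨f p0 / 4, div_pos (hpos p0 hp0) (by norm_num), fun P hP Q hQ => ?_⟩
      by_contra hcon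
      push Not at hcon
      have h1 : f p0 ≤ f (P, Q) := hmin (show (P, Q) ∈ K ×ˢ K from ⟨hP, hQ⟩)
      have h2 : f (P, Q) < ∑ _k : Fin 4, f p0 / 4 :=
        Finset.sum_lt_sum_of_nonempty Finset.univ_nonempty fun k _ => hcon k
      rw [Finset.sum_const, Finset.card_univ, Fintype.card_fin, nsmul_eq_mul] at h2
      push_cast at h2
      linarith
  obtain ⟨c, hc, hK⟩ := hmain
  refine ⟨c, hc, fun P Q hP hQ => ?_⟩
  by_cases hP0 : P = 0
  · refine ⟨0, ?_⟩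
    rw [hP0, norm_zero]
    have : c * (0 : ℝ) ^ 4 * ‖Q‖ ^ 4 = 0 := by ring
    rw [this]
    exact norm_nonneg _
  by_cases hQ0 : Q = 0
  · refine ⟨0, ?_⟩
    rw [hQ0, norm_zero]
    have : c * ‖P‖ ^ 4 * (0 : ℝ) ^ 4 = 0 := by ring
    rw [this]
    exact norm_nonneg _
  have hPn : 0 < ‖P‖ := norm_pos_iff.2 hP0
  have hQn : 0 < ‖Q‖ := norm_pos_iff.2 hQ0
  have key : ∀ (X : Fin 3 → ℂ), 0 < ‖X‖ → OnC L X →
      (fun k => ((‖X‖ : ℂ))⁻¹ * X k) ∈ K ∧ X = fun k => (‖X‖ : ℂ) * (((‖X‖ : ℂ))⁻¹ * X k) := by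
    intro X hX hC
    have hne : ((‖X‖ : ℝ) : ℂ) ≠ 0 := by exact_mod_cast hX.ne'
    refine ⟨⟨?_, onC_smul hC _⟩, ?_⟩
    · have : (fun k => ((‖X‖ : ℂ))⁻¹ * X k) = ((‖X‖ : ℂ))⁻¹ • X := rfl
      rw [this, norm_smul, norm_inv, Complex.norm_real, norm_norm]
      exact inv_mul_cancel₀ hX.ne'
    · funext k
      rw [← mul_assoc, mul_inv_cancel₀ hne, one_mul]
  obtain ⟨kP, eP⟩ := key P hPn hP
  obtain ⟨kQ, eQ⟩ := key Q hQn hQ
  obtain ⟨k, hk⟩ := hK _ kP _ kQ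
  refine ⟨k, ?_⟩
  have h1 : ‖law2 (a4 L) (a6 L) (pc L (t k)) P Q‖ = ‖P‖ ^ 4 * ‖Q‖ ^ 4 *
      ‖law2 (a4 L) (a6 L) (pc L (t k)) (fun k => ((‖P‖ : ℂ))⁻¹ * P k)
        (fun k => ((‖Q‖ : ℂ))⁻¹ * Q k)‖ := by
    have h2 := w5_norm_law2 (a4 L) (a6 L) (‖P‖ : ℂ) (‖Q‖ : ℂ) (pc L (t k))
      (fun k => ((‖P‖ : ℂ))⁻¹ * P k) (fun k => ((‖Q‖ : ℂ))⁻¹ * Q k)
    rw [← eP, ← eQ, Complex.norm_real, Complex.norm_real, norm_norm, norm_norm] at h2
    exact h2
  rw [h1]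
  have h3 : 0 ≤ ‖P‖ ^ 4 * ‖Q‖ ^ 4 := by positivity
  nlinarith [mul_le_mul_of_nonneg_left hk h3]

end ELT
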