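import Pool.Agent.ELT.W4
import Pool.Agent.ELT.W5

set_option autoImplicit false

open PeriodPair LTD

namespace ELT

/-! ## [ELT-W11] the points with `℘(g) ∈ F` form a group (file W11.lean)

`F` relatively algebraically closed in `ℂ`, `g₂, g₃ ∈ F`. `InW L F g` means `g ∈ L` or `℘(g) ∈ F`; then all coordinates of `pc g` are in `F`: `(℘')² = 4℘³ - g₂℘ - g₃` and `Clo F` (root of `X² - c`). Conversely
if some nonzero multiple `c pc g` has all coordinates in `F` (or: if `P ≠ 0`, all `P k ∈ F`, `P = c pc g`) then `InW L F g` (`g ∉ L`: `℘(g) = P 0 / P 2`).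
`inW_add`: take `t` from `aux_pts` (`pc (t k)` has coordinates in `F`), `k` from `law2_ne L t ht g h`: `law2 (pc (t k)) (pc g) (pc h) ≠ 0` has coordinates in `F` (polynomials with integer coefficients, `law2_map` for
`algebraMap F ℂ` or closure under ring operations) and is a multiple of `pc (g+h)` (`law2_pc`). `inW_neg`: `℘` is even. `inW_zsmul`, induction. -/

theorem w11_a4 (L : PeriodPair) (F : IntermediateField ℚ ℂ) (h2 : L.g₂ ∈ F) : a4 L ∈ F :=
  F.div_mem (F.neg_mem h2) (by simp)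

theorem w11_a6 (L : PeriodPair) (F : IntermediateField ℚ ℂ) (h3 : L.g₃ ∈ F) : a6 L ∈ F :=
  F.div_mem (F.neg_mem h3) (by simp)

theorem w11_pc (L : PeriodPair) (F : IntermediateField ℚ ℂ) (hF : Clo F) (h2 : L.g₂ ∈ F)
    (h3 : L.g₃ ∈ F) {g : ℂ} (hg : InW L F g) (k : Fin 3) : pc L g k ∈ F := by
  classical
  by_cases hgL : g ∈ L.lattice
  · fin_cases k <;> simp [pc, hgL, F.zero_mem, F.one_mem]
  · have h4 : ℘[L] g ∈ F := hg.resolve_left hgL
    have h5 : ℘'[L] g ^ 2 ∈ F := by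
      rw [L.derivWeierstrassP_sq g hgL]
      exact F.sub_mem (F.sub_mem (F.mul_mem (by simp) (pow_mem h4 3)) (F.mul_mem h2 h4)) h3
    have h6 : ℘'[L] g ∈ F := by
      refine hF _ (IsAlgebraic.of_pow (n := 2) (by norm_num) ?_)
      exact isAlgebraic_algebraMap (⟨_, h5⟩ : F)
    have h7 : ℘'[L] g / 2 ∈ F := F.div_mem h6 (by simp)
    fin_cases k <;> simp [pc, hgL, F.one_mem, h4, h7]

theorem w11_of_mul (L : PeriodPair) (F : IntermediateField ℚ ℂ) {g c : ℂ} {P : Fin 3 → ℂ}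
    (hP : P ≠ 0) (hm : ∀ k, P k ∈ F) (hc : ∀ k, P k = c * pc L g k) : InW L F g := by
  classical
  by_cases hgL : g ∈ L.lattice
  · exact Or.inl hgL
  · right
    have h0 : P 0 = c * ℘[L] g := by simpa [pc, hgL] using hc 0
    have h2 : P 2 = c := by simpa [pc, hgL] using hc 2
    have hc0 : c ≠ 0 := by
      rintro rfl
      exact hP (funext fun k => by simpa using hc k)
    have h3 : ℘[L] g = P 0 / P 2 := by
      rw [h0, h2]
      field_simp
    rw [h3]
    exact F.div_mem (hm 0) (hm 2)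

theorem w11_law (F : IntermediateField ℚ ℂ) {a b : ℂ} (ha : a ∈ F) (hb : b ∈ F)
    {P Q : Fin 3 → ℂ} (hP : ∀ k, P k ∈ F) (hQ : ∀ k, Q k ∈ F) (k : Fin 3) : law a b P Q k ∈ F := by
  lift a to F using ha
  lift b to F using hb
  lift P to Fin 3 → F using hP
  lift Q to Fin 3 → F using hQ
  have h : law (a : ℂ) (b : ℂ) (fun k => (P k : ℂ)) (fun k => (Q k : ℂ)) k =
      ((law a b P Q k : F) : ℂ) := (law_map (algebraMap F ℂ) a b P Q k).symm
  rw [h]
  exact (law a b P Q k).2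

theorem w11_ngt (F : IntermediateField ℚ ℂ) {P : Fin 3 → ℂ} (hP : ∀ k, P k ∈ F) (k : Fin 3) :
    ngt P k ∈ F := by
  fin_cases k
  · exact hP 0
  · exact F.neg_mem (hP 1)
  · exact hP 2

theorem inW_zero (L : PeriodPair) (F : IntermediateField ℚ ℂ) : InW L F 0 :=
  Or.inl L.lattice.zero_mem

theorem inW_add (L : PeriodPair) (F : IntermediateField ℚ ℂ) (hF : Clo F) (h2 : L.g₂ ∈ F)
    (h3 : L.g₃ ∈ F) {g h : ℂ} (hg : InW L F g) (hh : InW L F h) : InW L F (g + h) := by
  obtain ⟨t, ht1, ht2, ht3⟩ := aux_pts L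
  obtain ⟨k, hk⟩ := law2_ne L t ht3 g h
  obtain ⟨c, hc, _⟩ := law2_pc L (t k) g h
  have htk : InW L F (t k) := by
    right
    obtain ⟨n, hn⟩ := ht2 k
    rw [hn]
    simp
  have h4 := w11_a4 L F h2
  have h6 := w11_a6 L F h3
  have hT := w11_pc L F hF h2 h3 htk
  have hG := w11_pc L F hF h2 h3 hg
  have hH := w11_pc L F hF h2 h3 hh
  refine w11_of_mul L F hk (fun j => ?_) hc
  exact w11_law F h4 h6 (w11_law F h4 h6 hG hT) (w11_law F h4 h6 hH (w11_ngt F hT)) j

theorem inW_neg (L : PeriodPair) (F : IntermediateField ℚ ℂ) {g : ℂ} (hg : InW L F g) :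
    InW L F (-g) := by
  rcases hg with hg | hg
  · exact Or.inl (L.lattice.neg_mem hg)
  · right
    rwa [L.weierstrassP_neg]

theorem inW_zsmul (L : PeriodPair) (F : IntermediateField ℚ ℂ) (hF : Clo F) (h2 : L.g₂ ∈ F)
    (h3 : L.g₃ ∈ F) {g : ℂ} (hg : InW L F g) (n : ℤ) : InW L F ((n : ℂ) * g) := by
  have h0 : ∀ m : ℕ, InW L F ((m : ℂ) * g) := by
    intro m
    induction m with
    | zero => simpa using inW_zero L F
    | succ m ih =>
      have h1 := inW_add L F hF h2 h3 ih hg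
      have h4 : ((m + 1 : ℕ) : ℂ) * g = (m : ℂ) * g + g := by
        push_cast
        ring
      rwa [h4]
  obtain ⟨m, rfl | rfl⟩ := n.eq_nat_or_neg
  · simpa using h0 m
  · have h1 := inW_neg L F (h0 m)
    have h4 : ((-(m : ℤ) : ℤ) : ℂ) * g = -((m : ℂ) * g) := by
      push_cast
      ring
    rwa [h4]

end ELT
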