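import Pool.Agent.ELT.F1
import Pool.Agent.ELT.F2a
import Pool.Agent.ELT.W11
import Pool.Agent.ELT.S5
import Pool.Agent.LTD.CloR

set_option autoImplicit false

open PeriodPair LTD Module

namespace ELT

/-! ## [ELT-F2] THEOREM E2 (file F2.lean)

`m'` from `ell_ltd (t + 3)`, `m = 2 m'`. Given `F, L, z, K`: `L' = scl L z`, `F''` from `clo_adjoin F t 3` for the three numbers `z, L'.g₂, L'.g₃` (`Clo F''`, trdeg `≤ t + 3`, `F ≤ F''`). If `InW L F (z g)` then `InW L' F'' g` (`scl_mem`, `scl_wp`). `W = {g : K | InW L' F'' g}` is an additive subgroup of `K`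
(`inW_zero, inW_add, inW_neg`), `V = span ℚ W`; `span_codim` with `m'` (`ell_ltd`). -/

theorem ell_sub (t : ℕ) : ∃ m : ℕ, 1 ≤ m ∧ ∀ F : IntermediateField ℚ ℂ,
    Algebra.trdeg ℚ F ≤ (t : Cardinal) → ∀ (L : PeriodPair) (z : ℂ), z ≠ 0 →
      ∀ (K : IntermediateField ℚ ℂ) [FiniteDimensional ℚ K], ∃ V : Submodule ℚ K,
        (∀ g : K, InW L F (z * (g : ℂ)) → g ∈ V) ∧
        finrank ℚ V + finrank ℚ K / m ≤ finrank ℚ K := by
  obtain ⟨m', hm', h⟩ := ell_ltd (t + 3)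
  refine ⟨2 * m', by omega, fun F hF L z hz K _ => ?_⟩
  obtain ⟨F', hle, hclo, htr, hmem⟩ := clo_adjoin F t 3 hF ![z, (scl L z hz).g₂, (scl L z hz).g₃]
  have hin : ∀ i : Fin 3, (![z, (scl L z hz).g₂, (scl L z hz).g₃] : Fin 3 → ℂ) i ∈ F' := by
    intro i
    refine (hmem _).2 ?_
    have h1 : (![z, (scl L z hz).g₂, (scl L z hz).g₃] : Fin 3 → ℂ) i ∈
        IntermediateField.adjoin F (Set.range ![z, (scl L z hz).g₂, (scl L z hz).g₃]) :=
      IntermediateField.subset_adjoin F _ ⟨i, rfl⟩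
    exact isAlgebraic_algebraMap (R := IntermediateField.adjoin F (Set.range ![z, (scl L z hz).g₂, (scl L z hz).g₃]))
      (A := ℂ) ⟨_, h1⟩
  have hz' : z ∈ F' := hin 0
  have hg2 : (scl L z hz).g₂ ∈ F' := hin 1
  have hg3 : (scl L z hz).g₃ ∈ F' := hin 2
  let W : AddSubgroup K :=
    { carrier := {g : K | InW (scl L z hz) F' (g : ℂ)}
      zero_mem' := inW_zero _ _
      add_mem' := fun {a b} ha hb => inW_add _ _ hclo hg2 hg3 ha hb
      neg_mem' := fun {a} ha => inW_neg _ _ ha }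
  refine ⟨Submodule.span ℚ (W : Set K), fun g hg => Submodule.subset_span ?_, ?_⟩
  · show InW (scl L z hz) F' (g : ℂ)
    rcases hg with hg | hg
    · exact Or.inl ((scl_mem L z hz _).2 hg)
    · right
      rw [scl_wp]
      exact mul_mem (pow_mem hz' 2) (hle hg)
  · refine span_codim K W m' hm' fun nX x y hx hy hk => ?_
    obtain ⟨k, j, hkj⟩ := h F' htr hclo (scl L z hz) hg2 hg3 K nX x y hx hy hk
    exact ⟨k, j, fun hc => hkj hc⟩

end ELT
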