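import Pool.Agent.LTD.Box

set_option autoImplicit false

open Module

namespace ELT

/-! ## [ELT-F3] integer points of a coset in a box (file F3.lean)

PORT of `LTD/Box.lean` (`LTD.box_sub`, the case `a₀ = 0`): some `finrank V` coordinates are injective on `V`; so they are injective on `a₀ + V`, and each of them takes at most `2H+1` values on the box. -/

theorem box_coset (D H : ℕ) (V : Submodule ℚ (Fin D → ℚ)) (a₀ : Fin D → ℤ) :
    Set.ncard {a : Fin D → ℤ | (∀ j, |a j| ≤ (H : ℤ)) ∧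
      (fun j => (((a j - a₀ j : ℤ)) : ℚ)) ∈ V} ≤ (2 * H + 1) ^ finrank ℚ V := by
  classical
  let φ : Fin D → Dual ℚ V := fun j => (LinearMap.proj j : (Fin D → ℚ) →ₗ[ℚ] ℚ) ∘ₗ V.subtype
  obtain ⟨κ, a, ha, hsp, hli⟩ := exists_linearIndependent' ℚ φ
  have : Finite κ := Finite.of_injective a ha
  have : Fintype κ := Fintype.ofFinite κ
  have hcard : Fintype.card κ ≤ finrank ℚ V := by
    have h := hli.fintype_card_le_finrank
    rwa [Subspace.dual_finrank_eq] at h
  have hinj : ∀ d : V, (∀ k, (d : Fin D → ℚ) (a k) = 0) → d = 0 := by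
    intro d hd
    have h1 : ∀ ψ ∈ Submodule.span ℚ (Set.range (φ ∘ a)), ψ d = 0 := by
      intro ψ hψ
      refine Submodule.span_induction (p := fun ψ _ => ψ d = 0) ?_ ?_ ?_ ?_ hψ
      · rintro _ ⟨k, rfl⟩
        exact hd k
      · rfl
      · intro x y _ _ hx hy
        rw [LinearMap.add_apply, hx, hy, add_zero]
      · intro c x _ hx
        rw [LinearMap.smul_apply, hx, smul_zero]
    apply Subtype.ext
    funext j
    have h2 : φ j ∈ Submodule.span ℚ (Set.range (φ ∘ a)) := by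
      rw [hsp]
      exact Submodule.subset_span ⟨j, rfl⟩
    exact h1 _ h2
  let T : Finset (κ → ℤ) := Fintype.piFinset fun _ : κ => Finset.Icc (-(H : ℤ)) H
  have hT : T.card = (2 * H + 1) ^ Fintype.card κ := by
    rw [Fintype.card_piFinset]
    simp only [Int.card_Icc, Finset.prod_const, Finset.card_univ]
    congr 1
    omega
  have hle : Set.ncard {b : Fin D → ℤ | (∀ j, |b j| ≤ (H : ℤ)) ∧
      (fun j => (((b j - a₀ j : ℤ)) : ℚ)) ∈ V} ≤ (T : Set (κ → ℤ)).ncard := by
    apply Set.ncard_le_ncard_of_injOn (fun b k => b (a k))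
    · rintro b ⟨hb, -⟩
      simp only [T, Finset.mem_coe, Fintype.mem_piFinset, Finset.mem_Icc]
      exact fun k => abs_le.1 (hb (a k))
    · rintro b ⟨-, hb⟩ c ⟨-, hc⟩ hbc
      have h1 := hinj (⟨_, hb⟩ - ⟨_, hc⟩) (fun k => by
        have h2 : b (a k) = c (a k) := congrFun hbc k
        show (((b (a k) - a₀ (a k) : ℤ)) : ℚ) - (((c (a k) - a₀ (a k) : ℤ)) : ℚ) = 0
        rw [h2, sub_self])
      funext j
      have h3 : (((b j - a₀ j : ℤ)) : ℚ) - (((c j - a₀ j : ℤ)) : ℚ) = 0 :=
        congrFun (congrArg (Subtype.val) h1) j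
      have h4 : (((b j - a₀ j : ℤ)) : ℚ) = (((c j - a₀ j : ℤ)) : ℚ) := sub_eq_zero.1 h3
      have h5 : b j - a₀ j = c j - a₀ j := by exact_mod_cast h4
      exact sub_left_injective h5
  rw [Set.ncard_coe_finset, hT] at hle
  exact le_trans hle (Nat.pow_le_pow_right (by omega) hcard)

end ELT
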