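import Pool.Agent.ELT.F2
import Pool.Agent.ELT.F3
import Pool.Agent.LTD.NFs

set_option autoImplicit false

open PeriodPair LTD Module

namespace ELT

/-! ## [ELT-F4] counting in one coordinate (file F4.lean)

`ell_count`: `m` from `ell_sub (t + 2)`. `F''` from `clo_adjoin F t 2` for `L.g₂, L.g₃`. If the set is empty: trivial. Otherwise fix `a₀` in it; for `a` in it both `r + z g_a` and `r + z g_{a₀}` are in `W = {InW L F''}` (`F ≤ F''`), so `z (g_a - g_{a₀}) = z g_{a - a₀}` is in `W` (`inW_add, inW_neg` over `F''`),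
so `a - a₀` is in the subspace `V' = V.comap w.equivFun.symm` of `ℚ^D`, `V` from `ell_sub` for `F''` (see `LTD/NFf.lean`, proof of `hB` in `nf_final`), of dimension `≤ D - D/m`. `box_coset`.
`exp_count`: the same with `nf_sub` (`LTD/NFs.lean`): `F''` from `clo_adjoin F t 0`, `c exp(r + z g_a) ∈ F''`, `c exp(r + z g_{a₀}) ∈ F''`, the quotient `exp(z g_{a-a₀}) ∈ F''`. -/

theorem f4_box (D H m : ℕ) (K : IntermediateField ℚ ℂ)
    (w : Basis (Fin D) ℚ K) (V : Submodule ℚ K)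
    (hVd : finrank ℚ V + finrank ℚ K / m ≤ finrank ℚ K) (P : (Fin D → ℤ) → Prop)
    (hP : ∀ a b : Fin D → ℤ, P a → P b → w.equivFun.symm (fun j => ((a j - b j : ℤ) : ℚ)) ∈ V) :
    Set.ncard {a : Fin D → ℤ | (∀ j, |a j| ≤ (H : ℤ)) ∧ P a} ≤ (2 * H + 1) ^ (D - D / m) := by
  have hD : finrank ℚ K = D := by
    rw [finrank_eq_card_basis w, Fintype.card_fin]
  by_cases hne : ∃ a₀, P a₀
  · obtain ⟨a₀, ha₀⟩ := hne
    set V' : Submodule ℚ (Fin D → ℚ) := V.comap (w.equivFun.symm : (Fin D → ℚ) →ₗ[ℚ] K) with hV'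
    have hfin : finrank ℚ V' = finrank ℚ V := by
      have h1 : V' = V.map (w.equivFun : K →ₗ[ℚ] (Fin D → ℚ)) := by
        rw [hV']
        exact (Submodule.map_equiv_eq_comap_symm w.equivFun V).symm
      rw [h1]
      exact LinearEquiv.finrank_map_eq w.equivFun V
    have hle := box_coset D H V' a₀
    rw [hfin] at hle
    have hexp : finrank ℚ V ≤ D - D / m := by
      rw [hD] at hVd
      omega
    have hfinite : ({a : Fin D → ℤ | (∀ j, |a j| ≤ (H : ℤ)) ∧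
        (fun j => (((a j - a₀ j : ℤ)) : ℚ)) ∈ V'}).Finite := by
      refine Set.Finite.subset (s := {a : Fin D → ℤ | ∀ j, |a j| ≤ (H : ℤ)}) ?_ fun a ha => ha.1
      have h : {a : Fin D → ℤ | ∀ j, |a j| ≤ (H : ℤ)} =
          ((Fintype.piFinset fun _ : Fin D => Finset.Icc (-(H : ℤ)) H : Finset (Fin D → ℤ)) :
            Set (Fin D → ℤ)) := by
        ext a
        simp [abs_le, Pi.le_def, forall_and]
      rw [h]
      exact Finset.finite_toSet _
    refine le_trans (Set.ncard_le_ncard ?_ hfinite)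
      (le_trans hle (Nat.pow_le_pow_right (by omega) hexp))
    rintro a ⟨h3, h4⟩
    refine ⟨h3, ?_⟩
    exact hP a a₀ h4 ha₀
  · have : {a : Fin D → ℤ | (∀ j, |a j| ≤ (H : ℤ)) ∧ P a} = ∅ := by
      refine Set.eq_empty_of_forall_notMem fun a ha => hne ⟨a, ha.2⟩
    rw [this, Set.ncard_empty]
    exact Nat.zero_le _

theorem f4_diff (D : ℕ) (K : IntermediateField ℚ ℂ) (w : Basis (Fin D) ℚ K) (r z : ℂ)
    (a b : Fin D → ℤ) :
    z * ((w.equivFun.symm (fun j => ((a j - b j : ℤ) : ℚ)) : K) : ℂ) =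
      (r + z * ∑ j, ((a j : ℤ) : ℂ) * (w j : ℂ)) - (r + z * ∑ j, ((b j : ℤ) : ℂ) * (w j : ℂ)) := by
  have h2 : ((w.equivFun.symm (fun j => ((a j - b j : ℤ) : ℚ)) : K) : ℂ) =
      ∑ j, (((a j : ℤ) : ℂ) - ((b j : ℤ) : ℂ)) * (w j : ℂ) := by
    rw [Basis.equivFun_symm_apply]
    push_cast
    refine Finset.sum_congr rfl fun j _ => ?_
    rw [Rat.smul_def]
    push_cast
    rfl
  rw [h2]
  simp only [sub_mul, Finset.sum_sub_distrib]
  ring

theorem ell_count (t : ℕ) : ∃ m : ℕ, 1 ≤ m ∧ ∀ F : IntermediateField ℚ ℂ,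
    Algebra.trdeg ℚ F ≤ (t : Cardinal) → ∀ (L : PeriodPair) (z r : ℂ), z ≠ 0 →
      ∀ (K : IntermediateField ℚ ℂ) (D : ℕ) (w : Basis (Fin D) ℚ K) (H : ℕ),
        Set.ncard {a : Fin D → ℤ | (∀ j, |a j| ≤ (H : ℤ)) ∧
          InW L F (r + z * ∑ j, ((a j : ℤ) : ℂ) * (w j : ℂ))} ≤ (2 * H + 1) ^ (D - D / m) := by
  obtain ⟨m, hm, h⟩ := ell_sub (t + 2)
  refine ⟨m, hm, fun F hF L z r hz K D w H => ?_⟩
  have : FiniteDimensional ℚ K := Module.Finite.of_basis w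
  obtain ⟨F'', hFF, hcl, htr, hmem⟩ := clo_adjoin F t 2 hF ![L.g₂, L.g₃]
  have hg2 : L.g₂ ∈ F'' := by
    rw [hmem]
    exact isAlgebraic_algebraMap (⟨L.g₂, IntermediateField.subset_adjoin F _ ⟨0, rfl⟩⟩ :
      IntermediateField.adjoin F (Set.range ![L.g₂, L.g₃]))
  have hg3 : L.g₃ ∈ F'' := by
    rw [hmem]
    exact isAlgebraic_algebraMap (⟨L.g₃, IntermediateField.subset_adjoin F _ ⟨1, rfl⟩⟩ :
      IntermediateField.adjoin F (Set.range ![L.g₂, L.g₃]))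
  obtain ⟨V, hV, hVd⟩ := h F'' htr L z hz K
  have hup : ∀ g : ℂ, InW L F g → InW L F'' g := fun g hg => hg.imp id fun h => hFF h
  refine f4_box D H m K w V hVd _ fun a b ha hb => ?_
  apply hV
  rw [f4_diff D K w r z a b, sub_eq_add_neg]
  exact inW_add L F'' hcl hg2 hg3 (hup _ ha) (inW_neg L F'' (hup _ hb))

theorem exp_count (t : ℕ) : ∃ m : ℕ, 1 ≤ m ∧ ∀ F : IntermediateField ℚ ℂ,
    Algebra.trdeg ℚ F ≤ (t : Cardinal) → ∀ (c z r : ℂ), c ≠ 0 → z ≠ 0 →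
      ∀ (K : IntermediateField ℚ ℂ) (D : ℕ) (w : Basis (Fin D) ℚ K) (H : ℕ),
        Set.ncard {a : Fin D → ℤ | (∀ j, |a j| ≤ (H : ℤ)) ∧
          c * Complex.exp (r + z * ∑ j, ((a j : ℤ) : ℂ) * (w j : ℂ)) ∈ F} ≤
            (2 * H + 1) ^ (D - D / m) := by
  obtain ⟨m, hm, h⟩ := nf_sub t
  refine ⟨m, hm, fun F hF c z r hc hz K D w H => ?_⟩
  have : FiniteDimensional ℚ K := Module.Finite.of_basis w
  obtain ⟨F'', hFF, hcl, htr, -⟩ := clo_adjoin F t 0 hF ![]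
  obtain ⟨V, hV, hVd⟩ := h F'' (by simpa using htr) hcl z hz K
  refine f4_box D H m K w V hVd _ fun a b ha hb => ?_
  rw [hV, f4_diff D K w r z a b, Complex.exp_sub]
  have h1 := div_mem (hFF ha) (hFF hb)
  rw [mul_div_mul_left _ _ hc] at h1
  exact h1

end ELT
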