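import Pool.Agent.LTD.CntD

set_option autoImplicit false

open LTD

namespace ELT

/-! ## [ELT-F5] counting dependent tuples (file F5.lean)

PORT of `LTD/CntD.lean` (`LTD.count_dep`, where `f i = f` and `Bd i = False`): induction on `n` with `clo_adjoin` and `algInd_snoc` (file LTD/CloR.lean). In the step `n → n+1`: a tuple with `¬ (good)` has either a bad initial part, or a good initial part and `Bd n (k n)` or `f n (k n)` algebraic over `F(f_i(k_i))`, i.e. in `F'` from `clo_adjoin`.
`ai_sum`: Mathlib `AlgebraicIndependent.sumElim` (or `sumElim_iff`), and independence over the larger field `F₁` implies independence over `Algebra.adjoin F (Set.range x)`, which is contained in `F₁`. -/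

theorem count_dep3 {E : Type} (X : Set E) (hX : X.Finite) (T B : ℕ) :
    ∀ (n : ℕ) (f : Fin n → E → ℂ) (Bd : Fin n → E → Prop),
      (∀ i, ∀ F : IntermediateField ℚ ℂ, Algebra.trdeg ℚ F ≤ (T : Cardinal) → Clo F →
        Set.ncard {k : E | k ∈ X ∧ (Bd i k ∨ f i k ∈ F)} ≤ B) →
      ∀ (t : ℕ) (F : IntermediateField ℚ ℂ), Algebra.trdeg ℚ F ≤ (t : Cardinal) → t + n ≤ T + 1 →
        Set.ncard {k : Fin n → E | (∀ i, k i ∈ X) ∧ ¬ ((∀ i, ¬ Bd i (k i)) ∧
          AlgebraicIndependent F fun i => f i (k i))} ≤ n * X.ncard ^ (n - 1) * B := by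
  classical
  intro n
  induction n with
  | zero =>
    intro f Bd hB t F _ _
    have : {k : Fin 0 → E | (∀ i, k i ∈ X) ∧ ¬ ((∀ i, ¬ Bd i (k i)) ∧
        AlgebraicIndependent F fun i => f i (k i))} = ∅ := by
      ext k
      rw [Set.mem_ofPred_eq]
      refine ⟨fun h => (h.2 ⟨fun i => i.elim0, ?_⟩).elim, fun h => h.elim⟩
      rw [algebraicIndependent_empty_type_iff]
      exact (algebraMap F ℂ).injective
    rw [this]
    simp
  | succ n ih =>
    intro f Bd hB t F hF htn
    have hfin : ∀ j : ℕ, {k : Fin j → E | ∀ i, k i ∈ X}.Finite := fun j => by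
      have := Set.Finite.pi' (fun _ : Fin j => hX)
      exact this
    have hSn : {k : Fin n → E | (∀ i, k i ∈ X) ∧
        ¬ ((∀ i, ¬ Bd i.castSucc (k i)) ∧
          AlgebraicIndependent F fun i => f i.castSucc (k i))}.Finite :=
      (hfin n).subset fun k hk => hk.1
    have hF' : ∀ k : Fin n → E, ∃ F' : IntermediateField ℚ ℂ, F ≤ F' ∧ Clo F' ∧
      Algebra.trdeg ℚ F' ≤ ((t + n : ℕ) : Cardinal) ∧
      ∀ z : ℂ, z ∈ F' ↔ IsAlgebraic (IntermediateField.adjoin F
        (Set.range fun i : Fin n => f i.castSucc (k i))) z := fun k => clo_adjoin F t n hF _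
    choose F' _ hClo htr hmem using hF'
    -- the image set
    let φ : (Fin (n + 1) → E) → (Fin n → E) × E := fun k => (fun i => k i.castSucc, k (Fin.last n))
    have hφ : Function.Injective φ := by
      intro k k' h
      have h1 : (fun i : Fin n => k i.castSucc) = fun i => k' i.castSucc := congrArg Prod.fst h
      have h2 : k (Fin.last n) = k' (Fin.last n) := congrArg Prod.snd h
      funext i
      refine Fin.lastCases h2 (fun j => ?_) i
      exact congrFun h1 j
    let A : Set ((Fin n → E) × E) := {k : Fin n → E | (∀ i, k i ∈ X) ∧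
        ¬ ((∀ i, ¬ Bd i.castSucc (k i)) ∧
          AlgebraicIndependent F fun i => f i.castSucc (k i))} ×ˢ X
    let V : Set ((Fin n → E) × E) := {p | (∀ i, p.1 i ∈ X) ∧ p.2 ∈ X ∧
      (Bd (Fin.last n) p.2 ∨ f (Fin.last n) p.2 ∈ F' p.1)}
    have hV : V.Finite := by
      refine ((hfin n).prod hX).subset fun p hp => ?_
      exact ⟨hp.1, hp.2.1⟩
    have hA : A.Finite := hSn.prod hX
    have hsub : φ '' {k : Fin (n + 1) → E | (∀ i, k i ∈ X) ∧
        ¬ ((∀ i, ¬ Bd i (k i)) ∧ AlgebraicIndependent F fun i => f i (k i))} ⊆ A ∪ V := by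
      rintro _ ⟨k, ⟨hk1, hk2⟩, rfl⟩
      by_cases h : (∀ i : Fin n, ¬ Bd i.castSucc (k i.castSucc)) ∧
          AlgebraicIndependent F fun i : Fin n => f i.castSucc (k i.castSucc)
      · right
        refine ⟨fun i => hk1 _, hk1 _, ?_⟩
        by_contra h3
        have h3' := not_or.1 h3
        refine hk2 ⟨fun i => ?_, ?_⟩
        · refine Fin.lastCases ?_ (fun j => ?_) i
          · exact h3'.1
          · exact h.1 j
        · refine algInd_snoc F n (fun i => f i (k i)) h.2 ?_
          intro h4
          exact h3'.2 ((hmem (fun i => k i.castSucc) (f (Fin.last n) (k (Fin.last n)))).2 h4)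
      · left
        exact ⟨⟨fun i => hk1 _, h⟩, hk1 _⟩
    have hVcard : V.ncard ≤ B * X.ncard ^ n := by
      rw [Set.ncard_eq_toFinset_card V hV]
      have h5 : ∀ b ∈ Fintype.piFinset (fun _ : Fin n => hX.toFinset),
          (hV.toFinset.filter (fun p => p.1 = b)).card ≤ B := by
        intro b hb
        have h6 := hB (Fin.last n) (F' b) ((htr b).trans (by
          have : t + n ≤ T := by omega
          exact_mod_cast this)) (hClo b)
        refine le_trans ?_ h6
        have hfinb : {k : E | k ∈ X ∧ (Bd (Fin.last n) k ∨ f (Fin.last n) k ∈ F' b)}.Finite :=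
          hX.subset fun k hk => hk.1
        rw [Set.ncard_eq_toFinset_card _ hfinb]
        refine Finset.card_le_card_of_injOn Prod.snd ?_ ?_
        · intro p hp
          simp only [Finset.coe_filter, Set.Finite.mem_toFinset, Set.mem_ofPred_eq] at hp
          simp only [Set.Finite.coe_toFinset, Set.mem_ofPred_eq]
          obtain ⟨hp1, hp2⟩ := hp
          refine ⟨hp1.2.1, ?_⟩
          rw [← hp2]
          exact hp1.2.2
        · intro p hp p' hp' h
          simp only [Finset.coe_filter, Set.Finite.mem_toFinset, Set.mem_ofPred_eq] at hp hp'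
          exact Prod.ext (hp.2.trans hp'.2.symm) h
      have h7 := Finset.card_le_mul_card_image_of_maps_to (f := Prod.fst) (s := hV.toFinset)
        (t := Fintype.piFinset (fun _ : Fin n => hX.toFinset)) (by
          intro p hp
          simp only [Set.Finite.mem_toFinset] at hp
          rw [Fintype.mem_piFinset]
          intro i
          rw [Set.Finite.mem_toFinset]
          exact hp.1 i) B h5
      refine h7.trans ?_
      rw [Fintype.card_piFinset_const, Set.ncard_eq_toFinset_card X hX]
    have hAcard : A.ncard ≤ n * X.ncard ^ (n - 1) * B * X.ncard := by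
      rw [Set.ncard_prod]
      exact Nat.mul_le_mul_right _ (ih (fun i => f i.castSucc) (fun i => Bd i.castSucc)
        (fun i => hB i.castSucc) t F hF (by omega))
    calc Set.ncard {k : Fin (n + 1) → E | (∀ i, k i ∈ X) ∧
          ¬ ((∀ i, ¬ Bd i (k i)) ∧ AlgebraicIndependent F fun i => f i (k i))}
        = (φ '' {k : Fin (n + 1) → E | (∀ i, k i ∈ X) ∧
          ¬ ((∀ i, ¬ Bd i (k i)) ∧ AlgebraicIndependent F fun i => f i (k i))}).ncard :=
          (Set.ncard_image_of_injective _ hφ).symm
      _ ≤ (A ∪ V).ncard := Set.ncard_le_ncard hsub (hA.union hV)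
      _ ≤ A.ncard + V.ncard := Set.ncard_union_le _ _
      _ ≤ n * X.ncard ^ (n - 1) * B * X.ncard + B * X.ncard ^ n := Nat.add_le_add hAcard hVcard
      _ = (n + 1) * X.ncard ^ (n + 1 - 1) * B := by
          rcases n with _ | n
          · simp
          · simp only [Nat.add_sub_cancel]
            ring

theorem ai_sum (F F₁ : IntermediateField ℚ ℂ) (hle : F ≤ F₁) (a s : ℕ) (x : Fin a → ℂ)
    (y : Fin s → ℂ) (hmem : ∀ i, x i ∈ F₁) (hx : AlgebraicIndependent F x)
    (hy : AlgebraicIndependent F₁ y) : AlgebraicIndependent F (Sum.elim x y) := by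
  let _ : Algebra F F₁ := (IntermediateField.inclusion hle).toRingHom.toAlgebra
  have _ : IsScalarTower F F₁ ℂ := IsScalarTower.of_algebraMap_eq (fun _ => rfl)
  have h1 : AlgebraicIndependent F (Sum.elim y x) := by
    refine AlgebraicIndependent.sumElim_of_tower (S := F₁) hx ?_ hy
    rintro _ ⟨i, rfl⟩
    exact ⟨⟨x i, hmem i⟩, rfl⟩
  have h2 := h1.comp Sum.swap Sum.swap_leftInverse.injective
  have h3 : Sum.elim y x ∘ Sum.swap = Sum.elim x y := by
    funext i
    rcases i with i | i <;> rfl
  rwa [h3] at h2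

end ELT
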