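import Pool.Agent.ELT.F4
import Pool.Agent.ELT.F5
import Pool.Agent.LTD.NFf

set_option autoImplicit false

open PeriodPair LTD Module

namespace ELT

/-! ## [ELT-F6] THEOREM E3 (file F6.lean)

`m` = maximum of the `m`'s of `ell_count (t + a + s)` and `exp_count (t + a + s)` (for a larger `m` the bound `(2H+1)^{D - D/m}` is weaker). `X` = the box, `X.ncard = (2H+1)^D` (`LTD.NFf_box`), `B = (2H+1)^{D - D/m}`.
Stage 1: `count_dep3` with `n = a`, `T = t + a`, `f i k = ℘[L i](v)`, `Bd i k = (v ∈ (L i).lattice)`: at most `a X^{a-1} B` bad `A.1`. Stage 2: for every good `A.1`: `F₁` from `clo_adjoin F t a` for the numbers `℘(v_i)` (trdeg `≤ t + a`), `count_dep3` with `n = s`, `T = t + a + s`, `f j k = c_j(v) exp(u)`, `Bd = False`: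
at most `s X^{s-1} B` bad `A.2`; for the others `ai_sum` gives the independence of `Sum.elim`. Total `≤ a X^{a-1} B X^s + X^a s X^{s-1} B = (a+s) X^{a+s-1} B ≤ (a+s)(2H+1)^{(a+s)D - D/m}` (`a + s ≥ 1`; `a + s = 0`: the set is empty, both factors). -/

theorem f6_fiber {α β : Type} (A : Set α) (hA : A.Finite) (V : Set (α × β)) (hV : V.Finite)
    (hfst : ∀ p ∈ V, p.1 ∈ A) (N : ℕ) (h : ∀ a ∈ A, Set.ncard {b | (a, b) ∈ V} ≤ N) :
    V.ncard ≤ A.ncard * N := by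
  classical
  rw [Set.ncard_eq_toFinset_card V hV, Set.ncard_eq_toFinset_card A hA, mul_comm]
  refine Finset.card_le_mul_card_image_of_maps_to (f := Prod.fst) (s := hV.toFinset)
    (t := hA.toFinset) ?_ N ?_
  · intro p hp
    rw [Set.Finite.mem_toFinset] at hp ⊢
    exact hfst p hp
  · intro b hb
    rw [Set.Finite.mem_toFinset] at hb
    refine le_trans ?_ (h b hb)
    have hfinb : {c : β | (b, c) ∈ V}.Finite := by
      refine (hV.image Prod.snd).subset ?_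
      intro c hc
      exact ⟨(b, c), hc, rfl⟩
    rw [Set.ncard_eq_toFinset_card _ hfinb]
    refine Finset.card_le_card_of_injOn Prod.snd ?_ ?_
    · intro p hp
      simp only [Finset.coe_filter, Set.Finite.mem_toFinset, Set.mem_ofPred_eq] at hp
      simp only [Set.Finite.coe_toFinset, Set.mem_ofPred_eq]
      obtain ⟨hp1, hp2⟩ := hp
      rw [← hp2]
      exact hp1
    · intro p hp p' hp' h
      simp only [Finset.coe_filter, Set.Finite.mem_toFinset, Set.mem_ofPred_eq] at hp hp'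
      exact Prod.ext (hp.2.trans hp'.2.symm) h

theorem f6_pi {E : Type} (X : Set E) (hX : X.Finite) (n : ℕ) :
    {k : Fin n → E | ∀ i, k i ∈ X}.Finite ∧ {k : Fin n → E | ∀ i, k i ∈ X}.ncard = X.ncard ^ n := by
  classical
  have h : {k : Fin n → E | ∀ i, k i ∈ X} =
      ((Fintype.piFinset fun _ : Fin n => hX.toFinset : Finset (Fin n → E)) : Set (Fin n → E)) := by
    ext k
    simp
  constructor
  · rw [h]
    exact Finset.finite_toSet _
  · rw [h, Set.ncard_coe_finset, Fintype.card_piFinset_const, Set.ncard_eq_toFinset_card X hX]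

theorem f6_num (a s D m H : ℕ) :
    a * ((2 * H + 1) ^ D) ^ (a - 1) * (2 * H + 1) ^ (D - D / m) * ((2 * H + 1) ^ D) ^ s +
      ((2 * H + 1) ^ D) ^ a * (s * ((2 * H + 1) ^ D) ^ (s - 1) * (2 * H + 1) ^ (D - D / m)) ≤
    (a + s) * (2 * H + 1) ^ ((a + s) * D - D / m) := by
  have h6 : D / m ≤ D := Nat.div_le_self D m
  have key : ∀ b c : ℕ, ((2 * H + 1) ^ D) ^ b * (2 * H + 1) ^ (D - D / m) *
      ((2 * H + 1) ^ D) ^ c = (2 * H + 1) ^ ((b + 1 + c) * D - D / m) := by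
    intro b c
    rw [← pow_mul, ← pow_mul, ← pow_add, ← pow_add]
    congr 1
    have h7 : (b + 1 + c) * D = D * b + D * c + D := by ring
    rw [h7]
    omega
  rw [add_mul]
  refine Nat.add_le_add ?_ ?_
  · rcases a with _ | a
    · simp
    · have h1 := key a s
      rw [Nat.add_sub_cancel]
      refine le_of_eq ?_
      rw [← h1]
      ring
  · rcases s with _ | s
    · simp
    · have h1 := key a s
      rw [Nat.add_sub_cancel]
      refine le_of_eq ?_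
      rw [show a + (s + 1) = a + 1 + s by ring, ← h1]
      ring

theorem e3 (a s t : ℕ) : ∃ m : ℕ, 1 ≤ m ∧ ∀ F : IntermediateField ℚ ℂ,
    Algebra.trdeg ℚ F ≤ (t : Cardinal) →
    ∀ (L : Fin a → PeriodPair) (z r : Fin a → ℂ) (z' r' : Fin s → ℂ),
      (∀ i, z i ≠ 0) → (∀ j, z' j ≠ 0) →
    ∀ c : Fin s → (Fin a → ℂ) → ℂ, (∀ j v, c j v ≠ 0) →
    ∀ (K : IntermediateField ℚ ℂ) (D : ℕ) (w : Basis (Fin D) ℚ K) (H : ℕ),
      Set.ncard {A : (Fin a → Fin D → ℤ) × (Fin s → Fin D → ℤ) |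
        (∀ i k, |A.1 i k| ≤ (H : ℤ)) ∧ (∀ j k, |A.2 j k| ≤ (H : ℤ)) ∧
        ¬ ((∀ i, r i + z i * ∑ k, ((A.1 i k : ℤ) : ℂ) * (w k : ℂ) ∉ (L i).lattice) ∧
          AlgebraicIndependent F (Sum.elim
            (fun i => ℘[L i] (r i + z i * ∑ k, ((A.1 i k : ℤ) : ℂ) * (w k : ℂ)))
            (fun j => c j (fun i => r i + z i * ∑ k, ((A.1 i k : ℤ) : ℂ) * (w k : ℂ)) *
              Complex.exp (r' j + z' j * ∑ k, ((A.2 j k : ℤ) : ℂ) * (w k : ℂ)))))} ≤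
        (a + s) * (2 * H + 1) ^ ((a + s) * D - D / m) := by
  classical
  obtain ⟨m₁, hm₁, h₁⟩ := ell_count (t + a + s)
  obtain ⟨m₂, hm₂, h₂⟩ := exp_count (t + a + s)
  refine ⟨max m₁ m₂, le_max_of_le_left hm₁, ?_⟩
  intro F hF L z r z' r' hz hz' c hc K D w H
  set m := max m₁ m₂ with hm
  obtain ⟨hXf, hXc⟩ := NFf_box D H
  set X : Set (Fin D → ℤ) := {a : Fin D → ℤ | ∀ j, |a j| ≤ (H : ℤ)} with hXdef
  have hB1 : ∀ i : Fin a, ∀ F' : IntermediateField ℚ ℂ,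
      Algebra.trdeg ℚ F' ≤ ((t + a + s : ℕ) : Cardinal) → Clo F' →
      Set.ncard {k : Fin D → ℤ | k ∈ X ∧
        (r i + z i * ∑ j, ((k j : ℤ) : ℂ) * (w j : ℂ) ∈ (L i).lattice ∨
          ℘[L i] (r i + z i * ∑ j, ((k j : ℤ) : ℂ) * (w j : ℂ)) ∈ F')} ≤
        (2 * H + 1) ^ (D - D / m) := by
    intro i F' hF' _
    refine le_trans (h₁ F' hF' (L i) (z i) (r i) (hz i) K D w H) ?_
    refine Nat.pow_le_pow_right (by omega) ?_
    exact Nat.sub_le_sub_left (Nat.div_le_div_left (a := D) (le_max_left m₁ m₂) (by omega)) D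
  have hB2 : ∀ (v : Fin a → ℂ) (j : Fin s), ∀ F' : IntermediateField ℚ ℂ,
      Algebra.trdeg ℚ F' ≤ ((t + a + s : ℕ) : Cardinal) → Clo F' →
      Set.ncard {k : Fin D → ℤ | k ∈ X ∧ (False ∨
        c j v * Complex.exp (r' j + z' j * ∑ l, ((k l : ℤ) : ℂ) * (w l : ℂ)) ∈ F')} ≤
        (2 * H + 1) ^ (D - D / m) := by
    intro v j F' hF' _
    have h3 := h₂ F' hF' (c j v) (z' j) (r' j) (hc j v) (hz' j) K D w H
    simp only [false_or]
    refine le_trans h3 ?_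
    refine Nat.pow_le_pow_right (by omega) ?_
    exact Nat.sub_le_sub_left (Nat.div_le_div_left (a := D) (le_max_right m₁ m₂) (by omega)) D
  -- stage 1
  have hst1 := count_dep3 X hXf (t + a + s) ((2 * H + 1) ^ (D - D / m)) a
    (fun i k => ℘[L i] (r i + z i * ∑ j, ((k j : ℤ) : ℂ) * (w j : ℂ)))
    (fun i k => r i + z i * ∑ j, ((k j : ℤ) : ℂ) * (w j : ℂ) ∈ (L i).lattice)
    hB1 t F hF (by omega)
  have hF' : ∀ k : Fin a → Fin D → ℤ, ∃ F' : IntermediateField ℚ ℂ, F ≤ F' ∧ Clo F' ∧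
      Algebra.trdeg ℚ F' ≤ ((t + a : ℕ) : Cardinal) ∧
      ∀ x : ℂ, x ∈ F' ↔ IsAlgebraic (IntermediateField.adjoin F
        (Set.range fun i => ℘[L i] (r i + z i * ∑ j, ((k i j : ℤ) : ℂ) * (w j : ℂ)))) x :=
    fun k => clo_adjoin F t a hF _
  choose F' hle hClo htr hmem using hF'
  have hmemF : ∀ (k : Fin a → Fin D → ℤ) (i : Fin a),
      ℘[L i] (r i + z i * ∑ j, ((k i j : ℤ) : ℂ) * (w j : ℂ)) ∈ F' k := by
    intro k i
    rw [hmem]
    have h5 : ℘[L i] (r i + z i * ∑ j, ((k i j : ℤ) : ℂ) * (w j : ℂ)) ∈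
        IntermediateField.adjoin F
        (Set.range fun i => ℘[L i] (r i + z i * ∑ j, ((k i j : ℤ) : ℂ) * (w j : ℂ))) :=
      IntermediateField.subset_adjoin F _ ⟨i, rfl⟩
    exact isAlgebraic_algebraMap (⟨_, h5⟩ : IntermediateField.adjoin F
        (Set.range fun i => ℘[L i] (r i + z i * ∑ j, ((k i j : ℤ) : ℂ) * (w j : ℂ))))
  -- stage 2
  have hst2 : ∀ k : Fin a → Fin D → ℤ,
      Set.ncard {k' : Fin s → Fin D → ℤ | (∀ j, k' j ∈ X) ∧ ¬ ((∀ _ : Fin s, ¬ False) ∧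
        AlgebraicIndependent (F' k) fun j =>
          c j (fun i => r i + z i * ∑ l, ((k i l : ℤ) : ℂ) * (w l : ℂ)) *
            Complex.exp (r' j + z' j * ∑ l, ((k' j l : ℤ) : ℂ) * (w l : ℂ)))} ≤
        s * X.ncard ^ (s - 1) * (2 * H + 1) ^ (D - D / m) := by
    intro k
    exact count_dep3 X hXf (t + a + s) ((2 * H + 1) ^ (D - D / m)) s
      (fun j k' => c j (fun i => r i + z i * ∑ l, ((k i l : ℤ) : ℂ) * (w l : ℂ)) *
            Complex.exp (r' j + z' j * ∑ l, ((k' l : ℤ) : ℂ) * (w l : ℂ)))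
      (fun _ _ => False) (hB2 _) (t + a) (F' k) (htr k) (by omega)
  obtain ⟨hXaf, hXac⟩ := f6_pi X hXf a
  obtain ⟨hXsf, hXsc⟩ := f6_pi X hXf s
  set Bad1 : Set (Fin a → Fin D → ℤ) := {k | (∀ i, k i ∈ X) ∧
    ¬ ((∀ i, ¬ (r i + z i * ∑ j, ((k i j : ℤ) : ℂ) * (w j : ℂ) ∈ (L i).lattice)) ∧
      AlgebraicIndependent F fun i =>
        ℘[L i] (r i + z i * ∑ j, ((k i j : ℤ) : ℂ) * (w j : ℂ)))} with hBad1
  have hBad1f : Bad1.Finite := hXaf.subset fun k hk => hk.1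
  set V : Set ((Fin a → Fin D → ℤ) × (Fin s → Fin D → ℤ)) :=
    {p | (∀ i, p.1 i ∈ X) ∧ (∀ j, p.2 j ∈ X) ∧ ¬ ((∀ _ : Fin s, ¬ False) ∧
        AlgebraicIndependent (F' p.1) fun j =>
          c j (fun i => r i + z i * ∑ l, ((p.1 i l : ℤ) : ℂ) * (w l : ℂ)) *
            Complex.exp (r' j + z' j * ∑ l, ((p.2 j l : ℤ) : ℂ) * (w l : ℂ)))} with hVdef
  have hVf : V.Finite := (hXaf.prod hXsf).subset fun p hp => ⟨hp.1, hp.2.1⟩
  have hVc : V.ncard ≤ X.ncard ^ a * (s * X.ncard ^ (s - 1) * (2 * H + 1) ^ (D - D / m)) := by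
    rw [← hXac]
    refine f6_fiber _ hXaf V hVf (fun p hp => hp.1) _ ?_
    intro k hk
    refine le_trans (Set.ncard_le_ncard ?_ ?_) (hst2 k)
    · intro b hb
      exact hb.2
    · exact hXsf.subset fun k' hk' => hk'.1
  have hsub : {A : (Fin a → Fin D → ℤ) × (Fin s → Fin D → ℤ) |
        (∀ i k, |A.1 i k| ≤ (H : ℤ)) ∧ (∀ j k, |A.2 j k| ≤ (H : ℤ)) ∧
        ¬ ((∀ i, r i + z i * ∑ k, ((A.1 i k : ℤ) : ℂ) * (w k : ℂ) ∉ (L i).lattice) ∧
          AlgebraicIndependent F (Sum.elim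
            (fun i => ℘[L i] (r i + z i * ∑ k, ((A.1 i k : ℤ) : ℂ) * (w k : ℂ)))
            (fun j => c j (fun i => r i + z i * ∑ k, ((A.1 i k : ℤ) : ℂ) * (w k : ℂ)) *
              Complex.exp (r' j + z' j * ∑ k, ((A.2 j k : ℤ) : ℂ) * (w k : ℂ)))))} ⊆
      Bad1 ×ˢ {k : Fin s → Fin D → ℤ | ∀ j, k j ∈ X} ∪ V := by
    rintro A ⟨hA1, hA2, hA3⟩
    by_cases hg : (∀ i, ¬ (r i + z i * ∑ j, ((A.1 i j : ℤ) : ℂ) * (w j : ℂ) ∈ (L i).lattice)) ∧
      AlgebraicIndependent F fun i =>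
        ℘[L i] (r i + z i * ∑ j, ((A.1 i j : ℤ) : ℂ) * (w j : ℂ))
    · right
      refine ⟨hA1, hA2, fun h => hA3 ⟨hg.1, ?_⟩⟩
      exact ai_sum F (F' A.1) (hle A.1) a s _ _ (hmemF A.1) hg.2 h.2
    · left
      exact ⟨⟨hA1, hg⟩, hA2⟩
  refine le_trans (Set.ncard_le_ncard hsub ((hBad1f.prod hXsf).union hVf)) ?_
  refine le_trans (Set.ncard_union_le _ _) ?_
  have hPc : (Bad1 ×ˢ {k : Fin s → Fin D → ℤ | ∀ j, k j ∈ X}).ncard ≤
      a * X.ncard ^ (a - 1) * (2 * H + 1) ^ (D - D / m) * X.ncard ^ s := by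
    rw [Set.ncard_prod, hXsc]
    exact Nat.mul_le_mul_right _ hst1
  refine le_trans (Nat.add_le_add hPc hVc) ?_
  rw [hXc]
  exact f6_num a s D m H

end ELT
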