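import Pool.Agent.ELT.F6
import Pool.Agent.LTD.CloR

set_option autoImplicit false

open PeriodPair LTD Module

namespace ELT

/-- The components of `r = (v, u)` and of `exp_G(r)`. -/
def comp {a s : ℕ} (L : Fin a → PeriodPair) (c : Fin s → (Fin a → ℂ) → ℂ) (v : Fin a → ℂ)
    (u : Fin s → ℂ) : Set ℂ :=
  Set.range v ∪ Set.range u ∪ Set.range (fun i => ℘[L i] (v i)) ∪
    Set.range (fun i => ℘'[L i] (v i)) ∪ Set.range (fun j => c j v * Complex.exp (u j))

/-- independence over a field containing `R` bounds the relative transcendence degree from below -/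
theorem f7_trdeg (F F₁ : IntermediateField ℚ ℂ) (hle : F ≤ F₁) (R : Set ℂ) (hR : ∀ z ∈ R, z ∈ F₁)
    {ι : Type} [Fintype ι] (x : ι → ℂ) (hx : AlgebraicIndependent F₁ x) (S : Set ℂ)
    (hS : ∀ i, x i ∈ S) :
    Algebra.trdeg F (IntermediateField.adjoin F R) + (Fintype.card ι : Cardinal) ≤
      Algebra.trdeg F (IntermediateField.adjoin F (R ∪ S)) := by
  obtain ⟨κ, y, hy⟩ := exists_isTranscendenceBasis' F (IntermediateField.adjoin F R)
  have hyc : Cardinal.mk κ = Algebra.trdeg F (IntermediateField.adjoin F R) :=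
    hy.cardinalMk_eq_trdeg
  have hsub : (IntermediateField.adjoin F R : Set ℂ) ⊆ F₁ := by
    let _ : Algebra F F₁ := (IntermediateField.inclusion hle).toRingHom.toAlgebra
    have h1 : IntermediateField.adjoin F R ≤ IntermediateField.extendScalars hle := by
      rw [IntermediateField.adjoin_le_iff]
      intro z hz
      exact hR z hz
    intro z hz
    exact h1 hz
  have hyF : ∀ i, ((y i : IntermediateField.adjoin F R) : ℂ) ∈ F₁ := fun i => hsub (y i).2
  have hy' : AlgebraicIndependent F (fun i => ((y i : IntermediateField.adjoin F R) : ℂ)) := by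
    have := hy.1.map' (f := (IntermediateField.adjoin F R).val) Subtype.val_injective
    exact this
  have hsum : AlgebraicIndependent F
      (Sum.elim x fun i => ((y i : IntermediateField.adjoin F R) : ℂ)) := by
    let _ : Algebra F F₁ := (IntermediateField.inclusion hle).toRingHom.toAlgebra
    have _ : IsScalarTower F F₁ ℂ := IsScalarTower.of_algebraMap_eq (fun _ => rfl)
    refine AlgebraicIndependent.sumElim_of_tower (S := F₁) hy' ?_ hx
    rintro _ ⟨i, rfl⟩
    exact ⟨⟨_, hyF i⟩, rfl⟩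
  have hmem : ∀ i, Sum.elim x (fun i => ((y i : IntermediateField.adjoin F R) : ℂ)) i ∈
      IntermediateField.adjoin F (R ∪ S) := by
    rintro (i | i)
    · exact IntermediateField.subset_adjoin F _ (Or.inr (hS i))
    · exact IntermediateField.adjoin.mono F R (R ∪ S) Set.subset_union_left (y i).2
  have hx' : AlgebraicIndependent F
      (fun i => (⟨_, hmem i⟩ : IntermediateField.adjoin F (R ∪ S))) :=
    AlgebraicIndependent.of_comp (IntermediateField.adjoin F (R ∪ S)).val hsum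
  have h := hx'.cardinalMk_le_trdeg
  rw [Cardinal.mk_sum, Cardinal.lift_id, Cardinal.lift_id, hyc, Cardinal.mk_fintype, add_comm] at h
  exact h

theorem e3r (a s t k : ℕ) : ∃ m : ℕ, 1 ≤ m ∧ ∀ F : IntermediateField ℚ ℂ,
    Algebra.trdeg ℚ F ≤ (t : Cardinal) → ∀ R : Fin k → ℂ,
    ∀ (L : Fin a → PeriodPair) (z r : Fin a → ℂ) (z' r' : Fin s → ℂ),
      (∀ i, z i ≠ 0) → (∀ j, z' j ≠ 0) →
    ∀ c : Fin s → (Fin a → ℂ) → ℂ, (∀ j v, c j v ≠ 0) →
    ∀ (K : IntermediateField ℚ ℂ) (D : ℕ) (w : Basis (Fin D) ℚ K) (H : ℕ),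
      Set.ncard {A : (Fin a → Fin D → ℤ) × (Fin s → Fin D → ℤ) |
        (∀ i k, |A.1 i k| ≤ (H : ℤ)) ∧ (∀ j k, |A.2 j k| ≤ (H : ℤ)) ∧
        ¬ ((∀ i, r i + z i * ∑ k, ((A.1 i k : ℤ) : ℂ) * (w k : ℂ) ∉ (L i).lattice) ∧
          Algebra.trdeg F (IntermediateField.adjoin F (Set.range R)) + ((a + s : ℕ) : Cardinal) ≤
            Algebra.trdeg F (IntermediateField.adjoin F (Set.range R ∪ comp L c
            (fun i => r i + z i * ∑ k, ((A.1 i k : ℤ) : ℂ) * (w k : ℂ))
            (fun j => r' j + z' j * ∑ k, ((A.2 j k : ℤ) : ℂ) * (w k : ℂ)))))} ≤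
        (a + s) * (2 * H + 1) ^ ((a + s) * D - D / m) := by
  obtain ⟨m, hm, h⟩ := e3 a s (t + k)
  refine ⟨m, hm, fun F hF R L z r z' r' hz hz' c hc K D w H => ?_⟩
  obtain ⟨F₁, hle, -, htr, hmem⟩ := clo_adjoin F t k hF R
  refine le_trans (Set.ncard_le_ncard ?_ ?_) (h F₁ htr L z r z' r' hz hz' c hc K D w H)
  · rintro A ⟨h1, h2, h3⟩
    refine ⟨h1, h2, fun h4 => h3 ⟨h4.1, ?_⟩⟩
    have h5 := f7_trdeg F F₁ hle (Set.range R) ?_ _ h4.2 (comp L c
            (fun i => r i + z i * ∑ k, ((A.1 i k : ℤ) : ℂ) * (w k : ℂ))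
            (fun j => r' j + z' j * ∑ k, ((A.2 j k : ℤ) : ℂ) * (w k : ℂ))) ?_
    · simpa using h5
    · rintro _ ⟨i, rfl⟩
      rw [hmem]
      exact isAlgebraic_algebraMap (R := IntermediateField.adjoin F (Set.range R))
        (⟨R i, IntermediateField.subset_adjoin F _ ⟨i, rfl⟩⟩)
    · rintro (i | j)
      · exact Or.inl (Or.inl (Or.inr ⟨i, rfl⟩))
      · exact Or.inr ⟨j, rfl⟩
  · refine Set.Finite.subset (s := {A : (Fin a → Fin D → ℤ) × (Fin s → Fin D → ℤ) |
        (∀ i k, |A.1 i k| ≤ (H : ℤ)) ∧ (∀ j k, |A.2 j k| ≤ (H : ℤ))}) ?_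
      fun A hA => ⟨hA.1, hA.2.1⟩
    have h1 : ∀ n : ℕ, {A : Fin n → Fin D → ℤ | ∀ i k, |A i k| ≤ (H : ℤ)}.Finite := by
      intro n
      have h2 : {b : ℤ | |b| ≤ (H : ℤ)}.Finite := by
        refine (Set.finite_Icc (-(H : ℤ)) H).subset fun b hb => ?_
        exact abs_le.1 hb
      have h3 := Set.Finite.pi' (fun _ : Fin n => Set.Finite.pi' (fun _ : Fin D => h2))
      exact h3
    exact ((h1 a).prod (h1 s)).subset fun A hA => ⟨hA.1, hA.2⟩

end ELT
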