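import Mathlib

set_option autoImplicit false

namespace ELT

/-! ## [ELT-K1] geometric sums (file K1.lean)

`e(t) = exp(2πi t)`. `|e(θ) - 1| = 2 |sin πθ| ≥ 4 dist(θ, ℤ)` (`|sin πθ| = |sin π(θ-m)|`, Jordan's inequality `Real.mul_le_sin` for `|θ - m| ≤ 1/2`; take `m = round θ`), `∑_{k<T} e(kθ) = (e(Tθ)-1)/(e(θ)-1)`, numerator `≤ 2`. -/

/-- `e(t) = exp(2πi t)` -/
noncomputable def ex (t : ℝ) : ℂ := Complex.exp (2 * Real.pi * t * Complex.I)

theorem ex_add (s t : ℝ) : ex (s + t) = ex s * ex t := by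
  unfold ex
  rw [← Complex.exp_add]
  congr 1
  push_cast
  ring

theorem norm_ex (t : ℝ) : ‖ex t‖ = 1 := by
  unfold ex
  have e : (2 * (Real.pi : ℂ) * (t : ℂ) * Complex.I) = ((2 * Real.pi * t : ℝ) : ℂ) * Complex.I := by
    push_cast
    ring
  rw [e, Complex.norm_exp_ofReal_mul_I]

theorem ex_int (n : ℤ) : ex n = 1 := by
  unfold ex
  have e : (2 * (Real.pi : ℂ) * ((n : ℝ) : ℂ) * Complex.I) = (n : ℂ) * (2 * Real.pi * Complex.I) := by
    push_cast
    ring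
  rw [e, Complex.exp_int_mul_two_pi_mul_I]

theorem k1_pow (θ : ℝ) (k : ℕ) : ex (k * θ) = ex θ ^ k := by
  unfold ex
  rw [← Complex.exp_nat_mul]
  congr 1
  push_cast
  ring

theorem k1_sub_one (δ : ℝ) (hδ : |δ| ≤ 1 / 2) : 4 * |δ| ≤ ‖ex δ - 1‖ := by
  have e : ex δ = Complex.exp (Complex.I * ((2 * Real.pi * δ : ℝ) : ℂ)) := by
    unfold ex
    congr 1
    push_cast
    ring
  rw [e, Complex.norm_exp_I_mul_ofReal_sub_one]
  have hpi := Real.pi_pos
  have h1 : 2 * Real.pi * δ / 2 = Real.pi * δ := by ring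
  have h2 : |Real.pi * δ| ≤ Real.pi / 2 := by
    rw [abs_mul, abs_of_pos hpi]
    nlinarith
  have h3 := Real.mul_abs_le_abs_sin h2
  have h4 : 2 / Real.pi * |Real.pi * δ| = 2 * |δ| := by
    rw [abs_mul, abs_of_pos hpi]
    field_simp
  rw [h4] at h3
  rw [h1, Real.norm_eq_abs, abs_mul, abs_of_pos (by norm_num : (0 : ℝ) < 2)]
  linarith

theorem geo_sum (θ ε : ℝ) (hε : 0 < ε) (h : ∀ m : ℤ, ε ≤ |θ - m|) (T : ℕ) :
    ‖∑ k ∈ Finset.range T, ex (k * θ)‖ ≤ 1 / (2 * ε) := by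
  have h1 : 4 * ε ≤ ‖ex θ - 1‖ := by
    have h2 : ex θ = ex (θ - round θ) := by
      have e : θ = (θ - round θ) + (round θ : ℤ) := by ring
      conv_lhs => rw [e]
      rw [ex_add, ex_int, mul_one]
    rw [h2]
    refine le_trans ?_ (k1_sub_one _ (abs_sub_round θ))
    have := h (round θ)
    linarith
  have hne : ex θ ≠ 1 := by
    intro he
    rw [he, sub_self, norm_zero] at h1
    linarith
  have h3 : ∑ k ∈ Finset.range T, ex (k * θ) = (ex θ ^ T - 1) / (ex θ - 1) := by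
    rw [← geom_sum_eq hne]
    exact Finset.sum_congr rfl fun k _ => k1_pow θ k
  rw [h3, norm_div]
  have h4 : ‖ex θ ^ T - 1‖ ≤ 2 := by
    refine (norm_sub_le _ _).trans ?_
    rw [norm_pow, norm_ex, one_pow, norm_one]
    norm_num
  have h5 : 0 < ‖ex θ - 1‖ := by linarith
  rw [div_le_div_iff₀ h5 (by linarith)]
  nlinarith

end ELT
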