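import Pool.Agent.ELT.K1

set_option autoImplicit false

open Finset

namespace ELT

/-! ## [ELT-K2] averages over a square grid (file K2.lean)

`w_{kl} = (k + l i) h`, `k, l < T`. `Re(ξ w_{kl}) = k (Re ξ) h - l (Im ξ) h`, so the double sum is the product of two geometric sums, each of absolute value `≤ T`.
One of `|Re ξ|, |Im ξ|` is `≥ ‖ξ‖/2`; say `θ = (Re ξ) h`, `‖ξ‖ h/2 ≤ |θ| ≤ 1/2` (because `‖ξ‖ h ≤ 1/2`), then `|θ - m| ≥ |θ| ≥ ‖ξ‖h/2` for all `m ∈ ℤ` (`m ≠ 0`: `≥ 1/2`), `geo_sum`: `≤ 1/(‖ξ‖ h)`. -/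

/-- The grid points. -/
noncomputable def gw (h : ℝ) (k : ℕ × ℕ) : ℂ := ((k.1 : ℂ) + k.2 * Complex.I) * h

theorem k2_term (ξ : ℂ) (h c : ℝ) (k : ℕ × ℕ) : ex ((ξ * gw h k).re - c) =
    ex (-c) * (ex (k.1 * (ξ.re * h)) * ex (k.2 * (-(ξ.im * h)))) := by
  have e : (ξ * gw h k).re - c = -c + (k.1 * (ξ.re * h) + k.2 * (-(ξ.im * h))) := by
    unfold gw
    simp
    ring
  rw [e, ex_add, ex_add]

theorem k2_le (θ : ℝ) (T : ℕ) : ‖∑ k ∈ range T, ex (k * θ)‖ ≤ T := by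
  refine (norm_sum_le _ _).trans (le_of_eq ?_)
  have e : ∀ k ∈ range T, ‖ex ((k : ℝ) * θ)‖ = 1 := fun k _ => norm_ex _
  rw [Finset.sum_congr rfl e]
  simp

theorem k2_geo (θ a : ℝ) (ha : 0 < a) (h1 : a / 2 ≤ |θ|) (h2 : |θ| ≤ 1 / 2) (h3 : a ≤ 1 / 2) (T : ℕ) :
    ‖∑ k ∈ range T, ex (k * θ)‖ ≤ 1 / a := by
  have h4 := geo_sum θ (a / 2) (by linarith) (fun m => ?_) T
  · have e : 2 * (a / 2) = a := by ring
    rwa [e] at h4
  · by_cases hm : m = 0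
    · subst hm
      simpa using h1
    · have h5 : (1 : ℝ) ≤ |(m : ℝ)| := by
        have := Int.one_le_abs hm
        exact_mod_cast this
      have h6 := abs_sub_abs_le_abs_sub (m : ℝ) θ
      rw [abs_sub_comm] at h6
      linarith

theorem grid_sum (ξ : ℂ) (h : ℝ) (hh : 0 < h) (hξ : ξ ≠ 0) (hξh : ‖ξ‖ * h ≤ 1 / 2) (T : ℕ)
    (c : ℝ) : ‖∑ k ∈ range T ×ˢ range T, ex ((ξ * gw h k).re - c)‖ ≤ T / (‖ξ‖ * h) := by
  have e : ∑ k ∈ range T ×ˢ range T, ex ((ξ * gw h k).re - c) =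
      ex (-c) * ((∑ k ∈ range T, ex (k * (ξ.re * h))) * ∑ k ∈ range T, ex (k * (-(ξ.im * h)))) := by
    rw [Finset.sum_mul_sum, ← Finset.sum_product', Finset.mul_sum]
    exact Finset.sum_congr rfl fun k _ => k2_term ξ h c k
  have hpos : 0 < ‖ξ‖ * h := mul_pos (norm_pos_iff.2 hξ) hh
  rw [e, norm_mul, norm_ex, one_mul, norm_mul]
  have hre : |ξ.re * h| ≤ ‖ξ‖ * h := by
    rw [abs_mul, abs_of_pos hh]
    exact mul_le_mul_of_nonneg_right (Complex.abs_re_le_norm ξ) hh.le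
  have him : |-(ξ.im * h)| ≤ ‖ξ‖ * h := by
    rw [abs_neg, abs_mul, abs_of_pos hh]
    exact mul_le_mul_of_nonneg_right (Complex.abs_im_le_norm ξ) hh.le
  have hT : (0 : ℝ) ≤ T := Nat.cast_nonneg T
  have hsum : ‖ξ‖ * h ≤ |ξ.re * h| + |-(ξ.im * h)| := by
    rw [abs_neg, abs_mul, abs_mul, abs_of_pos hh, ← add_mul]
    exact mul_le_mul_of_nonneg_right (Complex.norm_le_abs_re_add_abs_im ξ) hh.le
  by_cases hc : ‖ξ‖ * h / 2 ≤ |ξ.re * h|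
  · have h1 := k2_geo _ _ hpos hc (hre.trans hξh) hξh T
    have h2 := k2_le (-(ξ.im * h)) T
    calc _ ≤ 1 / (‖ξ‖ * h) * T := mul_le_mul h1 h2 (norm_nonneg _) (by positivity)
      _ = T / (‖ξ‖ * h) := by ring
  · have h1 := k2_geo _ _ hpos (by linarith) (him.trans hξh) hξh T
    have h2 := k2_le (ξ.re * h) T
    calc _ ≤ T * (1 / (‖ξ‖ * h)) := mul_le_mul h2 h1 (norm_nonneg _) hT
      _ = T / (‖ξ‖ * h) := by ring

theorem norm_gw (h : ℝ) (hh : 0 ≤ h) (T : ℕ) (k : ℕ × ℕ) (hk : k ∈ range T ×ˢ range T) :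
    ‖gw h k‖ ≤ 2 * T * h := by
  rw [Finset.mem_product, Finset.mem_range, Finset.mem_range] at hk
  unfold gw
  rw [norm_mul, Complex.norm_real, Real.norm_eq_abs, abs_of_nonneg hh]
  refine mul_le_mul_of_nonneg_right ?_ hh
  refine (norm_add_le _ _).trans ?_
  rw [norm_mul, Complex.norm_I, mul_one, Complex.norm_natCast, Complex.norm_natCast]
  have h1 : (k.1 : ℝ) ≤ T := by exact_mod_cast hk.1.le
  have h2 : (k.2 : ℝ) ≤ T := by exact_mod_cast hk.2.le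
  linarith

end ELT
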