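import Pool.Agent.ELT.K2

set_option autoImplicit false

open Finset

namespace ELT

/-! ## [ELT-K3] averages of products of Fejér kernels (file K3.lean)

`fj H s = |∑_{k<H} e(ks)|²/H`. As a complex number `|∑_k e(k s)|² = ∑_{k,k'<H} e((k-k')s)`. So
`∏_{j ∈ J} fj H (Re(ξ_j w) - α_j) = H^{-|J|} ∑_{κ : J → [0,H)²} e(Re(ξ_κ w) - c_κ)`, `ξ_κ = ∑_j (κ_j.1 - κ_j.2) ξ_j`, `c_κ = ∑_j (κ_j.1-κ_j.2) α_j`. (`Finset.prod_univ_sum` or `Finset.prod_sum`; it may be convenient to take the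
product over all `j : Fin n` and to replace the factors `j ∉ J` by `1`: sum over `κ : Fin n → Fin H × Fin H` with `κ_j = (0,0)` for `j ∉ J`, or do the case of a general finite index type.) Sum over the grid (`T²` points): the `H^{|J|}` terms
with `κ_j.1 = κ_j.2` for all `j` give `1` each; every other term has `ξ_κ ≠ 0`, `‖ξ_κ‖ ≥ η`, `‖ξ_κ‖h ≤ 1/2`, so by `grid_sum` its sum is `≤ T/(ηh)` in absolute value. So
`|T^{-2} ∑_{grid} ∏ - 1| ≤ H^{-|J|} H^{2|J|}/(T η h) = H^{|J|}/(Tηh) ≤ H^n/(T η h)`. -/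

/-- The Fejér kernel. -/
noncomputable def fj (H : ℕ) (s : ℝ) : ℝ := ‖∑ k ∈ range H, ex (k * s)‖ ^ 2 / H

theorem fj_nonneg (H : ℕ) (s : ℝ) : 0 ≤ fj H s :=
  div_nonneg (sq_nonneg _) (Nat.cast_nonneg _)

/-- `fj H s ≤ 1/(4Hε²)` away from the integers -/
theorem fj_le (H : ℕ) (s ε : ℝ) (hε : 0 < ε) (h : ∀ m : ℤ, ε ≤ |s - m|) :
    fj H s ≤ 1 / (4 * H * ε ^ 2) := by
  have h1 := geo_sum s ε hε h H
  have h2 : ‖∑ k ∈ range H, ex (k * s)‖ ^ 2 ≤ (1 / (2 * ε)) ^ 2 :=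
    pow_le_pow_left₀ (norm_nonneg _) h1 2
  have h3 : fj H s ≤ (1 / (2 * ε)) ^ 2 / H :=
    div_le_div_of_nonneg_right h2 (Nat.cast_nonneg _)
  refine h3.trans_eq ?_
  rw [div_pow, one_pow, div_div]
  congr 1
  ring

theorem k3_ex_zero : ex 0 = 1 := by
  have h := ex_int 0
  rwa [Int.cast_zero] at h

theorem k3_conj (s : ℝ) : (starRingEnd ℂ) (ex s) = ex (-s) := by
  unfold ex
  rw [← Complex.exp_conj]
  congr 1
  simp only [map_mul, Complex.conj_I, Complex.conj_ofReal, Complex.ofReal_neg, map_ofNat]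
  ring

theorem k3_prod {ι : Type} (s : Finset ι) (a : ι → ℝ) :
    ∏ i ∈ s, ex (a i) = ex (∑ i ∈ s, a i) := by
  classical
  induction s using Finset.induction_on with
  | empty => rw [prod_empty, sum_empty, k3_ex_zero]
  | insert i s hi ih => rw [prod_insert hi, sum_insert hi, ih, ex_add]

theorem k3_fj (H : ℕ) (hH : 1 ≤ H) (s : ℝ) :
    ((fj H s : ℝ) : ℂ) * H =
      ∑ p ∈ range H ×ˢ range H, ex (((p.1 : ℝ) - (p.2 : ℝ)) * s) := by
  have hH0 : (H : ℂ) ≠ 0 := by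
    have : H ≠ 0 := by omega
    exact_mod_cast this
  have h1 : ((‖∑ k ∈ range H, ex (k * s)‖ ^ 2 : ℝ) : ℂ) =
      (∑ k ∈ range H, ex (k * s)) * (starRingEnd ℂ) (∑ k ∈ range H, ex (k * s)) := by
    rw [Complex.mul_conj, Complex.normSq_eq_norm_sq]
  have h2 : ((fj H s : ℝ) : ℂ) * H = ((‖∑ k ∈ range H, ex (k * s)‖ ^ 2 : ℝ) : ℂ) := by
    unfold fj
    rw [Complex.ofReal_div, Complex.ofReal_natCast, div_mul_cancel₀ _ hH0]
  rw [h2, h1, map_sum, sum_mul_sum, sum_product]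
  refine sum_congr rfl fun a _ => sum_congr rfl fun b _ => ?_
  rw [k3_conj, ← ex_add]
  congr 1
  ring

/-- the index sets -/
def k3_t {n : ℕ} (H : ℕ) (J : Finset (Fin n)) (j : Fin n) : Finset (ℕ × ℕ) :=
  if j ∈ J then range H ×ˢ range H else {(0, 0)}

theorem k3_expand {n : ℕ} (ξ : Fin n → ℂ) (H : ℕ) (hH : 1 ≤ H) (α : Fin n → ℝ)
    (J : Finset (Fin n)) (w : ℂ) :
    ((∏ j ∈ J, fj H ((ξ j * w).re - α j) : ℝ) : ℂ) * (H : ℂ) ^ J.card =
      ∑ κ ∈ Fintype.piFinset (k3_t H J),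
        ex (((∑ j, (((κ j).1 : ℂ) - ((κ j).2 : ℂ)) * ξ j) * w).re -
          ∑ j, (((κ j).1 : ℝ) - ((κ j).2 : ℝ)) * α j) := by
  have h1 : ((∏ j ∈ J, fj H ((ξ j * w).re - α j) : ℝ) : ℂ) * (H : ℂ) ^ J.card =
      ∏ j, ∑ p ∈ k3_t H J j, ex (((p.1 : ℝ) - (p.2 : ℝ)) * ((ξ j * w).re - α j)) := by
    rw [Complex.ofReal_prod, ← prod_const, ← prod_mul_distrib]
    have h2 : ∀ j ∈ (univ : Finset (Fin n)), j ∉ J →
        ∑ p ∈ k3_t H J j, ex (((p.1 : ℝ) - (p.2 : ℝ)) * ((ξ j * w).re - α j)) = 1 := by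
      intro j _ hj
      unfold k3_t
      rw [if_neg hj, sum_singleton]
      simp only [Nat.cast_zero, sub_zero, zero_mul]
      exact k3_ex_zero
    rw [← prod_subset (subset_univ J) h2]
    refine prod_congr rfl fun j hj => ?_
    rw [k3_fj H hH]
    unfold k3_t
    rw [if_pos hj]
  rw [h1, prod_univ_sum]
  refine sum_congr rfl fun κ _ => ?_
  rw [k3_prod]
  congr 1
  have h3 : ((∑ j, (((κ j).1 : ℂ) - ((κ j).2 : ℂ)) * ξ j) * w).re =
      ∑ j, (((κ j).1 : ℝ) - ((κ j).2 : ℝ)) * (ξ j * w).re := by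
    rw [sum_mul, Complex.re_sum]
    refine sum_congr rfl fun j _ => ?_
    have h4 : (((κ j).1 : ℂ) - ((κ j).2 : ℂ)) * ξ j * w =
        ((((κ j).1 : ℝ) - ((κ j).2 : ℝ) : ℝ) : ℂ) * (ξ j * w) := by
      push_cast
      ring
    rw [h4, Complex.re_ofReal_mul]
  rw [h3, ← sum_sub_distrib]
  refine sum_congr rfl fun j _ => ?_
  ring

theorem k3_card {n : ℕ} (H : ℕ) (J : Finset (Fin n)) :
    (Fintype.piFinset fun j => (k3_t H J j).filter fun p => p.1 = p.2).card = H ^ J.card := by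
  rw [Fintype.card_piFinset]
  have h2 : ∀ j ∈ (univ : Finset (Fin n)), j ∉ J →
      ((k3_t H J j).filter fun p => p.1 = p.2).card = 1 := by
    intro j _ hj
    unfold k3_t
    rw [if_neg hj]
    rfl
  rw [← prod_subset (subset_univ J) h2, ← prod_const]
  refine prod_congr rfl fun j hj => ?_
  unfold k3_t
  rw [if_pos hj]
  have h3 : ((range H ×ˢ range H).filter fun p : ℕ × ℕ => p.1 = p.2) = (range H).diag := by
    ext p
    rw [mem_filter, mem_product, mem_diag]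
    constructor
    · rintro ⟨⟨h1, _⟩, h2⟩
      exact ⟨h1, h2⟩
    · rintro ⟨h1, h2⟩
      exact ⟨⟨h1, h2 ▸ h1⟩, h2⟩
  rw [h3, diag_card, card_range]

theorem k3_card' {n : ℕ} (H : ℕ) (J : Finset (Fin n)) :
    (Fintype.piFinset (k3_t H J)).card = H ^ (2 * J.card) := by
  rw [Fintype.card_piFinset]
  have h2 : ∀ j ∈ (univ : Finset (Fin n)), j ∉ J → (k3_t H J j).card = 1 := by
    intro j _ hj
    unfold k3_t
    rw [if_neg hj]
    rfl
  rw [← prod_subset (subset_univ J) h2, pow_mul, ← prod_const]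
  refine prod_congr rfl fun j hj => ?_
  unfold k3_t
  rw [if_pos hj, card_product, card_range, sq]

theorem fj_avg (n : ℕ) (ξ : Fin n → ℂ) (H T : ℕ) (hH : 1 ≤ H) (hT : 1 ≤ T) (h η : ℝ) (hh : 0 < h)
    (hη : 0 < η)
    (hξ : ∀ k : Fin n → ℤ, k ≠ 0 → (∀ j, |k j| ≤ (H : ℤ)) →
      η ≤ ‖∑ j, (k j : ℂ) * ξ j‖ ∧ ‖∑ j, (k j : ℂ) * ξ j‖ * h ≤ 1 / 2)
    (α : Fin n → ℝ) (J : Finset (Fin n)) :
    |(∑ k ∈ range T ×ˢ range T, ∏ j ∈ J, fj H ((ξ j * gw h k).re - α j)) / (T : ℝ) ^ 2 - 1| ≤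
      (H : ℝ) ^ n / (T * (η * h)) := by
  classical
  have hHr : (0 : ℝ) < H := by exact_mod_cast hH
  have hTr : (0 : ℝ) < T := by exact_mod_cast hT
  have hHc : (H : ℂ) ≠ 0 := by
    have : H ≠ 0 := by omega
    exact_mod_cast this
  have hTc : (T : ℂ) ≠ 0 := by
    have : T ≠ 0 := by omega
    exact_mod_cast this
  set X : ℝ := ∑ k ∈ range T ×ˢ range T, ∏ j ∈ J, fj H ((ξ j * gw h k).re - α j) with hX
  set P := Fintype.piFinset (k3_t H J) with hP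
  set D := Fintype.piFinset fun j => (k3_t H J j).filter fun p => p.1 = p.2 with hD
  have hDP : D ⊆ P := Fintype.piFinset_subset _ _ fun j => filter_subset _ _
  -- the inner sums
  let S : (Fin n → ℕ × ℕ) → ℂ := fun κ => ∑ k ∈ range T ×ˢ range T,
    ex (((∑ j, (((κ j).1 : ℂ) - ((κ j).2 : ℂ)) * ξ j) * gw h k).re -
          ∑ j, (((κ j).1 : ℝ) - ((κ j).2 : ℝ)) * α j)
  have h1 : (X : ℂ) * (H : ℂ) ^ J.card = ∑ κ ∈ P, S κ := by
    rw [hX, Complex.ofReal_sum, sum_mul]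
    refine Eq.trans ?_ sum_comm
    exact sum_congr rfl fun k _ => k3_expand ξ H hH α J (gw h k)
  have h2 : ∑ κ ∈ D, S κ = (H : ℂ) ^ J.card * (T : ℂ) ^ 2 := by
    have h3 : ∀ κ ∈ D, S κ = (T : ℂ) ^ 2 := by
      intro κ hκ
      have h4 : ∀ j, (κ j).1 = (κ j).2 := fun j =>
        (mem_filter.1 ((Fintype.mem_piFinset.1 hκ) j)).2
      have h5 : ∀ k ∈ range T ×ˢ range T,
          ex (((∑ j, (((κ j).1 : ℂ) - ((κ j).2 : ℂ)) * ξ j) * gw h k).re -
          ∑ j, (((κ j).1 : ℝ) - ((κ j).2 : ℝ)) * α j) = 1 := by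
        intro k _
        have h6 : ∑ j, (((κ j).1 : ℂ) - ((κ j).2 : ℂ)) * ξ j = 0 :=
          sum_eq_zero fun j _ => by rw [h4 j, sub_self, zero_mul]
        have h7 : ∑ j, (((κ j).1 : ℝ) - ((κ j).2 : ℝ)) * α j = 0 :=
          sum_eq_zero fun j _ => by rw [h4 j, sub_self, zero_mul]
        rw [h6, h7, zero_mul, Complex.zero_re, sub_zero, k3_ex_zero]
      show ∑ k ∈ range T ×ˢ range T, _ = _
      rw [sum_congr rfl h5, sum_const, card_product, card_range, nsmul_eq_mul, mul_one]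
      push_cast
      ring
    rw [sum_congr rfl h3, sum_const, k3_card, nsmul_eq_mul]
    push_cast
    rfl
  have h3 : ∀ κ ∈ P \ D, ‖S κ‖ ≤ T / (η * h) := by
    intro κ hκ
    obtain ⟨hκ1, hκ2⟩ := mem_sdiff.1 hκ
    let kk : Fin n → ℤ := fun j => ((κ j).1 : ℤ) - ((κ j).2 : ℤ)
    have h4 : kk ≠ 0 := by
      intro h5
      apply hκ2
      refine Fintype.mem_piFinset.2 fun j => mem_filter.2 ⟨Fintype.mem_piFinset.1 hκ1 j, ?_⟩
      have h6 : ((κ j).1 : ℤ) - ((κ j).2 : ℤ) = 0 := congrFun h5 j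
      omega
    have h5 : ∀ j, |kk j| ≤ (H : ℤ) := by
      intro j
      have h6 := Fintype.mem_piFinset.1 hκ1 j
      show |((κ j).1 : ℤ) - ((κ j).2 : ℤ)| ≤ (H : ℤ)
      unfold k3_t at h6
      split_ifs at h6 with h7
      · obtain ⟨h8, h9⟩ := mem_product.1 h6
        have h8 := mem_range.1 h8
        have h9 := mem_range.1 h9
        rw [abs_le]
        omega
      · have h8 := mem_singleton.1 h6
        rw [h8]
        simp
    obtain ⟨h6, h7⟩ := hξ kk h4 h5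
    have h8 : ∑ j, (kk j : ℂ) * ξ j = ∑ j, (((κ j).1 : ℂ) - ((κ j).2 : ℂ)) * ξ j := by
      refine sum_congr rfl fun j _ => ?_
      show (((((κ j).1 : ℤ) - ((κ j).2 : ℤ) : ℤ)) : ℂ) * ξ j = _
      push_cast
      rfl
    rw [h8] at h6 h7
    have h9 : (∑ j, (((κ j).1 : ℂ) - ((κ j).2 : ℂ)) * ξ j) ≠ 0 := by
      intro h10
      rw [h10, norm_zero] at h6
      linarith
    refine (grid_sum _ h hh h9 h7 T _).trans ?_
    exact div_le_div_of_nonneg_left hTr.le (mul_pos hη hh)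
      (mul_le_mul_of_nonneg_right h6 hh.le)
  have h4 : (X : ℂ) * (H : ℂ) ^ J.card = (H : ℂ) ^ J.card * (T : ℂ) ^ 2 + ∑ κ ∈ P \ D, S κ := by
    rw [h1, ← h2, add_comm, sum_sdiff hDP]
  have h5 : ‖∑ κ ∈ P \ D, S κ‖ ≤ (H : ℝ) ^ (2 * J.card) * (T / (η * h)) := by
    refine (norm_sum_le _ _).trans ((sum_le_card_nsmul _ _ _ h3).trans ?_)
    rw [nsmul_eq_mul]
    refine mul_le_mul_of_nonneg_right ?_ (by positivity)
    have h6 : (P \ D).card ≤ H ^ (2 * J.card) := by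
      rw [← k3_card' H J]
      exact card_le_card sdiff_subset
    exact_mod_cast h6
  have h6 : (((X / (T : ℝ) ^ 2 - 1 : ℝ)) : ℂ) =
      (∑ κ ∈ P \ D, S κ) / ((H : ℂ) ^ J.card * (T : ℂ) ^ 2) := by
    have h7 : ∑ κ ∈ P \ D, S κ = (X : ℂ) * (H : ℂ) ^ J.card - (H : ℂ) ^ J.card * (T : ℂ) ^ 2 := by
      rw [h4]
      ring
    rw [h7]
    push_cast
    field_simp
  have h7 : |X / (T : ℝ) ^ 2 - 1| = ‖(((X / (T : ℝ) ^ 2 - 1 : ℝ)) : ℂ)‖ := by
    rw [Complex.norm_real, Real.norm_eq_abs]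
  rw [h7, h6, norm_div, norm_mul, norm_pow, norm_pow, Complex.norm_natCast, Complex.norm_natCast]
  rw [div_le_iff₀ (by positivity)]
  refine h5.trans ?_
  have h8 : (H : ℝ) ^ (2 * J.card) * (T / (η * h)) =
      (H : ℝ) ^ J.card / (T * (η * h)) * ((H : ℝ) ^ J.card * (T : ℝ) ^ 2) := by
    rw [two_mul, pow_add]
    field_simp
  rw [h8]
  refine mul_le_mul_of_nonneg_right ?_ (by positivity)
  refine div_le_div_of_nonneg_right ?_ (by positivity)
  refine pow_le_pow_right₀ (by exact_mod_cast hH) ?_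
  calc J.card ≤ (univ : Finset (Fin n)).card := card_le_univ J
    _ = n := by rw [card_univ, Fintype.card_fin]

end ELT
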