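import Pool.Agent.ELT.K3

set_option autoImplicit false

open Finset

namespace ELT

/-! ## [ELT-K4] effective Kronecker theorem (file K4.lean)

`n = 0`: `w = 0`. `n ≥ 1`: `Ξ` = maximum of `‖∑ k_j ξ_j‖` over `|k_j| ≤ H` (finite set) `≥ η`; `h = 1/(2Ξ)`, so `ηh ≤ 1/2`; `T = ⌈4 H^n/(η h)⌉ ≥ 1`, so `H^n/(Tηh) ≤ 1/4` and `T h ≤ 4H^n/η + h ≤ 8H^n/η` (`h ≤ 1/(2η)`), `‖w‖ ≤ 2Th ≤ 16 H^n/η`.
Suppose that no grid point `w` is good, i.e. for every grid point there is `j` with `|Re(ξ_j w) - α_j - m| > ε` for all `m`. Then `∏_j fj ≤ ∑_{j₀} (1/(4Hε²)) ∏_{j ≠ j₀} fj` at every grid point (`fj_le`, all terms `≥ 0`). Average (`fj_avg` with `J = univ` and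
`J = univ.erase j₀`): `3/4 ≤ n/(4Hε²) · 5/4`; but `n/(Hε²) ≤ 1`, so the right side is `≤ 5/16`. Contradiction. -/

theorem k4_point {n : ℕ} (f : Fin n → ℝ) (c : ℝ) (h0 : ∀ j, 0 ≤ f j) (j : Fin n) (hj : f j ≤ c) :
    ∏ i, f i ≤ ∑ j₀, c * ∏ i ∈ univ.erase j₀, f i := by
  have hc : 0 ≤ c := (h0 j).trans hj
  have h1 : ∏ i, f i = f j * ∏ i ∈ univ.erase j, f i := (Finset.mul_prod_erase univ f (mem_univ j)).symm
  rw [h1]
  have hp : ∀ j₀ : Fin n, 0 ≤ ∏ i ∈ univ.erase j₀, f i := fun j₀ => Finset.prod_nonneg fun i _ => h0 i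
  calc f j * ∏ i ∈ univ.erase j, f i ≤ c * ∏ i ∈ univ.erase j, f i := mul_le_mul_of_nonneg_right hj (hp j)
    _ ≤ ∑ j₀, c * ∏ i ∈ univ.erase j₀, f i :=
      Finset.single_le_sum (f := fun j₀ => c * ∏ i ∈ univ.erase j₀, f i) (fun j₀ _ => mul_nonneg hc (hp j₀))
        (mem_univ j)

theorem kronecker (n : ℕ) (ξ : Fin n → ℂ) (H : ℕ) (ε η : ℝ) (hε : 0 < ε)
    (hH : (n : ℝ) / ε ^ 2 ≤ H) (hH1 : 1 ≤ H) (hη : 0 < η)
    (hξ : ∀ k : Fin n → ℤ, k ≠ 0 → (∀ j, |k j| ≤ (H : ℤ)) → η ≤ ‖∑ j, (k j : ℂ) * ξ j‖)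
    (α : Fin n → ℝ) : ∃ w : ℂ, ‖w‖ ≤ 16 * (H : ℝ) ^ n / η ∧
      ∀ j, ∃ m : ℤ, |(ξ j * w).re - α j - m| ≤ ε := by
  have hH1' : (1 : ℝ) ≤ H := by exact_mod_cast hH1
  have hH0 : (0 : ℝ) < H := by linarith
  have hHn : (1 : ℝ) ≤ (H : ℝ) ^ n := one_le_pow₀ hH1'
  rcases Nat.eq_zero_or_pos n with rfl | hn
  · exact ⟨0, by rw [norm_zero]; positivity, fun j => j.elim0⟩
  set Xi : ℝ := ∑ j, (H : ℝ) * ‖ξ j‖ with hXi
  have hup : ∀ k : Fin n → ℤ, (∀ j, |k j| ≤ (H : ℤ)) → ‖∑ j, (k j : ℂ) * ξ j‖ ≤ Xi := by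
    intro k hk
    refine (norm_sum_le _ _).trans (Finset.sum_le_sum fun j _ => ?_)
    rw [norm_mul]
    refine mul_le_mul_of_nonneg_right ?_ (norm_nonneg _)
    rw [Complex.norm_intCast]
    exact_mod_cast hk j
  have hXη : η ≤ Xi := by
    let k : Fin n → ℤ := fun _ => 1
    have hk0 : k ≠ 0 := fun h => by
      have := congrFun h ⟨0, hn⟩
      simp [k] at this
    have hk1 : ∀ j, |k j| ≤ (H : ℤ) := fun j => by
      show |(1 : ℤ)| ≤ _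
      rw [abs_one]
      exact_mod_cast hH1
    exact (hξ k hk0 hk1).trans (hup k hk1)
  have hX0 : 0 < Xi := hη.trans_le hXη
  set h : ℝ := 1 / (2 * Xi) with hh
  have hh0 : 0 < h := by positivity
  have hXh : Xi * h = 1 / 2 := by
    rw [hh]
    field_simp
  have hhη : h ≤ 1 / (2 * η) := by
    rw [hh]
    exact one_div_le_one_div_of_le (by positivity) (by linarith)
  set T : ℕ := ⌈4 * (H : ℝ) ^ n / (η * h)⌉₊ with hT
  have hTr : 4 * (H : ℝ) ^ n / (η * h) ≤ T := Nat.le_ceil _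
  have hTpos : (0 : ℝ) < T := lt_of_lt_of_le (by positivity) hTr
  have hT1 : 1 ≤ T := by
    have : 0 < T := by exact_mod_cast hTpos
    omega
  have hTle : (T : ℝ) ≤ 4 * (H : ℝ) ^ n / (η * h) + 1 := (Nat.ceil_lt_add_one (by positivity)).le
  have hTh : 2 * T * h ≤ 16 * (H : ℝ) ^ n / η := by
    have h1 : (T : ℝ) * h ≤ 4 * (H : ℝ) ^ n / η + h := by
      calc (T : ℝ) * h ≤ (4 * (H : ℝ) ^ n / (η * h) + 1) * h := mul_le_mul_of_nonneg_right hTle hh0.le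
        _ = 4 * (H : ℝ) ^ n / η + h := by field_simp
    have h2 : h ≤ 4 * (H : ℝ) ^ n / η := by
      refine hhη.trans ?_
      rw [div_le_div_iff₀ (by positivity) hη]
      nlinarith
    have h3 : 16 * (H : ℝ) ^ n / η = 2 * (4 * (H : ℝ) ^ n / η + 4 * (H : ℝ) ^ n / η) := by ring
    rw [h3]
    linarith
  have hq : (H : ℝ) ^ n / (T * (η * h)) ≤ 1 / 4 := by
    have h0 : 0 < η * h := mul_pos hη hh0
    rw [div_le_iff₀ h0] at hTr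
    rw [div_le_div_iff₀ (by positivity) (by norm_num)]
    linarith
  have hξ' : ∀ k : Fin n → ℤ, k ≠ 0 → (∀ j, |k j| ≤ (H : ℤ)) →
      η ≤ ‖∑ j, (k j : ℂ) * ξ j‖ ∧ ‖∑ j, (k j : ℂ) * ξ j‖ * h ≤ 1 / 2 := by
    intro k hk hk'
    refine ⟨hξ k hk hk', ?_⟩
    rw [← hXh]
    exact mul_le_mul_of_nonneg_right (hup k hk') hh0.le
  have havg := fun J => fj_avg n ξ H T hH1 hT1 h η hh0 hη hξ' α J
  by_contra hcon
  push Not at hcon
  set G := range T ×ˢ range T with hG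
  set f : Fin n → ℕ × ℕ → ℝ := fun j k => fj H ((ξ j * gw h k).re - α j) with hf
  set c : ℝ := 1 / (4 * H * ε ^ 2) with hc
  have hpt : ∀ k ∈ G, ∏ j, f j k ≤ ∑ j₀, c * ∏ j ∈ univ.erase j₀, f j k := by
    intro k hk
    obtain ⟨j, hj⟩ := hcon (gw h k) ((norm_gw h hh0.le T k hk).trans hTh)
    exact k4_point (fun j => f j k) c (fun j => fj_nonneg _ _) j (fj_le H _ ε hε fun m => (hj m).le)
  have hs1 : ∑ k ∈ G, ∏ j, f j k ≤ ∑ j₀, c * ∑ k ∈ G, ∏ j ∈ univ.erase j₀, f j k := by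
    refine (Finset.sum_le_sum hpt).trans (le_of_eq ?_)
    rw [Finset.sum_comm]
    exact Finset.sum_congr rfl fun j₀ _ => (Finset.mul_sum _ _ _).symm
  have hT2 : (0 : ℝ) < (T : ℝ) ^ 2 := by positivity
  have hlow : 3 / 4 * (T : ℝ) ^ 2 ≤ ∑ k ∈ G, ∏ j, f j k := by
    have h1 := (abs_le.1 ((havg univ).trans hq)).1
    have h2 : 3 / 4 ≤ (∑ k ∈ G, ∏ j, f j k) / (T : ℝ) ^ 2 := by linarith
    rwa [le_div_iff₀ hT2] at h2
  have hupp : ∀ j₀ : Fin n, ∑ k ∈ G, ∏ j ∈ univ.erase j₀, f j k ≤ 5 / 4 * (T : ℝ) ^ 2 := by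
    intro j₀
    have h1 := (abs_le.1 ((havg (univ.erase j₀)).trans hq)).2
    have h2 : (∑ k ∈ G, ∏ j ∈ univ.erase j₀, f j k) / (T : ℝ) ^ 2 ≤ 5 / 4 := by linarith
    rwa [div_le_iff₀ hT2] at h2
  have hc0 : 0 < c := by positivity
  have hs2 : ∑ j₀ : Fin n, c * ∑ k ∈ G, ∏ j ∈ univ.erase j₀, f j k ≤ n * (c * (5 / 4 * (T : ℝ) ^ 2)) := by
    refine (Finset.sum_le_sum fun j₀ _ => mul_le_mul_of_nonneg_left (hupp j₀) hc0.le).trans (le_of_eq ?_)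
    rw [Finset.sum_const, Finset.card_univ, Fintype.card_fin, nsmul_eq_mul]
  have hnc : n * c ≤ 1 / 4 := by
    have he : 0 < ε ^ 2 := by positivity
    rw [div_le_iff₀ he] at hH
    rw [hc, mul_one_div, div_le_div_iff₀ (by positivity) (by norm_num)]
    linarith
  nlinarith

end ELT
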