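import Pool.Agent.ELT.Def
import Pool.Agent.ELT.K4

set_option autoImplicit false

open PeriodPair

namespace ELT

/-! ## [ELT-K5] Kronecker's theorem in the torus `(ℂ/L)^d` (file K5.lean)

`th_re`: explicit computation: `Re(-i z conj ω₂) = Im(z conj ω₂)`, for `z = ω₁`: `Im(ω₁ conj ω₂)`, for `z = ω₂`: `0`; `Im(ω₁ conj ω₂) ≠ 0` (else `ω₁, ω₂` are dependent over `ℝ`, `L.indep`); both sides are `ℝ`-linear in `z` and `ω₁, ω₂` is an `ℝ`-basis (`L.basis`).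
`kro`: `kronecker` with `n = 2d`, index `Fin d × Fin 2 ≃ Fin (2d)` (`finProdFinEquiv`, maybe `Fin (d*2)`), `ξ_{ik} = th L k * x i`, targets `α_{ik} = Re(th L k * z i)`. If `|Re(th k · x_i w) - Re(th k · z_i) - m_k| ≤ ε` (`k = 0,1`) then with `l = m_0 ω₁ + m_1 ω₂`:
`x_i w - z_i - l = s ω₁ + t ω₂`, `|s|,|t| ≤ ε` by `th_re`, so the norm is `≤ ε(‖ω₁‖+‖ω₂‖)`. -/

private theorem k5_ne (L : PeriodPair) : (L.ω₁ * (starRingEnd ℂ) L.ω₂).im ≠ 0 := by
  intro h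
  have hind := L.indep
  rw [LinearIndependent.pair_iff] at hind
  have h2 : L.ω₂ ≠ 0 := by
    intro h0
    have h1 := hind 0 1 (by rw [h0]; simp)
    exact one_ne_zero h1.2
  have h3 : (L.ω₁ * (starRingEnd ℂ) L.ω₂) = (((L.ω₁ * (starRingEnd ℂ) L.ω₂).re : ℝ) : ℂ) := by
    apply Complex.ext <;> simp [h]
  have h4 : ((Complex.normSq L.ω₂ : ℝ) : ℂ) = L.ω₂ * (starRingEnd ℂ) L.ω₂ := (Complex.mul_conj _).symm
  have h5 := hind (Complex.normSq L.ω₂) (-(L.ω₁ * (starRingEnd ℂ) L.ω₂).re) (by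
    simp only [Complex.real_smul]
    rw [Complex.ofReal_neg, ← h3, h4]
    ring)
  exact h2 (Complex.normSq_eq_zero.1 h5.1)

private theorem k5_th0 (L : PeriodPair) (z : ℂ) :
    (th L 0 * z).re = (z * (starRingEnd ℂ) L.ω₂).im / (L.ω₁ * (starRingEnd ℂ) L.ω₂).im := by
  have h : th L 0 * z = -Complex.I * (z * (starRingEnd ℂ) L.ω₂) /
      ((L.ω₁ * (starRingEnd ℂ) L.ω₂).im : ℂ) := by
    simp only [th, Matrix.cons_val_zero]
    ring
  rw [h, Complex.div_ofReal_re]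
  congr 1
  simp

private theorem k5_th1 (L : PeriodPair) (z : ℂ) :
    (th L 1 * z).re = (z * (starRingEnd ℂ) L.ω₁).im / (L.ω₂ * (starRingEnd ℂ) L.ω₁).im := by
  have h : th L 1 * z = -Complex.I * (z * (starRingEnd ℂ) L.ω₁) /
      ((L.ω₂ * (starRingEnd ℂ) L.ω₁).im : ℂ) := by
    simp only [th, Matrix.cons_val_one]
    simp
    ring
  rw [h, Complex.div_ofReal_re]
  congr 1
  simp

theorem th_re (L : PeriodPair) (z : ℂ) :
    z = ((th L 0 * z).re : ℂ) * L.ω₁ + ((th L 1 * z).re : ℂ) * L.ω₂ := by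
  rw [k5_th0, k5_th1]
  have h1 := k5_ne L
  have h2 : (L.ω₂ * (starRingEnd ℂ) L.ω₁).im = -(L.ω₁ * (starRingEnd ℂ) L.ω₂).im := by
    simp only [Complex.mul_im, Complex.conj_re, Complex.conj_im]
    ring
  rw [h2]
  obtain ⟨D, hD⟩ : ∃ D, D = (L.ω₁ * (starRingEnd ℂ) L.ω₂).im := ⟨_, rfl⟩
  rw [← hD] at h1 ⊢
  simp only [Complex.mul_im, Complex.conj_re, Complex.conj_im] at hD ⊢
  apply Complex.ext
  · rw [Complex.add_re, Complex.re_ofReal_mul, Complex.re_ofReal_mul]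
    field_simp
    rw [hD]
    ring
  · rw [Complex.add_im, Complex.im_ofReal_mul, Complex.im_ofReal_mul]
    field_simp
    rw [hD]
    ring

theorem kro (L : PeriodPair) : ∃ C : ℝ, 1 ≤ C ∧ ∀ (d : ℕ) (x : Fin d → ℂ) (H : ℕ) (ε η : ℝ),
    0 < ε → 2 * d / ε ^ 2 ≤ H → 1 ≤ H → 0 < η → NR L x H η → ∀ z : Fin d → ℂ,
      ∃ w : ℂ, ‖w‖ ≤ 16 * (H : ℝ) ^ (2 * d) / η ∧
        ∀ i, ∃ l ∈ L.lattice, ‖x i * w - z i - l‖ ≤ C * ε := by
  refine ⟨1 + ‖L.ω₁‖ + ‖L.ω₂‖, by linarith [norm_nonneg L.ω₁, norm_nonneg L.ω₂], ?_⟩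
  intro d x H ε η hε hH hH1 hη hNR z
  let e : Fin d × Fin 2 ≃ Fin (d * 2) := finProdFinEquiv
  have hk := kronecker (d * 2) (fun j => th L (e.symm j).2 * x (e.symm j).1) H ε η hε
    (by push_cast; rw [mul_comm (d : ℝ) 2]; exact hH) hH1 hη ?_
    (fun j => (th L (e.symm j).2 * z (e.symm j).1).re)
  · obtain ⟨w, hw, hm⟩ := hk
    refine ⟨w, by rw [mul_comm 2 d]; exact hw, ?_⟩
    intro i
    obtain ⟨m0, h0⟩ := hm (e (i, 0))
    obtain ⟨m1, h1⟩ := hm (e (i, 1))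
    simp only [Equiv.symm_apply_apply] at h0 h1
    refine ⟨m0 * L.ω₁ + m1 * L.ω₂, PeriodPair.mem_lattice.2 ⟨m0, m1, rfl⟩, ?_⟩
    have h2 := th_re L (x i * w - z i)
    have h3 : ∀ k, (th L k * (x i * w - z i)).re = (th L k * x i * w).re - (th L k * z i).re := by
      intro k
      rw [← Complex.sub_re]
      congr 1
      ring
    rw [h3, h3] at h2
    have h4 : x i * w - z i - (m0 * L.ω₁ + m1 * L.ω₂) =
        (((th L 0 * x i * w).re - (th L 0 * z i).re - m0 : ℝ) : ℂ) * L.ω₁ +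
        (((th L 1 * x i * w).re - (th L 1 * z i).re - m1 : ℝ) : ℂ) * L.ω₂ := by
      rw [h2]
      push_cast
      ring
    rw [h4]
    refine (norm_add_le _ _).trans ?_
    rw [norm_mul, norm_mul, Complex.norm_real, Complex.norm_real, Real.norm_eq_abs,
      Real.norm_eq_abs]
    have h5 : |(th L 0 * x i * w).re - (th L 0 * z i).re - m0| * ‖L.ω₁‖ ≤ ε * ‖L.ω₁‖ :=
      mul_le_mul_of_nonneg_right h0 (norm_nonneg _)
    have h6 : |(th L 1 * x i * w).re - (th L 1 * z i).re - m1| * ‖L.ω₂‖ ≤ ε * ‖L.ω₂‖ :=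
      mul_le_mul_of_nonneg_right h1 (norm_nonneg _)
    linarith
  · intro k hk0 hkH
    have h1 := hNR (fun i c => k (e (i, c))) (by
      intro h
      apply hk0
      funext j
      have := congrFun (congrFun h (e.symm j).1) (e.symm j).2
      simpa using this) (fun i c => hkH _)
    refine h1.trans (le_of_eq ?_)
    congr 1
    rw [← e.sum_comp, Fintype.sum_prod_type]
    refine Finset.sum_congr rfl fun i _ => ?_
    rw [Fin.sum_univ_two]
    simp only [Equiv.symm_apply_apply]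
    ring

end ELT
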