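import Pool.Agent.ELT.W1

set_option autoImplicit false

open PeriodPair LTD

namespace ELT

/-! ## [ELT-P1] the form `Pf` (file P1.lean)

`Pf d D p q = ∑_l p_l ∏_i q_{i0}^{l_i} q_{i1}^{D-1-l_i}`, `l_i < D`, so every factor is homogeneous of degree `D - 1` in `q_i`.
`Pf_smul`: `l_i + (D-1-l_i) = D-1`. `Pf_le`: `|q_{i0}^{l}q_{i1}^{D-1-l}| ≤ ‖q_i‖^{D-1}`, number of `l` is `D^d`. `Pf_eq_Nf`: `q_i = c_i xc(z_i)`: `‖Pf p q‖ = ∏‖c_i‖^{D-1} ‖Pf p xc‖`, `‖q_i‖ = ‖c_i‖‖xc‖`, `‖xc‖ ≥ 1`. -/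

theorem Pf_map {R S : Type} [CommRing R] [CommRing S] (f : R →+* S) (d D : ℕ)
    (p : (Fin d → Fin D) → R) (q : Fin d → Fin 2 → R) :
    f (Pf d D p q) = Pf d D (fun l => f (p l)) fun i k => f (q i k) := by
  simp only [Pf, map_sum, map_mul, map_prod, map_pow]

theorem Pf_smul {R : Type} [CommRing R] (d D : ℕ) (p : (Fin d → Fin D) → R) (c : Fin d → R)
    (q : Fin d → Fin 2 → R) :
    Pf d D p (fun i k => c i * q i k) = (∏ i, c i) ^ (D - 1) * Pf d D p q := by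
  unfold Pf
  rw [Finset.mul_sum]
  refine Finset.sum_congr rfl fun l _ => ?_
  rw [mul_left_comm, ← Finset.prod_pow, ← Finset.prod_mul_distrib]
  congr 1
  refine Finset.prod_congr rfl fun i _ => ?_
  have h1 : (l i : ℕ) + (D - 1 - (l i : ℕ)) = D - 1 := by
    have := (l i).isLt
    omega
  have h2 : c i ^ (D - 1) = c i ^ (l i : ℕ) * c i ^ (D - 1 - (l i : ℕ)) := by
    rw [← pow_add, h1]
  rw [mul_pow, mul_pow, h2]
  ring

theorem Pf_le (d D : ℕ) (p : (Fin d → Fin D) → ℂ) (H : ℝ) (hp : ∀ l, ‖p l‖ ≤ H)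
    (q : Fin d → Fin 2 → ℂ) : ‖Pf d D p q‖ ≤ (D : ℝ) ^ d * H * ∏ i, ‖q i‖ ^ (D - 1) := by
  unfold Pf
  refine (norm_sum_le _ _).trans ?_
  have hterm : ∀ l ∈ (Finset.univ : Finset (Fin d → Fin D)),
      ‖p l * ∏ i, (q i 0 ^ (l i : ℕ) * q i 1 ^ (D - 1 - (l i : ℕ)))‖ ≤ H * ∏ i, ‖q i‖ ^ (D - 1) := by
    intro l _
    rw [norm_mul]
    refine mul_le_mul (hp l) ?_ (norm_nonneg _) ((norm_nonneg _).trans (hp l))
    rw [norm_prod]
    refine Finset.prod_le_prod (fun i _ => norm_nonneg _) fun i _ => ?_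
    have h1 : (l i : ℕ) + (D - 1 - (l i : ℕ)) = D - 1 := by
      have := (l i).isLt
      omega
    rw [norm_mul, norm_pow, norm_pow]
    calc ‖q i 0‖ ^ (l i : ℕ) * ‖q i 1‖ ^ (D - 1 - (l i : ℕ))
        ≤ ‖q i‖ ^ (l i : ℕ) * ‖q i‖ ^ (D - 1 - (l i : ℕ)) :=
          mul_le_mul (pow_le_pow_left₀ (norm_nonneg _) (norm_le_pi_norm (q i) 0) _)
            (pow_le_pow_left₀ (norm_nonneg _) (norm_le_pi_norm (q i) 1) _)
            (pow_nonneg (norm_nonneg _) _) (pow_nonneg (norm_nonneg _) _)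
      _ = ‖q i‖ ^ (D - 1) := by rw [← pow_add, h1]
  have h := Finset.sum_le_card_nsmul _ _ _ hterm
  refine h.trans (le_of_eq ?_)
  rw [Finset.card_univ, Fintype.card_fun, Fintype.card_fin, Fintype.card_fin, nsmul_eq_mul]
  push_cast
  ring

theorem p1_xc_norm (L : PeriodPair) (z : ℂ) : 1 ≤ ‖xc L z‖ := by
  classical
  unfold xc
  split_ifs
  · have h := norm_le_pi_norm (![(1 : ℂ), 0] : Fin 2 → ℂ) 0
    simpa using h
  · have h := norm_le_pi_norm (![℘[L] z, (1 : ℂ)] : Fin 2 → ℂ) 1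
    simpa using h

theorem Pf_eq_Nf (L : PeriodPair) (d D : ℕ) (p : (Fin d → Fin D) → ℤ) (z : Fin d → ℂ)
    (q : Fin d → Fin 2 → ℂ) (hq : ∀ i, ∃ c : ℂ, ∀ k, q i k = c * xc L (z i) k) :
    ‖Pf d D (fun l => (p l : ℂ)) q‖ = Nf L d D p z * ∏ i, ‖q i‖ ^ (D - 1) := by
  choose c hc using hq
  have hq' : q = fun i k => c i * xc L (z i) k := by
    funext i k
    exact hc i k
  have hn : ∀ i, ‖q i‖ = ‖c i‖ * ‖xc L (z i)‖ := by
    intro i
    have : q i = c i • xc L (z i) := by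
      funext k
      exact hc i k
    rw [this, norm_smul]
  have hpos : 0 < ∏ i, ‖xc L (z i)‖ ^ (D - 1) :=
    Finset.prod_pos fun i _ => pow_pos (zero_lt_one.trans_le (p1_xc_norm L (z i))) _
  have h1 : ‖Pf d D (fun l => (p l : ℂ)) q‖ =
      (∏ i, ‖c i‖ ^ (D - 1)) * ‖Pf d D (fun l => (p l : ℂ)) fun i => xc L (z i)‖ := by
    rw [hq', Pf_smul, norm_mul, norm_pow, norm_prod, Finset.prod_pow]
  have h2 : ∏ i, ‖q i‖ ^ (D - 1) = (∏ i, ‖c i‖ ^ (D - 1)) * ∏ i, ‖xc L (z i)‖ ^ (D - 1) := by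
    rw [← Finset.prod_mul_distrib]
    refine Finset.prod_congr rfl fun i _ => ?_
    rw [hn i, mul_pow]
  rw [h1, h2]
  unfold Nf
  field_simp

theorem Nf_nonneg (L : PeriodPair) (d D : ℕ) (p : (Fin d → Fin D) → ℤ) (z : Fin d → ℂ) :
    0 ≤ Nf L d D p z :=
  div_nonneg (norm_nonneg _) (Finset.prod_nonneg fun _ _ => pow_nonneg (norm_nonneg _) _)

end ELT
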