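import Pool.Agent.ELT.Def
import Pool.Agent.LTD.Len

set_option autoImplicit false

open PeriodPair LTD MvPolynomial

namespace ELT

/-! ## [ELT-W6] sizes (file W6.lean)

`Sz P s`: total degree `≤ s`, `len P ≤ e^s`. `LTD.Len`: `len_add`, `len_mul`, `len_neg`, `len_C`, `len_X`, `len_pow`. -/

variable {ι : Type}

private def w6_B (P : MvPolynomial ι ℤ) (d l : ℝ) : Prop := (P.totalDegree : ℝ) ≤ d ∧ len P ≤ l

private theorem w6_mono {P : MvPolynomial ι ℤ} {d l d' l' : ℝ} (h : w6_B P d l) (hd : d ≤ d')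
    (hl : l ≤ l') : w6_B P d' l' := ⟨h.1.trans hd, h.2.trans hl⟩

private theorem w6_mul {P Q : MvPolynomial ι ℤ} {d l d' l' : ℝ} (h : w6_B P d l)
    (h' : w6_B Q d' l') : w6_B (P * Q) (d + d') (l * l') := by
  refine ⟨?_, (len_mul P Q).trans ?_⟩
  · have h1 : ((P * Q).totalDegree : ℝ) ≤ (P.totalDegree : ℝ) + (Q.totalDegree : ℝ) := by
      exact_mod_cast totalDegree_mul P Q
    exact h1.trans (add_le_add h.1 h'.1)
  · exact mul_le_mul h.2 h'.2 (len_nonneg Q) ((len_nonneg P).trans h.2)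

private theorem w6_add {P Q : MvPolynomial ι ℤ} {d l l' : ℝ} (h : w6_B P d l)
    (h' : w6_B Q d l') : w6_B (P + Q) d (l + l') := by
  refine ⟨?_, (len_add P Q).trans (add_le_add h.2 h'.2)⟩
  have h1 : ((P + Q).totalDegree : ℝ) ≤ max (P.totalDegree : ℝ) (Q.totalDegree : ℝ) := by
    exact_mod_cast totalDegree_add P Q
  exact h1.trans (max_le h.1 h'.1)

private theorem w6_neg {P : MvPolynomial ι ℤ} {d l : ℝ} (h : w6_B P d l) : w6_B (-P) d l := by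
  refine ⟨?_, ?_⟩
  · rw [totalDegree_neg]; exact h.1
  · rw [len_neg]; exact h.2

private theorem w6_sub {P Q : MvPolynomial ι ℤ} {d l l' : ℝ} (h : w6_B P d l)
    (h' : w6_B Q d l') : w6_B (P - Q) d (l + l') := by
  rw [sub_eq_add_neg]; exact w6_add h (w6_neg h')

private theorem w6_X (i : ι) : w6_B (X i : MvPolynomial ι ℤ) 1 1 := by
  refine ⟨?_, (len_X i).le⟩
  rw [totalDegree_X]; norm_num

private theorem w6_three : w6_B (3 : MvPolynomial ι ℤ) 0 3 := by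
  have e : (3 : MvPolynomial ι ℤ) = C 3 := by rw [map_ofNat]
  rw [e]
  refine ⟨?_, ?_⟩
  · rw [totalDegree_C]; norm_num
  · rw [len_C]; norm_num

theorem sz_mono {P : MvPolynomial ι ℤ} {s s' : ℝ} (h : Sz P s) (hs : s ≤ s') : Sz P s' :=
  ⟨h.1.trans hs, h.2.trans (Real.exp_le_exp.2 hs)⟩

theorem sz_mul {P Q : MvPolynomial ι ℤ} {s s' : ℝ} (h : Sz P s) (h' : Sz Q s') :
    Sz (P * Q) (s + s') := by
  have := w6_mul (P := P) (Q := Q) (d := s) (l := Real.exp s) (d' := s') (l' := Real.exp s') h h'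
  rw [← Real.exp_add] at this
  exact this

theorem sz_law (i j : ι) (P Q : Fin 3 → MvPolynomial ι ℤ) (δ δ' : ℝ) (hδ : 0 ≤ δ) (hδ' : 0 ≤ δ')
    (hP : ∀ k, Sz (P k) δ) (hQ : ∀ k, Sz (Q k) δ') (k : Fin 3) :
    Sz (law (X i) (X j) P Q k) (2 * δ + 2 * δ' + 5) := by
  set p := Real.exp δ with hp
  set q := Real.exp δ' with hq
  have bP : ∀ k, w6_B (P k) δ p := hP
  have bQ : ∀ k, w6_B (Q k) δ' q := hQ
  have bPQ : ∀ a b, w6_B (P a * Q b) (δ + δ') (p * q) := fun a b => w6_mul (bP a) (bQ b)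
  have bQP : ∀ a b, w6_B (Q a * P b) (δ + δ') (p * q) := fun a b =>
    w6_mono (w6_mul (bQ a) (bP b)) (by linarith) (le_of_eq (mul_comm q p))
  have bs : ∀ a b c e, w6_B (P a * Q b - Q c * P e) (δ + δ') (p * q + p * q) := fun a b c e =>
    w6_sub (bPQ a b) (bQP c e)
  have bt : ∀ a b c e, w6_B (P a * Q b + Q c * P e) (δ + δ') (p * q + p * q) := fun a b c e =>
    w6_add (bPQ a b) (bQP c e)
  have hpq : 0 ≤ p * q := by positivity
  have fin : ∀ (F : MvPolynomial ι ℤ) (c : ℝ), c ≤ 20 →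
      w6_B F (2 * (δ + δ') + 1) (c * (p * q) ^ 2) → Sz F (2 * δ + 2 * δ' + 5) := by
    intro F c hc hF
    refine ⟨hF.1.trans (by linarith), hF.2.trans ?_⟩
    have e1 : (p * q) ^ 2 = Real.exp (2 * δ + 2 * δ') := by
      rw [hp, hq, ← Real.exp_add, ← Real.exp_nat_mul]
      congr 1
      push_cast
      ring
    rw [e1, mul_comm, Real.exp_add (2 * δ + 2 * δ') 5]
    refine mul_le_mul_of_nonneg_left ?_ (Real.exp_pos _).le
    have h5 : (2 : ℝ) ^ 5 ≤ Real.exp 5 := by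
      have h2 : (2 : ℝ) ≤ Real.exp 1 := by
        have := Real.add_one_le_exp (1 : ℝ)
        linarith
      calc (2 : ℝ) ^ 5 ≤ (Real.exp 1) ^ 5 := by gcongr
        _ = Real.exp 5 := by rw [← Real.exp_nat_mul]; norm_num
    linarith
  have m : ∀ {F : MvPolynomial ι ℤ} {d l : ℝ} (c : ℝ), w6_B F d l → d ≤ 2 * (δ + δ') + 1 →
      l ≤ c * (p * q) ^ 2 → w6_B F (2 * (δ + δ') + 1) (c * (p * q) ^ 2) :=
    fun c h h1 h2 => w6_mono h h1 h2
  have hD : 0 ≤ δ + δ' := by linarith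
  fin_cases k
  · change Sz ((P 0 * Q 1 - Q 0 * P 1) * (P 1 * Q 2 + Q 1 * P 2) +
      (P 0 * Q 2 - Q 0 * P 2) * P 1 * Q 1 -
      X i * (P 0 * Q 2 + Q 0 * P 2) * (P 0 * Q 2 - Q 0 * P 2) -
      3 * X j * (P 0 * Q 2 - Q 0 * P 2) * P 2 * Q 2) _
    have t1 := m 4 (w6_mul (bs 0 1 0 1) (bt 1 2 1 2)) (by linarith) (le_of_eq (by ring))
    have t2 := m 2 (w6_mul (w6_mul (bs 0 2 0 2) (bP 1)) (bQ 1)) (by linarith)
      (le_of_eq (by ring))
    have t3 := m 4 (w6_mul (w6_mul (w6_X i) (bt 0 2 0 2)) (bs 0 2 0 2)) (by linarith)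
      (le_of_eq (by ring))
    have t4 := m 6 (w6_mul (w6_mul (w6_mul (w6_mul w6_three (w6_X j)) (bs 0 2 0 2)) (bP 2))
      (bQ 2)) (by linarith) (le_of_eq (by ring))
    have := w6_sub (w6_sub (w6_add t1 t2) t3) t4
    exact fin _ 16 (by norm_num) (w6_mono this le_rfl (le_of_eq (by ring)))
  · change Sz (-3 * P 0 * Q 0 * (P 0 * Q 1 - Q 0 * P 1) - P 1 * Q 1 * (P 1 * Q 2 - Q 1 * P 2) -
      X i * (P 0 * Q 1 - Q 0 * P 1) * P 2 * Q 2 + X i * (P 0 * Q 2 + Q 0 * P 2) *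
      (P 1 * Q 2 - Q 1 * P 2) + 3 * X j * (P 1 * Q 2 - Q 1 * P 2) * P 2 * Q 2) _
    have t1 := m 6 (w6_mul (w6_mul (w6_mul (w6_neg w6_three) (bP 0)) (bQ 0)) (bs 0 1 0 1))
      (by linarith) (le_of_eq (by ring))
    have t2 := m 2 (w6_mul (w6_mul (bP 1) (bQ 1)) (bs 1 2 1 2)) (by linarith)
      (le_of_eq (by ring))
    have t3 := m 2 (w6_mul (w6_mul (w6_mul (w6_X i) (bs 0 1 0 1)) (bP 2)) (bQ 2)) (by linarith)
      (le_of_eq (by ring))
    have t4 := m 4 (w6_mul (w6_mul (w6_X i) (bt 0 2 0 2)) (bs 1 2 1 2)) (by linarith)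
      (le_of_eq (by ring))
    have t5 := m 6 (w6_mul (w6_mul (w6_mul (w6_mul w6_three (w6_X j)) (bs 1 2 1 2)) (bP 2))
      (bQ 2)) (by linarith) (le_of_eq (by ring))
    have := w6_add (w6_add (w6_sub (w6_sub t1 t2) t3) t4) t5
    exact fin _ 20 le_rfl (w6_mono this le_rfl (le_of_eq (by ring)))
  · change Sz (3 * P 0 * Q 0 * (P 0 * Q 2 - Q 0 * P 2) -
      (P 1 * Q 2 + Q 1 * P 2) * (P 1 * Q 2 - Q 1 * P 2) +
      X i * (P 0 * Q 2 - Q 0 * P 2) * P 2 * Q 2) _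
    have t1 := m 6 (w6_mul (w6_mul (w6_mul w6_three (bP 0)) (bQ 0)) (bs 0 2 0 2))
      (by linarith) (le_of_eq (by ring))
    have t2 := m 4 (w6_mul (bt 1 2 1 2) (bs 1 2 1 2)) (by linarith) (le_of_eq (by ring))
    have t3 := m 2 (w6_mul (w6_mul (w6_mul (w6_X i) (bs 0 2 0 2)) (bP 2)) (bQ 2)) (by linarith)
      (le_of_eq (by ring))
    have := w6_add (w6_sub t1 t2) t3
    exact fin _ 12 (by norm_num) (w6_mono this le_rfl (le_of_eq (by ring)))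

theorem sz_law2 (i j : ι) (T P Q : Fin 3 → MvPolynomial ι ℤ) (τ δ δ' : ℝ) (hτ : 0 ≤ τ)
    (hδ : 0 ≤ δ) (hδ' : 0 ≤ δ') (hT : ∀ k, Sz (T k) τ) (hP : ∀ k, Sz (P k) δ)
    (hQ : ∀ k, Sz (Q k) δ') (k : Fin 3) :
    Sz (law2 (X i) (X j) T P Q k) (4 * δ + 4 * δ' + 8 * τ + 25) := by
  have hT' : ∀ k, Sz (ngt T k) τ := by
    intro k
    fin_cases k
    · exact hT 0
    · exact w6_neg (hT 1)
    · exact hT 2
  have h := sz_law i j (law (X i) (X j) P T) (law (X i) (X j) Q (ngt T)) (2 * δ + 2 * τ + 5)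
    (2 * δ' + 2 * τ + 5) (by linarith) (by linarith)
    (fun k => sz_law i j P T δ τ hδ hτ hP hT k) (fun k => sz_law i j Q (ngt T) δ' τ hδ' hτ hQ hT' k) k
  exact sz_mono h (by linarith)

end ELT
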