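import Pool.Agent.ELT.P1
import Pool.Agent.ELT.W6
import Pool.Agent.LTD.Ev

set_option autoImplicit false

open PeriodPair LTD MvPolynomial

namespace ELT

/-! ## [ELT-S1] the auxiliary polynomial (file S1.lean)

`Φ = Pf d D (C ∘ p) Q = ∑_l p_l ∏_i Q_{i0}^{l_i} Q_{i1}^{D-1-l_i}`.
`phi_sz`: every product has degree `≤ d (D-1) δ` and length `≤ e^{d(D-1)δ}` (`len_mul`, `len_pow`, `len_prod`, `totalDegree_mul`, `totalDegree_pow`, `totalDegree_finset_prod`), there are `D^d` terms with `|p_l| ≤ H`.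
`ev_le`: `‖ev u P‖ ≤ len P · U^{deg P} ≤ e^{δ} U^{δ}` (`LTD.norm_ev_le`; `U^{deg} ≤ e^{δ log U}`). `phi_coef`: product of `d (D-1)` such factors.
`phi_ev`: `Pf_map` for `ev u`.
`phi_nf`: `‖ev u Φ‖ = Nf · ∏ ‖ev u (Q i)‖^{D-1}` (`Pf_eq_Nf`), and `e^{-δ} ≤ ‖ev u (Q i)‖ ≤ e^{δ(1+log U)}`.
`ev_close`: `LTD.norm_ev_sub_le`: `≤ len · deg · U^{deg} · E ≤ e^N · N · e^{N log U} E`, `N ≤ e^N`. -/

variable {ι : Type}

theorem S1_pow {P : MvPolynomial ι ℤ} {δ : ℝ} (h : Sz P δ) (n : ℕ) : Sz (P ^ n) (n * δ) := by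
  have h1 : ((P ^ n).totalDegree : ℝ) ≤ ((n * P.totalDegree : ℕ) : ℝ) := by
    exact_mod_cast totalDegree_pow P n
  push_cast at h1
  refine ⟨h1.trans (mul_le_mul_of_nonneg_left h.1 (Nat.cast_nonneg _)), ?_⟩
  refine (len_pow P n).trans ?_
  rw [Real.exp_nat_mul]
  exact pow_le_pow_left₀ (len_nonneg P) h.2 n

theorem S1_prod {κ : Type} (s : Finset κ) (f : κ → MvPolynomial ι ℤ) (δ : ℝ)
    (h : ∀ i ∈ s, Sz (f i) δ) : Sz (∏ i ∈ s, f i) (s.card * δ) := by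
  classical
  induction s using Finset.induction_on with
  | empty =>
    rw [Finset.prod_empty, Finset.card_empty, Nat.cast_zero, zero_mul]
    refine ⟨?_, ?_⟩
    · rw [totalDegree_one, Nat.cast_zero]
    · rw [len_one, Real.exp_zero]
  | insert a s ha ih =>
    rw [Finset.prod_insert ha, Finset.card_insert_of_notMem ha]
    have h1 := sz_mul (h a (Finset.mem_insert_self _ _))
      (ih fun i hi => h i (Finset.mem_insert_of_mem hi))
    have h2 : ((s.card + 1 : ℕ) : ℝ) * δ = δ + s.card * δ := by push_cast; ring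
    rw [h2]
    exact h1

/-- a monomial of the form -/
theorem S1_mon (d D : ℕ) (δ : ℝ) (Q : Fin d → Fin 2 → MvPolynomial ι ℤ) (hδ : 0 ≤ δ)
    (hQ : ∀ i k, Sz (Q i k) δ) (l : Fin d → Fin D) :
    Sz (∏ i, (Q i 0 ^ (l i : ℕ) * Q i 1 ^ (D - 1 - (l i : ℕ)))) (d * D * δ) := by
  have h1 : ∀ i ∈ (Finset.univ : Finset (Fin d)),
      Sz (Q i 0 ^ (l i : ℕ) * Q i 1 ^ (D - 1 - (l i : ℕ))) (D * δ) := by
    intro i _
    refine sz_mono (sz_mul (S1_pow (hQ i 0) _) (S1_pow (hQ i 1) _)) ?_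
    rw [← add_mul]
    refine mul_le_mul_of_nonneg_right ?_ hδ
    have h2 : (l i : ℕ) + (D - 1 - (l i : ℕ)) ≤ D := by
      have := (l i).2
      omega
    exact_mod_cast h2
  have h2 := S1_prod Finset.univ _ _ h1
  rw [Finset.card_univ, Fintype.card_fin, ← mul_assoc] at h2
  exact h2

theorem phi_sz (d D : ℕ) (p : (Fin d → Fin D) → ℤ) (H δ N : ℝ)
    (Q : Fin d → Fin 2 → MvPolynomial ι ℤ) (hδ : 0 ≤ δ) (hH : 0 ≤ H) (hQ : ∀ i k, Sz (Q i k) δ)
    (hp : ∀ l, |((p l : ℤ) : ℝ)| ≤ H) (hdeg : d * D * δ ≤ N)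
    (hlen : (D : ℝ) ^ d * H * Real.exp (d * D * δ) ≤ Real.exp N) :
    Sz (Pf d D (fun l => C (p l)) Q) N := by
  unfold Pf
  have hN : 0 ≤ N := le_trans (by positivity) hdeg
  constructor
  · refine le_trans ?_ (Nat.floor_le hN)
    rw [Nat.cast_le]
    refine (totalDegree_finsetSum _ _).trans (Finset.sup_le fun l _ => ?_)
    refine (totalDegree_mul _ _).trans ?_
    rw [totalDegree_C, zero_add]
    exact Nat.le_floor ((S1_mon d D δ Q hδ hQ l).1.trans hdeg)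
  · refine (len_sum _ _).trans (le_trans ?_ hlen)
    have h1 : ∀ l ∈ (Finset.univ : Finset (Fin d → Fin D)),
        len (C (p l) * ∏ i, (Q i 0 ^ (l i : ℕ) * Q i 1 ^ (D - 1 - (l i : ℕ)))) ≤
          H * Real.exp (d * D * δ) := by
      intro l _
      refine (len_mul _ _).trans ?_
      rw [len_C]
      exact mul_le_mul (hp l) (S1_mon d D δ Q hδ hQ l).2 (len_nonneg _) hH
    refine (Finset.sum_le_sum h1).trans (le_of_eq ?_)
    rw [Finset.sum_const, Finset.card_univ, nsmul_eq_mul, Fintype.card_fun, Fintype.card_fin,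
      Fintype.card_fin]
    push_cast
    ring

theorem ev_le (u : ι → ℂ) (δ U : ℝ) (hU : 1 ≤ U) (hu : ∀ i, ‖u i‖ ≤ U) (P : MvPolynomial ι ℤ)
    (hP : Sz P δ) : ‖ev u P‖ ≤ Real.exp (δ * (1 + Real.log U)) := by
  have hU0 : 0 < U := by linarith
  have hL : 0 ≤ Real.log U := Real.log_nonneg hU
  refine (norm_ev_le u U hU hu P).trans ?_
  have h1 : U ^ P.totalDegree ≤ Real.exp (δ * Real.log U) := by
    have h2 : U ^ P.totalDegree = Real.exp (P.totalDegree * Real.log U) := by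
      rw [Real.exp_nat_mul, Real.exp_log hU0]
    rw [h2]
    exact Real.exp_le_exp.2 (mul_le_mul_of_nonneg_right hP.1 hL)
  have h3 : Real.exp (δ * (1 + Real.log U)) = Real.exp δ * Real.exp (δ * Real.log U) := by
    rw [← Real.exp_add]
    ring_nf
  rw [h3]
  exact mul_le_mul hP.2 h1 (by positivity) (Real.exp_pos _).le

theorem phi_coef (u : ι → ℂ) (d D : ℕ) (δ U : ℝ) (hδ : 0 ≤ δ) (hU : 1 ≤ U) (hu : ∀ i, ‖u i‖ ≤ U)
    (Q : Fin d → Fin 2 → MvPolynomial ι ℤ) (hQ : ∀ i k, Sz (Q i k) δ) (l : Fin d → Fin D) :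
    ‖∏ i, (ev u (Q i 0) ^ (l i : ℕ) * ev u (Q i 1) ^ (D - 1 - (l i : ℕ)))‖ ≤
      Real.exp (d * D * (δ * (1 + Real.log U))) := by
  have h1 := ev_le u (d * D * δ) U hU hu _ (S1_mon d D δ Q hδ hQ l)
  rw [map_prod] at h1
  simp only [map_mul, map_pow] at h1
  rw [mul_assoc] at h1
  exact h1

theorem phi_ev (u : ι → ℂ) (d D : ℕ) (p : (Fin d → Fin D) → ℤ)
    (Q : Fin d → Fin 2 → MvPolynomial ι ℤ) : ev u (Pf d D (fun l => C (p l)) Q) =
      Pf d D (fun l => (p l : ℂ)) fun i k => ev u (Q i k) := by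
  rw [Pf_map]
  have h : (fun l => ev u (C (p l))) = fun l => ((p l : ℤ) : ℂ) := by
    funext l
    unfold ev
    rw [coe_eval₂Hom, eval₂_C]
    rfl
  rw [h]

theorem phi_nf (L : PeriodPair) (u : ι → ℂ) (d D : ℕ) (p : (Fin d → Fin D) → ℤ) (δ U : ℝ)
    (z : Fin d → ℂ) (Q : Fin d → Fin 2 → MvPolynomial ι ℤ) (hδ : 0 ≤ δ) (hU : 1 ≤ U)
    (hu : ∀ i, ‖u i‖ ≤ U) (hQ : ∀ i, RepX L u δ (z i) (Q i)) :
    Nf L d D p z ≤ ‖ev u (Pf d D (fun l => C (p l)) Q)‖ * Real.exp (d * D * δ) ∧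
      ‖ev u (Pf d D (fun l => C (p l)) Q)‖ ≤
        Nf L d D p z * Real.exp (d * D * (δ * (1 + Real.log U))) := by
  have hL : 0 ≤ Real.log U := Real.log_nonneg hU
  rw [phi_ev, Pf_eq_Nf L d D p z _ fun i => (hQ i).2.2]
  have hN := Nf_nonneg L d D p z
  have h1 : Real.exp (-(d * D * δ)) ≤ ∏ i, ‖(fun k => ev u (Q i k) : Fin 2 → ℂ)‖ ^ (D - 1) := by
    have h2 : ∏ i : Fin d, Real.exp (-(D * δ)) ≤
        ∏ i, ‖(fun k => ev u (Q i k) : Fin 2 → ℂ)‖ ^ (D - 1) := by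
      refine Finset.prod_le_prod (fun i _ => (Real.exp_pos _).le) fun i _ => ?_
      have h3 : Real.exp (-δ) ^ (D - 1) ≤ ‖(fun k => ev u (Q i k) : Fin 2 → ℂ)‖ ^ (D - 1) :=
        pow_le_pow_left₀ (Real.exp_pos _).le (hQ i).2.1 _
      refine le_trans ?_ h3
      rw [← Real.exp_nat_mul]
      refine Real.exp_le_exp.2 ?_
      have h4 : ((D - 1 : ℕ) : ℝ) ≤ D := by exact_mod_cast Nat.sub_le D 1
      have h5 : ((D - 1 : ℕ) : ℝ) * δ ≤ D * δ := mul_le_mul_of_nonneg_right h4 hδ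
      linarith
    rw [Finset.prod_const, Finset.card_univ, Fintype.card_fin, ← Real.exp_nat_mul] at h2
    refine le_trans (le_of_eq ?_) h2
    congr 1
    ring
  have h6 : ∏ i, ‖(fun k => ev u (Q i k) : Fin 2 → ℂ)‖ ^ (D - 1) ≤
      Real.exp (d * D * (δ * (1 + Real.log U))) := by
    have h7 : ∏ i, ‖(fun k => ev u (Q i k) : Fin 2 → ℂ)‖ ^ (D - 1) ≤
        ∏ i : Fin d, Real.exp (D * (δ * (1 + Real.log U))) := by
      refine Finset.prod_le_prod (fun i _ => by positivity) fun i _ => ?_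
      have h8 : ‖(fun k => ev u (Q i k) : Fin 2 → ℂ)‖ ≤ Real.exp (δ * (1 + Real.log U)) := by
        refine (pi_norm_le_iff_of_nonneg (Real.exp_pos _).le).2 fun k => ?_
        exact ev_le u δ U hU hu _ ((hQ i).1 k)
      refine (pow_le_pow_left₀ (norm_nonneg _) h8 _).trans ?_
      rw [← Real.exp_nat_mul]
      refine Real.exp_le_exp.2 ?_
      have h4 : ((D - 1 : ℕ) : ℝ) ≤ D := by exact_mod_cast Nat.sub_le D 1
      exact mul_le_mul_of_nonneg_right h4 (by positivity)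
    rw [Finset.prod_const, Finset.card_univ, Fintype.card_fin, ← Real.exp_nat_mul] at h7
    refine le_trans h7 (le_of_eq ?_)
    congr 1
    ring
  constructor
  · rw [mul_assoc]
    have h9 : 1 ≤ (∏ i, ‖(fun k => ev u (Q i k) : Fin 2 → ℂ)‖ ^ (D - 1)) *
        Real.exp (d * D * δ) := by
      have h10 := mul_le_mul_of_nonneg_right h1 (Real.exp_pos (d * D * δ)).le
      rw [← Real.exp_add, neg_add_cancel, Real.exp_zero] at h10
      exact h10
    exact le_mul_of_one_le_right hN h9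
  · exact mul_le_mul_of_nonneg_left h6 hN

theorem ev_close (u u' : ι → ℂ) (U E N : ℝ) (hU : 1 ≤ U) (hE : 0 ≤ E) (hu : ∀ i, ‖u i‖ ≤ U)
    (hu' : ∀ i, ‖u' i‖ ≤ U) (h : ∀ i, ‖u' i - u i‖ ≤ E) (P : MvPolynomial ι ℤ) (hP : Sz P N) :
    ‖ev u' P - ev u P‖ ≤ Real.exp (N * (2 + Real.log U)) * E := by
  have hU0 : 0 < U := by linarith
  have hL : 0 ≤ Real.log U := Real.log_nonneg hU
  have hN : 0 ≤ N := le_trans (Nat.cast_nonneg _) hP.1
  refine (norm_ev_sub_le u u' U E hU hE hu hu' h P).trans ?_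
  refine mul_le_mul_of_nonneg_right ?_ hE
  have h1 : U ^ P.totalDegree ≤ Real.exp (N * Real.log U) := by
    have h2 : U ^ P.totalDegree = Real.exp (P.totalDegree * Real.log U) := by
      rw [Real.exp_nat_mul, Real.exp_log hU0]
    rw [h2]
    exact Real.exp_le_exp.2 (mul_le_mul_of_nonneg_right hP.1 hL)
  have h3 : Real.exp (N * (2 + Real.log U)) = Real.exp N * Real.exp N *
      Real.exp (N * Real.log U) := by
    rw [← Real.exp_add, ← Real.exp_add]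
    ring_nf
  have h4 : (P.totalDegree : ℝ) ≤ Real.exp N := by
    have h5 := Real.add_one_le_exp N
    have h6 := hP.1
    linarith
  rw [h3]
  exact mul_le_mul (mul_le_mul hP.2 h4 (Nat.cast_nonneg _) (Real.exp_pos _).le) h1
    (by positivity) (by positivity)

end ELT
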