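import Pool.Agent.ELT.S1
import Pool.Agent.LTD.Dir

set_option autoImplicit false

open PeriodPair LTD MvPolynomial

namespace ELT

/-! ## [ELT-S2] step 1: Dirichlet (file S2.lean)

As `LTD/St1.lean`. `LTD.dirichlet` with `μ = (Fin m → Fin S)`, `Λ = (Fin d → Fin D)`, `c μ l = ∏_i ev u' (Q μ i 0)^{l_i} ev u' (Q μ i 1)^{D-1-l_i}`, `Q = e^{dDδ(1+log U)}` (`phi_coef`), `ε = e^{-g}`: some `p ≠ 0`, `|p_l| ≤ H`, `‖ev u' Φ_μ‖ < e^{-g}` for all `μ` in the box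
(`phi_ev`). `Φ_μ` has size `N` (`phi_sz`), so `Gap` gives `ev u' Φ_μ = 0`. -/

theorem st1 {ι : Type} (d D m S H : ℕ) (δ N g U : ℝ) (u' : ι → ℂ)
    (Q : (Fin m → ℕ) → Fin d → Fin 2 → MvPolynomial ι ℤ) (hU : 1 ≤ U) (hu' : ∀ k, ‖u' k‖ ≤ U)
    (hGap : Gap u' N g) (hδ : 0 ≤ δ)
    (hQ : ∀ μ : Fin m → ℕ, (∀ j, μ j < S) → ∀ i k, Sz (Q μ i k) δ)
    (hdeg : d * D * δ ≤ N) (hlen : (D : ℝ) ^ d * H * Real.exp (d * D * δ) ≤ Real.exp N)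
    (hDir : 2 * (S : ℝ) ^ m * Real.log (4 * (D : ℝ) ^ d * H *
        Real.exp (d * D * (δ * (1 + Real.log U))) / Real.exp (-g) + 2) <
      (D : ℝ) ^ d * Real.log (H + 1)) :
    ∃ p : (Fin d → Fin D) → ℤ, p ≠ 0 ∧ (∀ l, |((p l : ℤ) : ℝ)| ≤ H) ∧
      ∀ μ : Fin m → ℕ, (∀ j, μ j < S) → ev u' (Pf d D (fun l => C (p l)) (Q μ)) = 0 := by
  have hcard1 : (Fintype.card (Fin m → Fin S) : ℝ) = (S : ℝ) ^ m := by
    simp
  have hcard2 : (Fintype.card (Fin d → Fin D) : ℝ) = (D : ℝ) ^ d := by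
    simp
  obtain ⟨p, hp0, hpH, hpc⟩ := dirichlet
    (fun (μ : Fin m → Fin S) (l : Fin d → Fin D) =>
      ∏ i, (ev u' (Q (fun j => (μ j : ℕ)) i 0) ^ (l i : ℕ) *
        ev u' (Q (fun j => (μ j : ℕ)) i 1) ^ (D - 1 - (l i : ℕ))))
    (Real.exp (d * D * (δ * (1 + Real.log U)))) (Real.exp (-g)) H (Real.exp_pos _).le
    (Real.exp_pos _) (fun μ l => phi_coef u' d D δ U hδ hU hu' _
      (hQ (fun j => (μ j : ℕ)) fun j => (μ j).2) l) (by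
      rw [hcard1, hcard2]
      exact hDir)
  refine ⟨p, hp0, hpH, fun μ hμ => ?_⟩
  have h2 := hpc (fun j => ⟨μ j, hμ j⟩)
  simp only at h2
  have h3 := phi_ev u' d D p (Q μ)
  rcases hGap (Pf d D (fun l => C (p l)) (Q μ)) (phi_sz d D p H δ N (Q μ) hδ (Nat.cast_nonneg _)
    (hQ μ hμ) hpH hdeg hlen) with h | h
  · exact h
  · exfalso
    rw [h3] at h
    exact absurd h2 (not_lt.2 h)

end ELT
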