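import Pool.Agent.ELT.Def

set_option autoImplicit false

open PeriodPair LTD

namespace ELT

/-! ## [ELT-W1] elementary facts on `law`, `pc`, `xc` (file W1.lean)

All statements are direct computations. `law_smul`: `funext k; fin_cases k; simp [law]; ring` for each coordinate. `law2_smul`:
`law2 T (cP)(eQ) = law (c² law P T) (e² law Q (-T))`, use `law_smul` twice and `ngt`. `law_map`/`law2_map`: compatibility with a ring
homomorphism. `pc_onC`: `derivWeierstrassP_sq` (Mathlib): `℘'² = 4℘³ - g₂℘ - g₃`. `pc_ngt`: `-(0:1:0) = (0:-1:0)`, `℘(-z) = ℘(z)`, `℘'(-z) = -℘'(z)`.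
Periodicity: `weierstrassP_add_coe`, `derivWeierstrassP_add_coe` (or `WP63.wp_add_mem`). -/

theorem law_smul {R : Type} [CommRing R] (a b c e : R) (P Q : Fin 3 → R) :
    law a b (fun k => c * P k) (fun k => e * Q k) = fun k => c ^ 2 * e ^ 2 * law a b P Q k := by
  funext k
  fin_cases k <;> simp [law] <;> ring

theorem law2_smul {R : Type} [CommRing R] (a b c e : R) (T P Q : Fin 3 → R) :
    law2 a b T (fun k => c * P k) (fun k => e * Q k) =
      fun k => c ^ 4 * e ^ 4 * law2 a b T P Q k := by
  have h1 : law a b (fun k => c * P k) T = fun k => c ^ 2 * law a b P T k := by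
    have := law_smul a b c 1 P T
    simpa using this
  have h2 : law a b (fun k => e * Q k) (ngt T) = fun k => e ^ 2 * law a b Q (ngt T) k := by
    have := law_smul a b e 1 Q (ngt T)
    simpa using this
  unfold law2
  rw [h1, h2, law_smul]
  funext k
  ring

theorem law_map {R S : Type} [CommRing R] [CommRing S] (f : R →+* S) (a b : R) (P Q : Fin 3 → R)
    (k : Fin 3) : f (law a b P Q k) = law (f a) (f b) (fun j => f (P j)) (fun j => f (Q j)) k := by
  have h3 : f 3 = 3 := map_ofNat f 3
  fin_cases k <;> simp [law, h3]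

theorem law2_map {R S : Type} [CommRing R] [CommRing S] (f : R →+* S) (a b : R)
    (T P Q : Fin 3 → R) (k : Fin 3) : f (law2 a b T P Q k) =
      law2 (f a) (f b) (fun j => f (T j)) (fun j => f (P j)) (fun j => f (Q j)) k := by
  unfold law2
  rw [law_map]
  have h1 : (fun j => f (law a b P T j)) = law (f a) (f b) (fun j => f (P j)) (fun j => f (T j)) :=
    funext fun j => law_map f a b P T j
  have h3 : (fun j => f (ngt T j)) = ngt (fun j => f (T j)) := by
    funext j
    fin_cases j <;> simp [ngt]
  have h2 : (fun j => f (law a b Q (ngt T) j)) =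
      law (f a) (f b) (fun j => f (Q j)) (ngt fun j => f (T j)) := by
    rw [← h3]
    exact funext fun j => law_map f a b Q (ngt T) j
  rw [h1, h2]

variable (L : PeriodPair)

theorem pc_onC (z : ℂ) : OnC L (pc L z) := by
  unfold OnC pc
  by_cases hz : z ∈ L.lattice
  · rw [if_pos hz]
    simp
  · rw [if_neg hz]
    have h := L.derivWeierstrassP_sq z hz
    unfold a4 a6
    simp only [Matrix.cons_val_zero, Matrix.cons_val_one, Matrix.cons_val]
    linear_combination h / 4

theorem onC_smul {L : PeriodPair} {P : Fin 3 → ℂ} (h : OnC L P) (c : ℂ) :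
    OnC L (fun k => c * P k) := by
  unfold OnC at h ⊢
  linear_combination c ^ 3 * h

theorem one_le_pc (z : ℂ) : 1 ≤ ‖pc L z‖ := by
  by_cases hz : z ∈ L.lattice
  · have h := norm_le_pi_norm (pc L z) 1
    have h1 : pc L z 1 = 1 := by
      unfold pc
      rw [if_pos hz]
      rfl
    rwa [h1, norm_one] at h
  · have h := norm_le_pi_norm (pc L z) 2
    have h1 : pc L z 2 = 1 := by
      unfold pc
      rw [if_neg hz]
      rfl
    rwa [h1, norm_one] at h

theorem one_le_xc (z : ℂ) : 1 ≤ ‖xc L z‖ := by
  by_cases hz : z ∈ L.lattice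
  · have h := norm_le_pi_norm (xc L z) 0
    have h1 : xc L z 0 = 1 := by
      unfold xc
      rw [if_pos hz]
      rfl
    rwa [h1, norm_one] at h
  · have h := norm_le_pi_norm (xc L z) 1
    have h1 : xc L z 1 = 1 := by
      unfold xc
      rw [if_neg hz]
      rfl
    rwa [h1, norm_one] at h

theorem pc_add_mem (z l : ℂ) (hl : l ∈ L.lattice) : pc L (z + l) = pc L z := by
  have h1 := L.weierstrassP_add_coe z ⟨l, hl⟩
  have h2 := L.derivWeierstrassP_add_coe z ⟨l, hl⟩
  have h3 : z + l ∈ L.lattice ↔ z ∈ L.lattice := by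
    constructor
    · intro h
      have := L.lattice.sub_mem h hl
      rwa [add_sub_cancel_right] at this
    · intro h
      exact L.lattice.add_mem h hl
  unfold pc
  by_cases hz : z ∈ L.lattice
  · rw [if_pos hz, if_pos (h3.2 hz)]
  · rw [if_neg hz, if_neg (fun h => hz (h3.1 h))]
    simp only at h1 h2
    rw [h1, h2]

theorem xc_add_mem (z l : ℂ) (hl : l ∈ L.lattice) : xc L (z + l) = xc L z := by
  have h1 := L.weierstrassP_add_coe z ⟨l, hl⟩
  have h3 : z + l ∈ L.lattice ↔ z ∈ L.lattice := by
    constructor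
    · intro h
      have := L.lattice.sub_mem h hl
      rwa [add_sub_cancel_right] at this
    · intro h
      exact L.lattice.add_mem h hl
  unfold xc
  by_cases hz : z ∈ L.lattice
  · rw [if_pos hz, if_pos (h3.2 hz)]
  · rw [if_neg hz, if_neg (fun h => hz (h3.1 h))]
    simp only at h1
    rw [h1]

theorem pc_ngt (z : ℂ) : ∃ c : ℂ, c ≠ 0 ∧ ∀ k, ngt (pc L z) k = c * pc L (-z) k := by
  by_cases hz : z ∈ L.lattice
  · refine ⟨-1, by norm_num, fun k => ?_⟩
    have hz2 : -z ∈ L.lattice := L.lattice.neg_mem hz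
    unfold pc
    rw [if_pos hz, if_pos hz2]
    fin_cases k <;> simp [ngt]
  · refine ⟨1, by norm_num, fun k => ?_⟩
    have hz2 : -z ∉ L.lattice := fun h => hz (by
      have := L.lattice.neg_mem h
      rwa [neg_neg] at this)
    unfold pc
    rw [if_neg hz, if_neg hz2, L.weierstrassP_neg, L.derivWeierstrassP_neg]
    fin_cases k <;> simp [ngt, neg_div]

end ELT
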