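import Pool.Agent.ELT.W5
import Pool.Agent.ELT.W6

set_option autoImplicit false

open PeriodPair LTD MvPolynomial

namespace ELT

/-! ## [ELT-W7] addition of representations (file W7.lean) -/

private theorem w7_ev_X {ι : Type} (u : ι → ℂ) (i : ι) : ev u (X i) = u i := by
  unfold ev
  rw [coe_eval₂Hom, eval₂_X]

theorem rep_add (L : PeriodPair) (t : Fin 4 → ℂ)
    (ht : ∀ k l, k ≠ l → t k - t l ∉ L.lattice ∧ 2 * (t k - t l) ∉ L.lattice)
    {ι : Type} (u : ι → ℂ) (i4 i6 : ι) (iT : Fin 4 → Fin 3 → ι) (h4 : u i4 = a4 L)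
    (h6 : u i6 = a6 L) (hT : ∀ k j, u (iT k j) = pc L (t k) j) :
    ∃ C : ℝ, 1 ≤ C ∧ ∀ (δ δ' : ℝ) (z v : ℂ), 0 ≤ δ → 0 ≤ δ' → Rep L u δ z → Rep L u δ' v →
      Rep L u (4 * δ + 4 * δ' + C) (z + v) := by
  obtain ⟨c, hc, hcpt⟩ := cpt L t ht
  refine ⟨33 + |Real.log c|, by linarith [abs_nonneg (Real.log c)], ?_⟩
  rintro δ δ' z v hδ hδ' ⟨P, hPs, hPn, c1, hP⟩ ⟨Q, hQs, hQn, c2, hQ⟩
  have eP : (fun k => ev u (P k) : Fin 3 → ℂ) = fun k => c1 * pc L z k := funext hP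
  have eQ : (fun k => ev u (Q k) : Fin 3 → ℂ) = fun k => c2 * pc L v k := funext hQ
  have oP : OnC L (fun k => ev u (P k) : Fin 3 → ℂ) := by
    rw [eP]; exact onC_smul (pc_onC L z) c1
  have oQ : OnC L (fun k => ev u (Q k) : Fin 3 → ℂ) := by
    rw [eQ]; exact onC_smul (pc_onC L v) c2
  obtain ⟨k, hk⟩ := hcpt _ _ oP oQ
  have hval : ∀ j, ev u (law2 (X i4) (X i6) (fun j => X (iT k j)) P Q j) =
      law2 (a4 L) (a6 L) (pc L (t k)) (fun k => ev u (P k)) (fun k => ev u (Q k)) j := by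
    intro j
    rw [law2_map (ev u), w7_ev_X, w7_ev_X, h4, h6]
    have : (fun j => ev u (X (iT k j))) = pc L (t k) := by
      funext j
      rw [w7_ev_X, hT]
    rw [this]
  refine ⟨law2 (X i4) (X i6) (fun j => X (iT k j)) P Q, fun j => ?_, ?_, ?_⟩
  · have hX : ∀ j, Sz (X (iT k j) : MvPolynomial ι ℤ) 1 := by
      intro j
      refine ⟨?_, ?_⟩
      · rw [totalDegree_X]; norm_num
      · rw [len_X]
        exact Real.one_le_exp (by norm_num)
    have h := sz_law2 i4 i6 (fun j => X (iT k j)) P Q 1 δ δ' zero_le_one hδ hδ' hX hPs hQs j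
    exact sz_mono h (by linarith [abs_nonneg (Real.log c)])
  · have e : (fun j => ev u (law2 (X i4) (X i6) (fun j => X (iT k j)) P Q j) : Fin 3 → ℂ) =
        law2 (a4 L) (a6 L) (pc L (t k)) (fun k => ev u (P k)) (fun k => ev u (Q k)) := funext hval
    rw [e]
    refine le_trans ?_ hk
    have h1 : Real.exp (-δ) ^ 4 ≤ ‖(fun k => ev u (P k) : Fin 3 → ℂ)‖ ^ 4 :=
      pow_le_pow_left₀ (Real.exp_pos _).le hPn 4
    have h2 : Real.exp (-δ') ^ 4 ≤ ‖(fun k => ev u (Q k) : Fin 3 → ℂ)‖ ^ 4 :=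
      pow_le_pow_left₀ (Real.exp_pos _).le hQn 4
    have h3 : c * Real.exp (-δ) ^ 4 * Real.exp (-δ') ^ 4 ≤
        c * ‖(fun k => ev u (P k) : Fin 3 → ℂ)‖ ^ 4 * ‖(fun k => ev u (Q k) : Fin 3 → ℂ)‖ ^ 4 := by
      have p1 : 0 ≤ Real.exp (-δ') ^ 4 := by positivity
      have p2 : 0 ≤ c * ‖(fun k => ev u (P k) : Fin 3 → ℂ)‖ ^ 4 := by positivity
      exact mul_le_mul (mul_le_mul_of_nonneg_left h1 hc.le) h2 p1 p2
    refine le_trans ?_ h3
    have e2 : c * Real.exp (-δ) ^ 4 * Real.exp (-δ') ^ 4 =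
        Real.exp (Real.log c - 4 * δ - 4 * δ') := by
      rw [← Real.exp_nat_mul, ← Real.exp_nat_mul]
      have : c = Real.exp (Real.log c) := (Real.exp_log hc).symm
      conv_lhs => rw [this]
      rw [← Real.exp_add, ← Real.exp_add]
      congr 1
      push_cast
      ring
    rw [e2]
    refine Real.exp_le_exp.2 ?_
    have := neg_abs_le (Real.log c)
    linarith
  · obtain ⟨c3, hc3, _⟩ := law2_pc L (t k) z v
    refine ⟨c1 ^ 4 * c2 ^ 4 * c3, fun j => ?_⟩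
    rw [hval j, eP, eQ, law2_smul]
    change c1 ^ 4 * c2 ^ 4 * law2 (a4 L) (a6 L) (pc L (t k)) (pc L z) (pc L v) j = _
    rw [hc3 j]
    ring

end ELT
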