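import Mathlib

set_option autoImplicit false

namespace ELT

/-! ## [ELT-W8] double and add (file W8.lean)

Pure arithmetic of a relation `R δ z` (`z` has a representation of size `δ`), `Mathlib` only.
`mul1`: for one base point: `R C₁ b ⇒ R (C₂ (n+1)^5) (n b)` for all `n`, by strong induction.
`mulk`: induction over the finite set of base points. -/

private theorem w8_mul1 (R : ℝ → ℂ → Prop) (C C₁ : ℝ) (hC : 1 ≤ C) (hC₁ : 1 ≤ C₁)
    (hmono : ∀ δ δ' z, R δ z → δ ≤ δ' → R δ' z)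
    (hadd : ∀ δ δ' z v, 0 ≤ δ → 0 ≤ δ' → R δ z → R δ' v → R (4 * δ + 4 * δ' + C) (z + v))
    (z : ℂ) (hz : R C₁ z) : ∀ n : ℕ, 1 ≤ n →
      R ((6 * C + 5 * C₁) * (n : ℝ) ^ 5 - (5 * C + 4 * C₁)) ((n : ℂ) * z) := by
  intro n
  induction n using Nat.strong_induction_on with
  | _ n ih =>
    intro hn
    rcases Nat.even_or_odd' n with ⟨k, hk | hk⟩
    · have hk1 : 1 ≤ k := by omega
      have h1 := ih k (by omega) hk1
      have hkr : (1 : ℝ) ≤ (k : ℝ) := by exact_mod_cast hk1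
      have hk5 : (1 : ℝ) ≤ (k : ℝ) ^ 5 := one_le_pow₀ hkr
      have h0 : 0 ≤ (6 * C + 5 * C₁) * (k : ℝ) ^ 5 - (5 * C + 4 * C₁) := by nlinarith
      have h2 := hadd _ _ _ _ h0 h0 h1 h1
      have e : ((n : ℕ) : ℂ) * z = (k : ℂ) * z + (k : ℂ) * z := by
        rw [hk]; push_cast; ring
      rw [e]
      refine hmono _ _ _ h2 ?_
      have e2 : ((n : ℕ) : ℝ) ^ 5 = 32 * (k : ℝ) ^ 5 := by rw [hk]; push_cast; ring
      rw [e2]
      nlinarith
    · rcases Nat.eq_zero_or_pos k with rfl | hk1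
      · have hn1 : n = 1 := by omega
        subst hn1
        have e : ((1 : ℕ) : ℂ) * z = z := by push_cast; ring
        rw [e]
        refine hmono _ _ _ hz ?_
        push_cast
        linarith
      · have h1 := ih k (by omega) hk1
        have hkr : (1 : ℝ) ≤ (k : ℝ) := by exact_mod_cast hk1
        have hk5 : (1 : ℝ) ≤ (k : ℝ) ^ 5 := one_le_pow₀ hkr
        have h0 : 0 ≤ (6 * C + 5 * C₁) * (k : ℝ) ^ 5 - (5 * C + 4 * C₁) := by nlinarith
        have h2 := hadd _ _ _ _ h0 h0 h1 h1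
        have h3 := hadd _ _ _ _ (by linarith) (by linarith) h2 hz
        have e : ((n : ℕ) : ℂ) * z = ((k : ℂ) * z + (k : ℂ) * z) + z := by
          rw [hk]; push_cast; ring
        rw [e]
        refine hmono _ _ _ h3 ?_
        have e2 : 32 * (k : ℝ) ^ 5 ≤ ((n : ℕ) : ℝ) ^ 5 := by
          have e3 : 32 * (k : ℝ) ^ 5 = (2 * (k : ℝ)) ^ 5 := by ring
          rw [e3, hk]
          push_cast
          gcongr
          linarith
        nlinarith

theorem mulk {κ : Type} [Fintype κ] (R : ℝ → ℂ → Prop) (C C₁ : ℝ) (hC : 1 ≤ C) (hC₁ : 1 ≤ C₁)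
    (hmono : ∀ δ δ' z, R δ z → δ ≤ δ' → R δ' z)
    (hadd : ∀ δ δ' z v, 0 ≤ δ → 0 ≤ δ' → R δ z → R δ' v → R (4 * δ + 4 * δ' + C) (z + v))
    (h0 : R C₁ 0) (b : κ → ℂ) (hb : ∀ k, R C₁ (b k)) :
    ∃ C' : ℝ, 1 ≤ C' ∧ ∀ (S : ℕ) (ν : κ → ℕ), (∀ k, ν k ≤ S) →
      R (C' * ((S : ℝ) + 1) ^ 5) (∑ k, (ν k : ℂ) * b k) := by
  classical
  have h2 : ∀ (z : ℂ), R C₁ z → ∀ n : ℕ, R ((6 * C + 5 * C₁) * ((n : ℝ) + 1) ^ 5) ((n : ℂ) * z) := by
    intro z hz n
    rcases Nat.eq_zero_or_pos n with rfl | hn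
    · have e : ((0 : ℕ) : ℂ) * z = 0 := by push_cast; ring
      rw [e]
      refine hmono _ _ _ h0 ?_
      push_cast
      linarith
    · refine hmono _ _ _ (w8_mul1 R C C₁ hC hC₁ hmono hadd z hz n hn) ?_
      have h3 : (n : ℝ) ^ 5 ≤ ((n : ℝ) + 1) ^ 5 := by
        have : (0 : ℝ) ≤ n := Nat.cast_nonneg n
        gcongr
        linarith
      nlinarith
  have h3 : ∀ s : Finset κ, ∃ K : ℝ, 1 ≤ K ∧ ∀ (S : ℕ) (ν : κ → ℕ), (∀ k, ν k ≤ S) →
      R (K * ((S : ℝ) + 1) ^ 5) (∑ k ∈ s, (ν k : ℂ) * b k) := by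
    intro s
    induction s using Finset.induction_on with
    | empty =>
      refine ⟨C₁, hC₁, fun S ν _ => ?_⟩
      rw [Finset.sum_empty]
      refine hmono _ _ _ h0 ?_
      have : (1 : ℝ) ≤ ((S : ℝ) + 1) ^ 5 := one_le_pow₀ (by linarith [Nat.cast_nonneg (α := ℝ) S])
      nlinarith
    | insert a s ha ih =>
      obtain ⟨K, hK, ihK⟩ := ih
      refine ⟨4 * (6 * C + 5 * C₁) + 4 * K + C, by linarith, fun S ν hν => ?_⟩
      rw [Finset.sum_insert ha]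
      have hS : (0 : ℝ) ≤ S := Nat.cast_nonneg S
      have e1 := h2 (b a) (hb a) (ν a)
      have hle : ((ν a : ℕ) : ℝ) ≤ S := by exact_mod_cast hν a
      have e1' : R ((6 * C + 5 * C₁) * ((S : ℝ) + 1) ^ 5) ((ν a : ℂ) * b a) := by
        refine hmono _ _ _ e1 ?_
        have : (0 : ℝ) ≤ 6 * C + 5 * C₁ := by linarith
        gcongr
      have hp : (1 : ℝ) ≤ ((S : ℝ) + 1) ^ 5 := one_le_pow₀ (by linarith)
      have e2 := hadd _ _ _ _ (mul_nonneg (by linarith) (by linarith))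
        (mul_nonneg (by linarith) (by linarith)) e1' (ihK S ν hν)
      refine hmono _ _ _ e2 ?_
      nlinarith
  obtain ⟨K, hK, h4⟩ := h3 Finset.univ
  exact ⟨K, hK, h4⟩

end ELT
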