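import Pool.Agent.ELT.W1
import Pool.Agent.ELT.W6

set_option autoImplicit false

open PeriodPair LTD MvPolynomial

namespace ELT

/-! ## [ELT-W9] from the cubic to the line (file W9.lean)

`P` for `(δ, z)`, `ev u P = (X, Y, Z) = c pc z`, `max(|X|,|Y|,|Z|) ≥ e^{-δ}`. Put `κ = 1/(2 (1 + ‖a₄‖ + ‖a₆‖))` (`≤ 1/2`).
* If `max(|X|,|Z|) ≥ κ |Y|`: `Q = (P 0, P 2)`; `z ∉ L` (otherwise `X = Z = 0`, so `Y = 0`, contradiction with the norm), `(X,Z) = c (x, 1) = c xc z`, norm `≥ κ e^{-δ}`.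
* Otherwise `|Y|` is the norm, `Q = (P 1² - X i₆ P 2², P 0² + X i₄ P 2²)`: sizes `≤ 2δ + 2`. If `z ∈ L`: `(c², 0)`. If `z ∉ L`: `Y² - a₆Z² = c²(y² - a₆) = c² x (x² + a₄)`, `X² + a₄Z² = c²(x²+a₄)`, so
  `Q(u) = c² (x²+a₄) · xc z`. The first coordinate has absolute value `≥ |Y|² (1 - ‖a₆‖κ²) ≥ |Y|²/2 ≥ e^{-2δ}/2`.
So `C = 2 + |log κ|`-like constant works (`log 2 ≤ 1`). -/

private theorem w9_sz_sq_add {ι : Type} {P Q : MvPolynomial ι ℤ} (i : ι) (σ : ℤ)
    (hσ : σ = 1 ∨ σ = -1) {δ C : ℝ} (hC : 1 ≤ C)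
    (hP : Sz P δ) (hQ : Sz Q δ) : Sz (P ^ 2 + MvPolynomial.C σ * (X i * Q ^ 2)) (2 * δ + C) := by
  obtain ⟨hP1, hP2⟩ := hP
  obtain ⟨hQ1, hQ2⟩ := hQ
  have hlen : len (P ^ 2 + MvPolynomial.C σ * (X i * Q ^ 2)) ≤ Real.exp (2 * δ) + Real.exp (2 * δ) := by
    have e1 : Real.exp (2 * δ) = Real.exp δ ^ 2 := by
      rw [← Real.exp_nat_mul]; norm_num
    have h1 : len (P ^ 2) ≤ Real.exp (2 * δ) := by
      rw [e1]
      exact (len_pow P 2).trans (pow_le_pow_left₀ (len_nonneg P) hP2 2)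
    have h2 : len (Q ^ 2) ≤ Real.exp (2 * δ) := by
      rw [e1]
      exact (len_pow Q 2).trans (pow_le_pow_left₀ (len_nonneg Q) hQ2 2)
    have h3 : len (X i * Q ^ 2) ≤ Real.exp (2 * δ) := by
      have := len_mul (X i) (Q ^ 2)
      rw [len_X, one_mul] at this
      exact this.trans h2
    have h4 : len (MvPolynomial.C σ * (X i * Q ^ 2)) ≤ Real.exp (2 * δ) := by
      have h5 := len_mul (MvPolynomial.C σ) (X i * Q ^ 2)
      have h6 : |(σ : ℝ)| = 1 := by
        rcases hσ with rfl | rfl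
        · norm_num
        · norm_num
      rw [len_C, h6, one_mul] at h5
      exact h5.trans h3
    exact (len_add _ _).trans (add_le_add h1 h4)
  have hδ : (0 : ℝ) ≤ P.totalDegree := Nat.cast_nonneg _
  constructor
  · have d1 : (P ^ 2).totalDegree ≤ 2 * P.totalDegree := totalDegree_pow P 2
    have d2 : (Q ^ 2).totalDegree ≤ 2 * Q.totalDegree := totalDegree_pow Q 2
    have d3 : (MvPolynomial.C σ * (X i * Q ^ 2)).totalDegree ≤ 2 * Q.totalDegree + 1 := by
      have h1 := totalDegree_mul (MvPolynomial.C σ) (X i * Q ^ 2)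
      have h2 := totalDegree_mul (X i : MvPolynomial ι ℤ) (Q ^ 2)
      have h3 : (X i : MvPolynomial ι ℤ).totalDegree ≤ 1 := by
        rw [totalDegree_X]
      have h4 : (MvPolynomial.C σ : MvPolynomial ι ℤ).totalDegree = 0 := totalDegree_C σ
      omega
    have d4 := totalDegree_add (P ^ 2) (MvPolynomial.C σ * (X i * Q ^ 2))
    have d5 : (P ^ 2 + MvPolynomial.C σ * (X i * Q ^ 2)).totalDegree ≤
        max (2 * P.totalDegree) (2 * Q.totalDegree + 1) := by omega
    have d6 : ((P ^ 2 + MvPolynomial.C σ * (X i * Q ^ 2)).totalDegree : ℝ) ≤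
        max (2 * (P.totalDegree : ℝ)) (2 * (Q.totalDegree : ℝ) + 1) := by exact_mod_cast d5
    refine d6.trans (max_le ?_ ?_)
    · linarith
    · linarith
  · refine hlen.trans ?_
    rw [Real.exp_add]
    have h1 : (2 : ℝ) ≤ Real.exp C := by
      have := Real.add_one_le_exp C
      linarith
    nlinarith [Real.exp_pos (2 * δ)]

theorem rep_x (L : PeriodPair) {ι : Type} (u : ι → ℂ) (i4 i6 : ι) (h4 : u i4 = a4 L)
    (h6 : u i6 = a6 L) : ∃ C : ℝ, 1 ≤ C ∧ ∀ (δ : ℝ) (z : ℂ), 0 ≤ δ → Rep L u δ z →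
      ∃ Q : Fin 2 → MvPolynomial ι ℤ, RepX L u (2 * δ + C) z Q := by
  set A : ℝ := 1 + ‖a4 L‖ + ‖a6 L‖ with hA
  have hA1 : 1 ≤ A := by
    have := norm_nonneg (a4 L)
    have := norm_nonneg (a6 L)
    linarith
  have hlog : 0 ≤ Real.log (2 * A) := Real.log_nonneg (by linarith)
  refine ⟨1 + Real.log (2 * A), by linarith, fun δ z hδ hrep => ?_⟩
  obtain ⟨P, hP, hnorm, c, hc⟩ := hrep
  set C : ℝ := 1 + Real.log (2 * A) with hC
  have hC1 : 1 ≤ C := by linarith
  set κ : ℝ := 1 / (2 * A) with hκ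
  have hκ0 : 0 < κ := by positivity
  have hκA : κ * (2 * A) = 1 := by rw [hκ]; field_simp
  have hκ1 : κ ≤ 1 / 2 := by
    rw [hκ]
    apply one_div_le_one_div_of_le (by norm_num)
    linarith
  have hevX : ∀ i : ι, ev u (X i) = u i := by
    intro i
    unfold ev
    simp
  have hevC : ∀ σ : ℤ, ev u (MvPolynomial.C σ) = (σ : ℂ) := by
    intro σ
    unfold ev
    simp
  by_cases hcase : κ * ‖ev u (P 1)‖ ≤ max ‖ev u (P 0)‖ ‖ev u (P 2)‖
  · -- first case
    set m : ℝ := max ‖ev u (P 0)‖ ‖ev u (P 2)‖ with hm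
    have hm0 : 0 ≤ m := (norm_nonneg _).trans (le_max_left _ _)
    have hle : ‖(fun k => ev u (P k) : Fin 3 → ℂ)‖ ≤ m * (2 * A) := by
      have h2A : 1 ≤ 2 * A := by linarith
      have hmA : m ≤ m * (2 * A) := le_mul_of_one_le_right hm0 h2A
      rw [pi_norm_le_iff_of_nonneg (by positivity)]
      intro k
      fin_cases k
      · exact (le_max_left _ _).trans hmA
      · have h1 : ‖ev u (P 1)‖ = κ * ‖ev u (P 1)‖ * (2 * A) := by
          have : κ * ‖ev u (P 1)‖ * (2 * A) = (κ * (2 * A)) * ‖ev u (P 1)‖ := by ring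
          rw [this, hκA, one_mul]
        change ‖ev u (P 1)‖ ≤ _
        rw [h1]
        exact mul_le_mul_of_nonneg_right hcase (by positivity)
      · exact (le_max_right _ _).trans hmA
    have hmlow : Real.exp (-(2 * δ + C)) ≤ m := by
      have h1 : Real.exp (-δ) ≤ m * (2 * A) := hnorm.trans hle
      have h2 : Real.exp (-(2 * δ + C)) * (2 * A) ≤ Real.exp (-δ) := by
        have h3 : (2 * A) = Real.exp (Real.log (2 * A)) := (Real.exp_log (by positivity)).symm
        conv_lhs => rw [h3]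
        rw [← Real.exp_add]
        apply Real.exp_le_exp.2
        rw [hC]
        linarith
      have h4 : Real.exp (-(2 * δ + C)) * (2 * A) ≤ m * (2 * A) := h2.trans h1
      exact le_of_mul_le_mul_right h4 (by positivity)
    have hz : z ∉ L.lattice := by
      intro hz
      have e0 : ev u (P 0) = 0 := by
        rw [hc 0]; unfold pc; rw [if_pos hz]; simp
      have e2 : ev u (P 2) = 0 := by
        rw [hc 2]; unfold pc; rw [if_pos hz]; simp
      have : m = 0 := by rw [hm, e0, e2, norm_zero, max_self]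
      rw [this] at hmlow
      exact absurd hmlow (not_le.2 (Real.exp_pos _))
    refine ⟨![P 0, P 2], ?_, ?_, c, ?_⟩
    · intro k
      have : ∀ j : Fin 3, Sz (P j) (2 * δ + C) := by
        intro j
        obtain ⟨h1, h2⟩ := hP j
        exact ⟨h1.trans (by linarith), h2.trans (Real.exp_le_exp.2 (by linarith))⟩
      fin_cases k
      · exact this 0
      · exact this 2
    · refine hmlow.trans ?_
      rw [hm]
      refine max_le ?_ ?_
      · exact norm_le_pi_norm (fun k => ev u ((![P 0, P 2] : Fin 2 → MvPolynomial ι ℤ) k)) 0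
      · exact norm_le_pi_norm (fun k => ev u ((![P 0, P 2] : Fin 2 → MvPolynomial ι ℤ) k)) 1
    · intro k
      fin_cases k
      · change ev u (P 0) = c * xc L z 0
        rw [hc 0]; unfold pc xc; rw [if_neg hz, if_neg hz]; rfl
      · change ev u (P 2) = c * xc L z 1
        rw [hc 2]; unfold pc xc; rw [if_neg hz, if_neg hz]; rfl
  · -- second case
    have hcase' : max ‖ev u (P 0)‖ ‖ev u (P 2)‖ < κ * ‖ev u (P 1)‖ := not_le.1 hcase
    have h0 : ‖ev u (P 0)‖ < κ * ‖ev u (P 1)‖ := (le_max_left _ _).trans_lt hcase'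
    have h2 : ‖ev u (P 2)‖ < κ * ‖ev u (P 1)‖ := (le_max_right _ _).trans_lt hcase'
    have hY0 : 0 ≤ ‖ev u (P 1)‖ := norm_nonneg _
    have hκY : κ * ‖ev u (P 1)‖ ≤ ‖ev u (P 1)‖ := by nlinarith
    have hYlow : Real.exp (-δ) ≤ ‖ev u (P 1)‖ := by
      refine hnorm.trans ?_
      rw [pi_norm_le_iff_of_nonneg hY0]
      intro k
      fin_cases k
      · exact h0.le.trans hκY
      · exact le_rfl
      · exact h2.le.trans hκY
    refine ⟨![P 1 ^ 2 + MvPolynomial.C (-1) * (X i6 * P 2 ^ 2),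
      P 0 ^ 2 + MvPolynomial.C 1 * (X i4 * P 2 ^ 2)], ?_, ?_, ?_⟩
    · intro k
      fin_cases k
      · exact w9_sz_sq_add i6 (-1) (Or.inr rfl) hC1 (hP 1) (hP 2)
      · exact w9_sz_sq_add i4 1 (Or.inl rfl) hC1 (hP 0) (hP 2)
    · refine le_trans ?_ (norm_le_pi_norm (fun k => ev u ((![P 1 ^ 2 +
        MvPolynomial.C (-1) * (X i6 * P 2 ^ 2), P 0 ^ 2 + MvPolynomial.C 1 * (X i4 * P 2 ^ 2)] :
          Fin 2 → MvPolynomial ι ℤ) k)) 0)
      change Real.exp (-(2 * δ + C)) ≤ ‖ev u (P 1 ^ 2 + MvPolynomial.C (-1) * (X i6 * P 2 ^ 2))‖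
      rw [map_add, map_mul, map_mul, map_pow, map_pow, hevX, hevC, h6]
      have e1 : ev u (P 1) ^ 2 + ((-1 : ℤ) : ℂ) * (a6 L * ev u (P 2) ^ 2) =
          ev u (P 1) ^ 2 - a6 L * ev u (P 2) ^ 2 := by push_cast; ring
      rw [e1]
      have e2 : ‖ev u (P 1)‖ ^ 2 - ‖a6 L‖ * ‖ev u (P 2)‖ ^ 2 ≤
          ‖ev u (P 1) ^ 2 - a6 L * ev u (P 2) ^ 2‖ := by
        have := norm_sub_norm_le (ev u (P 1) ^ 2) (a6 L * ev u (P 2) ^ 2)
        rwa [norm_pow, norm_mul, norm_pow] at this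
      refine le_trans ?_ e2
      have e3 : ‖ev u (P 2)‖ ^ 2 ≤ κ ^ 2 * ‖ev u (P 1)‖ ^ 2 := by
        rw [← mul_pow]
        exact pow_le_pow_left₀ (norm_nonneg _) h2.le 2
      have e4 : ‖a6 L‖ * κ ^ 2 ≤ 1 / 4 := by
        have h7 : ‖a6 L‖ ≤ A := by
          have := norm_nonneg (a4 L)
          linarith
        have h8 : A * κ = 1 / 2 := by linarith
        calc ‖a6 L‖ * κ ^ 2 ≤ A * κ ^ 2 := mul_le_mul_of_nonneg_right h7 (by positivity)
          _ = (A * κ) * κ := by ring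
          _ = 1 / 2 * κ := by rw [h8]
          _ ≤ 1 / 4 := by linarith
      have e5 : ‖a6 L‖ * ‖ev u (P 2)‖ ^ 2 ≤ 1 / 4 * ‖ev u (P 1)‖ ^ 2 := by
        calc ‖a6 L‖ * ‖ev u (P 2)‖ ^ 2 ≤ ‖a6 L‖ * (κ ^ 2 * ‖ev u (P 1)‖ ^ 2) :=
              mul_le_mul_of_nonneg_left e3 (norm_nonneg _)
          _ = (‖a6 L‖ * κ ^ 2) * ‖ev u (P 1)‖ ^ 2 := by ring
          _ ≤ 1 / 4 * ‖ev u (P 1)‖ ^ 2 := mul_le_mul_of_nonneg_right e4 (by positivity)
      have e6 : Real.exp (-(2 * δ)) ≤ ‖ev u (P 1)‖ ^ 2 := by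
        have h9 : Real.exp (-(2 * δ)) = Real.exp (-δ) ^ 2 := by
          rw [← Real.exp_nat_mul]
          congr 1
          push_cast
          ring
        rw [h9]
        exact pow_le_pow_left₀ (Real.exp_pos _).le hYlow 2
      have e7 : Real.exp (-(2 * δ + C)) ≤ 1 / 2 * Real.exp (-(2 * δ)) := by
        have h10 : Real.exp (-(2 * δ + C)) = Real.exp (-C) * Real.exp (-(2 * δ)) := by
          rw [← Real.exp_add]
          congr 1
          ring
        rw [h10]
        apply mul_le_mul_of_nonneg_right _ (Real.exp_pos _).le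
        rw [Real.exp_neg, one_div]
        apply inv_anti₀ (by norm_num)
        have := Real.add_one_le_exp C
        linarith
      nlinarith
    · by_cases hz : z ∈ L.lattice
      · have e0 : ev u (P 0) = 0 := by
          rw [hc 0]; unfold pc; rw [if_pos hz]; simp
        have e1 : ev u (P 1) = c := by
          rw [hc 1]; unfold pc; rw [if_pos hz]; simp
        have e2 : ev u (P 2) = 0 := by
          rw [hc 2]; unfold pc; rw [if_pos hz]; simp
        refine ⟨c ^ 2, fun k => ?_⟩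
        unfold xc
        rw [if_pos hz]
        fin_cases k
        · change ev u (P 1 ^ 2 + MvPolynomial.C (-1) * (X i6 * P 2 ^ 2)) = c ^ 2 * 1
          rw [map_add, map_mul, map_mul, map_pow, map_pow, e1, e2]
          ring
        · change ev u (P 0 ^ 2 + MvPolynomial.C 1 * (X i4 * P 2 ^ 2)) = c ^ 2 * 0
          rw [map_add, map_mul, map_mul, map_pow, map_pow, e0, e2]
          ring
      · have e0 : ev u (P 0) = c * ℘[L] z := by
          rw [hc 0]; unfold pc; rw [if_neg hz]; rfl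
        have e1 : ev u (P 1) = c * (℘'[L] z / 2) := by
          rw [hc 1]; unfold pc; rw [if_neg hz]; rfl
        have e2 : ev u (P 2) = c := by
          rw [hc 2]; unfold pc; rw [if_neg hz]; simp
        have hon : (℘'[L] z / 2) ^ 2 = ℘[L] z ^ 3 + a4 L * ℘[L] z + a6 L := by
          have h := pc_onC L z
          unfold OnC pc at h
          rw [if_neg hz] at h
          change (℘'[L] z / 2) ^ 2 * 1 = ℘[L] z ^ 3 + a4 L * ℘[L] z * 1 ^ 2 + a6 L * 1 ^ 3 at h
          linear_combination h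
        refine ⟨c ^ 2 * (℘[L] z ^ 2 + a4 L), fun k => ?_⟩
        unfold xc
        rw [if_neg hz]
        fin_cases k
        · change ev u (P 1 ^ 2 + MvPolynomial.C (-1) * (X i6 * P 2 ^ 2)) =
            c ^ 2 * (℘[L] z ^ 2 + a4 L) * ℘[L] z
          rw [map_add, map_mul, map_mul, map_pow, map_pow, hevX, hevC, h6, e1, e2]
          push_cast
          linear_combination c ^ 2 * hon
        · change ev u (P 0 ^ 2 + MvPolynomial.C 1 * (X i4 * P 2 ^ 2)) =
            c ^ 2 * (℘[L] z ^ 2 + a4 L) * 1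
          rw [map_add, map_mul, map_mul, map_pow, map_pow, hevX, hevC, h4, e0, e2]
          push_cast
          ring

end ELT
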