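import Pool.Agent.ELT.W4
import Pool.Agent.ELT.W7
import Pool.Agent.ELT.W8
import Pool.Agent.ELT.W9

set_option autoImplicit false

open PeriodPair LTD MvPolynomial

namespace ELT

/-! ## [ELT-W10] representation of all multiples (file W10.lean)

`ι = Fin 2 ⊕ (Fin 4 ⊕ κ) × Fin 3`, `u (inl 0) = a₄`, `u (inl 1) = a₆`, `u (inr (inl k, j)) = pc (t k) j`, `u (inr (inr k, j)) = pc (b k) j`, `t` from `aux_pts`. All `u i ∈ F`:
`a₄ = -g₂/4`, `a₆`; if `℘(b) ∈ F` then `(℘'(b))² = 4℘³ - g₂℘ - g₃ ∈ F`, so `℘'(b)` is algebraic over `F`, hence in `F` by `Clo F`; `℘(t k) ∈ ℤ`. `rep_add` (with `L, t, u`), and `Rep L u C₁ (b k)` by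
the variables (size `1`; norm `≥ 1` by `one_le_pc`), `Rep L u C₁ 0` by the constants `(0,1,0)`; `Rep` is monotone in `δ` (`sz_mono`). `mulk` with `R = Rep L u`, then `rep_x`: size
`2 C' (S+1)^5 + C'' ≤ (2C' + C'')(S+1)^5`. -/

theorem w10_sq {F : IntermediateField ℚ ℂ} (hF : Clo F) {z : ℂ} (h : z ^ 2 ∈ F) : z ∈ F := by
  apply hF
  have h1 : IsAlgebraic F (z ^ 2) := isAlgebraic_algebraMap (⟨z ^ 2, h⟩ : F)
  exact IsAlgebraic.of_pow two_pos h1

theorem w10_pc (L : PeriodPair) {F : IntermediateField ℚ ℂ} (hF : Clo F) (h2 : L.g₂ ∈ F)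
    (h3 : L.g₃ ∈ F) (z : ℂ) (hz : InW L F z) (j : Fin 3) : pc L z j ∈ F := by
  unfold pc
  by_cases hl : z ∈ L.lattice
  · rw [if_pos hl]
    fin_cases j
    · exact F.zero_mem
    · exact F.one_mem
    · exact F.zero_mem
  · rw [if_neg hl]
    have hp : ℘[L] z ∈ F := hz.resolve_left hl
    have h4 : (4 : ℂ) ∈ F := by
      have := F.natCast_mem 4
      exact_mod_cast this
    have h22 : (2 : ℂ) ∈ F := by
      have := F.natCast_mem 2
      exact_mod_cast this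
    have hd : ℘'[L] z ∈ F := by
      apply w10_sq hF
      rw [L.derivWeierstrassP_sq z hl]
      exact F.sub_mem (F.sub_mem (F.mul_mem h4 (F.pow_mem hp 3)) (F.mul_mem h2 hp)) h3
    fin_cases j
    · exact hp
    · exact F.div_mem hd h22
    · exact F.one_mem

theorem w10_rep_mono {ι : Type} (L : PeriodPair) (u : ι → ℂ) {δ δ' : ℝ} {z : ℂ}
    (h : Rep L u δ z) (hδ : δ ≤ δ') : Rep L u δ' z := by
  obtain ⟨P, h1, h2, h3⟩ := h
  exact ⟨P, fun k => sz_mono (h1 k) hδ, le_trans (Real.exp_le_exp.2 (neg_le_neg hδ)) h2, h3⟩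

theorem w10_repX_mono {ι : Type} (L : PeriodPair) (u : ι → ℂ) {δ δ' : ℝ} {z : ℂ}
    {Q : Fin 2 → MvPolynomial ι ℤ} (h : RepX L u δ z Q) (hδ : δ ≤ δ') : RepX L u δ' z Q := by
  obtain ⟨h1, h2, h3⟩ := h
  exact ⟨fun k => sz_mono (h1 k) hδ, le_trans (Real.exp_le_exp.2 (neg_le_neg hδ)) h2, h3⟩

theorem w10_exp : Real.exp (-1) ≤ 1 := by
  rw [← Real.exp_zero]
  exact Real.exp_le_exp.2 (by norm_num)

theorem w10_rep_var {ι : Type} (L : PeriodPair) (u : ι → ℂ) (z : ℂ) (f : Fin 3 → ι)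
    (hf : ∀ j, u (f j) = pc L z j) : Rep L u 1 z := by
  have hev : ∀ k, ev u (X (f k)) = pc L z k := by
    intro k
    unfold ev
    rw [coe_eval₂Hom, eval₂_X]
    exact hf k
  refine ⟨fun j => X (f j), fun k => ⟨?_, ?_⟩, ?_, 1, fun k => ?_⟩
  · rw [totalDegree_X, Nat.cast_one]
  · rw [len_X]
    exact Real.one_le_exp (by norm_num)
  · have e : (fun k => ev u (X (f k)) : Fin 3 → ℂ) = pc L z := funext hev
    rw [e]
    exact le_trans w10_exp (one_le_pc L z)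
  · rw [hev k, one_mul]

theorem w10_rep_zero {ι : Type} (L : PeriodPair) (u : ι → ℂ) : Rep L u 1 0 := by
  have hz : (0 : ℂ) ∈ L.lattice := L.lattice.zero_mem
  have hev : ∀ k, ev u ((![0, 1, 0] : Fin 3 → MvPolynomial ι ℤ) k) = pc L 0 k := by
    intro k
    unfold pc
    rw [if_pos hz]
    fin_cases k
    · exact map_zero _
    · exact map_one _
    · exact map_zero _
  have hs0 : Sz (0 : MvPolynomial ι ℤ) 1 := by
    refine ⟨?_, ?_⟩
    · rw [totalDegree_zero, Nat.cast_zero]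
      exact zero_le_one
    · rw [len_zero]
      exact (Real.exp_pos _).le
  have hs1 : Sz (1 : MvPolynomial ι ℤ) 1 := by
    refine ⟨?_, ?_⟩
    · rw [totalDegree_one, Nat.cast_zero]
      exact zero_le_one
    · rw [len_one]
      exact Real.one_le_exp (by norm_num)
  refine ⟨![0, 1, 0], fun k => ?_, ?_, 1, fun k => ?_⟩
  · fin_cases k
    · exact hs0
    · exact hs1
    · exact hs0
  · have e : (fun k => ev u ((![0, 1, 0] : Fin 3 → MvPolynomial ι ℤ) k) : Fin 3 → ℂ) = pc L 0 :=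
      funext hev
    rw [e]
    exact le_trans w10_exp (one_le_pc L 0)
  · rw [hev k, one_mul]

theorem rep_final (L : PeriodPair) (F : IntermediateField ℚ ℂ) (hF : Clo F) (h2 : L.g₂ ∈ F)
    (h3 : L.g₃ ∈ F) (κ : Type) [Fintype κ] (b : κ → ℂ) (hb : ∀ k, InW L F (b k)) :
    ∃ (ι : Type) (_ : Fintype ι) (u : ι → ℂ) (C : ℝ), (∀ i, u i ∈ F) ∧ 1 ≤ C ∧
      ∀ (S : ℕ) (ν : κ → ℕ), (∀ k, ν k ≤ S) → ∃ Q : Fin 2 → MvPolynomial ι ℤ,
        RepX L u (C * ((S : ℝ) + 1) ^ 5) (∑ k, (ν k : ℂ) * b k) Q := by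
  obtain ⟨t, _, htn, htd⟩ := aux_pts L
  let u : Fin 2 ⊕ ((Fin 4 ⊕ κ) × Fin 3) → ℂ :=
    Sum.elim ![a4 L, a6 L] (fun x => pc L (Sum.elim t b x.1) x.2)
  have h4F : (4 : ℂ) ∈ F := by
    have := F.natCast_mem 4
    exact_mod_cast this
  have hu : ∀ i, u i ∈ F := by
    intro i
    rcases i with i | ⟨x, j⟩
    · fin_cases i
      · exact F.div_mem (F.neg_mem h2) h4F
      · exact F.div_mem (F.neg_mem h3) h4F
    · show pc L (Sum.elim t b x) j ∈ F
      apply w10_pc L hF h2 h3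
      rcases x with k | k
      · obtain ⟨n, hn⟩ := htn k
        right
        show ℘[L] (t k) ∈ F
        rw [hn]
        exact F.intCast_mem n
      · exact hb k
  obtain ⟨C, hC, hadd⟩ := rep_add L t htd u (Sum.inl 0) (Sum.inl 1)
    (fun k j => Sum.inr (Sum.inl k, j)) rfl rfl (fun _ _ => rfl)
  obtain ⟨C', hC', hmul⟩ := mulk (Rep L u) C 1 hC le_rfl
    (fun δ δ' z h hδ => w10_rep_mono L u h hδ) (fun δ δ' z v => hadd δ δ' z v)
    (w10_rep_zero L u) b (fun k => w10_rep_var L u (b k) (fun j => Sum.inr (Sum.inr k, j))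
      (fun _ => rfl))
  obtain ⟨C2, hC2, hx⟩ := rep_x L u (Sum.inl 0) (Sum.inl 1) rfl rfl
  refine ⟨_, inferInstance, u, 2 * C' + C2, hu, by linarith, fun S ν hν => ?_⟩
  have hS : (1 : ℝ) ≤ ((S : ℝ) + 1) ^ 5 := by
    apply one_le_pow₀
    have : (0 : ℝ) ≤ (S : ℝ) := Nat.cast_nonneg S
    linarith
  obtain ⟨Q, hQ⟩ := hx (C' * ((S : ℝ) + 1) ^ 5) (∑ k, (ν k : ℂ) * b k)
    (by positivity) (hmul S ν hν)
  refine ⟨Q, w10_repX_mono L u hQ ?_⟩
  nlinarith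

end ELT
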