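import Pool.Agent.ELT.W1
import Pool.Agent.TRS.A11a

set_option autoImplicit false

open PeriodPair LTD

namespace ELT

/-! ## [ELT-W2] the addition law (file W2.lean)

`law(pc z, pc v) = c pc(z + v)`. Cases (`x = ℘`, `y = ℘'/2`, `y² = x³ + a₄ x + a₆`):
* `z, v ∈ L`: both are `(0,1,0)`, `law = 0`, `c = 0` (and `z - v ∈ L`).
* `z ∈ L, v ∉ L`: `law((0,1,0),(x,y,1)) = (-x,-y,-1)`, `pc(z+v) = pc v`, `c = -1`.
* `v ∈ L, z ∉ L`: `law((x,y,1),(0,1,0)) = (x,y,1)`, `c = 1`.
* `z, v, z + v ∉ L` and `℘(z) ≠ ℘(v)`: `c = -(x₁-x₂)³`; by the curve equations the third coordinate is `-(x₁-x₂)³`, and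
  `℘(z+v) = ((y₁-y₂)/(x₁-x₂))² - x₁ - x₂`, `y(z+v) = -(y₁ + λ (x₃ - x₁))`, `λ = (y₁-y₂)/(x₁-x₂)`: this is `TRS.wp_add`, `TRS.dwp_add`
  (file TRS/A11a.lean) with `(z, v) := (-z, z + v)` (so that `z + v` there is `v` here; `℘(-z) = ℘(z)`, `℘'(-z) = -℘'(z)`). After clearing
  denominators the identities are `linear_combination` of the two curve equations.
* `z + v ∈ L` (`z, v ∉ L`): `x₁ = x₂`, `y₂ = -y₁` (`WP63.wp_add_mem`, `weierstrassP_neg`), `law = (0, 8y³, 0)`: `c = 8y³`; if `z - v ∉ L` then `2z ∉ L`, so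
  `℘'(z) ≠ 0` (`WP63.dwp_eq_zero_iff`).
* `z - v ∈ L`, `z, v, z+v ∉ L`: `pc z = pc v`, `law(P,P) = 0` (all terms vanish), `c = 0`. (`℘(z) = ℘(v)` iff `z ∓ v ∈ L`: `WP63.wp_eq_iff`.)
The formulas were checked numerically with rational points. -/

theorem w2_law0 (a b : ℂ) (P Q : Fin 3 → ℂ) : law a b P Q 0 =
    (P 0 * Q 1 - Q 0 * P 1) * (P 1 * Q 2 + Q 1 * P 2) + (P 0 * Q 2 - Q 0 * P 2) * P 1 * Q 1 -
      a * (P 0 * Q 2 + Q 0 * P 2) * (P 0 * Q 2 - Q 0 * P 2) -
      3 * b * (P 0 * Q 2 - Q 0 * P 2) * P 2 * Q 2 := rfl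

theorem w2_law1 (a b : ℂ) (P Q : Fin 3 → ℂ) : law a b P Q 1 =
    -3 * P 0 * Q 0 * (P 0 * Q 1 - Q 0 * P 1) - P 1 * Q 1 * (P 1 * Q 2 - Q 1 * P 2) -
      a * (P 0 * Q 1 - Q 0 * P 1) * P 2 * Q 2 + a * (P 0 * Q 2 + Q 0 * P 2) *
      (P 1 * Q 2 - Q 1 * P 2) + 3 * b * (P 1 * Q 2 - Q 1 * P 2) * P 2 * Q 2 := rfl

theorem w2_law2 (a b : ℂ) (P Q : Fin 3 → ℂ) : law a b P Q 2 =
    3 * P 0 * Q 0 * (P 0 * Q 2 - Q 0 * P 2) - (P 1 * Q 2 + Q 1 * P 2) * (P 1 * Q 2 - Q 1 * P 2) +
      a * (P 0 * Q 2 - Q 0 * P 2) * P 2 * Q 2 := rfl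

theorem w2_mem {L : PeriodPair} {z : ℂ} (hz : z ∈ L.lattice) :
    pc L z 0 = 0 ∧ pc L z 1 = 1 ∧ pc L z 2 = 0 := by
  unfold pc
  rw [if_pos hz]
  exact ⟨rfl, rfl, rfl⟩

theorem w2_notMem {L : PeriodPair} {z : ℂ} (hz : z ∉ L.lattice) :
    pc L z 0 = ℘[L] z ∧ pc L z 1 = ℘'[L] z / 2 ∧ pc L z 2 = 1 := by
  unfold pc
  rw [if_neg hz]
  exact ⟨rfl, rfl, rfl⟩

theorem w2_curve {L : PeriodPair} {z : ℂ} (hz : z ∉ L.lattice) :
    (℘'[L] z / 2) ^ 2 = ℘[L] z ^ 3 + a4 L * ℘[L] z + a6 L := by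
  have h := L.derivWeierstrassP_sq z hz
  unfold a4 a6
  linear_combination h / 4

theorem w2_forall {p : Fin 3 → Prop} (h0 : p 0) (h1 : p 1) (h2 : p 2) : ∀ k, p k := by
  intro k
  fin_cases k
  · exact h0
  · exact h1
  · exact h2

theorem law_pc (L : PeriodPair) (z v : ℂ) :
    ∃ c : ℂ, (∀ k, law (a4 L) (a6 L) (pc L z) (pc L v) k = c * pc L (z + v) k) ∧
      (z - v ∉ L.lattice → c ≠ 0) := by
  by_cases hz : z ∈ L.lattice
  · by_cases hv : v ∈ L.lattice
    · obtain ⟨p0, p1, p2⟩ := w2_mem hz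
      obtain ⟨q0, q1, q2⟩ := w2_mem hv
      refine ⟨0, w2_forall ?_ ?_ ?_, fun h => absurd (L.lattice.sub_mem hz hv) h⟩
      · rw [w2_law0, p0, p1, p2, q0, q1, q2]; ring
      · rw [w2_law1, p0, p1, p2, q0, q1, q2]; ring
      · rw [w2_law2, p0, p1, p2, q0, q1, q2]; ring
    · obtain ⟨p0, p1, p2⟩ := w2_mem hz
      obtain ⟨q0, q1, q2⟩ := w2_notMem hv
      have hzv : pc L (z + v) = pc L v := by
        rw [add_comm]
        exact pc_add_mem L v z hz
      refine ⟨-1, w2_forall ?_ ?_ ?_, fun _ => neg_ne_zero.2 one_ne_zero⟩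
      · rw [hzv, w2_law0, p0, p1, p2, q0, q1, q2]; ring
      · rw [hzv, w2_law1, p0, p1, p2, q0, q1, q2]; ring
      · rw [hzv, w2_law2, p0, p1, p2, q0, q1, q2]; ring
  · obtain ⟨p0, p1, p2⟩ := w2_notMem hz
    by_cases hv : v ∈ L.lattice
    · obtain ⟨q0, q1, q2⟩ := w2_mem hv
      have hzv : pc L (z + v) = pc L z := pc_add_mem L z v hv
      refine ⟨1, w2_forall ?_ ?_ ?_, fun _ => one_ne_zero⟩
      · rw [hzv, w2_law0, p0, p1, p2, q0, q1, q2]; ring
      · rw [hzv, w2_law1, p0, p1, p2, q0, q1, q2]; ring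
      · rw [hzv, w2_law2, p0, p1, p2, q0, q1, q2]; ring
    · obtain ⟨q0, q1, q2⟩ := w2_notMem hv
      have h1 := w2_curve hz
      have h2 := w2_curve hv
      by_cases hzv : z + v ∈ L.lattice
      · obtain ⟨r0, r1, r2⟩ := w2_mem hzv
        have hx : ℘[L] v = ℘[L] z := by
          have := WP63.wp_add_mem L (-z) (z + v) hzv
          rw [neg_add_cancel_left, L.weierstrassP_neg] at this
          exact this
        have hy : ℘'[L] v = -℘'[L] z := by
          have := WP63.dwp_add_mem L (-z) (z + v) hzv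
          rw [neg_add_cancel_left, L.derivWeierstrassP_neg] at this
          exact this
        rw [hx] at q0
        rw [hy] at q1
        refine ⟨8 * (℘'[L] z / 2) ^ 3, w2_forall ?_ ?_ ?_, ?_⟩
        · rw [w2_law0, p0, p1, p2, q0, q1, q2, r0]; ring
        · rw [w2_law1, p0, p1, p2, q0, q1, q2, r1]
          linear_combination (-6) * (℘'[L] z / 2) * h1
        · rw [w2_law2, p0, p1, p2, q0, q1, q2, r2]; ring
        · intro hm h0
          have h3 : ℘'[L] z = 0 := by
            rcases mul_eq_zero.1 h0 with h | h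
            · norm_num at h
            · have h4 := pow_eq_zero_iff (n := 3) (by norm_num) |>.1 h
              rcases div_eq_zero_iff.1 h4 with h5 | h5
              · exact h5
              · norm_num at h5
          have h4 := (WP63.dwp_eq_zero_iff L hz).1 h3
          apply hm
          have h5 := L.lattice.sub_mem h4 hzv
          have h6 : 2 * z - (z + v) = z - v := by ring
          rwa [h6] at h5
      · obtain ⟨r0, r1, r2⟩ := w2_notMem hzv
        by_cases hm : z - v ∈ L.lattice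
        · have hx : ℘[L] z = ℘[L] v := by
            have := WP63.wp_add_mem L v (z - v) hm
            rw [add_sub_cancel] at this
            exact this
          have hy : ℘'[L] z = ℘'[L] v := by
            have := WP63.dwp_add_mem L v (z - v) hm
            rw [add_sub_cancel] at this
            exact this
          rw [hx] at p0
          rw [hy] at p1
          refine ⟨0, w2_forall ?_ ?_ ?_, fun h => absurd hm h⟩
          · rw [w2_law0, p0, p1, p2, q0, q1, q2]; ring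
          · rw [w2_law1, p0, p1, p2, q0, q1, q2]; ring
          · rw [w2_law2, p0, p1, p2, q0, q1, q2]; ring
        · have hne : ℘[L] v ≠ ℘[L] z := by
            intro h
            rcases (WP63.wp_eq_iff L hv hz).1 h with h' | h'
            · apply hm
              have := L.lattice.neg_mem h'
              rwa [neg_sub] at this
            · apply hzv
              rwa [add_comm] at h'
          have hD : ℘[L] v - ℘[L] z ≠ 0 := sub_ne_zero.2 hne
          have e : -z + (z + v) = v := by ring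
          have h3 := TRS.wp_add (P := L) (z := -z) (v := z + v) (WP63.neg_notMem L hz) hzv
            (by rw [e]; exact hv) (by rw [e, L.weierstrassP_neg]; exact hne)
          have h4 := TRS.dwp_add (P := L) (z := -z) (v := z + v) (WP63.neg_notMem L hz) hzv
            (by rw [e]; exact hv) (by rw [e, L.weierstrassP_neg]; exact hne)
          rw [e, L.weierstrassP_neg, L.derivWeierstrassP_neg] at h3 h4
          have hx3 : (℘[L] v - ℘[L] z) ^ 2 * ℘[L] (z + v) =
              (℘'[L] v / 2 - ℘'[L] z / 2) ^ 2 -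
                (℘[L] v + ℘[L] z) * (℘[L] v - ℘[L] z) ^ 2 := by
            rw [← h3]
            field_simp
            ring
          have hy3 : (℘[L] v - ℘[L] z) * (℘'[L] (z + v) / 2) =
              -((℘[L] v - ℘[L] z) * (℘'[L] v / 2) +
                (℘'[L] v / 2 - ℘'[L] z / 2) * (℘[L] (z + v) - ℘[L] v)) := by
            rw [← h4]
            field_simp
            ring
          refine ⟨(℘[L] v - ℘[L] z) ^ 3, w2_forall ?_ ?_ ?_, fun _ => pow_ne_zero 3 hD⟩
          · rw [w2_law0, p0, p1, p2, q0, q1, q2, r0]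
            linear_combination (2 * ℘[L] z - ℘[L] v) * h2 + (℘[L] z - 2 * ℘[L] v) * h1 -
              (℘[L] v - ℘[L] z) * hx3
          · rw [w2_law1, p0, p1, p2, q0, q1, q2, r1]
            linear_combination (℘'[L] v / 2 - 2 * (℘'[L] z / 2)) * h2 +
              (2 * (℘'[L] v / 2) - ℘'[L] z / 2) * h1 -
              (℘[L] v - ℘[L] z) ^ 2 * hy3 + (℘'[L] v / 2 - ℘'[L] z / 2) * hx3
          · rw [w2_law2, p0, p1, p2, q0, q1, q2, r2]
            linear_combination h2 - h1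

end ELT
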