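import Pool.Agent.ELT.A2

set_option autoImplicit false

open PeriodPair

namespace ELT

/-! ## [ELT-W4] auxiliary points (file W4.lean)

`r` from `lat_min`, `ρ = r / 8`, `M` from `wp_far L ρ`. Let `n k = ⌈M⌉ + 1 + k` (`k : Fin 4`). By `WP63.wp_surj` there is `z k ∉ L` with
`℘(z k) = n k`; since `|n k| > M` there is `l ∈ L` with `‖z k - l‖ < ρ`; `t k = z k - l`. The `t k` are distinct (different values of `℘`), so
`t k - t l` and `2 (t k - t l)` are nonzero of norm `< 4ρ < r`, hence not in `L`. -/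

theorem aux_pts (L : PeriodPair) : ∃ t : Fin 4 → ℂ, (∀ k, t k ∉ L.lattice) ∧
    (∀ k, ∃ n : ℤ, ℘[L] (t k) = n) ∧
    ∀ k l, k ≠ l → t k - t l ∉ L.lattice ∧ 2 * (t k - t l) ∉ L.lattice := by
  obtain ⟨r, hr, hmin⟩ := lat_min L
  obtain ⟨M, hM1, hM⟩ := wp_far L (r / 8) (by positivity)
  obtain ⟨n, hn⟩ : ∃ n : Fin 4 → ℤ, ∀ k, n k = ⌈M⌉ + 1 + ((k : ℕ) : ℤ) := ⟨_, fun _ => rfl⟩
  have hnM : ∀ k, M < ‖((n k : ℤ) : ℂ)‖ := by
    intro k
    have h1 : M ≤ (⌈M⌉ : ℝ) := Int.le_ceil M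
    have h2 : ((⌈M⌉ : ℤ) : ℝ) + 1 ≤ ((n k : ℤ) : ℝ) := by
      rw [hn k]
      push_cast
      have : (0 : ℝ) ≤ ((k : ℕ) : ℝ) := Nat.cast_nonneg _
      linarith
    have h3 : ‖((n k : ℤ) : ℂ)‖ = |((n k : ℤ) : ℝ)| := Complex.norm_intCast _
    rw [h3, abs_of_nonneg (by linarith)]
    linarith
  have hz : ∀ k : Fin 4, ∃ t : ℂ, t ∉ L.lattice ∧ ℘[L] t = ((n k : ℤ) : ℂ) ∧ ‖t‖ < r / 8 := by
    intro k
    obtain ⟨z, hz, hzn⟩ := WP63.wp_surj L ((n k : ℤ) : ℂ)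
    have hex : ∃ l ∈ L.lattice, ‖z - l‖ < r / 8 := by
      by_contra hcon
      push Not at hcon
      have h1 := hM z hcon
      rw [hzn] at h1
      exact absurd h1 (not_le.2 (hnM k))
    obtain ⟨l, hl, hlt⟩ := hex
    refine ⟨z - l, ?_, ?_, hlt⟩
    · intro hmem
      apply hz
      have := L.lattice.add_mem hmem hl
      rwa [sub_add_cancel] at this
    · have := WP63.wp_add_mem L z (-l) (L.lattice.neg_mem hl)
      rw [← sub_eq_add_neg] at this
      rw [this, hzn]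
  choose t ht1 ht2 ht3 using hz
  refine ⟨t, ht1, fun k => ⟨n k, ht2 k⟩, fun k l hkl => ?_⟩
  have hne : t k - t l ≠ 0 := by
    intro h0
    have h1 : t k = t l := sub_eq_zero.1 h0
    have h2 : ((n k : ℤ) : ℂ) = ((n l : ℤ) : ℂ) := by rw [← ht2 k, ← ht2 l, h1]
    have h3 : n k = n l := by exact_mod_cast h2
    rw [hn k, hn l] at h3
    apply hkl
    apply Fin.ext
    omega
  have hnorm : ‖t k - t l‖ < r / 4 := by
    have := norm_sub_le (t k) (t l)
    have h1 := ht3 k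
    have h2 := ht3 l
    linarith
  refine ⟨fun hmem => ?_, fun hmem => ?_⟩
  · have := hmin _ hmem hne
    linarith
  · have h2 : 2 * (t k - t l) ≠ 0 := mul_ne_zero two_ne_zero hne
    have := hmin _ hmem h2
    rw [norm_mul, Complex.norm_ofNat] at this
    linarith

end ELT
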